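import Pool.Agent.Lib.ANT.SiegelWalfisz
import Pool.Agent.Work.MP_52820d_nt.BV
import Pool.Agent.Work.MP_52820d_nt.Core

-- merged part: Pool.Agent.Work.MP_d018b2_nt.DSW
section
/-!
# Siegel–Walfisz and Bombieri–Vinogradov type bounds for arbitrary conductors
-/

noncomputable section

open Finset Complex Filter Topology ArithmeticFunction

namespace Pool.Agent.Work.MP_d018b2_nt

open Pool.Agent.Lib.ANT Pool.Agent.Work.MP_52820d_nt

lemma one_add_pow_of_sq {R : Type*} [CommRing R] {e : R} (he : e * e = 0) (n : ℕ) :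
    (1 + e) ^ n = 1 + n * e := by
  induction n with
  | zero => simp
  | succ n ih => rw [pow_succ, ih]; push_cast; linear_combination (n : R) * he

lemma not_primitive_of_sq {f g : ℕ} [NeZero f] {χ : DirichletCharacter ℂ f} (h2 : χ ^ 2 = 1)
    (hg : g ∣ f) (hlt : g < f) (hg0 : 0 < g)
    (h : ∀ t : ZMod f, IsUnit (1 + (g : ZMod f) * t) → ∃ y : ZMod f, 1 + g * t = y * y) :
    ¬ χ.IsPrimitive := by
  intro hχ
  have hft : χ.FactorsThrough g := by
    rw [DirichletCharacter.factorsThrough_iff_ker_unitsMap hg]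
    intro x hx
    rw [MonoidHom.mem_ker, Units.ext_iff, ZMod.unitsMap_val, Units.val_one] at hx
    have h1 : (((x : ZMod f).val : ℕ) : ZMod g) = ((1 : ℕ) : ZMod g) := by
      rw [ZMod.natCast_val, hx, Nat.cast_one]
    rw [ZMod.natCast_eq_natCast_iff] at h1
    obtain ⟨t, ht⟩ := (Nat.modEq_iff_dvd.1 h1.symm)
    have h3 : (x : ZMod f) = 1 + g * (t : ZMod f) := by
      have := congrArg (fun z : ℤ => (z : ZMod f)) ht
      simp only [Int.cast_sub, Int.cast_natCast, Int.cast_mul, ZMod.natCast_zmod_val,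
        Nat.cast_one, Int.cast_one] at this
      linear_combination this
    obtain ⟨y, hy⟩ := h t (h3 ▸ x.isUnit)
    have hyu : IsUnit y := isUnit_of_mul_isUnit_left (hy ▸ h3 ▸ x.isUnit)
    rw [MonoidHom.mem_ker, Units.ext_iff, MulChar.coe_toUnitHom, Units.val_one, h3, hy, map_mul,
      ← sq, ← MulChar.pow_apply' χ two_ne_zero, h2, MulChar.one_apply hyu]
  have h4 : χ.conductor ≤ g := Nat.sInf_le hft
  rw [DirichletCharacter.isPrimitive_def] at hχ
  omega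

lemma quad_conductor_dvd {f y : ℕ} [NeZero f] {χ : DirichletCharacter ℂ f} (h2 : χ ^ 2 = 1)
    (hχ : χ.IsPrimitive) (hy : ∀ p ∈ f.primeFactors, p ≤ y) : f ∣ 8 * primorial y := by
  have hf : f ≠ 0 := NeZero.ne f
  rw [Nat.dvd_iff_prime_pow_dvd_dvd]
  intro p k hp hk
  rcases hp.eq_two_or_odd' with rfl | hodd
  · have : k ≤ 3 := by
      by_contra hcon
      obtain ⟨c, hc⟩ := (pow_dvd_pow 2 (by omega : 4 ≤ k)).trans hk
      have hc0 : 0 < c := Nat.pos_of_ne_zero (by rintro rfl; simp [hc] at hf)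
      refine not_primitive_of_sq h2 (g := 8 * c) ⟨2, by omega⟩ (by omega) (by omega)
        (fun t _ => ⟨1 + 4 * c * t, ?_⟩) hχ
      have h0 : ((2 ^ 4 * c : ℕ) : ZMod f) = 0 := by rw [← hc]; simp
      push_cast at h0 ⊢
      linear_combination (-(c : ZMod f) * t * t) * h0
    exact (pow_dvd_pow 2 this).trans (dvd_mul_right _ _)
  · have : k ≤ 1 := by
      by_contra hcon
      obtain ⟨c, hc⟩ := (pow_dvd_pow p (by omega : 2 ≤ k)).trans hk
      have hc0 : 0 < c := Nat.pos_of_ne_zero (by rintro rfl; simp [hc] at hf)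
      have hp1 := hp.one_lt
      refine not_primitive_of_sq h2 (g := p * c) ⟨p, by rw [hc]; ring⟩
        (by clear * - p c f hc hp1 hc0 hp; rw [hc]; nlinarith only [hc, hp1, hc0, Nat.mul_pos hp.pos hc0]) (Nat.mul_pos hp.pos hc0)
        (fun t _ => ?_) hχ
      have h0 : ((p ^ 2 * c : ℕ) : ZMod f) = 0 := by rw [← hc]; simp
      obtain ⟨m, hm⟩ := hodd
      refine ⟨(1 + ((p * c : ℕ) : ZMod f) * t) ^ (m + 1), ?_⟩
      have he : (((p * c : ℕ) : ZMod f) * t) * (((p * c : ℕ) : ZMod f) * t) = 0 := by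
        push_cast at h0 ⊢
        linear_combination ((c : ZMod f) * t * t) * h0
      rw [← pow_add, show m + 1 + (m + 1) = p + 1 by omega, one_add_pow_of_sq he]
      push_cast at h0 ⊢
      linear_combination (-t) * h0
    interval_cases k
    · simp
    · rw [pow_one] at hk ⊢
      exact (hp.dvd_primorial_iff.2 (hy p (Nat.mem_primeFactors.2 ⟨hp, hk, hf⟩))).mul_left _

/-- Siegel–Walfisz with the exceptional conductor removed, for all conductors. -/
theorem weak_sw (y₀ : ℕ) : ∀ᶠ Q : ℕ in atTop, ∃ p₁ : ℕ, p₁.Prime ∧ y₀ < p₁ ∧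
    ∀ f : ℕ, 1 < f → f ≤ Q → ¬ p₁ ∣ f → ∀ χ : DirichletCharacter ℂ f,
      χ.IsPrimitive → ∀ X : ℕ, Real.log Q ^ 26 ≤ Real.log X → Real.log X ≤ Q →
        ‖∑ n ∈ range (X + 1), χ n * vonMangoldt n‖ ≤ X / Q ^ 3 := by
  set c : ℝ := Real.exp 73 * 225 with hc
  have hc0 : 0 < c := by positivity
  have hlog : Tendsto (fun Q : ℕ => Real.log Q) atTop atTop :=
    Real.tendsto_log_atTop.comp tendsto_natCast_atTop_atTop
  have e1 : ∀ᶠ Q : ℕ in atTop, (c * Real.log Q ^ 2) ^ 13 ≤ Q := by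
    have := (Real.isLittleO_pow_log_id_atTop (n := 26)).bound (c := 1 / c ^ 13) (by positivity)
    filter_upwards [tendsto_natCast_atTop_atTop.eventually this] with Q hQ
    simp only [Real.norm_eq_abs, id, Nat.abs_cast] at hQ
    have := (le_abs_self _).trans hQ
    calc _ = c ^ 13 * Real.log Q ^ 26 := by ring
      _ ≤ c ^ 13 * (1 / c ^ 13 * Q) := by gcongr
      _ = _ := by field_simp
  have e2 : ∀ᶠ Q : ℕ in atTop, 23 * (c * Real.log Q ^ 2) ^ 12 ≤ Real.log Q ^ 25 := by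
    filter_upwards [hlog.eventually_ge_atTop (23 * c ^ 12), hlog.eventually_ge_atTop 0] with Q h1 h2
    calc _ = 23 * c ^ 12 * Real.log Q ^ 24 := by ring
      _ ≤ Real.log Q * Real.log Q ^ 24 := by gcongr
      _ = _ := by ring
  have e3 : ∀ᶠ Q : ℕ in atTop, ∀ f ∈ range (8 * primorial y₀),
      ∀ χ : DirichletCharacter ℂ (f + 1),
      χ ≠ 1 → 1 / (20 * (c * Real.log Q ^ 2) ^ 2) ≤ ‖χ.LFunction 1‖ := by
    rw [eventually_all_finset]
    intro f _
    rw [eventually_all]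
    intro χ
    by_cases hχ : χ = 1
    · simp [hχ]
    · have h0 : 0 < ‖χ.LFunction 1‖ := norm_pos_iff.2 (χ.LFunction_apply_one_ne_zero hχ)
      have h1 : Tendsto (fun Q : ℕ => 1 / (20 * (c * Real.log Q ^ 2) ^ 2)) atTop (𝓝 0) := by
        refine tendsto_const_nhds.div_atTop (Tendsto.const_mul_atTop (by norm_num) ?_)
        exact (tendsto_pow_atTop two_ne_zero).comp
          (Tendsto.const_mul_atTop hc0 ((tendsto_pow_atTop two_ne_zero).comp hlog))
      filter_upwards [h1.eventually_le_const h0] with Q hQ _ using hQ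
  filter_upwards [e1, e2, e3, eventually_ge_atTop 20] with Q h1 h2 h3 hQ
  set M : ℝ := c * Real.log Q ^ 2 with hM
  have hM' : M = Real.exp 73 * (15 * Real.log Q) ^ 2 := by rw [hM, hc]; ring
  have hne : ∀ f : ℕ, 1 < f → ∀ χ : DirichletCharacter ℂ f, χ.IsPrimitive → χ ≠ 1 :=
    fun f hf χ hχ => ne_one_of_isPrimitive hf hχ
  by_cases hex : ∃ f : ℕ, 0 < f ∧ f + 1 ≤ Q ∧
      ∃ χ : DirichletCharacter ℂ (f + 1), χ.IsPrimitive ∧ χ ^ 2 = 1 ∧
        ‖χ.LFunction 1‖ < 1 / (20 * M ^ 2)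
  · obtain ⟨f₁, a0, a1, χ₁, a3, a4, a5⟩ := hex
    have b0 : ∃ p ∈ (f₁ + 1).primeFactors, y₀ < p := by
      by_contra hcon
      push Not at hcon
      have : f₁ + 1 ≤ 8 * primorial y₀ :=
        Nat.le_of_dvd (by have := primorial_pos y₀; omega) (quad_conductor_dvd a4 a3 hcon)
      exact a5.not_ge (h3 f₁ (mem_range.2 this) χ₁ (hne _ (by omega) _ a3))
    obtain ⟨p, hp, hp'⟩ := b0
    refine ⟨p, Nat.prime_of_mem_primeFactors hp, hp', fun f hf1 hf2 hf4 χ hχ X hX1 hX2 => ?_⟩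
    have : NeZero f := ⟨by omega⟩
    refine psi_char_le (hne f hf1 χ hχ) hQ hf2 hM' h1 h2 (fun hq => ?_) hX1 hX2
    have hQ' : (20 : ℝ) ≤ Q := by exact_mod_cast hQ
    have hl : 1 ≤ Real.log Q := by
      rw [Real.le_log_iff_exp_le (by linarith only [hQ'])]; linarith only [hQ', Real.exp_one_lt_d9]
    have hN : Real.log ((Q ^ 15 : ℕ) : ℝ) = 15 * Real.log Q := by simp
    have he : 12 ≤ Real.exp 73 := by linarith only [Real.add_one_le_exp 73]
    refine (landau hχ a3 (hne f hf1 χ hχ) (hne _ (by omega) _ a3) hq a4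
      (fun h => hf4 (h ▸ Nat.dvd_of_mem_primeFactors hp)) (N := Q ^ 15) (by rw [hN]; linarith only [hl]) ?_
      (M := M) (by rw [hN, hM']; gcongr)).resolve_right a5.not_ge
    calc 6 * (f * (f₁ + 1)) ≤ Q * (Q * Q) := by gcongr; omega
      _ = Q ^ 3 := by ring
      _ ≤ Q ^ 15 := Nat.pow_le_pow_right (by omega) (by norm_num)
  · obtain ⟨p, hp, hp'⟩ := Nat.exists_infinite_primes (y₀ + 1)
    refine ⟨p, hp', hp, fun f hf1 hf2 _ χ hχ X hX1 hX2 => ?_⟩
    obtain ⟨f, rfl⟩ : ∃ g, f = g + 1 := ⟨f - 1, by omega⟩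
    refine psi_char_le (hne _ hf1 χ hχ) hQ hf2 hM' h1 h2 (fun hq => ?_) hX1 hX2
    by_contra hcon
    exact hex ⟨f, by omega, hf2, χ, hχ, hq, not_le.1 hcon⟩

/-- the saving factor -/
def sav' (p₁ f : ℕ) : ℝ := if ¬ p₁ ∣ f then (√(f : ℝ))⁻¹ else 0

lemma sav'_nonneg (p₁ f : ℕ) : 0 ≤ sav' p₁ f := by
  unfold sav'; split_ifs <;> positivity

lemma sav'_le_one (p₁ : ℕ) {f : ℕ} (hf : 1 ≤ f) : sav' p₁ f ≤ 1 := by
  unfold sav'; split_ifs
  · exact zero_le_one
  · exact inv_le_one_of_one_le₀ (Real.one_le_sqrt.2 (by exact_mod_cast hf))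

lemma sum_Ps_le' {X F Q p₁ : ℕ} (hF : F ^ 7 ≤ X) (hQ : 0 < Q)
    (hSW : ∀ f : ℕ, 1 < f → f ≤ Q → ¬ p₁ ∣ f → ∀ χ : DirichletCharacter ℂ f,
      χ.IsPrimitive → ‖∑ n ∈ range (X + 1), χ n * vonMangoldt n‖ ≤ X / Q ^ 3) :
    ∑ f ∈ Icc 2 F, Ps X f * sav' p₁ f ≤ X / Q + 70 * X * (1 + Real.log X) ^ 4 * (√(Q : ℝ))⁻¹ := by
  classical
  have hQ' : (0 : ℝ) < Q := by exact_mod_cast hQ
  rw [← sum_filter_add_sum_filter_not _ (· ≤ Q)]
  refine add_le_add ?_ ?_
  · calc _ ≤ ∑ f ∈ Icc 2 F with f ≤ Q, (Q : ℝ) * (X / Q ^ 3) := by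
          refine sum_le_sum fun f hf => ?_
          simp only [mem_filter, mem_Icc] at hf
          by_cases h : p₁ ∣ f
          · rw [sav', if_neg (not_not.2 h), mul_zero]; positivity
          · refine (mul_le_of_le_one_right (Ps_nonneg _ _) (sav'_le_one _ (by omega))).trans ?_
            refine (sum_le_card_nsmul _ _ _ fun χ hχ =>
              hSW f hf.1.1 hf.2 h χ (mem_filter.1 hχ).2).trans ?_
            rw [nsmul_eq_mul]
            gcongr
            exact (card_primitive_le f (by omega)).trans hf.2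
      _ ≤ Q * ((Q : ℝ) * (X / Q ^ 3)) := by
          rw [sum_const, nsmul_eq_mul]
          gcongr
          refine (card_le_card (t := Icc 1 Q) fun f hf => ?_).trans (by simp)
          simp only [mem_filter, mem_Icc] at hf ⊢; omega
      _ = _ := by field_simp
  · calc _ ≤ ∑ f ∈ Icc 2 F with ¬ f ≤ Q, Ps X f * (√(Q : ℝ))⁻¹ := by
          refine sum_le_sum fun f hf => mul_le_mul_of_nonneg_left ?_ (Ps_nonneg _ _)
          unfold sav'
          split_ifs
          · positivity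
          · exact inv_anti₀ (Real.sqrt_pos.2 hQ') (Real.sqrt_le_sqrt
              (by exact_mod_cast (not_le.1 (mem_filter.1 hf).2).le))
      _ ≤ ∑ f ∈ Icc 2 F, Ps X f * (√(Q : ℝ))⁻¹ := sum_le_sum_of_subset_of_nonneg
          (filter_subset _ _) fun _ _ _ => mul_nonneg (Ps_nonneg _ _) (by positivity)
      _ ≤ _ := by
          rw [← sum_mul]
          exact mul_le_mul_of_nonneg_right (mean_value F X hF) (by positivity)

lemma bv2 {a b F Q p₁ : ℕ} (hab : a ≤ b) (hb : 1 ≤ b) (hF : F ^ 7 ≤ a) (hQ : 0 < Q)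
    (hSW : ∀ f : ℕ, 1 < f → f ≤ Q → ¬ p₁ ∣ f → ∀ χ : DirichletCharacter ℂ f,
      χ.IsPrimitive → ∀ X : ℕ, Real.log Q ^ 26 ≤ Real.log X → Real.log X ≤ Q →
        ‖∑ n ∈ range (X + 1), χ n * vonMangoldt n‖ ≤ X / Q ^ 3)
    (h1 : Real.log Q ^ 26 ≤ Real.log a) (h2 : Real.log b ≤ Q) :
    ∑ f ∈ Icc 2 F, Psi a b f * sav' p₁ f ≤ 2 * b / Q
      + 140 * b * (1 + Real.log b) ^ 4 * (√(Q : ℝ))⁻¹ + F ^ 2 * (2 * √b * Real.log b) := by
  have hl : Real.log a ≤ Real.log b := Lib.LargeSieve.log_nat_mono hab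
  have hl0 := Real.log_natCast_nonneg a
  have hab' : (a : ℝ) ≤ b := by exact_mod_cast hab
  have a1 := sum_Ps_le' hF hQ fun f b1 b2 b4 χ b5 => hSW f b1 b2 b4 χ b5 a h1 (hl.trans h2)
  have a2 := sum_Ps_le' (hF.trans hab) hQ fun f b1 b2 b4 χ b5 =>
    hSW f b1 b2 b4 χ b5 b (h1.trans hl) h2
  have a3 : (a : ℝ) / Q + 70 * a * (1 + Real.log a) ^ 4 * (√(Q : ℝ))⁻¹
      ≤ b / Q + 70 * b * (1 + Real.log b) ^ 4 * (√(Q : ℝ))⁻¹ := by clear * - a Q b hab' hQ hl hb; gcongr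
  have h0 : 0 ≤ 2 * √b * Real.log b := by have := Real.log_natCast_nonneg b; positivity
  have a4 : ∑ f ∈ Icc 2 F, f * (2 * √b * Real.log b) * sav' p₁ f
      ≤ F ^ 2 * (2 * √b * Real.log b) := by
    clear * - F b p₁ hb a Q
    refine (sum_le_card_nsmul _ _ (F * (2 * √b * Real.log b)) fun f hf => ?_).trans ?_
    · rw [mem_Icc] at hf
      exact (mul_le_of_le_one_right (by positivity) (sav'_le_one _ (by omega))).trans
        (by gcongr; exact hf.2)
    · rw [nsmul_eq_mul, sq, mul_assoc (F : ℝ)]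
      exact mul_le_mul_of_nonneg_right (by simp) (by positivity)
  calc _ ≤ ∑ f ∈ Icc 2 F, (Ps a f + Ps b f + f * (2 * √b * Real.log b)) * sav' p₁ f :=
        sum_le_sum fun f hf => mul_le_mul_of_nonneg_right
          (Psi_le hab hb (by have := (mem_Icc.1 hf).1; omega)) (sav'_nonneg _ _)
    _ ≤ _ := by
        clear * - F a b p₁ Q a1 a2 a3 a4
        simp_rw [add_mul, sum_add_distrib]
        have : 2 * (b : ℝ) / Q = b / Q + b / Q := by ring
        linarith only [a1, a2, a3, a4, this]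

end Pool.Agent.Work.MP_d018b2_nt
end
end

-- merged part: Pool.Agent.Work.MP_d018b2_nt.DPrime
section
/-!
# The sieve sum over the integers `q` with `A q + 1` prime
-/

noncomputable section

open Finset

namespace Pool.Agent.Work.MP_d018b2_nt

open Pool.Agent.Lib.ANT Pool.Agent.Work.MP_52820d_nt

lemma gcd_prod_dvd {β : Type*} (s : Finset β) (f : ℕ) (c : β → ℕ) :
    Nat.gcd f (∏ p ∈ s, c p) ∣ ∏ p ∈ s, Nat.gcd f (c p) := by
  classical
  induction s using Finset.induction_on with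
  | empty => simp
  | insert p s hp ih =>
    rw [prod_insert hp, prod_insert hp]
    exact (gcd_mul_dvd_mul_gcd (α := ℕ) _ _ _).trans (Nat.mul_dvd_mul_left _ ih)

variable {α ι : Type*} [Fintype α] [DecidableEq α] [Fintype ι] [DecidableEq ι] {pr : α → ℕ}

omit [DecidableEq ι] in
lemma sum_dvd_le' (hpr : ∀ p, (pr p).Prime) (hinj : Function.Injective pr) {W p₁ : ℕ}
    (hW0 : 0 < W) (hW : ∀ p, ¬ pr p ∣ W) {k : ℕ} (hk : Fintype.card ι ≤ k)
    (hbig : ∀ p, (10 * k) ^ 2 ≤ pr p) (hp₁ : p₁.Prime) (hp₁W : ¬ p₁ ∣ W) (hp₁α : ∀ p, pr p ≠ p₁)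
    (f : ℕ) (hf : 0 < f) :
    ∑ d : α → Option ι with f ∣ W * barO pr d, ∏ p, (if (d p).isSome then 10 * (pr p : ℝ)⁻¹ else 1)
      ≤ (∏ p, (1 + (pr p : ℝ)⁻¹)) ^ (10 * k) * (W * sav' p₁ f) := by
  have hk' : (Fintype.card ι : ℝ) ≤ k := by exact_mod_cast hk
  have hdvd : ∀ (d : α → Option ι) q, q.Prime → q ∣ barO pr d → ∃ p, (d p).isSome ∧ pr p = q := by
    intro d q hq h
    obtain ⟨p, -, hp⟩ := (Prime.dvd_finsetProd_iff hq.prime _).1 h
    split_ifs at hp with h'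
    · exact ⟨p, h', ((Nat.prime_dvd_prime_iff_eq hq (hpr p)).1 hp).symm⟩
    · exact absurd (Nat.dvd_one.1 hp) hq.ne_one
  by_cases hex : ∃ d : α → Option ι, f ∣ W * barO pr d
  · obtain ⟨d₀, hd₀⟩ := hex
    have h1 : ¬ p₁ ∣ f := fun h => by
      rcases (Nat.Prime.dvd_mul hp₁).1 (h.trans hd₀) with h3 | h3
      · exact hp₁W h3
      · obtain ⟨p, -, hp⟩ := hdvd d₀ _ hp₁ h3
        exact hp₁α p hp
    have h2 : f ≤ W * ∏ p with pr p ∣ f, pr p := by
      refine Nat.le_of_dvd (Nat.mul_pos hW0 (prod_pos fun p _ => (hpr p).pos)) ?_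
      have a1 : f ∣ Nat.gcd f W * Nat.gcd f (barO pr d₀) :=
        (Nat.dvd_gcd dvd_rfl hd₀).trans (gcd_mul_dvd_mul_gcd (α := ℕ) _ _ _)
      refine a1.trans (Nat.mul_dvd_mul (Nat.gcd_dvd_right _ _) ((gcd_prod_dvd _ _ _).trans ?_))
      rw [prod_filter]
      refine prod_dvd_prod_of_dvd _ _ fun p _ => ?_
      split_ifs with b1 b2 b2
      · exact Nat.gcd_dvd_right _ _
      · rw [Nat.Coprime.gcd_eq_one ((Nat.Prime.coprime_iff_not_dvd (hpr p)).2 b2).symm]
      · simp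
      · simp
    have h3 : ∏ p with pr p ∣ f, 10 * k * (pr p : ℝ)⁻¹ ≤ W * sav' p₁ f := by
      clear * - α pr f k W p₁ h1 hW0 hf h2 hbig hpr
      rw [sav', if_pos h1]
      have hW1 : (1 : ℝ) ≤ W := by exact_mod_cast hW0
      have hf' : (0 : ℝ) < f := by exact_mod_cast hf
      have h2' : (f : ℝ) ≤ W * ∏ p with pr p ∣ f, (pr p : ℝ) := by exact_mod_cast h2
      have b1 : (∏ p with pr p ∣ f, 10 * k * (pr p : ℝ)⁻¹) ^ 2 * ∏ p with pr p ∣ f, (pr p : ℝ)
          ≤ 1 := by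
        rw [← prod_pow, ← prod_mul_distrib]
        refine prod_le_one (fun _ _ => by positivity) fun p _ => ?_
        have c1 : ((10 * k : ℝ)) ^ 2 ≤ pr p := by exact_mod_cast hbig p
        have c2 : (0 : ℝ) < pr p := by exact_mod_cast (hpr p).pos
        calc _ = (10 * k : ℝ) ^ 2 / pr p := by field_simp
          _ ≤ 1 := by rwa [div_le_one c2]
      have b0 : 0 ≤ ∏ p with pr p ∣ f, 10 * k * (pr p : ℝ)⁻¹ := prod_nonneg fun _ _ => by positivity
      generalize ∏ p with pr p ∣ f, 10 * k * (pr p : ℝ)⁻¹ = t at *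
      generalize ∏ p with pr p ∣ f, (pr p : ℝ) = P at *
      rw [← div_eq_mul_inv, le_div_iff₀ (Real.sqrt_pos.2 hf')]
      refine (pow_le_pow_iff_left₀ (by positivity) (by linarith only [hW1]) two_ne_zero).1 ?_
      rw [mul_pow, Real.sq_sqrt hf'.le]
      nlinarith only [h2', hW1, b1, sq_nonneg t, mul_le_mul_of_nonneg_left h2' (sq_nonneg t)]
    calc _ ≤ ∑ d : α → Option ι, ∏ p,
          (if (d p).isSome then 10 * (pr p : ℝ)⁻¹ else if pr p ∣ f then 0 else 1) := by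
          refine le_trans (le_of_eq (sum_congr rfl fun d hd => prod_congr rfl fun p _ => ?_))
            (sum_le_sum_of_subset_of_nonneg (filter_subset _ _) fun d _ _ =>
              prod_nonneg fun _ _ => by split_ifs <;> positivity)
          split_ifs with h1 h2
          · rfl
          · rcases (Nat.Prime.dvd_mul (hpr p)).1 (h2.trans (mem_filter.1 hd).2) with h3 | h3
            · exact absurd h3 (hW p)
            · obtain ⟨p', h4, h5⟩ := hdvd d _ (hpr p) h3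
              exact absurd (hinj h5 ▸ h4) h1
          · rfl
      _ ≤ (∏ p, (1 + ((10 * k : ℕ) : ℝ) * (pr p : ℝ)⁻¹)) *
          ∏ p with pr p ∣ f, 10 * k * (pr p : ℝ)⁻¹ := by
          clear * - α ι pr f k hk' h1 h2
          rw [sum_prod_isSome, prod_filter, ← prod_mul_distrib]
          refine prod_le_prod (fun _ _ => by split_ifs <;> positivity) fun p _ => ?_
          have h0 : (0 : ℝ) ≤ (pr p : ℝ)⁻¹ := by positivity
          have h1 : (Fintype.card ι : ℝ) * (10 * (pr p : ℝ)⁻¹) ≤ 10 * k * (pr p : ℝ)⁻¹ := by nlinarith only [hk', h0]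
          have h2 : 0 ≤ 10 * k * (pr p : ℝ)⁻¹ := by positivity
          push_cast
          split_ifs <;> nlinarith only [h1, h2]
      _ ≤ _ := mul_le_mul (prod_one_add_mul_le _) h3 (prod_nonneg fun _ _ => by positivity)
          (pow_nonneg (prod_nonneg fun _ _ => by positivity) _)
  · push Not at hex
    rw [filter_false_of_mem fun d _ => hex d, sum_empty]
    have := sav'_nonneg p₁ f
    have : 0 ≤ ∏ p, (1 + (pr p : ℝ)⁻¹) := prod_nonneg fun _ _ => by positivity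
    positivity

/-- sieve sum over the multiples `q` of `W` with `A q + 1` prime -/
lemma le_sum_prime' (hpr : ∀ p, (pr p).Prime) (hinj : Function.Injective pr) {W A p₁ : ℕ}
    (hW0 : 0 < W) (hA0 : 0 < A) (hW : ∀ p, ¬ pr p ∣ A * W) (B : ι → ℕ) (hB0 : ∀ i p, ¬ pr p ∣ B i)
    (hB : ∀ n p i j, pr p ∣ B i * n + 1 → pr p ∣ B j * n + 1 → i = j)
    (hBA : ∀ n p i, pr p ∣ B i * n + 1 → ¬ pr p ∣ A * n + 1) (x : ℕ)
    (Y : (ι → α → Bool) → ℝ) {Ym : ℝ} (hY : ∀ T, |Y T| ≤ Ym) (R : ℕ)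
    (hR : ∀ T, Y T ≠ 0 → ∏ i, bar pr (T i) ≤ R) {F : ℕ} (hF : A * W * R ^ 2 ≤ F)
    (hFx : F ≤ A * x + 1) {k : ℕ} (hk : Fintype.card ι ≤ k)
    (hbig : ∀ p, (10 * k) ^ 2 ≤ pr p) (hp₁ : p₁.Prime) (hp₁W : ¬ p₁ ∣ A * W)
    (hp₁α : ∀ p, pr p ≠ p₁)
    {ε : ℝ} (hε : 4 ^ Fintype.card ι * (6 * Fintype.card ι + 3) * ∑ p, ((pr p : ℝ)⁻¹) ^ 2 ≤ ε)
    (hε1 : ε ≤ 1) :
    (∑ n ∈ Ioc (A * x + 1) (A * (x + x) + 1), th n) / (A * W).totient *
        (∑ T, Y T ^ 2 * ∏ i, ((bar pr (T i) : ℕ) : ℝ)⁻¹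
          - Ym ^ 2 * (∏ p, (1 + (pr p : ℝ)⁻¹)) ^ Fintype.card ι * (2 * ε))
      - Ym ^ 2 * (∏ p, (1 + (pr p : ℝ)⁻¹)) ^ (12 * k) * ((A * W : ℕ) *
          ∑ f ∈ Icc 2 F, Psi (A * x + 1) (A * (x + x) + 1) f * sav' p₁ f) / (A * W).totient
      ≤ ∑ n ∈ Ioc x (x + x) with n ≡ 0 [MOD W],
        th (A * n + 1) * sieveFn pr Y (fun i p => decide (pr p ∣ B i * n + 1)) ^ 2 := by
  have hAW0 : 0 < A * W := Nat.mul_pos hA0 hW0
  have hφ : (0 : ℝ) < (A * W).totient := by exact_mod_cast Nat.totient_pos.2 hAW0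
  have hp2 : ∀ p, (2 : ℝ) ≤ pr p := fun p => by exact_mod_cast (hpr p).two_le
  have hW' : ∀ p, ¬ pr p ∣ W := fun p h => hW p (h.mul_left _)
  have hinv : ∀ p, ((pr p : ℝ) - 1)⁻¹ ≤ 2 * (pr p : ℝ)⁻¹ := fun p => by
    clear * - pr p hp2
    have := hp2 p
    rw [← div_eq_mul_inv, ← one_div, div_le_div_iff₀ (by linarith) (by linarith)]; linarith
  set a := A * x + 1 with ha
  set b := A * (x + x) + 1 with hb
  set M := (∑ n ∈ Ioc a b, th n) / (A * W).totient with hM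
  have hM0 : 0 ≤ M := div_nonneg (sum_nonneg fun n _ => th_nonneg n) hφ.le
  set V := ∏ p, (1 + (pr p : ℝ)⁻¹) with hV
  have hV1 : 1 ≤ V := one_le_prod fun p _ => le_add_of_nonneg_right (by positivity)
  have H := multi_sieve pr (fun p => (hpr p).two_le) ((Ioc x (x + x)).filter (· ≡ 0 [MOD W]))
    (fun n => th (A * n + 1)) (fun n i p => decide (pr p ∣ B i * n + 1))
    (fun n _ p i j h h' => hB n p i j (by simpa using h) (by simpa using h'))
    (fun p => ((pr p : ℝ) - 1)⁻¹) (fun p => ?_) Y hY R hR M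
    (fun d => (∑ f ∈ (A * W * barO pr d).divisors with 1 < f, Psi a b f)
      / (A * W * barO pr d).totient) (fun d hd => ?_) hε hε1
  · rw [abs_of_nonneg hM0] at H
    have h1 : ∑ d : α → Option ι with barO pr d ≤ R ^ 2, (∏ p, if (d p).isSome then 5 else 1 : ℝ) *
        ((∑ f ∈ (A * W * barO pr d).divisors with 1 < f, Psi a b f)
          / (A * W * barO pr d).totient)
        ≤ V ^ (10 * k) * ((A * W : ℕ) * ∑ f ∈ Icc 2 F, Psi a b f * sav' p₁ f)
          / (A * W).totient := by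
      clear * - α ι pr R A W a b F V k p₁ B hpr hinj hW hB0 hF hp2 hinv hA0 hW0 hφ hAW0 hk hbig
        hp₁ hp₁W hp₁α x hV
      calc _ ≤ ∑ d : α → Option ι, (∑ f ∈ Icc 2 F with f ∣ A * W * barO pr d,
            Psi a b f * ∏ p, (if (d p).isSome then 10 * (pr p : ℝ)⁻¹ else 1))
            / (A * W).totient := by
            refine le_trans (sum_le_sum fun d hd => ?_) (sum_le_sum_of_subset_of_nonneg
              (filter_subset (fun d => barO pr d ≤ R ^ 2) _) fun d _ _ => div_nonneg (sum_nonneg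
                fun f _ => mul_nonneg (Psi_nonneg _ _ _) (prod_nonneg fun _ _ => by
                  split_ifs <;> positivity)) hφ.le)
            rw [(exists_class hpr hinj hW B (fun _ => 1) hB0 0 d).2,
              ← sum_mul, mul_comm ((A * W).totient : ℝ), ← div_div, ← mul_div_assoc, div_eq_mul_inv _
              (∏ p, _), ← prod_inv_distrib, mul_left_comm, ← prod_mul_distrib]
            gcongr with p
            · exact prod_nonneg fun p _ => mul_nonneg (by split_ifs <;> norm_num)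
                (inv_nonneg.2 (by have := hp2 p; split_ifs <;> linarith only [this]))
            · exact sum_nonneg fun _ _ => Psi_nonneg _ _ _
            · exact fun _ _ _ => Psi_nonneg _ _ _
            · intro f hf
              simp only [mem_filter, Nat.mem_divisors, mem_Icc] at hf hd ⊢
              exact ⟨⟨hf.2, (Nat.le_of_dvd (Nat.pos_of_ne_zero hf.1.2) hf.1.1).trans
                ((Nat.mul_le_mul_left _ hd.2).trans hF)⟩, hf.1.1⟩
            · exact fun p _ => mul_nonneg (by split_ifs <;> norm_num)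
                (inv_nonneg.2 (by have := hp2 p; split_ifs <;> linarith only [this]))
            · split_ifs
              · linarith only [hinv p]
              · simp
        _ ≤ _ := by
            rw [← sum_div, mul_sum, mul_sum]
            gcongr
            simp_rw [sum_filter]
            rw [sum_comm]
            refine sum_le_sum fun f hf => ?_
            rw [← sum_filter, ← mul_sum]
            refine (mul_le_mul_of_nonneg_left (sum_dvd_le' hpr hinj hAW0 hW hk hbig hp₁ hp₁W hp₁α f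
              (by have := (mem_Icc.1 hf).1; omega)) (Psi_nonneg _ _ _)).trans (le_of_eq ?_)
            rw [← hV]; ring
    have h2 : (V ^ Fintype.card ι) ^ 2 ≤ V ^ (2 * k) := by
      rw [← pow_mul]; exact pow_le_pow_right₀ hV1 (by omega)
    have h3 := mul_le_mul_of_nonneg_left (mul_le_mul h2 h1 (sum_nonneg fun d _ => mul_nonneg
      (prod_nonneg fun _ _ => by split_ifs <;> norm_num) (div_nonneg (sum_nonneg fun _ _ =>
        Psi_nonneg _ _ _) (Nat.cast_nonneg _))) (by positivity)) (sq_nonneg Ym)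
    have h4 := (neg_le_abs _).trans H
    have e : Ym ^ 2 * (V ^ (2 * k) * (V ^ (10 * k) *
        ((A * W : ℕ) * ∑ f ∈ Icc 2 F, Psi a b f * sav' p₁ f) / (A * W).totient))
        = Ym ^ 2 * V ^ (12 * k) *
          ((A * W : ℕ) * ∑ f ∈ Icc 2 F, Psi a b f * sav' p₁ f) / (A * W).totient := by ring
    rw [e] at h3
    clear * - M ι α Y pr Ym V ε k A W F a b p₁ x B R h3 h4
    linarith only [h3, h4]
  · have := hp2 p
    have h1 : ((pr p : ℝ) - 1)⁻¹ - (pr p : ℝ)⁻¹ = ((pr p : ℝ) - 1)⁻¹ * (pr p : ℝ)⁻¹ := by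
      clear * - pr p this
      have : (pr p : ℝ) - 1 ≠ 0 := by linarith
      field_simp; ring
    have h2 : 0 ≤ ((pr p : ℝ) - 1)⁻¹ := inv_nonneg.2 (by linarith only [this])
    rw [h1, abs_of_nonneg (by positivity), sq, ← mul_assoc]
    exact mul_le_mul_of_nonneg_right (hinv p) (by positivity)
  · obtain ⟨⟨c, hc⟩, -⟩ := exists_class hpr hinj hW' B (fun _ => 1) hB0 0 d
    have h2 := (exists_class hpr hinj hW B (fun _ => 1) hB0 0 d).2
    obtain ⟨a1, a2⟩ := (hc c).2 rfl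
    have hco : Nat.Coprime (A * c + 1) (A * W * barO pr d) := by
      refine Nat.Coprime.mul_right (Nat.Coprime.mul_right (by simp) ?_)
        (Nat.Coprime.prod_right fun p _ => ?_)
      · obtain ⟨t, rfl⟩ := Nat.modEq_zero_iff_dvd.1 a1
        rw [show A * (W * t) + 1 = W * (A * t) + 1 by ring]; simp
      · split_ifs with h'
        · obtain ⟨i, hi⟩ := Option.isSome_iff_exists.1 h'
          exact ((Nat.Prime.coprime_iff_not_dvd (hpr p)).2 (hBA c p i (a2 p i hi))).symm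
        · simp
    have h3 := th_AP (Nat.mul_pos hAW0 (barO_pos hpr d)) hco (a := a)
      (((Nat.mul_le_mul_left _ hd).trans hF).trans hFx) b
    refine le_of_eq_of_le (congrArg _ ?_) h3
    rw [filter_filter]
    simp only [decide_eq_true_eq, hc]
    congr 1
    · refine sum_nbij (fun n => A * n + 1) (fun n hn => ?_) (fun n _ m _ h => ?_)
        (fun m hm => ?_) fun _ _ => rfl
      · simp only [mem_filter, mem_Ioc] at hn ⊢
        refine ⟨⟨Nat.add_lt_add_right (Nat.mul_lt_mul_of_pos_left hn.1.1 hA0) 1,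
          Nat.add_le_add_right (Nat.mul_le_mul_left _ hn.1.2) 1⟩, ?_⟩
        rw [mul_assoc]
        exact (hn.2.mul_left' A).add_right 1
      · exact Nat.eq_of_mul_eq_mul_left hA0 (Nat.add_right_cancel h)
      · simp only [coe_filter, mem_Ioc, Set.mem_ofPred_eq, Set.mem_image] at hm ⊢
        obtain ⟨⟨m1, m2⟩, m3⟩ := hm
        obtain ⟨m, rfl⟩ : ∃ m', m = m' + 1 := ⟨m - 1, by omega⟩
        have m4 := m3.add_right_cancel' 1
        rw [mul_assoc] at m4
        have m5 : A ∣ m := by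
          have := (m4.of_mul_right _)
          exact (Nat.modEq_zero_iff_dvd.1 (this.trans (Nat.modEq_zero_iff_dvd.2 (dvd_mul_right _ _))))
        obtain ⟨n, rfl⟩ := m5
        refine ⟨n, ⟨⟨Nat.lt_of_mul_lt_mul_left (a := A) (by omega),
          Nat.le_of_mul_le_mul_left (by omega) hA0⟩, Nat.ModEq.mul_left_cancel' hA0.ne' m4⟩, rfl⟩
    · rw [h2, hM, ← div_div, div_eq_mul_inv _ (∏ p, _), ← prod_inv_distrib]
      exact congrArg _ (prod_congr rfl fun p _ => by split_ifs <;> simp)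

end Pool.Agent.Work.MP_d018b2_nt
end
end

-- merged part: Pool.Agent.Work.MP_d018b2_nt.DWeights
section
/-!
# Maynard weights with a Lipschitz cut-off, and their behaviour at one small prime
-/

noncomputable section

open Finset

namespace Pool.Agent.Work.MP_d018b2_nt

open Pool.Agent.Lib.ANT Pool.Agent.Work.MP_52820d_nt

/-- Lipschitz cut-off: `1` up to `ρ`, `0` from `2ρ` on -/
def cut (ρ t : ℝ) : ℝ := max 0 (min 1 (2 - t / ρ))

lemma cut_nonneg (ρ t : ℝ) : 0 ≤ cut ρ t := le_max_left _ _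

lemma cut_le_one (ρ t : ℝ) : cut ρ t ≤ 1 := max_le zero_le_one (min_le_left _ _)

lemma cut_eq_one {ρ t : ℝ} (hρ : 0 < ρ) (h : t ≤ ρ) : cut ρ t = 1 := by
  have : t / ρ ≤ 1 := (div_le_one hρ).2 h
  rw [cut, min_eq_left (by linarith), max_eq_right zero_le_one]

lemma lt_of_cut_ne {ρ t : ℝ} (hρ : 0 < ρ) (h : cut ρ t ≠ 0) : t < 2 * ρ := by
  by_contra hc
  have : 2 ≤ t / ρ := (le_div_iff₀ hρ).2 (not_lt.1 hc)
  exact h (max_eq_left ((min_le_right _ _).trans (by linarith)))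

lemma abs_cut_sub {ρ : ℝ} (hρ : 0 < ρ) (t : ℝ) {h : ℝ} (hh : 0 ≤ h) :
    |cut ρ (t + h) - cut ρ t| ≤ h / ρ := by
  have h0 : 0 ≤ h / ρ := by positivity
  unfold cut
  rw [add_div, abs_le]
  constructor <;> simp only [max_def, min_def] <;> split_ifs <;> linarith

variable {α ι : Type*} [Fintype α] [DecidableEq α] [Fintype ι] [DecidableEq ι] (pr : α → ℕ)

/-- the multidimensional weight with a Lipschitz cut-off -/
def YS (g : (α → Bool) → ℝ) (ρ : ℝ) (T : ι → α → Bool) : ℝ :=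
  (∏ i, g (T i)) * cut ρ (Real.log (∏ i, bar pr (T i) : ℕ))

variable {pr}

omit [DecidableEq α] [DecidableEq ι] in
lemma YS_nonneg {g : (α → Bool) → ℝ} (h0 : ∀ b, 0 ≤ g b) (ρ : ℝ) (T : ι → α → Bool) :
    0 ≤ YS pr g ρ T := mul_nonneg (prod_nonneg fun _ _ => h0 _) (cut_nonneg _ _)

omit [DecidableEq α] [DecidableEq ι] in
lemma YS_le {g : (α → Bool) → ℝ} (h0 : ∀ b, 0 ≤ g b) (ρ : ℝ) (T : ι → α → Bool) :
    YS pr g ρ T ≤ ∏ i, g (T i) :=
  mul_le_of_le_one_right (prod_nonneg fun _ _ => h0 _) (cut_le_one _ _)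

omit [Fintype α] [DecidableEq α] [DecidableEq ι] in
lemma prod_g_le {g : (α → Bool) → ℝ} (h0 : ∀ b, 0 ≤ g b) (h2 : ∀ b, g b ≤ 2)
    (T : ι → α → Bool) : ∏ i, g (T i) ≤ 2 ^ Fintype.card ι :=
  (prod_le_prod (fun _ _ => h0 _) fun _ _ => h2 _).trans (by simp)

omit [DecidableEq α] [DecidableEq ι] in
lemma abs_YS_le {g : (α → Bool) → ℝ} (h0 : ∀ b, 0 ≤ g b) (h2 : ∀ b, g b ≤ 2) (ρ : ℝ)
    (T : ι → α → Bool) : |YS pr g ρ T| ≤ 2 ^ Fintype.card ι := by
  rw [abs_of_nonneg (YS_nonneg h0 ρ T)]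
  exact (YS_le h0 ρ T).trans (prod_g_le h0 h2 T)

omit [DecidableEq α] [DecidableEq ι] in
lemma YS_supp (hpr : ∀ p, 2 ≤ pr p) {g : (α → Bool) → ℝ} {R : ℕ} (hR : 1 < R) (T : ι → α → Bool)
    (h : YS pr g (Real.log R) T ≠ 0) : ∏ i, bar pr (T i) ≤ R ^ 2 := by
  have h1 := lt_of_cut_ne (Real.log_pos (by exact_mod_cast hR)) (right_ne_zero_of_mul h)
  have h2 : 0 < ∏ i, bar pr (T i) := prod_pos fun i _ => bar_pos hpr _
  rw [show 2 * Real.log R = Real.log ((R ^ 2 : ℕ) : ℝ) by simp,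
    Real.log_lt_log_iff (by exact_mod_cast h2) (by positivity)] at h1
  exact_mod_cast h1.le

omit [DecidableEq α] [DecidableEq ι] in
lemma YY_le_YS (hpr : ∀ p, 2 ≤ pr p) {g : (α → Bool) → ℝ} (h0 : ∀ b, 0 ≤ g b) {R : ℕ} (hR : 1 < R)
    (T : ι → α → Bool) : YY pr g R T ≤ YS pr g (Real.log R) T := by
  unfold YY
  split_ifs with h
  · have h2 : 0 < ∏ i, bar pr (T i) := prod_pos fun i _ => bar_pos hpr _
    rw [YS, cut_eq_one (Real.log_pos (by exact_mod_cast hR))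
      (Real.log_le_log (by exact_mod_cast h2) (by exact_mod_cast h))]
  · rw [mul_zero]; exact YS_nonneg h0 _ _

lemma sum_sq_le_of_le {g : (α → Bool) → ℝ} {Y : (ι → α → Bool) → ℝ} {θ : ℝ}
    (hY : ∀ T, |Y T| ≤ (∏ i, g (T i)) * θ) :
    ∑ T : ι → α → Bool, Y T ^ 2 * ∏ i, nu pr (T i)
      ≤ θ ^ 2 * (∑ b, g b ^ 2 * nu pr b) ^ Fintype.card ι := by
  rw [← card_univ, ← prod_const, Fintype.prod_sum fun (_ : ι) b => g b ^ 2 * nu pr b, mul_sum]
  refine sum_le_sum fun T _ => ?_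
  rw [prod_mul_distrib, prod_pow, ← mul_assoc, ← mul_pow, ← sq_abs (Y T), mul_comm θ]
  exact mul_le_mul_of_nonneg_right (pow_le_pow_left₀ (abs_nonneg _) (hY T) 2)
    (prod_nonneg fun _ _ => nu_nonneg _ _)

lemma sum_Ym_sq_mono {Y Y' : (ι → α → Bool) → ℝ} (h0 : ∀ T, 0 ≤ Y T) (h : ∀ T, Y T ≤ Y' T) (m : ι) :
    ∑ T, Ym pr Y m T ^ 2 * ∏ i, nu pr (T i) ≤ ∑ T, Ym pr Y' m T ^ 2 * ∏ i, nu pr (T i) :=
  sum_le_sum fun _ _ => mul_le_mul_of_nonneg_right (pow_le_pow_left₀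
    (sum_nonneg fun _ _ => mul_nonneg (h0 _) (nu_nonneg _ _))
    (sum_le_sum fun _ _ => mul_le_mul_of_nonneg_right (h _) (nu_nonneg _ _)) 2)
    (prod_nonneg fun _ _ => nu_nonneg _ _)

lemma abs_sieveFn_le {Y : (ι → α → Bool) → ℝ} {B : ℝ} (hpr : ∀ p, 2 ≤ pr p) (hY : ∀ T, |Y T| ≤ B)
    (D : ι → α → Bool) :
    |sieveFn pr Y D| ≤ B * ((∏ p, (1 + (pr p : ℝ)⁻¹)) ^ Fintype.card ι *
      ∏ i, 2 ^ #{p | D i p}) := by
  have hB : 0 ≤ B := (abs_nonneg _).trans (hY fun _ _ => false)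
  calc _ ≤ ∑ T : ι → α → Bool, B * ∏ i, ∏ p,
        |if T i p then ((pr p : ℝ)⁻¹ - if D i p then 1 else 0) else 1| := by
        refine (abs_sum_le_sum_abs _ _).trans (sum_le_sum fun T _ => ?_)
        rw [abs_mul, abs_prod]
        simp_rw [abs_prod]
        exact mul_le_mul_of_nonneg_right (hY T)
          (prod_nonneg fun _ _ => prod_nonneg fun _ _ => abs_nonneg _)
    _ = B * ∏ i, ∏ p, ∑ c : Bool, |if c then ((pr p : ℝ)⁻¹ - if D i p then 1 else 0) else 1| := by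
        rw [← mul_sum, ← Fintype.prod_sum fun i (b : α → Bool) => ∏ p,
          |if b p then ((pr p : ℝ)⁻¹ - if D i p then 1 else 0) else 1|]
        simp_rw [Fintype.prod_sum]
    _ ≤ _ := by
        clear * - B ι α pr D hpr hB
        refine mul_le_mul_of_nonneg_left ?_ hB
        rw [← card_univ, ← prod_const, ← prod_mul_distrib]
        refine prod_le_prod (fun _ _ => prod_nonneg fun _ _ => sum_nonneg fun _ _ => abs_nonneg _)
          fun i _ => ?_
        rw [← prod_const, prod_filter, ← prod_mul_distrib]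
        refine prod_le_prod (fun _ _ => sum_nonneg fun _ _ => abs_nonneg _) fun p _ => ?_
        have h0 : (0 : ℝ) ≤ (pr p : ℝ)⁻¹ := by positivity
        have h1 : (pr p : ℝ)⁻¹ ≤ 1 := inv_le_one_of_one_le₀ (by exact_mod_cast (by linarith only [hpr p]))
        simp only [Fintype.sum_bool, if_true, Bool.false_eq_true, if_false, abs_one]
        split_ifs
        · rw [abs_of_nonpos (by linarith)]; linarith
        · rw [sub_zero, abs_of_nonneg h0]; linarith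

/-- put back the prime `p₀` -/
def glue (p₀ : α) (s : Bool) (b : {p // p ≠ p₀} → Bool) : α → Bool :=
  (Equiv.funSplitAt p₀ Bool).symm (s, b)

omit [Fintype α] in
lemma glue_self (p₀ : α) (s : Bool) (b : {p // p ≠ p₀} → Bool) : glue p₀ s b p₀ = s := by
  simp [glue]

omit [Fintype α] in
lemma glue_val (p₀ : α) (s : Bool) (b : {p // p ≠ p₀} → Bool) (p : {p // p ≠ p₀}) :
    glue p₀ s b p = b p := by
  simp [glue, p.2]

lemma prod_glue {M : Type*} [CommMonoid M] (p₀ : α) (s : Bool) (b : {p // p ≠ p₀} → Bool)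
    (f : α → Bool → M) :
    ∏ p, f p (glue p₀ s b p) = f p₀ s * ∏ p : {p // p ≠ p₀}, f p (b p) := by
  rw [Fintype.prod_eq_mul_prod_subtype_ne _ p₀, glue_self]
  simp_rw [glue_val]

lemma sum_glue (p₀ : α) (F : (α → Bool) → ℝ) :
    ∑ b, F b = ∑ b : {p // p ≠ p₀} → Bool, ∑ s : Bool, F (glue p₀ s b) := by
  rw [← (Equiv.funSplitAt p₀ Bool).symm.sum_comp, Fintype.sum_prod_type, sum_comm]
  rfl

lemma sum_glue' (p₀ : α) (F : (ι → α → Bool) → ℝ) :
    ∑ T, F T = ∑ T : ι → {p // p ≠ p₀} → Bool, ∑ s : ι → Bool, F fun i => glue p₀ (s i) (T i) := by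
  rw [← ((Equiv.arrowProdEquivProdArrow ι (fun _ => Bool) (fun _ => {p // p ≠ p₀} → Bool)).symm.trans
    (Equiv.piCongrRight fun _ => (Equiv.funSplitAt p₀ Bool).symm)).sum_comp,
    Fintype.sum_prod_type, sum_comm]
  rfl

variable (pr) in
/-- the weight seen by the integers with prescribed behaviour at `p₀` -/
def Ysp (Y : (ι → α → Bool) → ℝ) (p₀ : α) (D₀ : ι → Bool) (T : ι → {p // p ≠ p₀} → Bool) : ℝ :=
  ∑ s : ι → Bool, Y (fun i => glue p₀ (s i) (T i)) *
    ∏ i, if s i then ((pr p₀ : ℝ)⁻¹ - if D₀ i then 1 else 0) else 1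

lemma sieveFn_Ysp (Y : (ι → α → Bool) → ℝ) (p₀ : α) (D : ι → α → Bool) :
    sieveFn pr Y D = sieveFn (fun p : {p // p ≠ p₀} => pr p) (Ysp pr Y p₀ fun i => D i p₀)
      (fun i p => D i p) := by
  rw [sieveFn, sieveFn, sum_glue' p₀]
  refine sum_congr rfl fun T _ => ?_
  rw [Ysp, sum_mul]
  refine sum_congr rfl fun s _ => ?_
  rw [mul_assoc, ← prod_mul_distrib]
  refine congrArg _ (prod_congr rfl fun i _ => ?_)
  exact prod_glue p₀ (s i) (T i)
    fun p c => if c then ((pr p : ℝ)⁻¹ - if D i p then 1 else 0) else 1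

lemma bar_glue (p₀ : α) (s : Bool) (b : {p // p ≠ p₀} → Bool) :
    bar pr (glue p₀ s b) = (if s then pr p₀ else 1) * bar (fun p : {p // p ≠ p₀} => pr p) b :=
  prod_glue p₀ s b fun p c => if c then pr p else 1

lemma Ysp_supp (hpr : ∀ p, 2 ≤ pr p) {Y : (ι → α → Bool) → ℝ} {R : ℕ}
    (hR : ∀ T, Y T ≠ 0 → ∏ i, bar pr (T i) ≤ R) (p₀ : α) (D₀ : ι → Bool)
    (T : ι → {p // p ≠ p₀} → Bool) (h : Ysp pr Y p₀ D₀ T ≠ 0) :
    ∏ i, bar (fun p : {p // p ≠ p₀} => pr p) (T i) ≤ R := by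
  obtain ⟨s, -, hs⟩ := exists_ne_zero_of_sum_ne_zero h
  refine le_trans (prod_le_prod' fun i _ => ?_) (hR _ (left_ne_zero_of_mul hs))
  rw [bar_glue]
  refine Nat.le_mul_of_pos_left _ ?_
  have := hpr p₀
  split_ifs <;> omega

lemma gg_glue {z : ℕ → ℕ} {J : ℕ} (p₀ : α) (hz : ∀ j < J, pr p₀ ≤ z j) (s : Bool)
    (b : {p // p ≠ p₀} → Bool) :
    gg pr z J (glue p₀ s b) = gg (fun p : {p // p ≠ p₀} => pr p) z J b := by
  refine sum_congr rfl fun j hj => congrArg _ (if_congr ⟨fun h p hp => ?_, fun h p hp => ?_⟩ rfl rfl)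
  · exact h p (by rwa [glue_val])
  · by_cases e : p = p₀
    · exact e ▸ hz j (mem_range.1 hj)
    · exact h ⟨p, e⟩ (by rwa [← glue_val p₀ s b ⟨p, e⟩])

lemma gam_sub_le {z : ℕ → ℕ} {J : ℕ} (p₀ : α) (hz : ∀ j < J, pr p₀ ≤ z j) :
    gam (fun p : {p // p ≠ p₀} => pr p) z J ≤ gam pr z J := by
  rw [gam, gam, sum_glue p₀]
  refine sum_le_sum fun b _ => ?_
  rw [Fintype.sum_bool, gg_glue p₀ hz, gg_glue p₀ hz]
  refine le_add_of_nonneg_of_le (mul_nonneg (sq_nonneg _) (nu_nonneg _ _)) (le_of_eq ?_)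
  simp [nu, bar_glue]

lemma abs_Ysp_le (hpr : ∀ p, 2 ≤ pr p) {z : ℕ → ℕ} {J : ℕ} (p₀ : α) (hz : ∀ j < J, pr p₀ ≤ z j)
    (hk : Fintype.card ι ≤ pr p₀) {ρ : ℝ} (hρ : 0 < ρ) (m : ι)
    (T : ι → {p // p ≠ p₀} → Bool) :
    |Ysp pr (YS pr (gg pr z J) ρ) p₀ (fun i => decide (i = m)) T|
      ≤ (∏ i, gg (fun p : {p // p ≠ p₀} => pr p) z J (T i)) *
        (12 * Real.log (pr p₀) / ρ + 3 / pr p₀) := by
  have hp2 : (2 : ℝ) ≤ pr p₀ := by exact_mod_cast hpr p₀
  have hk' : (Fintype.card ι : ℝ) ≤ pr p₀ := by exact_mod_cast hk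
  set r : ℝ := (pr p₀ : ℝ)⁻¹ with hr
  have hr0 : 0 ≤ r := by positivity
  have hr1 : r ≤ 1 := inv_le_one_of_one_le₀ (by linarith)
  have hkr : Fintype.card ι * r ≤ 1 := by rwa [hr, ← div_eq_mul_inv, div_le_one (by linarith)]
  have h3 : (1 + r) ^ Fintype.card ι ≤ 3 := by
    calc _ ≤ Real.exp r ^ Fintype.card ι := by gcongr; linarith [Real.add_one_le_exp r]
      _ = Real.exp (Fintype.card ι * r) := (Real.exp_nat_mul _ _).symm
      _ ≤ Real.exp 1 := Real.exp_le_exp.2 hkr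
      _ ≤ 3 := Real.exp_one_lt_three.le
  set c : ι → Bool → ℝ := fun i s => if s then (r - if i = m then 1 else 0) else 1 with hc
  set l : ℝ := Real.log (∏ i, bar (fun p : {p // p ≠ p₀} => pr p) (T i) : ℕ) with hl
  have hlp : 0 ≤ Real.log (pr p₀) := Real.log_natCast_nonneg _
  have e1 : ∀ s : ι → Bool, Real.log (∏ i, bar pr (glue p₀ (s i) (T i)) : ℕ)
      = l + ∑ i, if s i then Real.log (pr p₀) else 0 := fun s => by
    clear * - ι α pr p₀ s T l hpr hl hp2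
    simp_rw [bar_glue]
    have : ∀ i, 0 < bar (fun p : {p // p ≠ p₀} => pr p) (T i) := fun i =>
      bar_pos (pr := fun p : {p // p ≠ p₀} => pr p) (fun p => hpr p) _
    rw [prod_mul_distrib, Nat.cast_mul, Real.log_mul, add_comm, ← hl, Nat.cast_prod, Real.log_prod]
    · exact congrArg _ (sum_congr rfl fun i _ => by split_ifs <;> simp)
    · intro i _; split_ifs <;> positivity
    · exact_mod_cast (prod_pos fun i _ => by split_ifs <;> linarith only [hpr p₀]).ne'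
    · exact_mod_cast (prod_pos fun i _ => this i).ne'
  have e2 : Ysp pr (YS pr (gg pr z J) ρ) p₀ (fun i => decide (i = m)) T
      = (∏ i, gg (fun p : {p // p ≠ p₀} => pr p) z J (T i)) *
        (∑ s : ι → Bool, (cut ρ (l + ∑ i, if s i then Real.log (pr p₀) else 0) - cut ρ l) *
          ∏ i, c i (s i) + cut ρ l * ∏ i, ∑ s, c i s) := by
    rw [Fintype.prod_sum, mul_sum, ← sum_add_distrib, mul_sum, Ysp]
    refine sum_congr rfl fun s _ => ?_
    simp only [YS, e1, gg_glue p₀ hz, hc, decide_eq_true_eq, hr]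
    ring
  have hg0 : 0 ≤ ∏ i, gg (fun p : {p // p ≠ p₀} => pr p) z J (T i) :=
    prod_nonneg fun _ _ => gg_nonneg _ _ _ _
  rw [e2, abs_mul, abs_of_nonneg hg0]
  refine mul_le_mul_of_nonneg_left ((abs_add_le _ _).trans (add_le_add ?_ ?_)) hg0
  · have a1 : ∀ i, |c i true| ≤ r + if i = m then 1 else 0 := fun i => by
      simp only [hc, if_true]
      split_ifs
      · rw [abs_of_nonpos (by linarith only [hr1])]; linarith
      · simp [abs_of_nonneg hr0]
    have a2 : ∏ i, ∑ s, |c i s| ≤ 6 := by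
      clear * - ι c r m a1 hc pr p₀ hr1 hr0 h3
      calc _ ≤ ∏ i, (if i = m then 2 else 1) * (1 + r) := by
            refine prod_le_prod (fun _ _ => sum_nonneg fun _ _ => abs_nonneg _) fun i _ => ?_
            have := a1 i
            rw [Fintype.sum_bool, show c i false = 1 by simp [hc], abs_one]
            by_cases h : i = m
            · simp only [hc, h, if_true]
              rw [abs_of_nonpos (by linarith)]; linarith
            · simp only [h, if_false] at this ⊢; linarith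
        _ = 2 * (1 + r) ^ Fintype.card ι := by rw [prod_mul_distrib]; simp
        _ ≤ _ := by linarith
    calc _ ≤ ∑ s : ι → Bool, (∏ i, |c i (s i)|) *
          ∑ i, if s i then Real.log (pr p₀) / ρ else 0 := by
          refine (abs_sum_le_sum_abs _ _).trans (sum_le_sum fun s _ => ?_)
          rw [abs_mul, abs_prod, mul_comm]
          refine mul_le_mul_of_nonneg_left ((abs_cut_sub hρ _ (sum_nonneg fun i _ => by
            split_ifs <;> positivity)).trans (le_of_eq ?_)) (prod_nonneg fun _ _ => abs_nonneg _)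
          rw [sum_div]
          exact sum_congr rfl fun i _ => by split_ifs <;> simp
      _ ≤ (∏ i, ∑ s, |c i s|) * ∑ i, (r + if i = m then 1 else 0) * (Real.log (pr p₀) / ρ) := by
          clear * - ι c pr p₀ ρ r m hρ hc a1
          refine sum_prod_mul_sum_le (fun i s => |c i s|)
            (fun _ s => if s then Real.log (pr p₀) / ρ else 0) _ (fun _ _ => abs_nonneg _)
            (fun _ s => by split_ifs <;> positivity) fun i => ?_
          simp only [Fintype.sum_bool, if_true, Bool.false_eq_true, if_false, mul_zero, add_zero]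
          rw [show c i false = 1 by simp [hc], abs_one]
          have b0 : 0 ≤ Real.log (pr p₀) / ρ := by positivity
          have b1 : 0 ≤ r + if i = m then 1 else 0 := (abs_nonneg _).trans (a1 i)
          nlinarith only [b0, b1, mul_le_mul_of_nonneg_right (a1 i) b0, abs_nonneg (c i true),
            mul_nonneg (mul_nonneg b1 b0) (abs_nonneg (c i true))]
      _ ≤ 6 * (2 * (Real.log (pr p₀) / ρ)) := by
          clear * - ι c r m pr p₀ ρ a2 hkr hρ hp2
          rw [← sum_mul, sum_add_distrib]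
          simp only [sum_const, card_univ, nsmul_eq_mul, sum_ite_eq', mem_univ, if_true]
          gcongr
          linarith
      _ = _ := by ring
  · rw [abs_mul, abs_of_nonneg (cut_nonneg _ _)]
    refine (mul_le_of_le_one_left (abs_nonneg _) (cut_le_one _ _)).trans ?_
    have a1 : ∏ i, ∑ s, c i s = ∏ i, (if i = m then r else 1 + r) :=
      prod_congr rfl fun i _ => by
        rw [Fintype.sum_bool]
        simp only [hc, if_true, Bool.false_eq_true, if_false]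
        split_ifs <;> ring
    have a2 : ∏ i, (if i = m then r else 1 + r) ≤ ∏ i, (if i = m then r else 1) * (1 + r) :=
      prod_le_prod (fun i _ => by split_ifs <;> positivity) fun i _ => by
        clear * - ι i m r pr p₀ hr0
        split_ifs <;> nlinarith only [hr0]
    rw [a1, abs_of_nonneg (prod_nonneg fun i _ => by split_ifs <;> positivity)]
    refine a2.trans ?_
    rw [prod_mul_distrib]
    simp only [prod_ite_eq', mem_univ, if_true, prod_const, card_univ]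
    rw [div_eq_mul_inv, ← hr]
    clear * - r ι pr p₀ hr0 h3
    nlinarith only [hr0, h3]

end Pool.Agent.Work.MP_d018b2_nt
end
end

-- merged part: Pool.Agent.Work.MP_d018b2_nt.DCore
section
/-!
# The sieve argument for one tuple: many `q` with many prime values and all values rough
-/

noncomputable section

open Finset

namespace Pool.Agent.Work.MP_d018b2_nt

open Pool.Agent.Lib.ANT Pool.Agent.Work.MP_52820d_nt

/-- `m` has no prime factor up to `y` -/
def Rough (y m : ℕ) : Prop := ∀ p ∈ range (y + 1), p.Prime → ¬ p ∣ m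

instance (y m : ℕ) : Decidable (Rough y m) := by unfold Rough; infer_instance

lemma totient_mul_le (a b : ℕ) : (a * b).totient ≤ a * b.totient := by
  rcases Nat.eq_zero_or_pos a with rfl | ha
  · simp
  rcases Nat.eq_zero_or_pos b with rfl | hb
  · simp
  have h := Nat.totient_gcd_mul_totient_mul a b
  have h1 : 0 < (a.gcd b).totient := Nat.totient_pos.2 (Nat.gcd_pos_of_pos_left _ ha)
  refine Nat.le_of_mul_le_mul_left ?_ h1
  obtain ⟨c, hc⟩ := Nat.gcd_dvd_left a b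
  have h2 : a.totient * a.gcd b ≤ (a.gcd b).totient * a := by
    generalize a.gcd b = g at *
    subst hc
    rcases Nat.eq_zero_or_pos g with rfl | hg
    · simp
    have h3 : (g * c).totient ≤ g.totient * c := by
      have := Nat.totient_eq_mul_prod_factors (g * c)
      have h4 := Nat.totient_eq_mul_prod_factors g
      have hc0 : c ≠ 0 := by rintro rfl; simp at ha
      have h5 : ∏ p ∈ (g * c).primeFactors, (1 - (p : ℚ)⁻¹) ≤ ∏ p ∈ g.primeFactors, (1 - (p : ℚ)⁻¹) := by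
        refine prod_le_prod_of_subset_of_le_one (Nat.primeFactors_mono (dvd_mul_right _ _) ha.ne')
          (fun p hp => sub_nonneg.2 (inv_le_one_of_one_le₀ ?_)) fun p _ _ => sub_le_self _ (by positivity)
        exact_mod_cast (Nat.prime_of_mem_primeFactors hp).one_lt.le
      have : ((g * c).totient : ℚ) ≤ g.totient * c := by
        rw [this, h4]; push_cast
        calc _ ≤ (g : ℚ) * c * ∏ p ∈ g.primeFactors, (1 - (p : ℚ)⁻¹) := by gcongr
          _ = _ := by ring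
      exact_mod_cast this
    nlinarith only [h3]
  calc _ = a.totient * a.gcd b * b.totient := by rw [h]; ring
    _ ≤ (a.gcd b).totient * a * b.totient := Nat.mul_le_mul_right _ h2
    _ = _ := by ring

lemma exists_class_prime {p W A : ℕ} (hp : p.Prime) (hW : ¬ p ∣ W) (hA : ¬ p ∣ A) :
    ∃ c, ∀ n, (n ≡ 0 [MOD W] ∧ p ∣ A * n + 1) ↔ n ≡ c [MOD W * p] := by
  obtain ⟨c, hc⟩ := exists_root hp hA 1
  obtain ⟨⟨a, ha⟩, -⟩ := crt_fin ({()} : Finset Unit) (fun _ => p) (fun _ => c) W 0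
    (fun _ _ => ((Nat.Prime.coprime_iff_not_dvd hp).2 hW).symm) (fun _ _ _ _ h => (h rfl).elim)
  exact ⟨a, fun n => by simpa [hc] using ha n⟩

variable {α ι : Type*} [Fintype α] [DecidableEq α] [Fintype ι] [DecidableEq ι] {pr : α → ℕ}

lemma S1gen (hpr : ∀ p, (pr p).Prime) (hinj : Function.Injective pr) {W x k R : ℕ} (b : ℕ)
    (hW0 : 0 < W) (hW : ∀ p, ¬ pr p ∣ W) (A : ι → ℕ) (hA : ∀ i p, ¬ pr p ∣ A i)
    (hAB : ∀ n p i j, pr p ∣ A i * n + 1 → pr p ∣ A j * n + 1 → i = j) (hk : Fintype.card ι = k)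
    {Y : (ι → α → Bool) → ℝ} {θ : ℝ} (hY : ∀ T, |Y T| ≤ 2 ^ k * θ)
    (hR : ∀ T, Y T ≠ 0 → ∏ i, bar pr (T i) ≤ R) {ε Γ V : ℝ} (hV : ∏ p, (1 + (pr p : ℝ)⁻¹) ≤ V)
    (hε : 4 ^ k * (6 * k + 3) * ∑ p, ((pr p : ℝ)⁻¹) ^ 2 ≤ ε) (hε1 : ε ≤ 1)
    (hY2 : ∑ T, Y T ^ 2 * ∏ i, nu pr (T i) ≤ θ ^ 2 * Γ) (hΓ : 1 ≤ Γ)
    (e3 : 4 ^ k * V ^ k * (2 * ε) ≤ Γ) (e4 : 4 ^ k * V ^ (7 * k) * R ^ 2 ≤ x / W) :
    ∑ n ∈ Ioc x (x + x) with n ≡ b [MOD W],
      sieveFn pr Y (fun i p => decide (pr p ∣ A i * n + 1)) ^ 2 ≤ 3 * θ ^ 2 * (x / W) * Γ := by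
  have := sum_int_le hpr hinj hW0 hW A (fun _ => 1) hA hAB b x Y hY R hR (hk ▸ hε) hε1
  rw [mul_pow, two_pow_sq, hk] at this
  refine this.trans ?_
  have hV0 : 0 ≤ ∏ p, (1 + (pr p : ℝ)⁻¹) := prod_nonneg fun _ _ => by positivity
  have hε0 : 0 ≤ ε := le_trans (by positivity) hε
  have hX0 : (0 : ℝ) ≤ x / W := by positivity
  have a1 : (∏ p, (1 + (pr p : ℝ)⁻¹)) ^ (7 * k) * (R : ℝ) ^ 2 ≤ V ^ (7 * k) * R ^ 2 := by gcongr
  have a2 : (x : ℝ) / W * (∏ p, (1 + (pr p : ℝ)⁻¹)) ^ k * (2 * ε) ≤ x / W * V ^ k * (2 * ε) := by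
    clear * - ε x W α pr k V hV hW0 hε0
    gcongr
  simp only [nu] at hY2
  have a3 := mul_le_mul_of_nonneg_left hY2 hX0
  have a4 := mul_le_mul_of_nonneg_left (add_le_add a1 a2) (by positivity : 0 ≤ 4 ^ k * θ ^ 2)
  have a5 := mul_le_mul_of_nonneg_left e4 (sq_nonneg θ)
  have a6 := mul_le_mul_of_nonneg_left e3 (mul_nonneg (sq_nonneg θ) hX0)
  have a7 := mul_le_mul_of_nonneg_left hΓ (mul_nonneg (sq_nonneg θ) hX0)
  clear * - x W ι α Y pr k θ R ε Γ V a3 a4 a5 a6 a7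
  linarith only [a3, a4, a5, a6, a7]

omit [DecidableEq α] in
lemma card_le_of_rough (hpr : ∀ p, (pr p).Prime) (hinj : Function.Injective pr) {y m t : ℕ}
    (hy : 1 < y) (hm0 : 0 < m) (hm : m ≤ y ^ t) (hr : Rough y m) :
    #{p | decide (pr p ∣ m) = true} ≤ t := by
  have h1 : ∏ p with decide (pr p ∣ m) = true, pr p ∣ m :=
    Finset.prod_dvd_of_isRelPrime (fun p _ q _ h => Nat.coprime_iff_isRelPrime.1
      ((Nat.coprime_primes (hpr p) (hpr q)).2 fun e => h (hinj e))) fun p hp => by simpa using hp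
  have h2 : y ^ #{p | decide (pr p ∣ m) = true} ≤ ∏ p with decide (pr p ∣ m) = true, pr p := by
    rw [← prod_const]
    refine prod_le_prod' fun p hp => ?_
    by_contra hc
    exact hr _ (mem_range.2 (by omega)) (hpr p) (by simpa using hp)
  exact (Nat.pow_le_pow_iff_right hy).1 (h2.trans ((Nat.le_of_dvd hm0 h1).trans hm))

lemma S3gen {p W x A : ℕ} (hp : p.Prime) (hW : ¬ p ∣ W) (f : ℕ → ℝ) {B : ℝ} (hB : 0 ≤ B)
    (h : ∀ c, ∑ n ∈ Ioc x (x + x) with n ≡ c [MOD W * p], (if p ∣ A * n + 1 then f n else 0) ≤ B) :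
    ∑ n ∈ Ioc x (x + x) with n ≡ 0 [MOD W], (if p ∣ A * n + 1 then f n else 0) ≤ B := by
  by_cases hA : p ∣ A
  · rw [sum_eq_zero fun n _ => if_neg fun h' => hp.not_dvd_one
      ((Nat.dvd_add_right (hA.mul_right n)).1 h')]
    exact hB
  · obtain ⟨c, hc⟩ := exists_class_prime hp hW hA
    refine le_of_eq_of_le ?_ (h c)
    rw [← sum_filter, ← sum_filter, filter_filter, filter_filter]
    refine sum_congr (filter_congr fun n _ => ?_) fun _ _ => rfl
    exact ⟨fun h' => ⟨(hc n).1 h', h'.2⟩, fun h' => (hc n).2 h'.1⟩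

theorem core (hpr : ∀ p, (pr p).Prime) (hinj : Function.Injective pr)
    {W x F k J R₁ m₀ y t p₁ : ℕ} (r : ι → ℕ) (hr0 : ∀ i, 0 < r i) (hW0 : 0 < W)
    (hW : ∀ p, ¬ pr p ∣ W) (hA : ∀ i p, ¬ pr p ∣ r i)
    (hAB : ∀ n p i j, pr p ∣ r i * n + 1 → pr p ∣ r j * n + 1 → i = j)
    (hbig : ∀ p, (10 * k) ^ 2 ≤ pr p ∧ pr p ≤ x)
    (hp₁ : p₁.Prime) (hp₁W : ∀ i, ¬ p₁ ∣ r i * W) (hp₁α : ∀ p, pr p ≠ p₁)
    (hk : Fintype.card ι = k) (hJk : 2 ^ J ≤ k) (hJ : 4 ≤ J)
    {z : ℕ → ℕ} {u v a ε Λ : ℝ} (hu : 0 ≤ u) (hv : 6 ≤ v) (ha : 72 * k * J ≤ a)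
    (hV1 : ∀ j < J, 2 ^ j * v / 3 ≤ VV pr (z j)) (hV2 : ∀ j < J, VV pr (z j) ≤ 3 * 2 ^ j * v)
    (hL : ∀ j < J, LL pr (z j) ≤ 2 * 2 ^ j * u) (hR₁ : 1 < R₁) (hR : 2 * a * u ≤ Real.log R₁)
    (hV4 : ∏ p, (1 + (pr p : ℝ)⁻¹) ≤ 3 * a * v)
    (hε : 4 ^ k * (6 * k + 3) * ∑ p, ((pr p : ℝ)⁻¹) ^ 2 ≤ ε) (hε1 : (36 * a) ^ (k + 1) * ε ≤ 1)
    (hy : 1 < y) (hyz : ∀ j < J, y ≤ z j)
    (hx : 4 ^ k * (3 * a * v) ^ (7 * k) * (((R₁ ^ 2) ^ 2 : ℕ) : ℝ) ^ 2 * (W * y) ≤ x)
    (hF : ∀ i, r i * W * ((R₁ ^ 2) ^ 2) ^ 2 ≤ F) (hFx : F ≤ x)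
    (hθ : ∀ i, (r i * x : ℝ) / 2 ≤ ∑ n ∈ Ioc (r i * x + 1) (r i * (x + x) + 1), th n)
    (hErr : ∀ i, 4 ^ k * (3 * a * v) ^ (12 * k + 2) * ((r i * W : ℕ) *
      ∑ f ∈ Icc 2 F, Psi (r i * x + 1) (r i * (x + x) + 1) f * sav' p₁ f) ≤ r i * x)
    (hΛ : ∀ i, Real.log (r i * (x + x) + 1 : ℕ) ≤ Λ) (hΛ0 : 0 < Λ)
    (ht : ∀ i, r i * (x + x) + 1 ≤ y ^ t)
    (D : Finset ℕ) (hD : ∀ p ∈ D, p.Prime ∧ p ≤ y ∧ ¬ p ∣ W ∧ ∀ p', pr p' ≠ p)
    (hcl : ∀ p ≤ y, p.Prime → p ∣ W ∨ p ∈ D ∨ ∃ p', pr p' = p)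
    (hδ : 3 * k ^ 2 * (∑ p ∈ D, (p : ℝ)⁻¹ + ∑ p with pr p ≤ y,
      (12 * Real.log (pr p) / Real.log (R₁ ^ 2 : ℕ) + 3 / pr p) ^ 2 / pr p) ≤ 1)
    (hmain : 13824 * (3 * m₀ + 2) * Λ * W.totient ≤ k * J ^ 2 * v * W) :
    (x : ℝ) ≤ #{n ∈ Ioc x (x + x) | m₀ ≤ #{i | (r i * n + 1).Prime} ∧ ∀ i, Rough y (r i * n + 1)}
      * (W * k * (108 * a ^ 2 * 4 ^ t * v) ^ k) := by
  have hp2 : ∀ p, 2 ≤ pr p := fun p => (hpr p).two_le
  have hW' : (0 : ℝ) < W := by exact_mod_cast hW0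
  have hφ : (0 : ℝ) < W.totient := by exact_mod_cast Nat.totient_pos.2 hW0
  obtain ⟨k, rfl⟩ : ∃ k', k = k' + 1 := Nat.exists_eq_succ_of_ne_zero
    (by have := Nat.two_pow_pos J; omega)
  have hJ4 : (4 : ℝ) ≤ J := by exact_mod_cast hJ
  have hk1 : (1 : ℝ) ≤ (k + 1 : ℕ) := by simp
  have hka : ((k + 1 : ℕ) : ℝ) ≤ a := le_trans (by nlinarith only [hJ4, hk1]) ha
  have ha1 : 1 ≤ a := hk1.trans hka
  obtain ⟨V, hV⟩ : ∃ V, V = 3 * a * v := ⟨_, rfl⟩
  rw [← hV] at hV4 hx hErr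
  have hV0 : 0 ≤ V := by rw [hV]; positivity
  have hVV0 : 0 ≤ ∏ p, (1 + (pr p : ℝ)⁻¹) := prod_nonneg fun _ _ => by positivity
  have hs0 : 0 ≤ ∑ p, ((pr p : ℝ)⁻¹) ^ 2 := sum_nonneg fun _ _ => sq_nonneg _
  have hε0 : 0 ≤ ε := le_trans (by positivity) hε
  have hγ1 : v / 3 ≤ gam pr z J := by simpa using (hV1 0 (by omega)).trans (le_gam (by omega))
  have hγ2 : gam pr z J ≤ 24 * v := gam_le (by positivity) hV2
  have hγ3 : 1 ≤ gam pr z J := by linarith only [hγ1, hv]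
  obtain ⟨e2, e3, e5⟩ := num1 ha1 hv hJ4 hγ1 hV0 hV.le hε0 hε1
  have hγk : 1 ≤ gam pr z J ^ (k + 1) := one_le_pow₀ hγ3
  have e3' : 4 ^ (k + 1) * V ^ (k + 1) * (2 * ε) ≤ gam pr z J ^ (k + 1) :=
    le_trans (by clear * - k V ε hε0 hV0 e3; gcongr; norm_num) e3
  have hR2 : 1 < R₁ ^ 2 := Nat.one_lt_pow two_ne_zero hR₁
  have hρ : 0 < Real.log (R₁ ^ 2 : ℕ) := Real.log_pos (by exact_mod_cast hR2)
  have hy' : (1 : ℝ) < y := by exact_mod_cast hy
  have e4 : ∀ p : ℕ, 0 < p → p ≤ y → 4 ^ (k + 1) * V ^ (7 * (k + 1)) *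
      (((R₁ ^ 2) ^ 2 : ℕ) : ℝ) ^ 2 ≤ x / (W * p : ℕ) := fun p h0 hp => by
    clear * - p y hp k V R₁ x W hW0 h0 hV0 hR₁ hx
    have : (p : ℝ) ≤ y := by exact_mod_cast hp
    rw [le_div_iff₀ (by positivity)]
    refine le_trans ?_ hx
    push_cast; gcongr
  set Y : (ι → α → Bool) → ℝ := YS pr (gg pr z J) (Real.log (R₁ ^ 2 : ℕ)) with hYdef
  have hYb : ∀ T, |Y T| ≤ 2 ^ (k + 1) := fun T =>
    hk ▸ abs_YS_le (gg_nonneg _ _ _) (gg_le_two _ _ _) _ T
  have hYb' : ∀ T, |Y T| ≤ 2 ^ (k + 1) * 1 := fun T => by rw [mul_one]; exact hYb T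
  have hYs : ∀ T, Y T ≠ 0 → ∏ i, bar pr (T i) ≤ (R₁ ^ 2) ^ 2 := YS_supp hp2 hR2
  have hY2 : ∑ T, Y T ^ 2 * ∏ i, nu pr (T i) ≤ 1 ^ 2 * gam pr z J ^ (k + 1) :=
    hk ▸ sum_sq_le_of_le fun T => by
      rw [mul_one, abs_of_nonneg (YS_nonneg (gg_nonneg _ _ _) _ _)]
      exact YS_le (gg_nonneg _ _ _) _ _
  have S1 := S1gen hpr hinj 0 hW0 hW r hA hAB hk hYb' hYs hV4 hε e2 hY2 hγk e3'
    (by simpa using e4 1 one_pos hy.le)
  have S3b : ∀ i, ∀ p ∈ D, ∑ n ∈ Ioc x (x + x) with n ≡ 0 [MOD W], (if p ∣ r i * n + 1 then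
      sieveFn pr Y (fun i p => decide (pr p ∣ r i * n + 1)) ^ 2 else 0)
        ≤ 3 * (x / W) * gam pr z J ^ (k + 1) * (p : ℝ)⁻¹ := fun i p hp => by
    clear * - p y W α pr x r i ι Y z J k hD hp hW0 hγ3 hpr hinj R₁ hW hA hAB hk hYb' hYs ε V hV4
      hε e2 hY2 hγk e3' e4
    obtain ⟨b1, b2, b3, b4⟩ := hD p hp
    refine S3gen b1 b3 _ (by positivity) fun c => ?_
    refine le_trans (sum_le_sum fun n _ => ?_) ((S1gen hpr hinj c (Nat.mul_pos hW0 b1.pos)
      (fun p' h => ((Nat.Prime.dvd_mul (hpr p')).1 h).elim (hW p') fun h' =>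
        b4 p' ((Nat.prime_dvd_prime_iff_eq (hpr p') b1).1 h')) r hA hAB hk hYb' hYs hV4 hε e2 hY2 hγk
        e3' (e4 p b1.pos b2)).trans (le_of_eq ?_))
    · split_ifs
      · exact le_rfl
      · positivity
    · push_cast; ring
  have S3a : ∀ i, ∀ p, pr p ≤ y → ∑ n ∈ Ioc x (x + x) with n ≡ 0 [MOD W],
      (if pr p ∣ r i * n + 1 then sieveFn pr Y (fun i p => decide (pr p ∣ r i * n + 1)) ^ 2 else 0)
        ≤ 3 * (x / W) * gam pr z J ^ (k + 1) *
          ((12 * Real.log (pr p) / Real.log (R₁ ^ 2 : ℕ) + 3 / pr p) ^ 2 / pr p) := fun i p hp => by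
    clear * - J pr p z y hp hyz ι k hk x hbig R₁ hρ α i hp2 W r hpr hW Y hW0 hγ3 hAB hinj hA hYs ε
      V hV4 hε e2 hγk e3' e4 D
    have hz : ∀ j < J, pr p ≤ z j := fun j hj => hp.trans (hyz j hj)
    have hkp : Fintype.card ι ≤ pr p := by
      rw [hk]; exact le_trans (by nlinarith only []) (hbig p).1
    have hθ0 : 0 ≤ 12 * Real.log (pr p) / Real.log (R₁ ^ 2 : ℕ) + 3 / pr p := by
      have := Real.log_natCast_nonneg (pr p); positivity
    have b1 := abs_Ysp_le hp2 p hz hkp hρ i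
    refine S3gen (hpr p) (hW p) _ (by positivity) fun c => ?_
    refine le_trans (sum_le_sum fun n _ => ?_) ((S1gen (pr := fun q : {q // q ≠ p} => pr q)
      (fun q => hpr q) (hinj.comp Subtype.val_injective) c (Nat.mul_pos hW0 (hpr p).pos)
      (fun q h => ((Nat.Prime.dvd_mul (hpr q)).1 h).elim (hW q) fun h' =>
        q.2 (hinj ((Nat.prime_dvd_prime_iff_eq (hpr q) (hpr p)).1 h'))) r (fun i q => hA i q)
      (fun n q => hAB n q) hk (Y := Ysp pr Y p fun j => decide (j = i))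
      (fun T => (b1 T).trans (mul_le_mul_of_nonneg_right
        (hk ▸ prod_g_le (gg_nonneg _ _ _) (gg_le_two _ _ _) T) hθ0))
      (Ysp_supp hp2 hYs p _) (V := V) (le_trans ?_ hV4) (le_trans ?_ hε) e2
      ((sum_sq_le_of_le b1).trans ?_) hγk e3' (e4 _ (hpr p).pos hp)).trans (le_of_eq ?_))
    · split_ifs with h
      · rw [sieveFn_Ysp Y p]
        refine le_of_eq (congrArg (fun D => sieveFn _ (Ysp pr Y p D) _ ^ 2) (funext fun j => ?_))
        exact decide_eq_decide.2 ⟨fun h' => hAB n p j i h' h, fun h' => h' ▸ h⟩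
      · positivity
    · rw [Fintype.prod_eq_mul_prod_subtype_ne _ p]
      exact le_mul_of_one_le_left (prod_nonneg fun _ _ => by positivity)
        (le_add_of_nonneg_right (by positivity))
    · rw [Fintype.sum_eq_add_sum_subtype_ne _ p]
      gcongr
      exact le_add_of_nonneg_left (by positivity)
    · rw [hk]
      gcongr
      · exact sum_nonneg fun _ _ => mul_nonneg (sq_nonneg _) (nu_nonneg _ _)
      · exact gam_sub_le p hz
    · push_cast; ring
  have S2 : ∀ m, x / W.totient * (J ^ 2 * v * gam pr z J ^ (k + 1) / 13824)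
      ≤ ∑ n ∈ Ioc x (x + x) with n ≡ 0 [MOD W],
        th (r m * n + 1) * sieveFn pr Y (fun i p => decide (pr p ∣ r i * n + 1)) ^ 2 := fun m => by
    clear * - ι m k hk J v α pr z R₁ hp2 hR₁ u hJ hv hu hV1 hL hJk a hka hR hV2 hγ1 ha hR2 r x W Y
      ε F p₁ hpr hinj hW0 hr0 hA hW hAB hYb hYs hF hFx y hbig hp₁ hp₁W hp₁α hε e2 hφ V hV4 hε0 e5
      hErr hJ4 hγ3 hγ2 hθ hYdef
    have hc' : Fintype.card {i // i ≠ m} = k := by simp [hk]
    have a1 := le_sum_Ym_sq hp2 (gg_nonneg pr z J) hR₁ (A := J * v / 6) (e := 72 * J * u)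
      (by positivity) (by positivity) (le_gg_trunc hp2 hR₁ hV1 fun j hj => (hL j hj).trans (by
        have b1 : (2 : ℝ) * 2 ^ j ≤ (k + 1 : ℕ) := by
          rw [← pow_succ']
          exact_mod_cast (Nat.pow_le_pow_right two_pos hj).trans hJk
        linarith only [mul_le_mul_of_nonneg_right (b1.trans hka) hu, hR]))
      ((gam_log_le hp2 (by positivity) hV2 hL).trans (le_of_eq_of_le (by ring)
        (mul_le_mul_of_nonneg_left hγ1 (by positivity : 0 ≤ 72 * J * u))))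
      (by rw [hk]; linarith only [mul_le_mul_of_nonneg_right ha hu, hR]) m
    rw [hk, Nat.add_sub_cancel] at a1
    have a2 := a1.trans (sum_Ym_sq_mono (YY_nonneg (gg_nonneg _ _ _) _)
      (YY_le_YS hp2 (gg_nonneg _ _ _) hR2) m)
    rw [← hYdef, ← gam] at a2
    have := le_sum_prime' hpr hinj hW0 (hr0 m) (fun p h => ((Nat.Prime.dvd_mul (hpr p)).1 h).elim
        (hA m p) (hW p)) (fun i : {i // i ≠ m} => r i) (fun i p => hA i p)
      (fun n p i j a b => Subtype.ext (hAB n p i j a b)) (fun n p i a b => i.2 (hAB n p i m a b)) x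
      (Ym pr Y m) (abs_Ym_le hYb m) _ (Ym_supp hp2 hYs m) (hF m)
      (hFx.trans ((Nat.le_mul_of_pos_left _ (hr0 m)).trans (Nat.le_succ _))) (k := k + 1)
      (by omega) (fun p => (hbig p).1) hp₁ (hp₁W m) hp₁α
      (le_trans (by clear * - ι m α pr k hc' e2 hε; rw [hc']; push_cast; gcongr <;> linarith only []) hε) e2
    refine le_trans ?_ (this.trans (le_of_eq (sum_congr rfl fun n hn => ?_)))
    · have hr' : (0 : ℝ) < r m := by exact_mod_cast hr0 m
      have hφ' : (0 : ℝ) < (r m * W).totient := by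
        exact_mod_cast Nat.totient_pos.2 (Nat.mul_pos (hr0 m) hW0)
      have b1 : ((r m * W).totient : ℝ) ≤ r m * W.totient := by exact_mod_cast totient_mul_le _ _
      have b2 : (x : ℝ) / W.totient ≤ r m * x / (r m * W).totient := by
        rw [div_le_div_iff₀ hφ hφ']
        nlinarith only [mul_le_mul_of_nonneg_left b1 (Nat.cast_nonneg x)]
      have b3 : (2 ^ (k + 1) * ∏ p, (1 + (pr p : ℝ)⁻¹)) ^ 2 * (∏ p, (1 + (pr p : ℝ)⁻¹)) ^ k * (2 * ε)
          ≤ (J * v / 6) ^ 2 * gam pr z J ^ k / 4 := by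
        clear * - k α pr ε V J v z hV4 hε0 e5
        refine le_trans ?_ e5
        rw [mul_pow, two_pow_sq]; gcongr
      have b4 : (2 ^ (k + 1) * ∏ p, (1 + (pr p : ℝ)⁻¹)) ^ 2 * (∏ p, (1 + (pr p : ℝ)⁻¹)) ^ (12 * (k + 1))
          * ((r m * W : ℕ) * ∑ f ∈ Icc 2 F, Psi (r m * x + 1) (r m * (x + x) + 1) f * sav' p₁ f)
          ≤ r m * x := by
        clear * - k α pr r m W F x p₁ V hV4 hErr
        refine le_trans ?_ (hErr m)
        rw [mul_pow, two_pow_sq, mul_assoc (4 ^ (k + 1)), ← pow_add, add_comm 2]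
        gcongr
        exact mul_nonneg (Nat.cast_nonneg _) (sum_nonneg fun _ _ =>
          mul_nonneg (Psi_nonneg _ _ _) (sav'_nonneg _ _))
      have b5 : 4 ≤ (J * v / 6) ^ 2 * gam pr z J ^ k / 4 := by
        clear * - J v hJ4 hv α pr z k hγ3 hJ
        have : 4 ≤ J * v / 6 := by nlinarith only [hJ4, hv]
        calc (4 : ℝ) = 4 ^ 2 * 1 / 4 := by norm_num
          _ ≤ _ := by gcongr; exact one_le_pow₀ hγ3
      have b6 : J ^ 2 * v * gam pr z J ^ (k + 1) / 13824 ≤ (J * v / 6) ^ 2 * gam pr z J ^ k / 4 / 4 := by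
        clear * - J v α pr z k hγ2 hγ3 hJ hv
        calc _ ≤ J ^ 2 * v * (gam pr z J ^ k * (24 * v)) / 13824 := by rw [pow_succ (gam pr z J)]; gcongr
          _ = _ := by ring
      rw [hc']
      simp only [nu] at a2
      have b7 := div_le_div_of_nonneg_right (hθ m) hφ'.le
      have b8 := div_le_div_of_nonneg_right b4 hφ'.le
      rw [show (J * v / 6) ^ 2 * (gam pr z J ^ k / 2) = (J * v / 6) ^ 2 * gam pr z J ^ k / 2 by ring]
        at a2
      generalize (J * v / 6) ^ 2 * gam pr z J ^ k = Θ at a2 b3 b5 b6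
      have b9 : (0 : ℝ) ≤ r m * x / (r m * W).totient := by clear * - r m x W hr' hφ'; positivity
      have c1 := mul_le_mul b2 b6 (by positivity) b9
      have c2 := mul_le_mul b7 (sub_le_sub a2 b3)
        (by linarith only [b5]) (le_trans (by clear * - r m x W hr' hφ' b7; positivity) b7)
      have c3 := mul_le_mul_of_nonneg_left b5 b9
      rw [div_right_comm] at c2
      clear * - x W J v α pr z k r m ι Y ε F p₁ Θ c1 c2 c3 b8; linarith only [c1, c2, c3, b8]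
    · by_cases hp : (r m * n + 1).Prime
      · rw [sieveFn_Ym Y m _ fun p => ?_]
        have := (mem_Ioc.1 (mem_filter.1 hn).1).1
        have := (hbig p).2
        have := Nat.le_mul_of_pos_left n (hr0 m)
        simpa using fun h' => by have := (Nat.prime_dvd_prime_iff_eq (hpr p) hp).1 h'; omega
      · simp [th, hp]
  set S := (Ioc x (x + x)).filter (· ≡ 0 [MOD W]) with hS
  have hν0 : ∀ n, 0 ≤ sieveFn pr Y (fun i p => decide (pr p ∣ r i * n + 1)) ^ 2 :=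
    fun _ => sq_nonneg _
  have hν1 : ∀ n ∈ S, (∀ i, Rough y (r i * n + 1)) →
      sieveFn pr Y (fun i p => decide (pr p ∣ r i * n + 1)) ^ 2
        ≤ (4 * V ^ 2 * 4 ^ t) ^ (k + 1) := fun n hn h => by
    clear * - α ι pr Y r n k hp2 hYb t hk hpr hinj y hy x W hn ht h V hV4 hV0
    have b1 := abs_sieveFn_le hp2 hYb fun i p => decide (pr p ∣ r i * n + 1)
    have b2 : ∏ i, (2 : ℝ) ^ #{p | decide (pr p ∣ r i * n + 1) = true} ≤ (2 ^ t) ^ (k + 1) := by
      rw [← hk, ← card_univ, ← prod_const]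
      refine prod_le_prod (fun _ _ => by positivity) fun i _ => pow_le_pow_right₀ one_le_two
        (card_le_of_rough hpr hinj hy (Nat.succ_pos _) (le_trans ?_ (ht i)) (h i))
      exact Nat.succ_le_succ (Nat.mul_le_mul_left _ (mem_Ioc.1 (mem_filter.1 hn).1).2)
    rw [← sq_abs]
    calc _ ≤ (2 ^ (k + 1) * (V ^ (k + 1) * (2 ^ t) ^ (k + 1))) ^ 2 := by
          clear * - α ι pr Y r n k V t b1 hk hV4 b2 hV0
          refine pow_le_pow_left₀ (abs_nonneg _) (b1.trans ?_) 2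
          rw [hk]; gcongr
      _ = _ := by
          rw [← mul_pow, ← mul_pow, ← pow_mul, mul_comm (k + 1), pow_mul, ← two_pow_sq t]
          congr 1; ring
  generalize hν' : (fun n => sieveFn pr Y (fun i p => decide (pr p ∣ r i * n + 1)) ^ 2) = ν
  simp only [congrFun hν'] at S1 S2 S3a S3b hν0 hν1
  have key : ∀ n ∈ S, ∑ i, th (r i * n + 1) * ν n ≤ m₀ * Λ * ν n + (k + 1 : ℕ) * Λ *
      ((if m₀ ≤ #{i | (r i * n + 1).Prime} ∧ ∀ i, Rough y (r i * n + 1) then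
        (4 * V ^ 2 * 4 ^ t) ^ (k + 1) else 0) +
      ∑ i, (∑ p ∈ D, (if p ∣ r i * n + 1 then ν n else 0) +
        ∑ p with pr p ≤ y, (if pr p ∣ r i * n + 1 then ν n else 0))) := fun n hn => by
    clear * - x n W ι r ν m₀ Λ k y V t D α pr hn hΛ hk hν0 hΛ0 hν1 F J R₁ hcl
    obtain ⟨hn1, hn2⟩ := mem_filter.1 hn
    have a1 : ∑ i, th (r i * n + 1) ≤ #{i | (r i * n + 1).Prime} * Λ := by
      simp only [th]
      rw [← sum_filter, ← nsmul_eq_mul]
      exact sum_le_card_nsmul _ _ _ fun i _ => (Lib.LargeSieve.log_nat_mono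
        (Nat.succ_le_succ (Nat.mul_le_mul_left _ (mem_Ioc.1 hn1).2))).trans (hΛ i)
    have a4 : (#{i | (r i * n + 1).Prime} : ℝ) ≤ (k + 1 : ℕ) := by
      exact_mod_cast (card_le_univ _).trans hk.le
    have a5 : ∀ (s : Finset ℕ) i, 0 ≤ ∑ p ∈ s, (if p ∣ r i * n + 1 then ν n else 0) :=
      fun s i => sum_nonneg fun _ _ => by split_ifs; exacts [hν0 n, le_rfl]
    have a6 : ∀ (s : Finset α) i, 0 ≤ ∑ p ∈ s, (if pr p ∣ r i * n + 1 then ν n else 0) :=
      fun s i => sum_nonneg fun _ _ => by split_ifs; exacts [hν0 n, le_rfl]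
    have a7 := sum_nonneg fun i (_ : i ∈ univ) => add_nonneg (a5 D i) (a6 {p | pr p ≤ y} i)
    have a8 := hν0 n
    rw [← sum_mul]
    refine (mul_le_mul_of_nonneg_right a1 a8).trans ?_
    by_cases a2 : ∀ i, Rough y (r i * n + 1)
    · by_cases a3 : m₀ ≤ #{i | (r i * n + 1).Prime}
      · rw [if_pos ⟨a3, a2⟩]
        refine le_add_of_nonneg_of_le (by positivity) ?_
        gcongr
        exact le_add_of_le_of_nonneg (hν1 n hn a2) a7
      · rw [if_neg fun h => a3 h.1, zero_add]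
        exact le_add_of_le_of_nonneg (by clear * - ν n ι r Λ m₀ k a3 hΛ0 a8; gcongr; omega) (by clear * - k Λ ι D r n ν α pr y hΛ0 a8; positivity)
    · rw [if_neg fun h => a2 h.2, zero_add]
      refine le_add_of_nonneg_of_le (by positivity) ?_
      gcongr
      simp only [Rough, not_forall, not_not] at a2
      obtain ⟨i, p, b1, b2, b3⟩ := a2
      refine le_trans ?_ (single_le_sum (fun i _ => add_nonneg (a5 D i) (a6 {p | pr p ≤ y} i))
        (mem_univ i))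
      rcases hcl p (Nat.lt_succ_iff.1 (mem_range.1 b1)) b2 with b4 | b4 | ⟨p', rfl⟩
      · exact absurd ((Nat.dvd_add_right ((b4.trans (Nat.modEq_zero_iff_dvd.1 hn2)).mul_left _)).1 b3)
          b2.not_dvd_one
      · refine le_add_of_le_of_nonneg (le_trans ?_ (single_le_sum (f := fun p =>
          if p ∣ r i * n + 1 then ν n else 0) (fun _ _ => by split_ifs; exacts [a8, le_rfl]) b4))
          (a6 _ _)
        rw [if_pos b3]
      · refine le_add_of_nonneg_of_le (a5 _ _) (le_trans ?_ (single_le_sum (f := fun p =>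
          if pr p ∣ r i * n + 1 then ν n else 0) (fun _ _ => by split_ifs; exacts [a8, le_rfl])
          (mem_filter.2 ⟨mem_univ p', Nat.lt_succ_iff.1 (mem_range.1 b1)⟩)))
        rw [if_pos b3]
  have k1 := sum_le_sum key
  rw [sum_comm, sum_add_distrib, ← mul_sum, ← mul_sum, sum_add_distrib, ← sum_filter, sum_const,
    nsmul_eq_mul, sum_comm (s := S)] at k1
  have k2 := sum_le_sum fun m (_ : m ∈ univ) => S2 m
  rw [sum_const, card_univ, hk, nsmul_eq_mul] at k2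
  have k3 : ∑ i, ∑ n ∈ S, (∑ p ∈ D, (if p ∣ r i * n + 1 then ν n else 0) +
        ∑ p with pr p ≤ y, (if pr p ∣ r i * n + 1 then ν n else 0))
      ≤ (k + 1 : ℕ) * (3 * (x / W) * gam pr z J ^ (k + 1) * (∑ p ∈ D, (p : ℝ)⁻¹ + ∑ p with pr p ≤ y,
        (12 * Real.log (pr p) / Real.log (R₁ ^ 2 : ℕ) + 3 / pr p) ^ 2 / pr p)) := by
    refine (sum_le_card_nsmul _ _ _ fun i _ => ?_).trans (by rw [card_univ, hk, nsmul_eq_mul])
    rw [sum_add_distrib, sum_comm, sum_comm (s := S), mul_add, mul_sum, mul_sum]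
    exact add_le_add (sum_le_sum fun p hp => S3b i p hp)
      (sum_le_sum fun p hp => S3a i p (mem_filter.1 hp).2)
  have k4 : (#{n ∈ S | m₀ ≤ #{i | (r i * n + 1).Prime} ∧ ∀ i, Rough y (r i * n + 1)} : ℝ) ≤
      #{n ∈ Ioc x (x + x) | m₀ ≤ #{i | (r i * n + 1).Prime} ∧ ∀ i, Rough y (r i * n + 1)} := by
    exact_mod_cast card_le_card (filter_subset_filter _ (filter_subset _ _))
  generalize (#{n ∈ Ioc x (x + x) | m₀ ≤ #{i | (r i * n + 1).Prime} ∧
    ∀ i, Rough y (r i * n + 1)} : ℝ) = E at k4 ⊢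
  have hE0 : 0 ≤ E := le_trans (Nat.cast_nonneg _) k4
  have hX0 : (0 : ℝ) ≤ x / W * gam pr z J ^ (k + 1) := by clear * - x W α pr z J k hW0 hγ3; positivity
  have k5 : (3 * m₀ + 2) * Λ * (x / W * gam pr z J ^ (k + 1))
      ≤ (k + 1 : ℕ) * (x / W.totient * (J ^ 2 * v * gam pr z J ^ (k + 1) / 13824)) := by
    clear * - m₀ Λ x W α pr z J k v hW0 hγ3 hΛ0 hmain hv hJ
    calc _ = 13824 * (3 * m₀ + 2) * Λ * W.totient *
          (x * gam pr z J ^ (k + 1) / (13824 * W * W.totient)) := by field_simp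
      _ ≤ (k + 1 : ℕ) * J ^ 2 * v * W * (x * gam pr z J ^ (k + 1) / (13824 * W * W.totient)) := by
          gcongr
      _ = _ := by field_simp
  have k6 := mul_le_mul_of_nonneg_left S1 (by positivity : 0 ≤ m₀ * Λ)
  have k7 := mul_le_mul_of_nonneg_left (add_le_add (mul_le_mul_of_nonneg_right k4
    (by clear * - V t k k3 Λ; positivity : 0 ≤ (4 * V ^ 2 * 4 ^ t) ^ (k + 1))) k3) (by positivity : 0 ≤ (k + 1 : ℕ) * Λ)
  have k8 := mul_le_mul_of_nonneg_left hδ (mul_nonneg hΛ0.le hX0)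
  have k9 : Λ * (x / W * gam pr z J ^ (k + 1))
      ≤ Λ * ((k + 1 : ℕ) * (E * (4 * V ^ 2 * 4 ^ t) ^ (k + 1))) := by
    clear * - Λ x W α pr z J k E V t ι S r ν m₀ y D v R₁ k1 k2 k5 k6 k7 k8
    linarith only [k1, k2, k5, k6, k7, k8]
  have k10 := le_of_mul_le_mul_left k9 hΛ0
  have hv0 : 0 < v / 3 := by linarith only [hv]
  have k11 : x / W * (v / 3) ^ (k + 1) ≤ x / W * gam pr z J ^ (k + 1) := by clear * - x W v k α pr z J hv hγ1 hW0; gcongr
  have k12 := k11.trans k10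
  rw [div_mul_eq_mul_div, div_le_iff₀ hW'] at k12
  refine le_of_mul_le_mul_right (k12.trans (le_of_eq ?_)) (pow_pos hv0 (k + 1))
  rw [show 4 * V ^ 2 * 4 ^ t = 108 * a ^ 2 * 4 ^ t * v * (v / 3) by rw [hV]; ring, mul_pow]
  ring

end Pool.Agent.Work.MP_d018b2_nt
end
end
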