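import Mathlib

/-!
# The counting function and the singular product of the problem
-/

noncomputable section

namespace Pool.Agent.Work.MP_d018b2_nt

/-- `N(x)`: the number of integers `q` with `x ≤ q < 2x` and every `q r_j + 1` prime -/
def cnt (x : ℝ) {l : ℕ} (r : Fin l → ℕ) : ℕ :=
  ((Finset.range ⌈2 * x⌉₊).filter
    (fun q : ℕ => x ≤ (q : ℝ) ∧ (q : ℝ) < 2 * x ∧ ∀ j, (q * r j + 1).Prime)).card

/-- the singular product `∏_p (1 - w(p)/p) / (1 - 1/p)^l` -/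
def sing {l : ℕ} (r : Fin l → ℕ) : ℝ :=
  ∏' p : Nat.Primes,
    ((1 - (((Finset.range (p : ℕ)).filter
      (fun q : ℕ => (p : ℕ) ∣ ∏ j, (q * r j + 1))).card : ℝ) / (p : ℝ)) / (1 - 1 / (p : ℝ)) ^ l)

end Pool.Agent.Work.MP_d018b2_nt
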