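import Pool.Agent.Work.MP_d018b2_nt.DDefs
import Pool.Agent.Work.MP_52820d_nt.Arith
import Pool.Agent.Work.MP_d018b2_nt.DCore
import Pool.Agent.Lib.ANT.Mertens
import Pool.Agent.Work.MP_52820d_nt.Primes

-- merged part: Pool.Agent.Work.MP_d018b2_nt.DSing
section
-- merged part: Pool.Agent.Work.MP_d018b2_nt.DArith
section
/-!
# Averages over tuples, and the size of the singular product
-/

noncomputable section

open Finset

namespace Pool.Agent.Work.MP_d018b2_nt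

open Pool.Agent.Work.MP_52820d_nt

/-- `∏_{p ∣ t} (1 + 1/p)` -/
def hf (t : ℕ) : ℝ := ∏ p ∈ t.primeFactors, (1 + (p : ℝ)⁻¹)

lemma one_le_hf (t : ℕ) : 1 ≤ hf t :=
  one_le_prod fun _ _ => le_add_of_nonneg_right (by positivity)

lemma hf_mul_le (a b : ℕ) : hf (a * b) ≤ hf a * hf b := by
  rcases Nat.eq_zero_or_pos a with rfl | ha
  · simpa [hf] using one_le_hf b
  rcases Nat.eq_zero_or_pos b with rfl | hb
  · simpa [hf] using one_le_hf a
  rw [hf, Nat.primeFactors_mul ha.ne' hb.ne', hf, hf, ← prod_union_inter]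
  exact le_mul_of_one_le_right (prod_nonneg fun _ _ => by positivity)
    (one_le_prod fun _ _ => le_add_of_nonneg_right (by positivity))

lemma hf_prod_le {β : Type*} (s : Finset β) (f : β → ℕ) : hf (∏ i ∈ s, f i) ≤ ∏ i ∈ s, hf (f i) := by
  classical
  induction s using Finset.induction_on with
  | empty => simp [hf]
  | insert a s ha ih =>
    rw [prod_insert ha, prod_insert ha]
    exact (hf_mul_le _ _).trans (mul_le_mul_of_nonneg_left ih (zero_le_one.trans (one_le_hf _)))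

lemma prod_le_one_add_sum_pow {β : Type*} (s : Finset β) (f : β → ℝ) (h : ∀ i, 0 ≤ f i) :
    ∏ i ∈ s, f i ≤ 1 + ∑ i ∈ s, f i ^ #s := by
  rcases s.eq_empty_or_nonempty with rfl | hs
  · simp
  obtain ⟨j, hj, hm⟩ := exists_max_image s f hs
  refine le_add_of_nonneg_of_le zero_le_one (le_trans ?_
    (single_le_sum (f := fun i => f i ^ #s) (fun i _ => pow_nonneg (h i) _) hj))
  rw [← prod_const]
  exact prod_le_prod (fun i _ => h i) hm

lemma card_dvd_le (H d : ℕ) : (#{t ∈ Icc 1 H | d ∣ t} : ℝ) ≤ H / d := by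
  have := Nat.Ioc_filter_dvd_card_eq_div H d
  rw [show Icc 1 H = Ioc 0 H from rfl, this]
  exact Nat.cast_div_le

lemma sum_prime_sq_le (w H : ℕ) (hw : 0 < w) :
    ∑ p ∈ (Ioc w H).filter Nat.Prime, ((p : ℝ)⁻¹) ^ 2 ≤ (w : ℝ)⁻¹ := by
  have h := sum_Ioc_inv_sq_le_sub (α := ℝ) hw.ne' (le_max_left w H)
  refine le_trans ?_ (h.trans (sub_le_self _ (by positivity)))
  simp_rw [inv_pow]
  exact sum_le_sum_of_subset_of_nonneg ((filter_subset _ _).trans
    (Ioc_subset_Ioc_right (le_max_right _ _))) fun _ _ _ => by positivity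

lemma sum_hf_pow_le (H N : ℕ) : ∑ t ∈ Icc 1 H, hf t ^ N ≤ Real.exp (2 ^ N) * H := by
  set P := (Ioc 1 H).filter Nat.Prime with hP
  have h1 : ∀ t ∈ Icc 1 H, hf t ^ N ≤ ∑ S ∈ P.powerset,
      if ∏ p ∈ S, p ∣ t then ∏ p ∈ S, 2 ^ N * (p : ℝ)⁻¹ else 0 := fun t ht => by
    obtain ⟨t1, t2⟩ := mem_Icc.1 ht
    calc _ ≤ ∏ p ∈ t.primeFactors, (1 + 2 ^ N * (p : ℝ)⁻¹) := by
          rw [hf, ← prod_pow]
          refine prod_le_prod (fun _ _ => by positivity) fun p hp => ?_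
          have h0 : (0 : ℝ) ≤ (p : ℝ)⁻¹ := by positivity
          have h1 : (p : ℝ)⁻¹ ≤ 1 := inv_le_one_of_one_le₀
            (by exact_mod_cast (Nat.prime_of_mem_primeFactors hp).one_lt.le)
          generalize (p : ℝ)⁻¹ = c at h0 h1
          have : ∀ n : ℕ, (1 + c) ^ n ≤ 1 + (2 ^ n - 1) * c := fun n => by
            clear * - c h0 h1 n
            induction n with
            | zero => simp
            | succ n ih =>
              have h2 : (1 : ℝ) ≤ 2 ^ n := one_le_pow₀ one_le_two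
              rw [pow_succ, pow_succ]
              linarith only [ih, h0, h2, h1, mul_le_mul_of_nonneg_right ih (by linarith : 0 ≤ 1 + c),
                mul_nonneg (mul_nonneg (sub_nonneg.2 h2) h0) (sub_nonneg.2 h1)]
          linarith only [h0, this, this N]
      _ ≤ _ := by
          rw [prod_one_add, ← sum_filter]
          refine sum_le_sum_of_subset_of_nonneg (fun S hS => ?_) fun _ _ _ =>
            prod_nonneg fun _ _ => by positivity
          rw [mem_powerset] at hS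
          refine mem_filter.2 ⟨mem_powerset.2 fun p hp => ?_,
            (prod_dvd_prod_of_subset _ _ _ hS).trans (Nat.prod_primeFactors_dvd t)⟩
          have h2 := Nat.prime_of_mem_primeFactors (hS hp)
          exact mem_filter.2 ⟨mem_Ioc.2 ⟨h2.one_lt, (Nat.le_of_mem_primeFactors (hS hp)).trans t2⟩, h2⟩
  refine (sum_le_sum h1).trans ?_
  rw [sum_comm]
  calc _ ≤ ∑ S ∈ P.powerset, (∏ p ∈ S, 2 ^ N * ((p : ℝ)⁻¹) ^ 2) * (H : ℝ) := by
        refine sum_le_sum fun S _ => ?_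
        rw [← sum_filter, sum_const, nsmul_eq_mul]
        refine (mul_le_mul_of_nonneg_right (card_dvd_le _ _)
          (prod_nonneg fun _ _ => by positivity)).trans (le_of_eq ?_)
        rw [Nat.cast_prod, div_eq_mul_inv, ← prod_inv_distrib, mul_assoc, ← prod_mul_distrib, mul_comm]
        exact congrArg (· * _) (prod_congr rfl fun _ _ => by ring)
    _ ≤ _ := by
        rw [← sum_mul, ← prod_one_add]
        refine mul_le_mul_of_nonneg_right ?_ (Nat.cast_nonneg _)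
        calc _ ≤ ∏ p ∈ P, Real.exp (2 ^ N * ((p : ℝ)⁻¹) ^ 2) :=
              prod_le_prod (fun _ _ => by positivity) fun p _ => by
                linarith only [Real.add_one_le_exp (2 ^ N * ((p : ℝ)⁻¹) ^ 2)]
          _ ≤ _ := by
              rw [← Real.exp_sum, ← mul_sum]
              refine Real.exp_le_exp.2 (mul_le_of_le_one_right (by positivity) ?_)
              simpa using sum_prime_sq_le 1 H one_pos

/-- the sum of `1/p` over the primes `p > w` dividing `t`, with a penalty for `p₁` -/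
def pen (w p₁ t : ℕ) : ℝ := ∑ p ∈ t.primeFactors with w < p, (p : ℝ)⁻¹ + if p₁ ∣ t then 1 else 0

lemma pen_nonneg (w p₁ t : ℕ) : 0 ≤ pen w p₁ t :=
  add_nonneg (sum_nonneg fun _ _ => by positivity) (by split_ifs <;> norm_num)

lemma sum_pen_le {w p₁ : ℕ} (hw : 0 < w) (hp : w < p₁) (H : ℕ) :
    ∑ t ∈ Icc 1 H, pen w p₁ t ≤ 2 / w * H := by
  have hw' : (0 : ℝ) < w := by exact_mod_cast hw
  have h1 : ∑ t ∈ Icc 1 H, ∑ p ∈ t.primeFactors with w < p, (p : ℝ)⁻¹ ≤ (w : ℝ)⁻¹ * H := by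
    calc _ ≤ ∑ t ∈ Icc 1 H, ∑ p ∈ (Ioc w H).filter Nat.Prime, if p ∣ t then (p : ℝ)⁻¹ else 0 := by
          refine sum_le_sum fun t ht => ?_
          rw [← sum_filter]
          refine sum_le_sum_of_subset_of_nonneg (fun p hp => ?_) fun _ _ _ => by positivity
          simp only [mem_filter, mem_Ioc, mem_Icc] at hp ht ⊢
          exact ⟨⟨⟨hp.2, (Nat.le_of_mem_primeFactors hp.1).trans ht.2⟩,
            Nat.prime_of_mem_primeFactors hp.1⟩, Nat.dvd_of_mem_primeFactors hp.1⟩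
      _ ≤ ∑ p ∈ (Ioc w H).filter Nat.Prime, ((p : ℝ)⁻¹) ^ 2 * H := by
          rw [sum_comm]
          refine sum_le_sum fun p _ => ?_
          rw [← sum_filter, sum_const, nsmul_eq_mul]
          exact (mul_le_mul_of_nonneg_right (card_dvd_le _ _) (by positivity)).trans
            (le_of_eq (by ring))
      _ ≤ _ := by
          rw [← sum_mul]
          exact mul_le_mul_of_nonneg_right (sum_prime_sq_le w H hw) (Nat.cast_nonneg _)
  have h2 : ∑ t ∈ Icc 1 H, (if p₁ ∣ t then 1 else 0 : ℝ) ≤ (w : ℝ)⁻¹ * H := by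
    rw [← sum_filter, sum_const, nsmul_eq_mul, mul_one, inv_mul_eq_div]
    refine (card_dvd_le _ _).trans ?_
    gcongr
  simp only [pen, sum_add_distrib]
  rw [div_eq_mul_inv]; linarith only [h1, h2]

variable {ι : Type*} [Fintype ι] [DecidableEq ι]

/-- the entries and the differences of a tuple -/
def dd (r : ι → ℕ) (e : ι × ι) : ℕ := if e.1 = e.2 then r e.1 else Nat.dist (r e.1) (r e.2)

/-- their product -/
def Del (r : ι → ℕ) : ℕ := ∏ e, dd r e

lemma Del_pos {r : ι → ℕ} (h0 : ∀ i, 0 < r i) (hr : Function.Injective r) : 0 < Del r :=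
  prod_pos fun e _ => by
    unfold dd; split_ifs with h
    exacts [h0 _, Nat.dist_pos_of_ne fun h' => h (hr h')]

lemma dvd_Del (r : ι → ℕ) (i : ι) : r i ∣ Del r := by
  have := dvd_prod_of_mem (dd r) (mem_univ (i, i))
  rwa [dd, if_pos rfl] at this

lemma eq_of_not_dvd_Del {r : ι → ℕ} {p : ℕ} (hp : p.Prime) (h : ¬ p ∣ Del r) {n : ℕ} {i j : ι}
    (hi : p ∣ r i * n + 1) (hj : p ∣ r j * n + 1) : i = j := by
  by_contra hne
  have h1 := dvd_prod_of_mem (dd r) (mem_univ (i, j))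
  rw [dd, if_neg hne] at h1
  have h2 : p ∣ Nat.dist (r i) (r j) * n := by
    rw [← Nat.dist_mul_right, ← Nat.dist_add_add_right _ 1, Nat.dist]
    exact dvd_add (Nat.dvd_sub hi hj) (Nat.dvd_sub hj hi)
  rcases (Nat.Prime.dvd_mul hp).1 h2 with h3 | h3
  · exact h (h3.trans h1)
  · exact hp.not_dvd_one ((Nat.dvd_add_right (h3.mul_left _)).1 hi)

lemma hf_Del_pow_le (r : ι → ℕ) (s : ℕ) :
    hf (Del r) ^ s ≤ 1 + ∑ e, hf (dd r e) ^ (s * Fintype.card (ι × ι)) := by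
  refine (pow_le_pow_left₀ (zero_le_one.trans (one_le_hf _)) (hf_prod_le _ _) s).trans ?_
  rw [← prod_pow]
  simp_rw [pow_mul]
  exact prod_le_one_add_sum_pow _ _ fun _ => pow_nonneg (zero_le_one.trans (one_le_hf _)) _

/-- the tuples of distinct elements of `[1, H]` -/
def Tup (ι : Type*) [Fintype ι] [DecidableEq ι] (H : ℕ) : Finset (ι → ℕ) :=
  (Fintype.piFinset fun _ => Icc 1 H).filter Function.Injective

lemma mem_Tup {H : ℕ} {r : ι → ℕ} :
    r ∈ Tup ι H ↔ (∀ i, 1 ≤ r i ∧ r i ≤ H) ∧ Function.Injective r := by simp [Tup]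

lemma card_Tup_le (H : ℕ) : (#(Tup ι H) : ℝ) ≤ H ^ Fintype.card ι := by
  exact_mod_cast (card_filter_le _ _).trans (by simp)

lemma sum_update (A : Finset ℕ) (i : ι) (Φ : (ι → ℕ) → ℝ) :
    #A * ∑ r ∈ Fintype.piFinset fun _ : ι => A, Φ r
      = ∑ r ∈ Fintype.piFinset fun _ : ι => A, ∑ a ∈ A, Φ (Function.update r i a) := by
  rw [mul_sum, ← sum_product', show ∀ f : (ι → ℕ) → ℝ, ∑ r ∈ Fintype.piFinset fun _ : ι => A,
    #A * f r = ∑ z ∈ (Fintype.piFinset fun _ : ι => A) ×ˢ A, f z.1 from fun f => by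
      rw [sum_product]; simp]
  have hm : ∀ z ∈ (Fintype.piFinset fun _ : ι => A) ×ˢ A,
      (Function.update z.1 i z.2, z.1 i) ∈ (Fintype.piFinset fun _ : ι => A) ×ˢ A := fun z hz => by
    simp only [mem_product, Fintype.mem_piFinset] at hz ⊢
    refine ⟨fun j => ?_, hz.1 i⟩
    by_cases h : j = i
    · subst h; simpa using hz.2
    · simpa [h] using hz.1 j
  exact sum_nbij' (fun z => (Function.update z.1 i z.2, z.1 i))
    (fun z => (Function.update z.1 i z.2, z.1 i)) hm hm (fun z _ => by simp) (fun z _ => by simp)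
    fun z _ => by simp

lemma sum_Tup_dd_le (H : ℕ) (ψ : ℕ → ℝ) (h0 : ∀ t, 0 ≤ ψ t) {C : ℝ}
    (hC : ∑ t ∈ Icc 1 H, ψ t ≤ C * H) (e : ι × ι) :
    ∑ r ∈ Tup ι H, ψ (dd r e) ≤ 2 * C * H ^ Fintype.card ι := by
  rcases Nat.eq_zero_or_pos H with rfl | hH
  · have : Nonempty ι := ⟨e.1⟩
    rw [sum_eq_zero fun r hr => by have := (mem_Tup.1 hr).1 e.1; omega]
    simp [Fintype.card_ne_zero]
  have hH' : (0 : ℝ) < H := by exact_mod_cast hH
  have hs : 0 ≤ ∑ t ∈ Icc 1 H, ψ t := sum_nonneg fun _ _ => h0 _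
  have h1 : ∑ r ∈ Tup ι H, ψ (dd r e) ≤ ∑ r ∈ Fintype.piFinset fun _ : ι => Icc 1 H,
      if dd r e = 0 then 0 else ψ (dd r e) := by
    refine le_trans (sum_le_sum fun r hr => ?_) (sum_le_sum_of_subset_of_nonneg (filter_subset _ _)
      fun _ _ _ => by split_ifs; exacts [le_rfl, h0 _])
    obtain ⟨a1, a2⟩ := mem_Tup.1 hr
    rw [if_neg (Nat.pos_of_dvd_of_pos (dvd_prod_of_mem _ (mem_univ e))
      (Del_pos (fun i => (a1 i).1) a2)).ne']
  refine h1.trans (le_of_mul_le_mul_left ?_ hH')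
  have h2 := sum_update (Icc 1 H) e.1 fun r => if dd r e = 0 then 0 else ψ (dd r e)
  rw [Nat.card_Icc, Nat.add_sub_cancel] at h2
  rw [h2]
  refine (sum_le_card_nsmul _ _ (2 * (C * H)) fun r hr => ?_).trans (le_of_eq (by simp; ring))
  by_cases he : e.1 = e.2
  · refine le_trans (sum_le_sum fun a _ => ?_) (hC.trans (by linarith only [hC, hs]))
    simp only [dd, if_pos he, Function.update_self]
    split_ifs
    exacts [h0 _, le_rfl]
  · simp only [dd, if_neg he, Function.update_self, Function.update_of_ne (Ne.symm he)]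
    have hc := mem_Icc.1 (Fintype.mem_piFinset.1 hr e.2)
    generalize r e.2 = c at hc
    rw [← sum_filter_add_sum_filter_not _ (· ≤ c), two_mul]
    refine add_le_add (le_trans ?_ hC) (le_trans ?_ hC)
    · rw [sum_ite, sum_const_zero, zero_add]
      refine Lib.LargeSieve.sum_le_of_injOn _ _ _ _ (fun a => Nat.dist a c) (fun a ha b hb h => ?_)
        (fun t ht => ?_) (fun _ _ => h0 _) fun _ _ => le_rfl
      · simp only [coe_filter, mem_filter, Set.mem_ofPred_eq, Nat.dist] at ha hb h; omega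
      · simp only [mem_filter, mem_Icc, Nat.dist] at ht ⊢; omega
    · rw [sum_ite, sum_const_zero, zero_add]
      refine Lib.LargeSieve.sum_le_of_injOn _ _ _ _ (fun a => Nat.dist a c) (fun a ha b hb h => ?_)
        (fun t ht => ?_) (fun _ _ => h0 _) fun _ _ => le_rfl
      · simp only [coe_filter, mem_filter, Set.mem_ofPred_eq, Nat.dist] at ha hb h; omega
      · simp only [mem_filter, mem_Icc, Nat.dist] at ht ⊢; omega

/-- the constant in the average of `hf (Del r) ^ s` -/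
def cH (k s : ℕ) : ℝ := 1 + k ^ 2 * (2 * Real.exp (2 ^ (s * (k * k))))

lemma cH_pos (k s : ℕ) : 0 < cH k s := by unfold cH; positivity

lemma sum_Tup_hf_le (H s : ℕ) :
    ∑ r ∈ Tup ι H, hf (Del r) ^ s ≤ cH (Fintype.card ι) s * H ^ Fintype.card ι := by
  refine (sum_le_sum fun r _ => hf_Del_pow_le r s).trans ?_
  rw [sum_add_distrib, sum_comm, sum_const, nsmul_eq_mul, mul_one, cH, add_mul, one_mul]
  refine add_le_add (card_Tup_le H) ((sum_le_card_nsmul _ _ _ fun e _ => sum_Tup_dd_le H _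
    (fun t => pow_nonneg (zero_le_one.trans (one_le_hf t)) _) (sum_hf_pow_le H _) e).trans
    (le_of_eq ?_))
  simp; ring

lemma sum_Tup_pen_le {w p₁ : ℕ} (hw : 0 < w) (hp : w < p₁) (H : ℕ) :
    ∑ r ∈ Tup ι H, ∑ e, pen w p₁ (dd r e) ≤ 4 * Fintype.card ι ^ 2 / w * H ^ Fintype.card ι := by
  rw [sum_comm]
  refine (sum_le_card_nsmul _ _ _ fun e _ => sum_Tup_dd_le H _ (pen_nonneg w p₁)
    (sum_pen_le hw hp H) e).trans (le_of_eq ?_)
  simp; ring

end Pool.Agent.Work.MP_d018b2_nt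
end
end

-- merged part: Pool.Agent.Work.MP_d018b2_nt.DMoment
section
/-!
# Upper bound sieve for rough values, and moments of the number of rough values
-/

noncomputable section

open Finset

namespace Pool.Agent.Work.MP_d018b2_nt

open Pool.Agent.Lib.ANT Pool.Agent.Work.MP_52820d_nt

lemma prod_primes_bounds {Z z : ℕ} (hZ : 100 ≤ Real.log Z) (hZz : Z ≤ z) {P : Finset ℕ}
    (hP : P ⊆ (Ioc Z z).filter Nat.Prime) :
    (∑ p ∈ (Ioc Z z).filter Nat.Prime \ P, (p : ℝ)⁻¹ ≤ 1 / 4 →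
      Real.log z / Real.log Z / 3 ≤ ∏ p ∈ P, (1 + (p : ℝ)⁻¹)) ∧
      ∏ p ∈ P, (1 + (p : ℝ)⁻¹) ≤ 3 * (Real.log z / Real.log Z) := by
  have hZ1 : (100 : ℝ) ≤ Z := by
    rcases Nat.eq_zero_or_pos Z with rfl | h
    · norm_num at hZ
    · linarith only [hZ, h, Real.log_le_sub_one_of_pos (show (0 : ℝ) < Z by exact_mod_cast h)]
  have hZ2 : 100 ≤ Z := by exact_mod_cast hZ1
  have hlz : Real.log Z ≤ Real.log z := Lib.LargeSieve.log_nat_mono hZz
  have hM := abs_le.1 (abs_sum_inv_prime_Ioc_sub_le Z z (by omega) hZz)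
  have h48 : 48 / Real.log Z ≤ 48 / 100 := by gcongr
  have hZi : (Z : ℝ)⁻¹ ≤ 1 / 100 := by rw [one_div]; exact inv_anti₀ (by norm_num) hZ1
  have e2 : Real.exp (Real.log (Real.log z) - Real.log (Real.log Z)) = Real.log z / Real.log Z := by
    rw [Real.exp_sub, Real.exp_log (by linarith only [hZ, hlz]), Real.exp_log (by linarith only [hZ])]
  have h0 : 0 ≤ Real.log z / Real.log Z := div_nonneg (by linarith only [hZ, hlz]) (by linarith only [hZ])
  have h3 := Real.exp_one_lt_three.le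
  have h4 := sum_sdiff (f := fun p : ℕ => (p : ℝ)⁻¹) hP
  constructor
  · intro h1
    have h5 : ∑ p ∈ P, ((p : ℝ)⁻¹) ^ 2 ≤ (Z : ℝ)⁻¹ := (sum_le_sum_of_subset_of_nonneg hP
      fun _ _ _ => by positivity).trans (sum_prime_sq_le Z z (by omega))
    calc _ ≤ Real.log z / Real.log Z / Real.exp 1 := by gcongr
      _ = Real.exp (Real.log (Real.log z) - Real.log (Real.log Z) - 1) := by
          rw [Real.exp_sub _ 1, e2]
      _ ≤ Real.exp (∑ p ∈ P, ((p : ℝ)⁻¹ - ((p : ℝ)⁻¹) ^ 2)) := by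
          clear * - z Z P hM h48 hZi h4 h1 h5
          rw [sum_sub_distrib]
          exact Real.exp_le_exp.2 (by linarith only [hM, h48, hZi, h4, h1, h5])
      _ ≤ _ := by
          clear * - P
          rw [Real.exp_sum]
          refine prod_le_prod (fun _ _ => (Real.exp_pos _).le) fun p _ => ?_
          have ht : (0 : ℝ) ≤ (p : ℝ)⁻¹ := by positivity
          generalize (p : ℝ)⁻¹ = t at ht
          have := Real.add_one_le_exp (-(t - t ^ 2))
          rw [Real.exp_neg, ← one_div, le_div_iff₀ (Real.exp_pos _)] at this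
          linarith only [this, ht, Real.exp_pos (t - t ^ 2), mul_nonneg (pow_nonneg ht 3)
            (Real.exp_pos (t - t ^ 2)).le, mul_nonneg_of_nonpos_of_nonpos (Mathlib.Tactic.Linarith.sub_nonpos_of_le ht) (Mathlib.Tactic.Linarith.sub_nonpos_of_le this)]
  · calc _ ≤ Real.exp (∑ p ∈ P, (p : ℝ)⁻¹) := by
          rw [Real.exp_sum]
          exact prod_le_prod (fun _ _ => by positivity) fun p _ => by
            linarith only [Real.add_one_le_exp (p : ℝ)⁻¹]
      _ ≤ Real.exp (1 + (Real.log (Real.log z) - Real.log (Real.log Z))) := by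
          clear * - Z z P hM h48 h4
          have : 0 ≤ ∑ p ∈ (Ioc Z z).filter Nat.Prime \ P, (p : ℝ)⁻¹ :=
            sum_nonneg fun _ _ => by positivity
          exact Real.exp_le_exp.2 (by linarith only [hM, h48, h4, this])
      _ ≤ _ := by rw [Real.exp_add, e2]; gcongr

/-- the sieve primes -/
def SQ (w z Δ p₁ : ℕ) : Finset ℕ := (Ioc w z).filter fun p => p.Prime ∧ ¬ p ∣ Δ ∧ p ≠ p₁

lemma mem_SQ {w z Δ p₁ p : ℕ} :
    p ∈ SQ w z Δ p₁ ↔ (w < p ∧ p ≤ z) ∧ p.Prime ∧ ¬ p ∣ Δ ∧ p ≠ p₁ := by simp [SQ]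

lemma SQ_subset (w z Δ p₁ : ℕ) : SQ w z Δ p₁ ⊆ (Ioc w z).filter Nat.Prime := fun p hp => by
  rw [mem_SQ] at hp
  exact mem_filter.2 ⟨mem_Ioc.2 hp.1, hp.2.1⟩

lemma VV_SQ {w z zs : ℕ} (Δ p₁ : ℕ) (hz : z ≤ zs) :
    VV (Subtype.val : SQ w zs Δ p₁ → ℕ) z = ∏ p ∈ SQ w z Δ p₁, (1 + (p : ℝ)⁻¹) := by
  rw [VV, prod_filter, prod_coe_sort _ fun p : ℕ => if p ≤ z then 1 + (p : ℝ)⁻¹ else 1,
    ← prod_filter]
  refine prod_congr (ext fun p => ?_) fun _ _ => rfl
  simp only [mem_filter, mem_SQ]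
  exact ⟨fun h => ⟨⟨h.1.1.1, h.2⟩, h.1.2⟩, fun h => ⟨⟨⟨h.1.1, h.1.2.trans hz⟩, h.2⟩, h.1.2⟩⟩

lemma LL_SQ {w z zs Δ p₁ : ℕ} (hz : 0 < z) :
    LL (Subtype.val : SQ w zs Δ p₁ → ℕ) z ≤ Real.log z + 14 := by
  have := (abs_le.1 (abs_sum_log_div_prime_sub_log_le z hz)).2
  rw [LL, sum_filter, sum_coe_sort _ fun p : ℕ => if p ≤ z then Real.log p / p else 0,
    ← sum_filter]
  refine le_trans (sum_le_sum_of_subset_of_nonneg (fun p hp => ?_) fun p _ _ =>
    div_nonneg (Real.log_natCast_nonneg p) (Nat.cast_nonneg p)) (le_of_sub_le_of_le this)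
  simp only [mem_filter, mem_SQ, mem_Ioc] at hp ⊢
  exact ⟨⟨hp.1.2.1.pos, hp.2⟩, hp.1.2.1⟩
where le_of_sub_le_of_le {a b : ℝ} (h : a - b ≤ 14) : a ≤ b + 14 := by linarith only [h]

lemma sum_sq_SQ {w : ℕ} (hw : 0 < w) (z Δ p₁ : ℕ) :
    ∑ p : SQ w z Δ p₁, ((p.1 : ℝ)⁻¹) ^ 2 ≤ (w : ℝ)⁻¹ :=
  (sum_coe_sort _ fun p : ℕ => ((p : ℝ)⁻¹) ^ 2).trans_le ((sum_le_sum_of_subset_of_nonneg
    (SQ_subset _ _ _ _) fun _ _ _ => by positivity).trans (sum_prime_sq_le w z hw))

variable {ι : Type*} [Fintype ι] [DecidableEq ι]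

lemma rough_count {w y x j : ℕ} (hj : Fintype.card ι = j) (hw : 100 ≤ Real.log w) (hwy : w ≤ y)
    (hw2 : 4 ^ j * (6 * j + 3) ≤ (w : ℝ))
    (hx : (3 * Real.log y) ^ (7 * j) * (((y ^ 4) ^ j : ℕ) : ℝ) ^ 2 ≤ x)
    {r : ι → ℕ} (hΔ : 0 < Del r) {E : Finset ℕ} (hE : E ⊆ Ioc x (x + x))
    (hE' : ∀ n ∈ E, ∀ i, Rough y (r i * n + 1)) :
    (#E : ℝ) ≤ 4 * x * (12 * Real.log w * hf (Del r) / Real.log y) ^ j := by
  have hw0 : 0 < w := by
    rcases Nat.eq_zero_or_pos w with rfl | h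
    · norm_num at hw
    · exact h
  have hw' : (0 : ℝ) < w := by exact_mod_cast hw0
  have hly : Real.log w ≤ Real.log y := Lib.LargeSieve.log_nat_mono hwy
  have hy1 : 1 < y := by
    by_contra h
    have : Real.log y ≤ Real.log ((1 : ℕ) : ℝ) := Lib.LargeSieve.log_nat_mono (not_lt.1 h)
    rw [Nat.cast_one, Real.log_one] at this; linarith only [hw, hly, this]
  set pr : SQ w y (Del r) 0 → ℕ := Subtype.val with hpr'
  have hpr : ∀ p, (pr p).Prime := fun p => (mem_SQ.1 p.2).2.1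
  have hp2 : ∀ p, 2 ≤ pr p := fun p => (hpr p).two_le
  obtain ⟨G, hG⟩ : ∃ G, G = ∑ b, nu pr b * if bar pr b ≤ y ^ 4 then 1 else 0 := ⟨_, rfl⟩
  obtain ⟨V, hV⟩ : ∃ V, V = ∏ p, (1 + (pr p : ℝ)⁻¹) := ⟨_, rfl⟩
  have hV' : V = ∏ p ∈ SQ w y (Del r) 0, (1 + (p : ℝ)⁻¹) :=
    hV.trans (prod_coe_sort _ fun p : ℕ => 1 + (p : ℝ)⁻¹)
  have hV1 : 1 ≤ V := hV ▸ one_le_prod fun p _ => le_add_of_nonneg_right (by positivity)
  have hV2 : V ≤ 3 * Real.log y := by
    clear * - w y ι r hw hwy hly V hV'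
    refine hV' ▸ (prod_primes_bounds hw hwy (SQ_subset _ _ _ _)).2.trans ?_
    gcongr
    exact div_le_self (by linarith only [hw, hly]) (by linarith only [hw])
  have hV3 : Real.log y / Real.log w / 3 ≤ V * hf (Del r) := by
    clear * - y w V ι r hw hwy hV' hΔ hV1
    refine ((prod_primes_bounds hw hwy Subset.rfl).1 (by simp)).trans ?_
    rw [← prod_sdiff (SQ_subset w y (Del r) 0), ← hV', mul_comm]
    refine mul_le_mul_of_nonneg_left (prod_le_prod_of_subset_of_one_le (fun p hp => ?_)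
      (fun _ _ => by positivity) fun _ _ _ => le_add_of_nonneg_right (by positivity)) (by linarith only [hV1])
    simp only [mem_sdiff, mem_filter, mem_SQ, mem_Ioc, not_and, not_not] at hp
    by_contra hc
    exact hp.1.2.ne_zero (hp.2 hp.1.1 hp.1.2 fun h => hc (Nat.mem_primeFactors.2 ⟨hp.1.2, h, hΔ.ne'⟩))
  have hGV : V / 2 ≤ G := by
    clear * - w y ι r pr hp2 hy1 j hw hly V G hV' hG
    have := VV_le_trunc hp2 (z := y) (R := y ^ 4) (Nat.one_lt_pow (by norm_num) hy1)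
      ((LL_SQ (by omega)).trans (by rw [Nat.cast_pow, Real.log_pow]; push_cast; linarith only [hw, hly]))
    rw [VV_SQ _ _ le_rfl, ← hV'] at this
    exact this.trans (hG ▸ sum_le_sum fun b _ => mul_le_mul_of_nonneg_right
      (mul_le_of_le_one_left (nu_nonneg _ _) (ind_le_one _ _ _)) (by split_ifs <;> norm_num))
  have hG0 : 0 < G := by linarith only [hV1, hGV]
  have hGj : ∑ T : ι → SQ w y (Del r) 0 → Bool,
      (∏ i, if bar pr (T i) ≤ y ^ 4 then (1 : ℝ) else 0) * ∏ i, nu pr (T i) = G ^ j := by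
    rw [hG, ← hj, ← card_univ, ← prod_const, Fintype.prod_sum fun (_ : ι) b =>
      nu pr b * if bar pr b ≤ y ^ 4 then (1 : ℝ) else 0]
    exact sum_congr rfl fun T _ => by rw [prod_mul_distrib, mul_comm]
  have h1 := sum_int_le hpr Subtype.val_injective one_pos (fun p => (hpr p).not_dvd_one) r
    (fun _ => 1) (fun i p h => (mem_SQ.1 p.2).2.2.1 (h.trans (dvd_Del r i)))
    (fun n p i j => eq_of_not_dvd_Del (hpr p) (mem_SQ.1 p.2).2.2.1) 0 x
    (fun T => ∏ i, if bar pr (T i) ≤ y ^ 4 then (1 : ℝ) else 0) (Ym := 1)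
    (fun T => by rw [prod_boole]; split_ifs <;> simp) ((y ^ 4) ^ j)
    (fun T h => by
      rw [← hj, ← card_univ, ← prod_const]
      refine prod_le_prod' fun i _ => ?_
      by_contra h'
      exact h (prod_eq_zero (mem_univ i) (if_neg h'))) (ε := 1)
    (by
      rw [hj]
      refine (mul_le_mul hw2 (sum_sq_SQ hw0 _ _ _) (sum_nonneg fun _ _ => sq_nonneg _) hw'.le).trans ?_
      rw [mul_inv_cancel₀ hw'.ne']) le_rfl
  have h2 : ∑ T : ι → SQ w y (Del r) 0 → Bool,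
      (∏ i, if bar pr (T i) ≤ y ^ 4 then (1 : ℝ) else 0) ^ 2 * ∏ i, ((bar pr (T i) : ℕ) : ℝ)⁻¹
        = G ^ j := by
    clear * - ι w y r pr G j hGj
    rw [← hGj]
    refine sum_congr rfl fun T _ => ?_
    rw [prod_boole]; split_ifs <;> simp [nu]
  have h3 : #E * (G ^ j) ^ 2
      ≤ ∑ n ∈ Ioc x (x + x) with n ≡ 0 [MOD 1], sieveFn pr
        (fun T => ∏ i, if bar pr (T i) ≤ y ^ 4 then (1 : ℝ) else 0)
        (fun i p => decide (pr p ∣ r i * n + 1)) ^ 2 := by
    rw [← nsmul_eq_mul, ← sum_const, filter_true_of_mem fun _ _ => Nat.modEq_one]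
    refine le_trans (le_of_eq (sum_congr rfl fun n hn => ?_))
      (sum_le_sum_of_subset_of_nonneg hE fun _ _ _ => sq_nonneg _)
    rw [← hGj, sieveFn]
    refine congrArg (· ^ 2) (sum_congr rfl fun T _ => congrArg _ (prod_congr rfl fun i _ => ?_))
    rw [nu, inv_bar]
    refine prod_congr rfl fun p _ => ?_
    have := hE' n hn i (pr p) (mem_range.2 (Nat.lt_succ_of_le (mem_SQ.1 p.2).1.2)) (hpr p)
    simp [this]
  rw [h2, ← hV, hj] at h1
  have h4 := h3.trans h1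
  have hx0 : (0 : ℝ) ≤ x := Nat.cast_nonneg _
  have a1 : V ^ (7 * j) * (((y ^ 4) ^ j : ℕ) : ℝ) ^ 2 ≤ x := le_trans (by clear * - y j V hV1 hV2 hy1 hx x; gcongr) hx
  have a2 : V ^ j ≤ (2 * G) ^ j := by clear * - V G hV1 hGV j; gcongr; linarith only [hGV]
  have a3 : G ^ j ≤ (2 * G) ^ j := by clear * - G hG0 j; gcongr; linarith
  have a4 : 1 ≤ (2 * G) ^ j := one_le_pow₀ (by clear * - G V hV1 hGV j; linarith only [hV1, hGV])
  have a5 : 2 ≤ 12 * Real.log w * hf (Del r) / Real.log y * G := by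
    clear * - w ι r y G hw hly V hV3 hGV
    rw [div_mul_eq_mul_div, le_div_iff₀ (by linarith only [hw, hly])]
    rw [div_div, div_le_iff₀ (by linarith only [hw])] at hV3
    have := one_le_hf (Del r)
    linarith only [hV3, hGV, hw, this, mul_le_mul_of_nonneg_left hGV (by positivity : 0 ≤ 12 * Real.log w * hf (Del r))]
  refine le_of_mul_le_mul_right (h4.trans ?_) (by positivity : 0 < (G ^ j) ^ 2)
  calc _ ≤ 4 * x * (2 * G) ^ j := by
        clear * - x G j V y a1 a2 hx0 a3 a4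
        simp only [Nat.cast_one, div_one, one_pow, one_mul, mul_one]
        linarith only [a1, a2, hx0, a3, a4, mul_le_mul_of_nonneg_left a2 hx0, mul_le_mul_of_nonneg_left a3 hx0,
          mul_le_mul_of_nonneg_left a4 hx0]
    _ ≤ 4 * x * (12 * Real.log w * hf (Del r) / Real.log y * G * G) ^ j := by clear * - x G j w ι r y hG0 a5; gcongr
    _ = _ := by rw [mul_pow, mul_pow]; ring

lemma card_inj_ge (S : Finset ℕ) (j : ℕ) :
    (#S + 1 - j) ^ j ≤ #{r ∈ Fintype.piFinset fun _ : Fin j => S | Function.Injective r} := by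
  refine (Nat.pow_sub_le_descFactorial _ _).trans ?_
  have h := Fintype.card_embedding_eq (α := Fin j) (β := S)
  rw [Fintype.card_coe, Fintype.card_fin] at h
  rw [← h, ← card_univ]
  refine card_le_card_of_injOn (fun e i => (e i : ℕ)) (fun e _ => ?_) fun e _ e' _ h' => ?_
  · simp only [coe_filter, Fintype.mem_piFinset, Set.mem_ofPred_eq]
    exact ⟨fun i => (e i).2, Subtype.val_injective.comp e.injective⟩
  · exact Function.Embedding.ext fun i => Subtype.ext (congrFun h' i)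

lemma pow_card_le (S : Finset ℕ) (j : ℕ) : (#S : ℝ) ^ j ≤ (2 * j) ^ j +
    2 ^ j * #{r ∈ Fintype.piFinset fun _ : Fin j => S | Function.Injective r} := by
  rcases le_total #S (2 * j) with h | h
  · exact le_add_of_le_of_nonneg (by gcongr; exact_mod_cast h) (by positivity)
  · refine le_add_of_nonneg_of_le (by positivity) ?_
    have h1 : #S ^ j ≤ 2 ^ j * (#S + 1 - j) ^ j := by
      rw [← mul_pow]; exact Nat.pow_le_pow_left (by omega) _
    exact_mod_cast h1.trans (Nat.mul_le_mul_left _ (card_inj_ge S j))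

/-- the set of `a ≤ H` with `a n + 1` rough -/
def RS (H y n : ℕ) : Finset ℕ := {a ∈ Icc 1 H | Rough y (a * n + 1)}

lemma moment_le {w y x j H : ℕ} (hw : 100 ≤ Real.log w) (hwy : w ≤ y)
    (hw2 : 4 ^ j * (6 * j + 3) ≤ (w : ℝ))
    (hx : (3 * Real.log y) ^ (7 * j) * (((y ^ 4) ^ j : ℕ) : ℝ) ^ 2 ≤ x) {B : ℝ}
    (hH : H ≤ B * Real.log y) :
    ∑ n ∈ Ioc x (x + x), (#(RS H y n) : ℝ) ^ j
      ≤ ((2 * j) ^ j + 4 * cH j j * (24 * Real.log w * B) ^ j) * x := by
  have hly : Real.log w ≤ Real.log y := Lib.LargeSieve.log_nat_mono hwy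
  have hl0 : 0 < Real.log y := by linarith only [hw, hly]
  have h1 : ∑ n ∈ Ioc x (x + x),
      (#{r ∈ Fintype.piFinset fun _ : Fin j => RS H y n | Function.Injective r} : ℝ)
        = ∑ r ∈ Tup (Fin j) H, (#{n ∈ Ioc x (x + x) | ∀ i, Rough y (r i * n + 1)} : ℝ) := by
    simp_rw [card_filter, Nat.cast_sum]
    rw [sum_comm]
    refine sum_congr rfl fun n _ => ?_
    simp_rw [← Nat.cast_sum, ← card_filter]
    refine congrArg _ (congrArg _ (ext fun r => ?_))
    simp only [mem_filter, Fintype.mem_piFinset, RS, mem_Tup, mem_Icc]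
    exact ⟨fun h => ⟨⟨fun i => (h.1 i).1, h.2⟩, fun i => (h.1 i).2⟩,
      fun h => ⟨fun i => ⟨h.1.1 i, h.2 i⟩, h.1.2⟩⟩
  refine (sum_le_sum fun n _ => pow_card_le _ j).trans ?_
  rw [sum_add_distrib, ← mul_sum, h1, sum_const, Nat.card_Ioc, Nat.add_sub_cancel, nsmul_eq_mul,
    add_mul, mul_comm]
  refine add_le_add le_rfl ?_
  have h2 := sum_Tup_hf_le (ι := Fin j) H j
  rw [Fintype.card_fin] at h2
  calc _ ≤ 2 ^ j * ∑ r ∈ Tup (Fin j) H, 4 * x * (12 * Real.log w / Real.log y) ^ j * hf (Del r) ^ j := by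
        gcongr with r hr
        obtain ⟨a1, a2⟩ := mem_Tup.1 hr
        refine (rough_count (Fintype.card_fin j) hw hwy hw2 hx
          (Del_pos (fun i => (a1 i).1) a2) (filter_subset _ _)
          fun n hn => (mem_filter.1 hn).2).trans (le_of_eq ?_)
        rw [mul_assoc _ _ (hf _ ^ j), ← mul_pow]; ring
    _ ≤ 2 ^ j * (4 * x * (12 * Real.log w / Real.log y) ^ j * (cH j j * (B * Real.log y) ^ j)) := by
        clear * - j H x w y B h2 hH hw hl0
        rw [← mul_sum]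
        have := cH_pos j j
        gcongr
        exact h2.trans (by gcongr)
    _ = 4 * cH j j * (2 * (12 * Real.log w / Real.log y) * (B * Real.log y)) ^ j * x := by
        rw [mul_pow _ (B * _), mul_pow 2]; ring
    _ = _ := by congr 3; field_simp; ring

end Pool.Agent.Work.MP_d018b2_nt
end
end

-- merged part: Pool.Agent.Work.MP_d018b2_nt.DStep
section
/-!
# The sieve argument with explicit parameters
-/

noncomputable section

open Finset

namespace Pool.Agent.Work.MP_d018b2_nt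

open Pool.Agent.Lib.ANT Pool.Agent.Work.MP_52820d_nt

lemma log_two_pow' (m : ℕ) : Real.log ((2 ^ m : ℕ) : ℝ) = m * Real.log 2 := by
  rw [Nat.cast_pow, Real.log_pow]; rfl

lemma log_mono' {a b : ℕ} (h : a ≤ b) : Real.log a ≤ Real.log b := Lib.LargeSieve.log_nat_mono h

lemma totient_primorial (w : ℕ) : Real.log w * (primorial w).totient ≤ primorial w := by
  have h1 := log_le_prod_one_sub_inv_prime_inv w
  have h2 : ((primorial w).totient : ℝ)
      = primorial w * ∏ p ∈ (primorial w).primeFactors, (1 - (p : ℝ)⁻¹) := by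
    have := congrArg (fun q : ℚ => (q : ℝ)) (Nat.totient_eq_mul_prod_factors (primorial w))
    simpa using this
  have h3 : (primorial w).primeFactors = (Ioc 0 w).filter Nat.Prime := by
    ext p
    simp only [Nat.mem_primeFactors, mem_filter, mem_Ioc]
    exact ⟨fun h => ⟨⟨h.1.pos, h.1.dvd_primorial_iff.1 h.2.1⟩, h.1⟩,
      fun h => ⟨h.2, h.2.dvd_primorial_iff.2 h.1.2, (primorial_pos w).ne'⟩⟩
  have h4 : 0 < ∏ p ∈ (Ioc 0 w).filter Nat.Prime, (1 - (p : ℝ)⁻¹) := prod_pos fun p hp =>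
    sub_pos.2 (inv_lt_one_of_one_lt₀ (by exact_mod_cast (mem_filter.1 hp).2.one_lt))
  rw [prod_inv_distrib, ← one_div, le_div_iff₀ h4] at h1
  rw [h2, h3, mul_left_comm]
  exact mul_le_of_le_one_right (Nat.cast_nonneg _) h1

lemma excl_le {ι : Type*} [Fintype ι] [DecidableEq ι] {r : ι → ℕ} (hΔ : 0 < Del r) {w p₁ : ℕ}
    (hw : 0 < w) (z : ℕ) :
    ∑ p ∈ (Ioc w z).filter Nat.Prime \ SQ w z (Del r) p₁, (p : ℝ)⁻¹
      ≤ ∑ e, pen w p₁ (dd r e) + (w : ℝ)⁻¹ := by
  have h0 : ∀ e, dd r e ≠ 0 := fun e =>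
    (Nat.pos_of_dvd_of_pos (dvd_prod_of_mem _ (mem_univ e)) hΔ).ne'
  calc _ ≤ ∑ p ∈ (Ioc w z).filter Nat.Prime \ SQ w z (Del r) p₁,
        (∑ e, (if p ∣ dd r e then (p : ℝ)⁻¹ else 0) + if p = p₁ then (w : ℝ)⁻¹ else 0) := by
        refine sum_le_sum fun p hp => ?_
        simp only [mem_sdiff, mem_filter, mem_SQ, mem_Ioc, not_and, not_not] at hp
        have a0 : ∀ e, 0 ≤ if p ∣ dd r e then (p : ℝ)⁻¹ else 0 := fun e => by
          split_ifs <;> positivity
        by_cases h : p ∣ Del r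
        · obtain ⟨e, -, he⟩ := (Prime.dvd_finsetProd_iff hp.1.2.prime _).1 h
          refine le_add_of_le_of_nonneg (le_trans ?_ (single_le_sum (fun e _ => a0 e) (mem_univ e)))
            (by split_ifs <;> positivity)
          rw [if_pos he]
        · rw [if_pos (hp.2 hp.1.1 hp.1.2 h)]
          exact le_add_of_nonneg_of_le (sum_nonneg fun e _ => a0 e)
            (inv_anti₀ (by exact_mod_cast hw) (by exact_mod_cast hp.1.1.1.le))
    _ ≤ _ := by
        rw [sum_add_distrib, sum_comm]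
        refine add_le_add (sum_le_sum fun e _ => ?_) ?_
        · rw [← sum_filter]
          refine le_add_of_le_of_nonneg (sum_le_sum_of_subset_of_nonneg (fun p hp => ?_)
            fun _ _ _ => by positivity) (by split_ifs <;> norm_num)
          simp only [mem_sdiff, mem_filter, mem_Ioc, Nat.mem_primeFactors] at hp ⊢
          exact ⟨⟨hp.1.1.2, hp.2, h0 e⟩, hp.1.1.1.1⟩
        · rw [sum_ite_eq']
          split_ifs
          exacts [le_rfl, by positivity]

lemma err_num {s X b E F Q c L : ℝ} {m : ℕ} (hs : 10 ^ 13 * c ^ 4 ≤ s) (hc : 1 ≤ c) (hX : 0 < X)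
    (hb : b ≤ 3 * X) (hb0 : 0 ≤ b) (hL0 : 0 ≤ L) (hL : L ≤ 259 * c * s) (hQ : Q = (s ^ (m + 5)) ^ 2)
    (hF : F ^ 4 * (s ^ (m + 5)) ^ 2 ≤ X)
    (hE : E ≤ 2 * b / Q + 140 * b * (1 + L) ^ 4 * (√Q)⁻¹ + F ^ 2 * (2 * √b * L)) :
    s ^ m * E ≤ X := by
  have hc4 : 1 ≤ c ^ 4 := one_le_pow₀ hc
  have hs1 : 10 ^ 13 ≤ s := by linarith only [hs, hc4]
  have hcs : 1 ≤ c * s := one_le_mul_of_one_le_of_one_le hc (by linarith only [hs, hc4])
  have hs5 : 10 ^ 13 * (c * s) ^ 4 ≤ s ^ 5 := by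
    rw [mul_pow, ← mul_assoc, pow_succ' s 4]; gcongr
  have hcs4 : c * s ≤ (c * s) ^ 4 := le_self_pow₀ hcs (by norm_num)
  have hm : 1 ≤ s ^ m := one_le_pow₀ (by linarith only [hs, hc4])
  rw [hQ, Real.sqrt_sq (by positivity), pow_add] at hE
  rw [pow_add] at hF
  generalize s ^ m = P at *
  generalize s ^ 5 = S at *
  have hS : 10 ^ 13 ≤ S := by clear * - S c s hcs hcs4 hs5; linarith only [hcs, hcs4, hs5]
  have a1 : P * (2 * b / (P * S) ^ 2) ≤ X / 3 := by
    clear * - P b S X hm hS c s L hs hc hc4 hL0 hcs4 hs5 hL hcs hb hX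
    rw [mul_div_assoc', div_le_div_iff₀ (by positivity) (by norm_num)]
    have : P * 18 ≤ (P * S) ^ 2 := by
      rw [mul_pow, sq P, mul_assoc]; gcongr; linarith only [hs, hc, hc4, hm, hL0, hcs4, hs5, hL, hcs, mul_nonneg_of_nonpos_of_nonpos (Mathlib.Tactic.Linarith.sub_nonpos_of_le (sq_nonneg S)) (Mathlib.Tactic.Linarith.sub_nonpos_of_le hm), mul_nonneg_of_nonpos_of_nonpos (Mathlib.Tactic.Linarith.sub_nonpos_of_le hs) (Mathlib.Tactic.Linarith.sub_nonpos_of_le hc), mul_nonneg_of_nonpos_of_nonpos (Mathlib.Tactic.Linarith.sub_nonpos_of_le hc) (Mathlib.Tactic.Linarith.sub_nonpos_of_le hc4), mul_nonneg_of_nonpos_of_nonpos (Mathlib.Tactic.Linarith.sub_nonpos_of_le hL0) (Mathlib.Tactic.Linarith.sub_nonpos_of_le hcs4), mul_nonneg_of_nonpos_of_nonpos (Mathlib.Tactic.Linarith.sub_nonpos_of_le hL0) (Mathlib.Tactic.Linarith.sub_nonpos_of_le hs5), mul_nonneg_of_nonpos_of_nonpos (Mathlib.Tactic.Linarith.sub_nonpos_of_le hL) (Mathlib.Tactic.Linarith.sub_nonpos_of_le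 hcs4), mul_nonneg_of_nonpos_of_nonpos (Mathlib.Tactic.Linarith.sub_nonpos_of_le hL) (Mathlib.Tactic.Linarith.sub_nonpos_of_le hs5), mul_nonneg_of_nonpos_of_nonpos (Mathlib.Tactic.Linarith.sub_nonpos_of_le hcs) (Mathlib.Tactic.Linarith.sub_nonpos_of_le hcs), mul_nonneg_of_nonpos_of_nonpos (Mathlib.Tactic.Linarith.sub_nonpos_of_le hcs4) (Mathlib.Tactic.Linarith.sub_nonpos_of_le hcs4), mul_nonneg_of_nonpos_of_nonpos (Mathlib.Tactic.Linarith.sub_nonpos_of_le hcs4) (Mathlib.Tactic.Linarith.sub_nonpos_of_le hs5), mul_nonneg_of_nonpos_of_nonpos (Mathlib.Tactic.Linarith.sub_nonpos_of_le hs5) (Mathlib.Tactic.Linarith.sub_nonpos_of_le hs5)]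
    linarith only [hb, hX, this, hm, mul_nonneg_of_nonpos_of_nonpos (le_of_lt (Mathlib.Tactic.Linarith.sub_neg_of_lt hX)) (Mathlib.Tactic.Linarith.sub_nonpos_of_le this), mul_nonneg_of_nonpos_of_nonpos (Mathlib.Tactic.Linarith.sub_nonpos_of_le hb) (Mathlib.Tactic.Linarith.sub_nonpos_of_le hm)]
  have a2 : P * (140 * b * (1 + L) ^ 4 * (P * S)⁻¹) ≤ X / 3 := by
    clear * - L c s hL0 hL hcs P b S X hm hS hb hX hs5 hcs4
    have : (1 + L) ^ 4 ≤ (260 * (c * s)) ^ 4 := by gcongr; linarith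
    calc _ = 140 * b * (1 + L) ^ 4 / S := by field_simp
      _ ≤ 140 * (3 * X) * (260 * (c * s)) ^ 4 / S := by gcongr
      _ ≤ _ := by
        rw [div_le_div_iff₀ (by positivity) (by norm_num), mul_pow]
        linarith only [hX, hs5, hcs, hcs4, mul_le_mul_of_nonneg_left hs5 hX.le, mul_nonneg_of_nonpos_of_nonpos (le_of_lt (Mathlib.Tactic.Linarith.sub_neg_of_lt hX)) (Mathlib.Tactic.Linarith.sub_nonpos_of_le hcs), mul_nonneg_of_nonpos_of_nonpos (le_of_lt (Mathlib.Tactic.Linarith.sub_neg_of_lt hX)) (Mathlib.Tactic.Linarith.sub_nonpos_of_le hcs4)]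
  have a3 : P * (F ^ 2 * (2 * √b * L)) ≤ X / 3 := by
    clear * - F P S b X hm hS hX hb0 hF hb L c s hL hcs hcs4 hs5 hL0
    have b1 : F ^ 2 * (P * S) * √b ≤ 2 * X := by
      refine (pow_le_pow_iff_left₀ (by positivity) (by positivity) two_ne_zero).1 ?_
      rw [mul_pow, Real.sq_sqrt hb0, mul_pow, ← pow_mul, show 2 * 2 = 4 from rfl]
      nlinarith only [mul_le_mul hF hb hb0 hX.le, hX]
    have b2 : 12 * L ≤ S := by linarith only [hL, hcs, hcs4, hs5]
    refine le_of_mul_le_mul_right ?_ (by positivity : 0 < S)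
    calc _ = F ^ 2 * (P * S) * √b * (2 * L) := by ring
      _ ≤ 2 * X * (2 * L) := by gcongr
      _ ≤ _ := by linarith only [hX, hL, hcs, hcs4, hs5, mul_nonneg_of_nonpos_of_nonpos (le_of_lt (Mathlib.Tactic.Linarith.sub_neg_of_lt hX)) (Mathlib.Tactic.Linarith.sub_nonpos_of_le hL), mul_nonneg_of_nonpos_of_nonpos (le_of_lt (Mathlib.Tactic.Linarith.sub_neg_of_lt hX)) (Mathlib.Tactic.Linarith.sub_nonpos_of_le hcs), mul_nonneg_of_nonpos_of_nonpos (le_of_lt (Mathlib.Tactic.Linarith.sub_neg_of_lt hX)) (Mathlib.Tactic.Linarith.sub_nonpos_of_le hcs4), mul_nonneg_of_nonpos_of_nonpos (le_of_lt (Mathlib.Tactic.Linarith.sub_neg_of_lt hX)) (Mathlib.Tactic.Linarith.sub_nonpos_of_le hs5)]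
  clear * - P E X b S L F a1 a2 a3 hE hm
  linarith only [a1, a2, a3, hE, hm, mul_le_mul_of_nonneg_left hE (by linarith : 0 ≤ P)]

theorem step {m₀ J k a w s n H p₁ X₀ : ℕ} (hJ : 10 ^ 9 * (m₀ + 1) = J) (hk : 2 ^ J = k)
    (ha : 72 * k * J = a) (c1 : 100 ≤ Real.log w) (c2 : 228 * k ^ 2 ≤ w)
    (c3 : (36 * a) ^ (k + 1) * (4 ^ k * (6 * k + 3)) ≤ w)
    (d1 : 10 ^ 13 * a ^ 4 ≤ s) (d2 : 10 * primorial w ≤ s) (d3 : H * primorial w ≤ s ^ 2)
    (d4 : s ^ (48 * k + 22) ≤ 2 ^ s) (d5 : Real.log (s ^ (48 * k + 22) : ℕ) ^ 26 ≤ s)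
    (hn1 : 2 ^ (128 * a * s) ≤ n) (hn2 : n ≤ 2 ^ (256 * a * s)) (hX₀ : X₀ ≤ n)
    (cθ : ∀ x ≥ X₀, ∀ h ≤ x, (x : ℝ) / 2 ≤ ∑ n ∈ Ioc (x + h) (x + x + h), th n)
    (hp₁ : p₁.Prime) (hwp : w < p₁)
    (hSW : ∀ f : ℕ, 1 < f → f ≤ s ^ (48 * k + 22) → ¬ p₁ ∣ f → ∀ χ : DirichletCharacter ℂ f,
      χ.IsPrimitive → ∀ X : ℕ, Real.log (s ^ (48 * k + 22) : ℕ) ^ 26 ≤ Real.log X →
        Real.log X ≤ (s ^ (48 * k + 22) : ℕ) →
        ‖∑ n ∈ range (X + 1), χ n * ArithmeticFunction.vonMangoldt n‖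
          ≤ X / (s ^ (48 * k + 22) : ℕ) ^ 3)
    {r : Fin k → ℕ} (hr : r ∈ Tup (Fin k) H)
    (hpen : 12 * k ^ 2 * ∑ e, pen w p₁ (dd r e) ≤ 1) {E : Finset ℕ}
    (hE : ∀ q ∈ Ioc n (n + n), m₀ ≤ #{i | (r i * q + 1).Prime} →
      (∀ i, Rough (2 ^ s) (r i * q + 1)) → q ∈ E) :
    (n : ℝ) ≤ #E * (primorial w * k * (108 * a ^ 2 * 4 ^ (259 * a) * s) ^ k) := by
  obtain ⟨r1, r2⟩ := mem_Tup.1 hr
  have hΔ := Del_pos (fun i => (r1 i).1) r2
  have hJ4 : 4 ≤ J := by omega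
  have hk1 : 1 ≤ k := hk ▸ Nat.one_le_two_pow
  have hka : 288 * k ≤ a := by clear * - k a m₀ J hJ ha hk1; nlinarith only [hJ, ha, hk1]
  have hka' : (288 * k : ℝ) ≤ a := by exact_mod_cast hka
  have hk1' : (1 : ℝ) ≤ k := by exact_mod_cast hk1
  have ha0 : (1 : ℝ) ≤ a := by linarith only [hka', hk1']
  have hw0 : 0 < w := lt_of_lt_of_le (by positivity) c2
  have hw' : (0 : ℝ) < w := by exact_mod_cast hw0
  have hW0 := primorial_pos w
  have hws : 10 * w ≤ s := (Nat.mul_le_mul_left _ le_primorial_self).trans d2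
  have hws' : (10 * w : ℝ) ≤ s := by exact_mod_cast hws
  have has : 10 ^ 13 * a ≤ s := le_trans (Nat.mul_le_mul_left _ (Nat.le_self_pow (by norm_num) _)) d1
  have has' : (10 ^ 13 * a : ℝ) ≤ s := by exact_mod_cast has
  have hℓ : 0 < Real.log w := by linarith only [c1]
  have hℓw : Real.log w ≤ w := by linarith only [Real.log_le_sub_one_of_pos hw']
  have l2 := Real.log_two_gt_d9
  have l2' := Real.log_two_lt_d9
  obtain ⟨u, hu⟩ : ∃ u, u = s * Real.log 2 := ⟨_, rfl⟩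
  have hs0 : (0 : ℝ) ≤ s := Nat.cast_nonneg _
  have hu6 : 6 * Real.log w ≤ u := by nlinarith only [hu, hℓw, hws', l2, hs0]
  have hus : u ≤ s := by nlinarith only [hu, l2', hs0]
  have hu0 : 0 < u := by linarith only [hu6, hℓ]
  have hvs : u / Real.log w ≤ s := (div_le_self hu0.le (by linarith only [c1])).trans hus
  have hv0 : 0 ≤ u / Real.log w := by positivity
  have hlz : ∀ m : ℕ, Real.log ((2 ^ (m * s) : ℕ) : ℝ) = m * u := fun m => by
    rw [log_two_pow', hu]; push_cast; ring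
  have hsm : ∀ m, 1 ≤ m → 2 ^ s ≤ 2 ^ (m * s) := fun m hm =>
    Nat.pow_le_pow_right two_pos (Nat.le_mul_of_pos_left _ hm)
  have hw2 : w ≤ 2 ^ s := le_trans (by omega) Nat.lt_two_pow_self.le
  have hja : ∀ j < J, 2 ^ j ≤ a := fun j hj =>
    ((Nat.pow_le_pow_right two_pos hj.le).trans hk.le).trans (by omega)
  obtain hπ : ∑ e, pen w p₁ (dd r e) ≤ 1 / (12 * k ^ 2) := by
    rw [le_div_iff₀' (by positivity)]; exact hpen
  have hπ0 : 0 ≤ ∑ e, pen w p₁ (dd r e) := sum_nonneg fun _ _ => pen_nonneg _ _ _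
  obtain hwi : (w : ℝ)⁻¹ ≤ 1 / (228 * k ^ 2) := by
    rw [one_div]; exact inv_anti₀ (by positivity) (by exact_mod_cast c2)
  have hk2 : (1 : ℝ) ≤ k ^ 2 := one_le_pow₀ hk1'
  have hexc : ∀ z, ∑ p ∈ (Ioc w z).filter Nat.Prime \ SQ w z (Del r) p₁, (p : ℝ)⁻¹ ≤ 1 / 4 :=
    fun z => by
      clear * - k hk2 w z r p₁ hΔ hw0 hπ hwi
      have b1 : 1 / (12 * (k : ℝ) ^ 2) ≤ 1 / 12 := by gcongr; linarith only [hk2]
      have b2 : 1 / (228 * (k : ℝ) ^ 2) ≤ 1 / 228 := by gcongr; linarith only [hk2]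
      linarith only [excl_le hΔ hw0 z (p₁ := p₁), hπ, hwi, b1, b2]
  have hVj := fun j (hj : j < J) => prod_primes_bounds c1 (hw2.trans (hsm (2 ^ j) Nat.one_le_two_pow))
    (SQ_subset w _ (Del r) p₁)
  have hVa := (prod_primes_bounds c1 (hw2.trans (hsm a (by omega))) (SQ_subset w _ (Del r) p₁)).2
  rw [hlz] at hVa
  simp only [hlz] at hVj
  have hzz : ∀ j < J, 2 ^ (2 ^ j * s) ≤ 2 ^ (a * s) := fun j hj =>
    Nat.pow_le_pow_right two_pos (Nat.mul_le_mul_right _ (hja j hj))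
  have hs2 : s ^ 2 ≤ 2 ^ s := (Nat.pow_le_pow_right (by omega) (by omega)).trans d4
  have hrW : ∀ i, r i * primorial w ≤ s ^ 2 := fun i => (Nat.mul_le_mul_right _ (r1 i).2).trans d3
  have hrs : ∀ i, r i ≤ 2 ^ (a * s) := fun i =>
    (((Nat.le_mul_of_pos_right _ hW0).trans (hrW i)).trans hs2).trans (hsm a (by omega))
  have hmax : ∀ i, r i * (n + n) + 1 ≤ 2 ^ (259 * a * s) := fun i => by
    clear * - r i n a s hrs hn2 m₀ J k w H p₁ X₀ d2 hW0 hsm ha hk1 hka hJ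
    have b1 : r i * (n + n) ≤ 2 ^ (a * s) * (2 ^ (256 * a * s) * 2 ^ (a * s)) :=
      Nat.mul_le_mul (hrs i) (by
        have := Nat.mul_le_mul hn2 ((Nat.pow_le_pow_right two_pos (by omega : 1 ≤ s)).trans
          (hsm a (by omega)))
        omega)
    rw [← pow_add, ← pow_add] at b1
    exact b1.trans_lt (Nat.pow_lt_pow_right one_lt_two (by nlinarith only [hJ, ha, hk1, d2, hW0]))
  obtain hR8 : (((2 ^ (2 * a * s)) ^ 2) ^ 2) ^ 2 = 2 ^ (16 * a * s) := by
    rw [← pow_mul, ← pow_mul, ← pow_mul]; ring_nf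
  have hp₁Δ : ∀ i, ¬ p₁ ∣ r i := fun i h => by
    clear * - w p₁ k r i hpen hk2 h
    have b1 := single_le_sum (fun e _ => pen_nonneg w p₁ (dd r e)) (mem_univ (i, i))
    rw [pen, dd, if_pos rfl, if_pos h] at b1
    have b2 : 0 ≤ ∑ p ∈ (r i).primeFactors with w < p, (p : ℝ)⁻¹ :=
      sum_nonneg fun _ _ => by positivity
    linarith only [hpen, hk2, b1, b2, b1, b2, hpen, hk2, mul_nonneg_of_nonpos_of_nonpos (Mathlib.Tactic.Linarith.sub_nonpos_of_le (sq_nonneg ↑k)) (Mathlib.Tactic.Linarith.sub_nonpos_of_le b1), mul_nonneg_of_nonpos_of_nonpos (Mathlib.Tactic.Linarith.sub_nonpos_of_le (sq_nonneg ↑k)) (Mathlib.Tactic.Linarith.sub_nonpos_of_le b2)]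
  obtain hpoly : (4 : ℝ) ^ k * (3 * a * (u / Real.log w)) ^ (12 * k + 2) ≤ s ^ (24 * k + 4) := by
    clear * - k a u w s m₀ J n H p₁ X₀ r hk1 ha0 hu0 c1 hvs has' hs0
    calc _ ≤ 4 ^ (12 * k + 2) * (3 * a * s : ℝ) ^ (12 * k + 2) := by gcongr <;> [norm_num; omega]
      _ ≤ ((s : ℝ) ^ 2) ^ (12 * k + 2) := by
          rw [← mul_pow]; gcongr; nlinarith only [has', hs0, ha0]
      _ = _ := by rw [← pow_mul]; ring_nf
  have hcore := core (pr := (Subtype.val : SQ w (2 ^ (a * s)) (Del r) p₁ → ℕ))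
    (W := primorial w) (x := n) (F := 2 ^ (17 * a * s)) (R₁ := 2 ^ (2 * a * s)) (m₀ := m₀)
    (y := 2 ^ s) (t := 259 * a) (p₁ := p₁) (z := fun j => 2 ^ (2 ^ j * s)) (u := u)
    (v := u / Real.log w) (a := a) (ε := 4 ^ k * (6 * k + 3) * (w : ℝ)⁻¹) (Λ := 259 * a * u)
    (fun p => (mem_SQ.1 p.2).2.1) Subtype.val_injective r (fun i => (r1 i).1) hW0
    (fun p h => by
      obtain ⟨⟨a2, -⟩, a3, -⟩ := mem_SQ.1 p.2
      exact a2.not_ge (a3.dvd_primorial_iff.1 h))
    (fun i p h => (mem_SQ.1 p.2).2.2.1 (h.trans (dvd_Del r i)))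
    (fun n p i j => eq_of_not_dvd_Del (mem_SQ.1 p.2).2.1 (mem_SQ.1 p.2).2.2.1)
    (fun p => ⟨le_trans (by nlinarith only [c2]) (mem_SQ.1 p.2).1.1.le, (mem_SQ.1 p.2).1.2.trans
      (le_trans (Nat.pow_le_pow_right two_pos (by nlinarith only)) hn1)⟩)
    hp₁ (fun i h => ((Nat.Prime.dvd_mul hp₁).1 h).elim (hp₁Δ i) fun h' =>
      hwp.not_ge (hp₁.dvd_primorial_iff.1 h')) (fun p => (mem_SQ.1 p.2).2.2.2)
    (Fintype.card_fin k) hk.le hJ4 hu0.le (by rwa [le_div_iff₀ hℓ]) (by exact_mod_cast ha.le)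
    (fun j hj => by
      rw [VV_SQ _ _ (hzz j hj)]
      exact le_of_eq_of_le (by push_cast; ring) ((hVj j hj).1 (hexc _)))
    (fun j hj => by
      rw [VV_SQ _ _ (hzz j hj)]
      exact (hVj j hj).2.trans_eq (by push_cast; ring))
    (fun j hj => (LL_SQ (Nat.two_pow_pos _)).trans (by
      rw [hlz]; push_cast
      nlinarith only [one_le_pow₀ (n := j) (one_le_two (α := ℝ)), hu6, c1]))
    (Nat.one_lt_two_pow (Nat.mul_pos (by omega) (by omega)).ne') (by rw [hlz]; push_cast; exact le_rfl)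
    ((prod_coe_sort _ fun p : ℕ => 1 + (p : ℝ)⁻¹).trans_le (hVa.trans_eq (by ring)))
    (mul_le_mul_of_nonneg_left (sum_sq_SQ hw0 _ _ _) (by positivity))
    (by
      rw [← mul_assoc, ← div_eq_mul_inv, div_le_one hw']
      exact_mod_cast c3)
    (Nat.one_lt_two_pow (by omega)) (fun j _ => hsm _ Nat.one_le_two_pow)
    (by
      clear * - k a u w s hℓ hu6 ha0 m₀ J n H p₁ X₀ r hk1 hpoly d2 hW0 d4 hR8 hka hn1
      obtain b1 : (4 : ℝ) ^ k * (3 * a * (u / Real.log w)) ^ (7 * k) ≤ (2 ^ s : ℕ) := by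
        refine le_trans ?_ (hpoly.trans (by
          exact_mod_cast (Nat.pow_le_pow_right (by omega) (by omega)).trans d4))
        gcongr
        · have : 6 ≤ u / Real.log w := by rwa [le_div_iff₀ hℓ]
          nlinarith only [this, ha0]
        · omega
      have b2 : primorial w ≤ 2 ^ s := le_trans (by omega) Nat.lt_two_pow_self.le
      calc _ ≤ ((2 ^ s : ℕ) : ℝ) * (((2 ^ (2 * a * s)) ^ 2) ^ 2 : ℕ) ^ 2 * ((2 ^ s : ℕ) * (2 ^ s : ℕ)) := by
            gcongr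
        _ ≤ _ := by
            rw [← Nat.cast_pow, hR8]
            norm_cast
            rw [← pow_add, ← pow_add, ← pow_add]
            exact le_trans (Nat.pow_le_pow_right two_pos (by nlinarith only [hka, hk1])) hn1)
    (fun i => by
      rw [hR8, show 17 * a * s = a * s + 16 * a * s by ring, pow_add]
      exact Nat.mul_le_mul_right _ (((hrW i).trans hs2).trans (hsm a (by omega))))
    (le_trans (Nat.pow_le_pow_right two_pos (by nlinarith only)) hn1)
    (fun i => by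
      have := cθ (r i * n) (hX₀.trans (Nat.le_mul_of_pos_left _ (r1 i).1)) 1
        (Nat.mul_pos (r1 i).1 ((Nat.two_pow_pos _).trans_le hn1))
      rwa [← mul_add, Nat.cast_mul] at this)
    (fun i => by
      clear * - n r i H r1 a s hn1 hmax u hlz hus ha0 p₁ k m₀ J w X₀ d2 hW0 hSW d5 hs0 hu l2 has'
        hk1 d1 d4 hka hpoly hrW
      have hnr : n ≤ r i * n := Nat.le_mul_of_pos_left _ (r1 i).1
      have hn0 : 0 < n := (Nat.two_pow_pos _).trans_le hn1
      obtain b1 : Real.log (r i * (n + n) + 1 : ℕ) ≤ 259 * a * s := by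
        refine (log_mono' (hmax i)).trans ?_
        rw [hlz]; push_cast; gcongr
      have b2 := bv2 (a := r i * n + 1) (b := r i * (n + n) + 1) (F := 2 ^ (17 * a * s))
        (by rw [mul_add]; omega) (by omega) (by
          rw [← pow_mul]
          exact le_trans (Nat.pow_le_pow_right two_pos (by nlinarith only)) (hn1.trans (by omega)))
        (Nat.pow_pos (by omega)) hSW (d5.trans (le_trans (by
          rw [hlz]; push_cast; nlinarith only [hu, l2, ha0, hs0, mul_nonneg (sub_nonneg.2 ha0) hs0])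
          (log_mono' (hn1.trans (by omega)))))
        (b1.trans (by
          refine le_trans (by nlinarith only [has', hs0, ha0] : _ ≤ (s : ℝ) ^ 2) ?_
          exact_mod_cast Nat.pow_le_pow_right (by omega) (by omega)))
      have b3 := err_num (m := 24 * k + 6) (s := s) (c := a) (X := r i * n) (by exact_mod_cast d1) ha0
        (by exact_mod_cast hn0.trans_le hnr) (by exact_mod_cast (by rw [mul_add]; omega))
        (Nat.cast_nonneg _) (Real.log_natCast_nonneg _) b1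
        (by rw [← pow_mul]; push_cast; ring_nf) (by
          norm_cast
          rw [← pow_mul s, show (24 * k + 6 + 5) * 2 = 48 * k + 22 by ring, ← pow_mul]
          refine (Nat.mul_le_mul_left _ d4).trans (le_trans ?_ (hn1.trans hnr))
          rw [← pow_add]
          exact Nat.pow_le_pow_right two_pos (by nlinarith only [hka, hk1])) b2
      refine le_trans ?_ b3
      rw [← mul_assoc, show 24 * k + 6 = 24 * k + 4 + 2 from rfl, pow_add (s : ℝ) _ 2]
      exact mul_le_mul_of_nonneg_right (mul_le_mul hpoly (by exact_mod_cast hrW i)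
        (Nat.cast_nonneg _) (by positivity))
        (sum_nonneg fun _ _ => mul_nonneg (Psi_nonneg _ _ _) (sav'_nonneg _ _)))
    (fun i => (log_mono' (hmax i)).trans_eq (by rw [hlz]; push_cast; ring))
    (by positivity) (fun i => (hmax i).trans_eq (by rw [← pow_mul]; ring_nf))
    ((Ioc w (2 ^ s)).filter Nat.Prime \ SQ w (2 ^ s) (Del r) p₁)
    (fun p hp => by
      simp only [mem_sdiff, mem_filter, mem_SQ, mem_Ioc] at hp
      refine ⟨hp.1.2, hp.1.1.2, fun h => hp.1.1.1.not_ge (hp.1.2.dvd_primorial_iff.1 h), ?_⟩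
      rintro ⟨p', hp'⟩ rfl
      exact hp.2 ⟨hp.1.1, (mem_SQ.1 hp').2⟩)
    (fun p h1 h2 => by
      by_cases b1 : p ≤ w
      · exact Or.inl (h2.dvd_primorial_iff.2 b1)
      by_cases b2 : p ∈ SQ w (2 ^ s) (Del r) p₁
      · exact Or.inr (Or.inr ⟨⟨p, mem_SQ.2 ⟨⟨(mem_SQ.1 b2).1.1, h1.trans (hsm a (by omega))⟩,
          (mem_SQ.1 b2).2⟩⟩, rfl⟩)
      · exact Or.inr (Or.inl (mem_sdiff.2 ⟨mem_filter.2 ⟨mem_Ioc.2 ⟨by omega, h1⟩, h2⟩, b2⟩)))
    (by
      clear * - a s u hlz w k r p₁ hw0 hu hu0 ha0 hu6 c1 hk1 hk1' hka' hΔ hπ hwi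
      obtain b0 : Real.log ((2 ^ (2 * a * s)) ^ 2 : ℕ) = 4 * a * u := by
        rw [Nat.cast_pow, Real.log_pow, hlz]; push_cast; ring
      have b1 := LL_SQ (w := w) (zs := 2 ^ (a * s)) (Δ := Del r) (p₁ := p₁) (Nat.two_pow_pos s)
      have b2 := sum_sq_SQ hw0 (2 ^ (a * s)) (Del r) p₁
      have b3 : Real.log ((2 ^ s : ℕ) : ℝ) = u := by rw [log_two_pow', hu]
      rw [b3] at b1
      obtain b4 : ∑ p : SQ w (2 ^ (a * s)) (Del r) p₁ with p.1 ≤ 2 ^ s,
          (12 * Real.log p.1 / (4 * a * u) + 3 / p.1) ^ 2 / p.1 ≤ 36 / a ^ 2 + 18 * (w : ℝ)⁻¹ := by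
        calc _ ≤ ∑ p : SQ w (2 ^ (a * s)) (Del r) p₁ with p.1 ≤ 2 ^ s,
              (18 / (a ^ 2 * u) * (Real.log p.1 / p.1) + 18 * ((p.1 : ℝ)⁻¹) ^ 2) := by
              refine sum_le_sum fun p hp => ?_
              have e1 : (1 : ℝ) ≤ p.1 := by exact_mod_cast (mem_SQ.1 p.2).2.1.one_lt.le
              have e2 : Real.log p.1 ≤ u := b3 ▸ log_mono' (mem_filter.1 hp).2
              have e3 := Real.log_natCast_nonneg p.1
              calc _ ≤ (2 * (12 * Real.log p.1 / (4 * a * u)) ^ 2 + 2 * (3 / p.1) ^ 2) / p.1 := by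
                    gcongr
                    nlinarith only [sq_nonneg (12 * Real.log p.1 / (4 * a * u) - 3 / p.1)]
                _ = 18 / (a ^ 2 * u) * (Real.log p.1 / p.1) * (Real.log p.1 / u)
                    + 18 * ((p.1 : ℝ)⁻¹) ^ 2 / p.1 := by field_simp; ring
                _ ≤ _ := add_le_add (mul_le_of_le_one_right (by positivity) ((div_le_one hu0).2 e2))
                    (div_le_self (by positivity) e1)
          _ ≤ 18 / (a ^ 2 * u) * (2 * u) + 18 * (w : ℝ)⁻¹ := by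
              rw [sum_add_distrib, ← mul_sum, ← mul_sum]
              gcongr
              · exact le_trans b1 (by linarith only [hu6, c1])
              · exact le_trans (sum_le_sum_of_subset_of_nonneg (filter_subset _ _)
                  fun _ _ _ => sq_nonneg _) b2
          _ = _ := by field_simp; ring
      obtain b5 : 36 / (a : ℝ) ^ 2 ≤ 1 / (12 * k ^ 2) := by
        rw [div_le_div_iff₀ (by positivity) (by positivity)]
        nlinarith only [hka', hk1']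
      rw [b0]
      calc _ ≤ 3 * k ^ 2 * (1 / (12 * k ^ 2) + 1 / (228 * k ^ 2) +
            (1 / (12 * k ^ 2) + 18 * (1 / (228 * (k : ℝ) ^ 2)))) := by
            gcongr
            · linarith only [excl_le hΔ hw0 (2 ^ s) (p₁ := p₁), hπ, hwi]
            · linarith only [b4, b5, hwi]
        _ ≤ 1 := by field_simp; norm_num)
    (by
      clear * - w k J a ha m₀ hJ u c1 hW0 hu0 hJ4 hk1
      have a1 := totient_primorial w
      have a2 : (72 * k * J : ℝ) = a := by exact_mod_cast ha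
      have a3 : (10 ^ 9 * (m₀ + 1) : ℝ) = J := by exact_mod_cast hJ
      have a4 : (0 : ℝ) ≤ m₀ := Nat.cast_nonneg _
      calc _ = k * J * (u / Real.log w) * (13824 * 259 * 72 * (3 * m₀ + 2)) *
            (Real.log w * (primorial w).totient) := by rw [← a2]; field_simp
        _ ≤ k * J * (u / Real.log w) * J * primorial w := by
            gcongr; linarith only [a3, a4]
        _ = _ := by ring)
  refine hcore.trans (mul_le_mul (Nat.cast_le.2 (card_le_card fun q hq => ?_)) (by clear * - w k a u s ha0 hu0 c1 hvs hW0 hk1 hcore; gcongr)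
    (by positivity) (Nat.cast_nonneg _))
  simp only [mem_filter] at hq
  exact hE q hq.1 hq.2.1 hq.2.2

end Pool.Agent.Work.MP_d018b2_nt
end
end

-- merged part: Pool.Agent.Work.MP_d018b2_nt.DSing
section
/-!
# The singular product is positive and of bounded average
-/

noncomputable section

open Finset Filter

namespace Pool.Agent.Work.MP_d018b2_nt

open Pool.Agent.Work.MP_52820d_nt

variable {l : ℕ}

/-- the number of roots modulo `p` -/
def ww (r : Fin l → ℕ) (p : ℕ) : ℕ := #{q ∈ range p | p ∣ ∏ j, (q * r j + 1)}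

/-- the local factor -/
def loc (r : Fin l → ℕ) (p : ℕ) : ℝ := (1 - (ww r p : ℝ) / p) / (1 - 1 / (p : ℝ)) ^ l

lemma sing_eq (r : Fin l → ℕ) : sing r = ∏' p : Nat.Primes, loc r p := rfl

lemma ww_lt (r : Fin l → ℕ) {p : ℕ} (hp : p.Prime) : ww r p < p := by
  refine lt_of_lt_of_eq (card_lt_card (filter_ssubset.2 ⟨0, mem_range.2 hp.pos, ?_⟩)) (card_range p)
  simpa using hp.one_lt.ne'

lemma ww_le (r : Fin l → ℕ) {p : ℕ} (hp : p.Prime) : ww r p ≤ l := by
  calc _ ≤ #(univ.biUnion fun j : Fin l => {q ∈ range p | p ∣ q * r j + 1}) := by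
        refine card_le_card fun q hq => ?_
        obtain ⟨h1, h2⟩ := mem_filter.1 hq
        obtain ⟨j, -, hj⟩ := (Prime.dvd_finsetProd_iff hp.prime _).1 h2
        exact mem_biUnion.2 ⟨j, mem_univ _, mem_filter.2 ⟨h1, hj⟩⟩
    _ ≤ ∑ j : Fin l, 1 := card_biUnion_le.trans (sum_le_sum fun j _ => card_le_one.2 fun a ha b hb => by
        simp only [mem_filter, mem_range] at ha hb
        have h1 : ¬ p ∣ r j := fun h => hp.not_dvd_one ((Nat.dvd_add_right (h.mul_left _)).1 ha.2)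
        obtain ⟨c, hc⟩ := exists_root hp h1 1
        exact Nat.ModEq.eq_of_lt_of_lt (((hc a).1 (mul_comm a _ ▸ ha.2)).trans
          ((hc b).1 (mul_comm b _ ▸ hb.2)).symm) ha.1 hb.1)
    _ = _ := by simp

lemma le_ww {r : Fin l → ℕ} {p : ℕ} (hp : p.Prime) (h : ¬ p ∣ Del r) : l ≤ ww r p := by
  have h1 : ∀ j, ∃ c < p, p ∣ r j * c + 1 := fun j => by
    obtain ⟨c, hc⟩ := exists_root hp (fun h' => h (h'.trans (dvd_Del r j))) 1
    exact ⟨c % p, Nat.mod_lt _ hp.pos, (hc _).2 (Nat.mod_modEq _ _)⟩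
  choose c hc using h1
  have := card_le_card_of_injOn (s := univ) (t := {q ∈ range p | p ∣ ∏ j, (q * r j + 1)}) c
    (fun j _ => by
      simp only [coe_filter, mem_range, Set.mem_ofPred_eq]
      exact ⟨(hc j).1, (mul_comm (r j) _ ▸ (hc j).2).trans (dvd_prod_of_mem _ (mem_univ j))⟩)
    fun i _ j _ e => eq_of_not_dvd_Del hp h (hc i).2 (e ▸ (hc j).2)
  simpa [ww] using this

lemma loc_pos (r : Fin l → ℕ) {p : ℕ} (hp : p.Prime) : 0 < loc r p := by
  have h1 : (1 : ℝ) < p := by exact_mod_cast hp.one_lt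
  have h2 : (ww r p : ℝ) < p := by exact_mod_cast ww_lt r hp
  exact div_pos (sub_pos.2 ((div_lt_one (by linarith)).2 h2))
    (pow_pos (sub_pos.2 ((div_lt_one (by linarith)).2 h1)) _)

lemma loc_le_one {r : Fin l → ℕ} {p : ℕ} (hp : p.Prime) (h : ¬ p ∣ Del r) : loc r p ≤ 1 := by
  have h1 : (1 : ℝ) < p := by exact_mod_cast hp.one_lt
  have h2 : (l : ℝ) ≤ ww r p := by exact_mod_cast le_ww hp h
  have h3 : 1 / (p : ℝ) < 1 := (div_lt_one (by linarith)).2 h1
  rw [loc, div_le_one (pow_pos (by linarith only [h3]) _)]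
  have := one_add_mul_le_pow (a := -(1 / (p : ℝ))) (by linarith) l
  have h4 : (l : ℝ) / p ≤ ww r p / p := by gcongr
  rw [← sub_eq_add_neg, mul_neg, mul_one_div] at this
  linarith only [this, h4]

lemma loc_le (r : Fin l → ℕ) {p : ℕ} (hp : p.Prime) : loc r p ≤ (1 + (p : ℝ)⁻¹) ^ (2 * l) := by
  have h1 : (2 : ℝ) ≤ p := by exact_mod_cast hp.two_le
  have h3 : (p : ℝ)⁻¹ ≤ 1 / 2 := by rw [one_div]; exact inv_anti₀ two_pos h1
  have h0 : 0 ≤ (p : ℝ)⁻¹ := by positivity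
  rw [loc, one_div, div_le_iff₀ (pow_pos (by linarith only [h3]) _), pow_mul, ← mul_pow]
  exact (sub_le_self _ (by positivity)).trans (one_le_pow₀ (by
    linarith only [h0, h3, mul_nonneg h0 (by nlinarith : 0 ≤ 1 - (p : ℝ)⁻¹ - (p : ℝ)⁻¹ ^ 2), mul_nonneg_of_nonpos_of_nonpos (Mathlib.Tactic.Linarith.sub_nonpos_of_le (sq_nonneg ((1 : ℝ) * (1 : ℝ) + (1 : ℝ) * (↑p)⁻¹))) (Mathlib.Tactic.Linarith.sub_nonpos_of_le h3)]))

lemma le_loc (r : Fin l → ℕ) {p : ℕ} (hp : p.Prime) (h : l ≤ p) :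
    1 - l ^ 2 * ((p : ℝ)⁻¹) ^ 2 ≤ loc r p := by
  have h1 : (2 : ℝ) ≤ p := by exact_mod_cast hp.two_le
  have h3 : (p : ℝ)⁻¹ ≤ 1 / 2 := by rw [one_div]; exact inv_anti₀ two_pos h1
  have h0 : 0 ≤ (p : ℝ)⁻¹ := by positivity
  have h2 : (ww r p : ℝ) ≤ l := by exact_mod_cast ww_le r hp
  have h4 : l * (p : ℝ)⁻¹ ≤ 1 := by
    rw [← div_eq_mul_inv, div_le_one (by linarith only [h1])]; exact_mod_cast h
  have h5 : (1 + l * (p : ℝ)⁻¹) * (1 - (p : ℝ)⁻¹) ^ l ≤ 1 := by
    clear * - l p h0 h3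
    refine (mul_le_mul_of_nonneg_right (one_add_mul_le_pow (by linarith only [h0]) l)
      (pow_nonneg (by linarith only [h3]) _)).trans ?_
    rw [← mul_pow]
    exact pow_le_one₀ (by linarith only [h3, h0, mul_nonneg_of_nonpos_of_nonpos (Mathlib.Tactic.Linarith.sub_nonpos_of_le h3) (Mathlib.Tactic.Linarith.sub_nonpos_of_le h0)]) (by linarith only [h0, mul_nonneg_of_nonpos_of_nonpos (Mathlib.Tactic.Linarith.sub_nonpos_of_le h0) (Mathlib.Tactic.Linarith.sub_nonpos_of_le h0)])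
  rw [loc, one_div, le_div_iff₀ (pow_pos (by linarith only [h3]) _), div_eq_mul_inv]
  clear * - l p r h5 h4 h2 h0
  linarith only [h5, h4, h2, h0, mul_le_mul_of_nonneg_left h5 (sub_nonneg.2 h4), mul_le_mul_of_nonneg_right h2 h0]

lemma summable_loc {r : Fin l → ℕ} (h : 0 < Del r) :
    Summable fun p : Nat.Primes => loc r p - 1 := by
  have h1 : Summable fun p : Nat.Primes => (l : ℝ) ^ 2 * (((p : ℕ) : ℝ)⁻¹) ^ 2 := by
    refine Summable.mul_left _ ?_
    simp only [inv_pow]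
    exact (Real.summable_nat_pow_inv.2 one_lt_two).comp_injective Nat.Primes.coe_nat_injective
  refine h1.of_norm_bounded_eventually ?_
  have h2 : ∀ᶠ p : Nat.Primes in cofinite, Del r + l < p :=
    (Nat.Primes.coe_nat_injective.tendsto_cofinite.mono_right Nat.cofinite_eq_atTop.le).eventually
      (eventually_gt_atTop _)
  filter_upwards [h2] with p hp
  have a1 := loc_le_one p.2 (Nat.not_dvd_of_pos_of_lt h (by omega))
  have a2 := le_loc r p.2 (by omega)
  rw [Real.norm_eq_abs, abs_le]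
  constructor
  · linarith only [a2]
  · exact (sub_nonpos.2 a1).trans (by positivity)

lemma sing_pos {r : Fin l → ℕ} (h : 0 < Del r) : 0 < sing r := by
  have h1 := Real.summable_log_one_add_of_summable (summable_loc h)
  simp only [add_sub_cancel] at h1
  rw [sing_eq, ← Real.rexp_tsum_eq_tprod (fun p => loc_pos r p.2) h1]
  exact Real.exp_pos _

lemma sing_le_of {r : Fin l → ℕ} (h : 0 < Del r) {B : ℝ} (s₀ : Finset Nat.Primes)
    (hB : ∀ s : Finset Nat.Primes, s₀ ⊆ s → ∏ p ∈ s, loc r p ≤ B) : sing r ≤ B := by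
  have h1 := Real.multipliable_one_add_of_summable (summable_loc h)
  simp only [add_sub_cancel] at h1
  exact le_of_tendsto h1.hasProd ((eventually_ge_atTop s₀).mono hB)

lemma sing_le {r : Fin l → ℕ} (h : 0 < Del r) : sing r ≤ hf (Del r) ^ (2 * l) := by
  refine sing_le_of h ∅ fun s _ => ?_
  calc _ ≤ ∏ p ∈ s, if (p : ℕ) ∣ Del r then (1 + ((p : ℕ) : ℝ)⁻¹) ^ (2 * l) else 1 :=
        prod_le_prod (fun p _ => (loc_pos r p.2).le) fun p _ => by
          split_ifs with h'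
          exacts [loc_le r p.2, loc_le_one p.2 h']
    _ ≤ _ := by
        rw [← prod_filter, hf, ← prod_pow, ← prod_image (s := s.filter fun p : Nat.Primes => (p : ℕ) ∣ Del r)
         
          (f := fun p : ℕ => (1 + (p : ℝ)⁻¹) ^ (2 * l)) Nat.Primes.coe_nat_injective.injOn]
        refine prod_le_prod_of_subset_of_one_le (fun p hp => ?_) (fun _ _ => by positivity)
          fun _ _ _ => one_le_pow₀ (le_add_of_nonneg_right (by positivity))
        obtain ⟨q, hq, rfl⟩ := mem_image.1 hp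
        exact Nat.mem_primeFactors.2 ⟨q.2, (mem_filter.1 hq).2, h.ne'⟩

lemma sum_sing_le (l H : ℕ) : ∑ r ∈ Tup (Fin l) H, sing r ≤ cH l (2 * l) * H ^ l := by
  have := sum_Tup_hf_le (ι := Fin l) H (2 * l)
  rw [Fintype.card_fin] at this
  refine le_trans (sum_le_sum fun r hr => sing_le ?_) this
  obtain ⟨a1, a2⟩ := mem_Tup.1 hr
  exact Del_pos (fun i => (a1 i).1) a2

end Pool.Agent.Work.MP_d018b2_nt
end
end
end

-- merged part: Pool.Agent.Work.MP_d018b2_nt.DMain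
section
/-!
# Almost every `k`-tuple contains an `l`-tuple with many prime values
-/

noncomputable section

open Finset Filter Topology

namespace Pool.Agent.Work.MP_d018b2_nt

open Pool.Agent.Lib.ANT Pool.Agent.Work.MP_52820d_nt

lemma ev_params (A m : ℕ) (hA : 0 < A) {P : ℕ → Prop} (hP : ∀ᶠ s in atTop, P s) (X₀ : ℕ) :
    ∀ᶠ x : ℝ in atTop, ∃ n s : ℕ, P s ∧ X₀ ≤ n ∧ (n : ℝ) < x ∧ x ≤ n + 1 ∧ 2 ^ (A * s) ≤ n ∧
      n < 2 ^ (2 * A * s) ∧ s ^ m ≤ 2 ^ s ∧ Real.log (s ^ m : ℕ) ^ 26 ≤ s := by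
  have e1 : ∀ᶠ s : ℕ in atTop, s ^ m ≤ 2 ^ s := by
    filter_upwards [(tendsto_pow_const_div_const_pow_of_one_lt m one_lt_two).eventually_le_const
      one_pos] with s hs
    rw [div_le_one (by positivity)] at hs
    exact_mod_cast hs
  have e2 : ∀ᶠ s : ℕ in atTop, Real.log (s ^ m : ℕ) ^ 26 ≤ s := by
    have := (Real.isLittleO_pow_log_id_atTop (n := 26)).bound (c := 1 / (m + 1) ^ 26) (by positivity)
    filter_upwards [tendsto_natCast_atTop_atTop.eventually this] with s hs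
    simp only [Real.norm_eq_abs, id, Nat.abs_cast] at hs
    have h0 := Real.log_natCast_nonneg s
    rw [Nat.cast_pow, Real.log_pow, mul_pow]
    calc _ ≤ ((m : ℝ) + 1) ^ 26 * (1 / (m + 1) ^ 26 * s) := by
          clear * - m s hs
          gcongr
          · linarith only []
          · exact (le_abs_self _).trans hs
      _ = _ := by field_simp
  obtain ⟨s₀, hs₀⟩ := eventually_atTop.1 (hP.and (e1.and (e2.and (eventually_ge_atTop 1))))
  filter_upwards [eventually_ge_atTop ((X₀ + 2 ^ (A * s₀) + 1 : ℕ) : ℝ)] with x hx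
  have h1 : X₀ + 2 ^ (A * s₀) + 1 ≤ ⌈x⌉₊ := by exact_mod_cast hx.trans (Nat.le_ceil x)
  have h0 := Nat.two_pow_pos (A * s₀)
  obtain ⟨n, hn⟩ : ∃ n, ⌈x⌉₊ = n + 1 := ⟨⌈x⌉₊ - 1, by omega⟩
  have h2 : 2 ^ (A * s₀) ≤ n := by omega
  have hn0 : n ≠ 0 := ((Nat.two_pow_pos _).trans_le h2).ne'
  have h3 : s₀ ≤ Nat.log 2 n / A := (Nat.le_div_iff_mul_le hA).2
    (mul_comm A s₀ ▸ Nat.le_log_of_pow_le one_lt_two h2)
  obtain ⟨a1, a2, a3, a4⟩ := hs₀ _ h3
  refine ⟨n, Nat.log 2 n / A, a1, by omega, Nat.lt_ceil.1 (by omega), ?_, ?_, ?_, a2, a3⟩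
  · exact_mod_cast hn ▸ Nat.le_ceil x
  · exact (Nat.pow_le_pow_right two_pos (Nat.mul_div_le _ _)).trans (Nat.pow_log_le_self 2 hn0)
  · refine (Nat.lt_pow_succ_log_self one_lt_two n).trans_le (Nat.pow_le_pow_right two_pos ?_)
    have := Nat.lt_mul_div_succ (Nat.log 2 n) hA
    clear * - n A this a4
    nlinarith only [this, a4]

lemma trunc_le (k : ℕ) {Y T N : ℝ} (hY : 0 ≤ Y) (hT : 0 < T) (hN : 1 ≤ N) :
    Y ^ k ≤ T ^ k * N + Y ^ (k + 1) / T := by
  rcases le_total Y T with h | h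
  · exact le_add_of_le_of_nonneg (le_trans (by gcongr) (le_mul_of_one_le_right (by positivity) hN))
      (by positivity)
  · refine le_add_of_nonneg_of_le (by positivity) ?_
    rw [le_div_iff₀ hT, pow_succ]; gcongr

open Classical in
/-- the `l`-tuples with few prime values -/
def Bad (l : ℕ) (b c x : ℝ) : Finset (Fin l → ℕ) :=
  {t ∈ Tup (Fin l) ⌊b * Real.log x⌋₊ | (cnt x t : ℝ) < c * (x / Real.log x ^ l * sing t)}

open Classical in
theorem clique (l : ℕ) : ∃ k : ℕ, ∀ b η : ℝ, 0 < b → 0 < η → ∃ c : ℝ, 0 < c ∧ ∀ᶠ x : ℝ in atTop,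
    (#{r ∈ Tup (Fin k) ⌊b * Real.log x⌋₊ | ∀ e : Fin l ↪ Fin k, r ∘ e ∈ Bad l b c x} : ℝ)
      ≤ η * Real.log x ^ k := by
  obtain ⟨J, hJ⟩ : ∃ J, 10 ^ 9 * (l + 1) = J := ⟨_, rfl⟩
  obtain ⟨k, hk⟩ : ∃ k, 2 ^ J = k := ⟨_, rfl⟩
  obtain ⟨a, ha⟩ : ∃ a, 72 * k * J = a := ⟨_, rfl⟩
  have hk1 : 1 ≤ k := hk ▸ Nat.one_le_two_pow
  have hka : 288 * k ≤ a := by nlinarith only [hJ, ha, hk1]
  have ha1 : (1 : ℝ) ≤ a := by exact_mod_cast (by omega)
  refine ⟨k, fun b η hb hη => ?_⟩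
  have hlog : Tendsto (fun w : ℕ => Real.log w) atTop atTop :=
    Real.tendsto_log_atTop.comp tendsto_natCast_atTop_atTop
  obtain ⟨w, c1, c2, c3, c4, c5⟩ := ((hlog.eventually_ge_atTop 100).and
    ((eventually_ge_atTop (228 * k ^ 2)).and
    ((eventually_ge_atTop ((36 * a) ^ (k + 1) * (4 ^ k * (6 * k + 3)))).and
    ((tendsto_natCast_atTop_atTop.eventually_ge_atTop
      ((4 : ℝ) ^ (k + 1) * (6 * (k + 1 : ℕ) + 3))).and
    (tendsto_natCast_atTop_atTop.eventually_ge_atTop (96 * k ^ 4 * b ^ k / η)))))).exists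
  have hw0 : 0 < w := lt_of_lt_of_le (by positivity) c2
  have hw' : (0 : ℝ) < w := by exact_mod_cast hw0
  have hW0 : (0 : ℝ) < primorial w := by exact_mod_cast primorial_pos w
  obtain ⟨K₁, hK₁⟩ : ∃ K : ℝ, K = primorial w * k * (108 * a ^ 2 * 4 ^ (259 * a)) ^ k := ⟨_, rfl⟩
  obtain ⟨M₂, hM₂⟩ : ∃ M : ℝ, M = (2 * (k + 1 : ℕ)) ^ (k + 1) + 4 * cH (k + 1) (k + 1) *
    (24 * Real.log w * (256 * a * b)) ^ (k + 1) := ⟨_, rfl⟩
  have hK0 : 0 < K₁ := by rw [hK₁]; positivity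
  have hM0 : 0 < M₂ := by have := cH_pos (k + 1) (k + 1); rw [hM₂]; positivity
  obtain ⟨T, hT⟩ : ∃ T : ℝ, T = 8 * K₁ * M₂ / η := ⟨_, rfl⟩
  have hT0 : 0 < T := by rw [hT]; positivity
  have hcH := cH_pos l (2 * l)
  obtain ⟨c, hc⟩ : ∃ c : ℝ, c = η / (16 * K₁ * T ^ k * cH l (2 * l) * b ^ l) := ⟨_, rfl⟩
  have hc0 : 0 < c := by rw [hc]; positivity
  refine ⟨c, hc0, ?_⟩
  obtain ⟨X₀, cθ⟩ := eventually_atTop.1 ev_theta
  filter_upwards [ev_params (128 * a) (48 * k + 22) (by omega)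
    ((eventually_ge_atTop (10 ^ 13 * a ^ 4)).and ((eventually_ge_atTop (10 * primorial w)).and
    ((tendsto_natCast_atTop_atTop.eventually_ge_atTop (256 * a * b * primorial w)).and
    ((tendsto_pow_atTop (by omega : 48 * k + 22 ≠ 0)).eventually (weak_sw w))))) X₀]
    with x ⟨n, s, ⟨d1, d2, d3, p₁, hp₁, hwp, hSW⟩, hX₀, x1, x2, n1, n2, d4, d5⟩
  have l2 := Real.log_two_gt_d9
  have l2' := Real.log_two_lt_d9
  have hs3 : 3 ≤ s := by have := primorial_pos w; omega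
  have hs' : (3 : ℝ) ≤ s := by exact_mod_cast hs3
  have hn0 : 0 < n := (Nat.two_pow_pos _).trans_le n1
  have hn' : (1 : ℝ) ≤ n := by exact_mod_cast hn0
  have hly : Real.log ((2 ^ s : ℕ) : ℝ) = s * Real.log 2 := log_two_pow' s
  obtain hL1 : Real.log x ≤ 256 * a * Real.log ((2 ^ s : ℕ) : ℝ) := by
    clear * - n a s n2 x x1 l2 l2' hn' x2 hly
    have : (n : ℝ) + 1 ≤ (2 ^ (2 * (128 * a) * s) : ℕ) := by exact_mod_cast n2
    refine (Real.log_le_log (by linarith only [x1, l2, l2', hn']) (x2.trans this)).trans (le_of_eq ?_)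
    rw [log_two_pow', hly]; push_cast; ring
  obtain hL2 : (s : ℝ) ≤ Real.log x := by
    clear * - s a x l2 hs' ha1 n n1 l2' hn' x1
    refine le_trans ?_ ((log_mono' n1).trans (Real.log_le_log (by linarith only [l2, l2', hn']) x1.le))
    rw [log_two_pow']; push_cast
    nlinarith only [l2, ha1, hs', mul_nonneg (sub_nonneg.2 ha1) (by linarith only [hs'] : (0 : ℝ) ≤ s)]
  have hL0 : 0 < Real.log x := by clear * - x s l2 l2' hs' hL2; linarith only [l2, l2', hs', hL2]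
  set H := ⌊b * Real.log x⌋₊ with hH
  have hH1 : (H : ℝ) ≤ b * Real.log x := Nat.floor_le (by positivity)
  obtain hH2 : (H : ℝ) ≤ 256 * a * b * Real.log ((2 ^ s : ℕ) : ℝ) := by
    nlinarith only [hH1, mul_le_mul_of_nonneg_left hL1 hb.le]
  obtain hH3 : H * primorial w ≤ s ^ 2 := by
    clear * - H a b s hH2 hly hs' l2' ha1 hb w hW0 d3
    have b1 : (H : ℝ) ≤ 256 * a * b * s := hH2.trans (by
      rw [hly]; gcongr; nlinarith only [l2', hs'])
    have : (H : ℝ) * primorial w ≤ s ^ 2 := by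
      nlinarith only [mul_le_mul_of_nonneg_right b1 hW0.le,
        mul_le_mul_of_nonneg_right d3 (by linarith only [hs'] : (0 : ℝ) ≤ s)]
    exact_mod_cast this
  by_contra! hcon
  set B := {r ∈ Tup (Fin k) H | ∀ e : Fin l ↪ Fin k, r ∘ e ∈ Bad l b c x} with hB
  obtain g1 : (#{r ∈ B | ¬ 12 * k ^ 2 * ∑ e, pen w p₁ (dd r e) ≤ 1} : ℝ)
      ≤ η / 2 * Real.log x ^ k := by
    clear * - k H w p₁ hw0 hwp B b η x l c hk1 hH1 hη hL0 hb hw' c5
    have b1 := sum_Tup_pen_le (ι := Fin k) hw0 hwp H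
    rw [Fintype.card_fin] at b1
    calc _ ≤ ∑ r ∈ Tup (Fin k) H, 12 * k ^ 2 * ∑ e, pen w p₁ (dd r e) := by
          rw [← mul_one (# _ : ℝ), ← nsmul_eq_mul, ← sum_const]
          exact (sum_le_sum fun r hr => (not_le.1 (mem_filter.1 hr).2).le).trans
            (sum_le_sum_of_subset_of_nonneg ((filter_subset _ _).trans (filter_subset _ _))
              fun r _ _ => mul_nonneg (by positivity) (sum_nonneg fun _ _ => pen_nonneg _ _ _))
      _ ≤ 12 * k ^ 2 * (4 * k ^ 2 / w * (b * Real.log x) ^ k) := by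
          rw [← mul_sum]; gcongr; exact b1.trans (by gcongr)
      _ = 96 * k ^ 4 * b ^ k / η / w * (η / 2 * Real.log x ^ k) := by rw [mul_pow]; field_simp; ring
      _ ≤ _ := mul_le_of_le_one_left (by positivity) ((div_le_one hw').2 c5)
  set B' := {r ∈ B | 12 * k ^ 2 * ∑ e, pen w p₁ (dd r e) ≤ 1} with hB'
  obtain g2 : η / 2 * s ^ k ≤ #B' := by
    clear * - k B' w p₁ B η s x hs3 hL2 hη g1 hcon
    obtain b1 : (#B' : ℝ) + #{r ∈ B | ¬ 12 * k ^ 2 * ∑ e, pen w p₁ (dd r e) ≤ 1} = #B := by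
      rw [← Nat.cast_add, card_filter_add_card_filter_not]
    have b2 : η / 2 * s ^ k ≤ η / 2 * Real.log x ^ k := by gcongr
    linarith only [b1, b2, g1, hcon]
  obtain g3 : #B' * (n : ℝ) ≤ (∑ r ∈ B', #{q ∈ Ioc n (n + n) | l ≤ #{i | (r i * q + 1).Prime} ∧
      ∀ i, Rough (2 ^ s) (r i * q + 1)} : ℝ) * (K₁ * s ^ k) := by
    rw [← nsmul_eq_mul, sum_mul]
    refine card_nsmul_le_sum _ _ _ fun r hr => ?_
    refine (step hJ hk ha c1 c2 c3 d1 d2 hH3 d4 d5 n1 (n2.le.trans_eq (by ring_nf)) hX₀ cθ hp₁ hwp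
      hSW (mem_filter.1 (mem_filter.1 hr).1).1 (mem_filter.1 hr).2
      (E := {q ∈ Ioc n (n + n) | l ≤ #{i | (r i * q + 1).Prime} ∧ ∀ i, Rough (2 ^ s) (r i * q + 1)})
      fun q h1 h2 h3 => mem_filter.2 ⟨h1, h2, h3⟩).trans (le_of_eq ?_)
    rw [hK₁, mul_pow _ (s : ℝ)]; ring
  have g4 : ∀ q ∈ Ioc n (n + n), (#{r ∈ B' | l ≤ #{i | (r i * q + 1).Prime} ∧
      ∀ i, Rough (2 ^ s) (r i * q + 1)} : ℝ) ≤ T ^ k * #{t ∈ Bad l b c x | ∀ j, (q * t j + 1).Prime}
        + #(RS H (2 ^ s) q) ^ (k + 1) / T := fun q _ => by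
    clear * - k l q s B' T b c x H hT0 w p₁ B hB' hB
    rcases eq_empty_or_nonempty {r ∈ B' | l ≤ #{i | (r i * q + 1).Prime} ∧
      ∀ i, Rough (2 ^ s) (r i * q + 1)} with h | ⟨r, hr⟩
    · rw [h, card_empty, Nat.cast_zero]; positivity
    obtain b1 : (#{r ∈ B' | l ≤ #{i | (r i * q + 1).Prime} ∧
        ∀ i, Rough (2 ^ s) (r i * q + 1)} : ℝ) ≤ #(RS H (2 ^ s) q) ^ k := by
      have := card_le_card (s := {r ∈ B' | l ≤ #{i | (r i * q + 1).Prime} ∧
        ∀ i, Rough (2 ^ s) (r i * q + 1)}) (t := Fintype.piFinset fun _ : Fin k => RS H (2 ^ s) q)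
        fun r hr => by
          simp only [hB', hB, mem_filter, mem_Tup, Fintype.mem_piFinset, RS, mem_Icc] at hr ⊢
          exact fun i => ⟨hr.1.1.1.1 i, hr.2.2 i⟩
      rw [Fintype.card_piFinset_const] at this
      exact_mod_cast this
    refine b1.trans ?_
    obtain ⟨b2, b3, -⟩ := mem_filter.1 hr
    obtain ⟨e, he⟩ := Function.Embedding.exists_of_card_le_finset (α := Fin l)
      ((Fintype.card_fin l).trans_le b3)
    obtain b4 : (1 : ℝ) ≤ #{t ∈ Bad l b c x | ∀ j, (q * t j + 1).Prime} := by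
      exact_mod_cast card_pos.2 ⟨r ∘ e, mem_filter.2 ⟨(mem_filter.1 (mem_filter.1 b2).1).2 e,
        fun j => mul_comm q _ ▸ (mem_filter.1 (he ⟨j, rfl⟩)).2⟩⟩
    exact trunc_le k (Nat.cast_nonneg _) hT0 b4
  obtain g5 : ∑ q ∈ Ioc n (n + n), (#{t ∈ Bad l b c x | ∀ j, (q * t j + 1).Prime} : ℝ)
      ≤ c * (2 * n * (cH l (2 * l) * b ^ l)) := by
    clear * - n l b c x x1 x2 l2 l2' hn' H hH1 hcH hL0 hc0 hb
    calc _ = ∑ t ∈ Bad l b c x, (#{q ∈ Ioc n (n + n) | ∀ j, (q * t j + 1).Prime} : ℝ) := by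
          simp_rw [card_filter, Nat.cast_sum]
          exact sum_comm
      _ ≤ ∑ t ∈ Bad l b c x, c * (x / Real.log x ^ l * sing t) := by
          refine sum_le_sum fun t ht => le_trans (Nat.cast_le.2 (card_le_card fun q hq => ?_))
            (mem_filter.1 ht).2.le
          simp only [mem_filter, mem_Ioc, mem_range] at hq ⊢
          have b1 : (n : ℝ) + 1 ≤ q := by exact_mod_cast hq.1.1
          have b2 : (q : ℝ) ≤ n + n := by exact_mod_cast hq.1.2
          exact ⟨Nat.lt_ceil.2 (by linarith only [x1, b2]), by linarith only [x2, b1], by linarith only [x1, b2], hq.2⟩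
      _ ≤ c * (x / Real.log x ^ l * (cH l (2 * l) * (b * Real.log x) ^ l)) := by
          rw [← mul_sum, ← mul_sum]
          have : 0 ≤ x := by linarith only [x1, l2, l2', hn']
          gcongr
          refine (sum_le_sum_of_subset_of_nonneg (filter_subset _ _) fun t ht _ => ?_).trans
            ((sum_sing_le l H).trans (by gcongr))
          obtain ⟨a1, a2⟩ := mem_Tup.1 ht
          exact (sing_pos (Del_pos (fun i => (a1 i).1) a2)).le
      _ = c * (x * (cH l (2 * l) * b ^ l)) := by rw [mul_pow]; field_simp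
      _ ≤ _ := by gcongr; linarith only [x2, hn']
  have g6 := moment_le (x := n) (j := k + 1) (H := H) c1
    (le_trans (by have := le_primorial_self (n := w); omega) Nat.lt_two_pow_self.le) c4 (by
      clear * - s k hly hs3 hs' l2' l J a b w X₀ x n p₁ hk1 d4 hka n1 hH2
      obtain b1 : (3 * Real.log ((2 ^ s : ℕ) : ℝ)) ^ (7 * (k + 1)) ≤ (2 ^ s : ℕ) := by
        calc _ ≤ ((s : ℝ) ^ 2) ^ (7 * (k + 1)) := by
              rw [hly]; gcongr; nlinarith only [l2', hs']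
          _ ≤ _ := by
              rw [← pow_mul]
              exact_mod_cast (Nat.pow_le_pow_right (by omega) (by omega)).trans d4
      refine (mul_le_mul_of_nonneg_right b1 (by positivity)).trans ?_
      norm_cast
      rw [← pow_mul, ← pow_mul, ← pow_mul, ← pow_add]
      exact le_trans (Nat.pow_le_pow_right two_pos (by nlinarith only [hka, hk1])) n1) hH2
  rw [← hM₂] at g6
  obtain g7 : (∑ r ∈ B', #{q ∈ Ioc n (n + n) | l ≤ #{i | (r i * q + 1).Prime} ∧
      ∀ i, Rough (2 ^ s) (r i * q + 1)} : ℝ)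
      ≤ T ^ k * (c * (2 * n * (cH l (2 * l) * b ^ l))) + M₂ * n / T := by
    clear * - k B' l s n T c b M₂ x H g4 g5 hT0 g6
    refine le_trans (le_of_eq ?_) ((sum_le_sum g4).trans ?_)
    · simp_rw [card_filter, Nat.cast_sum]
      exact sum_comm
    · rw [sum_add_distrib, ← mul_sum, ← sum_div]
      gcongr
  obtain g8 : T ^ k * (c * (2 * n * (cH l (2 * l) * b ^ l))) + M₂ * n / T = η / 4 * n / K₁ := by
    clear * - T k c n l b M₂ η K₁ hc hT hT0 hcH hb hM0 hn0 hK0 hη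
    rw [hc]
    nth_rewrite 3 [hT]
    field_simp; ring
  rw [g8] at g7
  have g9 := (mul_le_mul_of_nonneg_right g2 (by clear * - n l2 l2' hn' g2 g3 g7; linarith only [l2, l2', hn'] : (0 : ℝ) ≤ n)).trans
    (g3.trans (mul_le_mul_of_nonneg_right g7 (by positivity)))
  have g10 : η / 4 * n / K₁ * (K₁ * s ^ k) = η / 4 * (s ^ k * n) := by field_simp
  have g11 : 0 < η * (s ^ k * n) := by positivity
  linarith only [g9, g10, g11]

end Pool.Agent.Work.MP_d018b2_nt
end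
end
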