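import Pool.Agent.Work.MP_d018b2_nt.UBasic

/-! Major and minor arcs in a progression. -/

set_option autoImplicit false
open Filter Topology Finset MeasureTheory

namespace Pool.Agent.Work.MP_d018b2_nt.U

open Pool.Agent.Lib.MR Pool.Agent.Lib.LargeSieve Pool.Agent.Work.MP_ca0f09_nt
open Pool.Agent.Work.MP_51e72e_nt.LT
open scoped ComplexConjugate

lemma arcs_class_sum {β : Type*} [AddCommMonoid β] (F : ℕ → β) {M c : ℕ} (hc : c < M) (T : ℕ) :
    ∑ n ∈ range (T * M), (if n ≡ c [MOD M] then F n else 0) = ∑ t ∈ range T, F (c + M * t) := by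
  rw [arcs_sum_mul]
  refine sum_congr rfl fun t _ => ?_
  rw [sum_eq_single c]
  · rw [if_pos (by simp [Nat.ModEq]), show t * M + c = c + M * t by ring]
  · intro s hs hsc
    rw [if_neg]
    intro h
    have h1 : s ≡ c [MOD M] := by simpa [Nat.ModEq] using h
    exact hsc (h1.eq_of_lt_of_lt (mem_range.1 hs) hc)
  · exact fun h => absurd (mem_range.2 hc) h

lemma arcs_abel_range (w : ℕ → ℂ) (hw : ∀ m, ‖w m‖ ≤ 1) (φ : ℕ → ℝ)
    (hφ : ∀ m, ‖w (m + 1) - w m‖ ≤ φ (m + 1) - φ m) (z : ℂ) (hz : ‖z‖ = 1) (I : ℕ) :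
    ‖(z - 1) * ∑ m ∈ range I, w m * z ^ m - w I * z ^ I‖ ≤ 1 + φ I - φ 0 := by
  induction I with
  | zero => simpa using hw 0
  | succ I ih =>
    have e : (z - 1) * ∑ m ∈ range (I + 1), w m * z ^ m - w (I + 1) * z ^ (I + 1) =
        ((z - 1) * ∑ m ∈ range I, w m * z ^ m - w I * z ^ I) -
          (w (I + 1) - w I) * z ^ (I + 1) := by
      rw [sum_range_succ]; ring
    rw [e]
    refine (norm_sub_le _ _).trans ?_
    rw [norm_mul (w _ - _), norm_pow, hz, one_pow, mul_one]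
    linarith [hφ I]

lemma arcs_corr2 (θ : ℕ → ℂ) (hθ : ∀ k, ‖θ k‖ ≤ 1) {K : ℕ} (hK : ∀ k, K < k → θ k = 0)
    (H t₀ t t' p q I : ℕ) (α : ℝ) :
    4 * dZ (((p : ℝ) - q) * α) * ‖∑ i ∈ range I,
      θ ((t + p * i + t₀) / H) * ee (α * (t + p * i : ℕ)) *
        conj (θ ((t' + q * i + t₀) / H) * ee (α * (t' + q * i : ℕ)))‖ ≤ 4 * K + 6 := by
  set z := ee (((p : ℝ) - q) * α) with hz
  set k : ℕ → ℕ → ℕ → ℕ := fun t p i => min ((t + p * i + t₀) / H) (K + 1) with hk
  have θk : ∀ t p i, θ ((t + p * i + t₀) / H) = θ (k t p i) := fun t p i => by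
    rcases le_total ((t + p * i + t₀) / H) (K + 1) with h | h
    · simp only [hk, min_eq_left h]
    · simp only [hk, min_eq_right h]
      rw [hK _ (by omega), hK _ (by omega)]
  set w : ℕ → ℂ := fun i => θ (k t p i) * conj (θ (k t' q i)) with hw
  have w1 : ∀ m, ‖w m‖ ≤ 1 := fun m => by
    rw [hw, norm_mul, Complex.norm_conj]
    exact mul_le_one₀ (hθ _) (norm_nonneg _) (hθ _)
  have e : ∑ i ∈ range I, θ ((t + p * i + t₀) / H) * ee (α * (t + p * i : ℕ)) *
      conj (θ ((t' + q * i + t₀) / H) * ee (α * (t' + q * i : ℕ))) =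
      ee (α * (t - t')) * ∑ m ∈ range I, w m * z ^ m := by
    rw [mul_sum]
    refine sum_congr rfl fun m _ => ?_
    rw [map_mul, conj_ee, hz, ← ee_nat_mul, mul_mul_mul_comm, ← ee_add, θk, θk, mul_left_comm,
      ← ee_add]
    congr 2
    push_cast
    ring
  have mono : ∀ t p m : ℕ, k t p m ≤ k t p (m + 1) := fun t p m =>
    min_le_min_right _ (Nat.div_le_div_right (by gcongr; omega))
  have h := arcs_abel_range w w1 (fun m => 2 * (k t p m : ℝ) + 2 * (k t' q m : ℝ)) (fun m => by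
      have a1 := arcs_step θ hθ (mono t p m)
      have a2 := arcs_step θ hθ (mono t' q m)
      have e : w (m + 1) - w m =
          (θ (k t p (m + 1)) - θ (k t p m)) * conj (θ (k t' q (m + 1))) +
          θ (k t p m) * conj (θ (k t' q (m + 1)) - θ (k t' q m)) := by
        rw [hw, map_sub]; ring
      rw [e]
      refine (norm_add_le _ _).trans ?_
      rw [norm_mul, norm_mul, Complex.norm_conj, Complex.norm_conj]
      have b1 := mul_le_of_le_one_right (norm_nonneg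
        (θ (k t p (m + 1)) - θ (k t p m))) (hθ (k t' q (m + 1)))
      have b2 := mul_le_of_le_one_left (norm_nonneg
        (θ (k t' q (m + 1)) - θ (k t' q m))) (hθ (k t p m))
      linarith) z (norm_ee _) I
  rw [e, norm_mul, norm_ee, one_mul]
  refine (mul_le_mul_of_nonneg_right (four_dZ_le _) (norm_nonneg _)).trans ?_
  rw [← norm_mul, ← hz]
  have h1 := norm_add_le ((z - 1) * ∑ m ∈ range I, w m * z ^ m - w I * z ^ I) (w I * z ^ I)
  rw [sub_add_cancel, norm_mul (w _), norm_pow, hz, norm_ee, one_pow, mul_one, ← hz] at h1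
  have h2 : (0 : ℝ) ≤ k t p 0 := Nat.cast_nonneg _
  have h3 : (0 : ℝ) ≤ k t' q 0 := Nat.cast_nonneg _
  have h4 : (k t p I : ℝ) ≤ K + 1 := by exact_mod_cast min_le_right _ _
  have h5 : (k t' q I : ℝ) ≤ K + 1 := by exact_mod_cast min_le_right _ _
  linarith [w1 I]

lemma arcs_cs (g : ℕ → ℂ) (b : ℕ → ℕ → ℂ) (hg : ∀ n, ‖g n‖ ≤ 1) (Q S : Finset ℕ) {E₁ E₂ : ℝ}
    (hE : 0 ≤ E₂) (h1 : ∀ p ∈ Q, ∑ m ∈ S, ‖b p m‖ ^ 2 ≤ E₁)
    (h2 : ∀ p ∈ Q, ∀ q ∈ Q, p ≠ q → ‖∑ m ∈ S, b p m * conj (b q m)‖ ≤ E₂) :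
    ‖∑ p ∈ Q, ∑ m ∈ S, g m * b p m‖ ^ 2 ≤ S.card * (Q.card * E₁ + Q.card ^ 2 * E₂) := by
  have h3 : ∀ p ∈ Q, ∀ q ∈ Q, ‖∑ m ∈ S, b p m * conj (b q m)‖ ≤
      (if q = p then E₁ else 0) + E₂ := by
    intro p hp q hq
    by_cases hqp : q = p
    · subst hqp
      rw [if_pos rfl]
      refine (norm_sum_le _ _).trans ?_
      simp only [norm_mul, Complex.norm_conj, ← sq]
      linarith [h1 q hq]
    · rw [if_neg hqp, zero_add]
      exact h2 p hp q hq (Ne.symm hqp)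
  have h4 : ∑ m ∈ S, ‖∑ p ∈ Q, b p m‖ ^ 2 ≤ Q.card * E₁ + Q.card ^ 2 * E₂ := by
    have h5 : ((∑ m ∈ S, ‖∑ p ∈ Q, b p m‖ ^ 2 : ℝ) : ℂ) =
        ∑ p ∈ Q, ∑ q ∈ Q, ∑ m ∈ S, b p m * conj (b q m) := by
      push_cast
      simp_rw [← Complex.mul_conj', map_sum, Finset.sum_mul_sum]
      rw [Finset.sum_comm]
      exact Finset.sum_congr rfl fun p _ => Finset.sum_comm
    have h6 : ∑ m ∈ S, ‖∑ p ∈ Q, b p m‖ ^ 2 ≤
        ‖∑ p ∈ Q, ∑ q ∈ Q, ∑ m ∈ S, b p m * conj (b q m)‖ := by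
      rw [← h5, Complex.norm_real]
      exact le_abs_self _
    refine h6.trans ((norm_sum_le _ _).trans ?_)
    have h7 : ∀ p ∈ Q, ‖∑ q ∈ Q, ∑ m ∈ S, b p m * conj (b q m)‖ ≤ E₁ + Q.card * E₂ := by
      intro p hp
      refine (norm_sum_le _ _).trans ((Finset.sum_le_sum (h3 p hp)).trans (le_of_eq ?_))
      rw [Finset.sum_add_distrib, Finset.sum_ite_eq' Q p, if_pos hp, Finset.sum_const,
        nsmul_eq_mul]
    refine (Finset.sum_le_card_nsmul _ _ _ h7).trans (le_of_eq ?_)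
    rw [nsmul_eq_mul]
    ring
  have h5 : ‖∑ p ∈ Q, ∑ m ∈ S, g m * b p m‖ ≤ ∑ m ∈ S, 1 * ‖∑ p ∈ Q, b p m‖ := by
    rw [sum_comm]
    refine (norm_sum_le _ _).trans (Finset.sum_le_sum fun m _ => ?_)
    rw [← mul_sum, norm_mul]
    exact mul_le_mul_of_nonneg_right (hg _) (norm_nonneg _)
  have h6 := Finset.sum_mul_sq_le_sq_mul_sq S (fun _ => (1 : ℝ)) fun m => ‖∑ p ∈ Q, b p m‖
  simp only [one_pow, Finset.sum_const, nsmul_eq_mul, mul_one] at h6
  exact (pow_le_pow_left₀ (norm_nonneg _) h5 2).trans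
    (h6.trans (mul_le_mul_of_nonneg_left h4 (Nat.cast_nonneg _)))

/-- One dyadic block of primes. -/
lemma arcs_block (g u : ℕ → ℂ) (hg : ∀ n, ‖g n‖ ≤ 1) (hu : ∀ t, ‖u t‖ ≤ 1) {M c T D : ℕ}
    (hM : 0 < M) (Q : Finset ℕ) (hQ : ∀ p ∈ Q, p.Coprime M) (hD : 0 < D) (hDT : D ≤ T)
    {δ E : ℝ} (hδ : 0 < δ) (hE0 : 0 ≤ E)
    (hE : ∀ p ∈ Q, ∀ q ∈ Q, p ≠ q → ∀ t t' I : ℕ,
      ‖∑ i ∈ range I, u (t + p * i) * conj (u (t' + q * i))‖ ≤ E)
    (hET : 2 * (M : ℝ) ^ 2 * D * E ≤ δ ^ 2 * T) :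
    ‖∑ p ∈ Q, ∑ m ∈ range ((T / D + 1) * M), g m * res M c (fun n => u (n / M)) (p * m)‖ ≤
      T / D * (δ * Q.card + 2 * M / δ) := by
  set I := T / D + 1 with hI
  have D0 : (0 : ℝ) < D := by exact_mod_cast hD
  have hDT' : (1 : ℝ) ≤ T / D := by rw [le_div_iff₀ D0, one_mul]; exact_mod_cast hDT
  have hI' : (I : ℝ) ≤ 2 * (T / D) := by
    have : ((T / D : ℕ) : ℝ) ≤ T / D := Nat.cast_div_le
    rw [hI]; push_cast; linarith
  have md : ∀ p i s : ℕ, p * (i * M + s) ≡ c [MOD M] ↔ p * s ≡ c [MOD M] := fun p i s => by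
    rw [show p * (i * M + s) = p * s + M * (p * i) by ring]
    simp [Nat.ModEq]
  have dv : ∀ p i s : ℕ, p * (i * M + s) / M = p * s / M + p * i := fun p i s => by
    rw [show p * (i * M + s) = p * s + M * (p * i) by ring, Nat.add_mul_div_left _ _ hM]
  have h := arcs_cs g (fun p m => res M c (fun n => u (n / M)) (p * m)) hg Q (range (I * M))
    (E₁ := I) (E₂ := M * E) (by positivity) (fun p hp => by
      rw [arcs_sum_mul]
      refine (sum_le_card_nsmul _ _ 1 fun i _ => ?_).trans (by simp)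
      have h1 : ∀ s ∈ range M, ‖res M c (fun n => u (n / M)) (p * (i * M + s))‖ ^ 2 ≤
          if p * s ≡ c [MOD M] then (1 : ℝ) else 0 := by
        intro s _
        simp only [res, md]
        split_ifs
        · exact pow_le_one₀ (norm_nonneg _) (hu _)
        · simp
      refine (sum_le_sum h1).trans ?_
      rw [sum_boole]
      exact_mod_cast card_le_one.2 fun s hs s' hs' => by
        obtain ⟨a1, a2⟩ := mem_filter.1 hs
        obtain ⟨a3, a4⟩ := mem_filter.1 hs'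
        exact (Nat.ModEq.cancel_left_of_coprime (hQ p hp).symm (a2.trans a4.symm)).eq_of_lt_of_lt
          (mem_range.1 a1) (mem_range.1 a3))
    (fun p hp q hq hpq => by
      rw [arcs_sum_mul, sum_comm]
      refine (norm_sum_le _ _).trans ((sum_le_card_nsmul _ _ E fun s _ => ?_).trans (by simp))
      simp only [res, md, dv]
      by_cases h1 : p * s ≡ c [MOD M]
      · by_cases h2 : q * s ≡ c [MOD M]
        · simp only [if_pos h1, if_pos h2]
          exact hE p hp q hq hpq _ _ _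
        · simpa [if_neg h2] using hE0
      · simpa [if_neg h1] using hE0)
  refine Lib.ANT.le_of_sq_le_sq₀ (by positivity) (h.trans ?_)
  rw [card_range, Nat.cast_mul]
  set n : ℝ := (Q.card : ℝ)
  set x : ℝ := T / D with hx
  have n0 : 0 ≤ n := Nat.cast_nonneg _
  have M0 : (0 : ℝ) < M := by exact_mod_cast hM
  have h1 : 2 * (M : ℝ) ^ 2 * E ≤ δ ^ 2 * x := by
    rw [hx, ← mul_div_assoc, le_div_iff₀ D0]; linarith
  calc (I : ℝ) * M * (n * I + n ^ 2 * (M * E)) ≤ 2 * x * M * (n * (2 * x) + n ^ 2 * (M * E)) := by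
        gcongr
    _ = x ^ 2 * (4 * M * n) + x * n ^ 2 * (2 * M ^ 2 * E) := by ring
    _ ≤ x ^ 2 * (4 * M * n) + x * n ^ 2 * (δ ^ 2 * x) + x ^ 2 * (2 * M / δ) ^ 2 := by
        have : 0 ≤ x ^ 2 * (2 * M / δ) ^ 2 := by positivity
        have : x * n ^ 2 * (2 * M ^ 2 * E) ≤ x * n ^ 2 * (δ ^ 2 * x) := by gcongr
        linarith
    _ = _ := by field_simp; ring

lemma arcs_dvd_sum (f : ℕ → ℂ) {Y p W : ℕ} (hp : 0 < p) (hf : ∀ n, Y ≤ n → f n = 0)
    (hW : Y ≤ W * p) :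
    ∑ n ∈ range Y, (if p ∣ n then f n else 0) = ∑ m ∈ range W, f (p * m) := by
  have h := arcs_class_sum f hp W
  simp only [Nat.modEq_zero_iff_dvd, zero_add] at h
  rw [← h]
  refine sum_subset (range_subset_range.2 hW) fun n _ hn => ?_
  rw [hf n (by simpa using hn), ite_self]

/-- The criterion of Katai in a progression. -/
lemma katai_AP (g u : ℕ → ℂ) (hg : ∀ n, ‖g n‖ ≤ 1) (hu : ∀ t, ‖u t‖ ≤ 1) (u0 : u 0 = 0)
    {M c T R : ℕ} (hT : ∀ t, T ≤ t → u t = 0) (hc : c < M) (P : Finset ℕ)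
    (hP : ∀ p ∈ P, p.Prime ∧ M < p ∧ p ≤ R) (hm : ∀ p ∈ P, ∀ m, g (p * m) = g m)
    {δ E : ℝ} (hδ : 0 < δ) (hL1 : 1 ≤ ∑ p ∈ P, (p : ℝ)⁻¹) (hL : 18 ≤ δ ^ 2 * ∑ p ∈ P, (p : ℝ)⁻¹)
    (hRT : 4 * R ^ 2 ≤ T) (hE0 : 0 ≤ E)
    (hE : ∀ p ∈ P, ∀ q ∈ P, p ≠ q → ∀ t t' I : ℕ,
      ‖∑ i ∈ range I, u (t + p * i) * conj (u (t' + q * i))‖ ≤ E)
    (hET : 2 * (M : ℝ) ^ 2 * R * E ≤ δ ^ 2 * T) :
    ‖∑ t ∈ range T, g (c + M * t) * u t‖ ≤ 3 * δ * T := by
  classical
  have hM : 0 < M := by omega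
  have M0 : (0 : ℝ) < M := by exact_mod_cast hM
  set L : ℝ := ∑ p ∈ P, (p : ℝ)⁻¹ with hLdef
  have L0 : 0 < L := by linarith
  set a : ℕ → ℂ := res M c fun n => u (n / M) with ha
  have a1 : ∀ n, T * M ≤ n → a n = 0 := fun n hn => by
    simp only [ha, res]
    rw [hT _ ((Nat.le_div_iff_mul_le hM).2 hn), ite_self]
  have e0 : ∑ t ∈ range T, g (c + M * t) * u t = ∑ n ∈ range (T * M), g n * a n := by
    have := arcs_class_sum (fun n => g n * u (n / M)) hc T
    simp only [Nat.add_mul_div_left _ _ hM, Nat.div_eq_of_lt hc, zero_add] at this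
    rw [← this]
    exact sum_congr rfl fun n _ => by simp only [ha, res]; split_ifs <;> simp
  set j₀ := Nat.log 2 M with hj₀
  set J := Nat.log 2 R + 1 with hJ
  have hmaps : ∀ p ∈ P, Nat.log 2 p ∈ Ico j₀ J := fun p hp =>
    mem_Ico.2 ⟨Nat.log_mono_right (hP p hp).2.1.le,
      Nat.lt_succ_of_le (Nat.log_mono_right (hP p hp).2.2)⟩
  set Q : ℕ → Finset ℕ := fun j => P.filter fun p => Nat.log 2 p = j with hQ
  have T0 : (0 : ℝ) ≤ T := Nat.cast_nonneg _
  have hN : ∀ j ∈ Ico j₀ J, ‖∑ p ∈ Q j, ∑ n ∈ range (T * M), if p ∣ n then g n * a n else 0‖ ≤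
      δ * T * (((Q j).card : ℝ) / 2 ^ j) + 2 * M / δ * T * (1 / 2) ^ j := by
    intro j _
    rcases (Q j).eq_empty_or_nonempty with h | ⟨p₀, hp₀⟩
    · rw [h]
      simp only [sum_empty, norm_zero]
      positivity
    have hD : ∀ p ∈ Q j, 2 ^ j ≤ p := fun p hp => by
      obtain ⟨h1, h2⟩ := mem_filter.1 hp
      rw [← h2]
      exact Nat.pow_log_le_self 2 (hP p h1).1.ne_zero
    have hDR : 2 ^ j ≤ R := (hD p₀ hp₀).trans (hP p₀ (mem_filter.1 hp₀).1).2.2
    have D0 : 0 < 2 ^ j := by positivity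
    have h := arcs_block g u hg hu (c := c) (T := T) hM (Q j)
      (fun p hp => (Nat.coprime_of_lt_prime hM.ne' (hP p (mem_filter.1 hp).1).2.1
        (hP p (mem_filter.1 hp).1).1)) D0 (by nlinarith) hδ hE0
      (fun p hp q hq => hE p (mem_filter.1 hp).1 q (mem_filter.1 hq).1)
      (le_trans (by gcongr) hET)
    refine (le_of_eq (congrArg _ (sum_congr rfl fun p hp => ?_))).trans (h.trans (le_of_eq ?_))
    · rw [arcs_dvd_sum (fun n => g n * a n) (W := (T / 2 ^ j + 1) * M) (D0.trans_le (hD p hp))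
        (fun n hn => by rw [a1 n hn, mul_zero])]
      · exact sum_congr rfl fun m _ => by rw [hm p (mem_filter.1 hp).1]
      · have h1 := Nat.lt_mul_div_succ T D0
        have h2 : 2 ^ j * (T / 2 ^ j + 1) ≤ p * (T / 2 ^ j + 1) :=
          Nat.mul_le_mul_right _ (hD p hp)
        calc T * M ≤ p * (T / 2 ^ j + 1) * M := Nat.mul_le_mul_right _ (by omega)
          _ = _ := by ring
    · push_cast
      rw [one_div, inv_pow]
      field_simp
  have hA : ∑ j ∈ Ico j₀ J, ((Q j).card : ℝ) / 2 ^ j ≤ 2 * L := by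
    rw [hLdef, ← Finset.sum_fiberwise_of_maps_to hmaps, Finset.mul_sum]
    refine Finset.sum_le_sum fun j _ => ?_
    rw [Finset.mul_sum, div_eq_mul_inv, ← nsmul_eq_mul, ← Finset.sum_const]
    refine Finset.sum_le_sum fun p hp => ?_
    obtain ⟨h1, h2⟩ := Finset.mem_filter.1 hp
    have h3 : p < 2 ^ (j + 1) := h2 ▸ Nat.lt_pow_succ_log_self one_lt_two p
    have h4 : (p : ℝ) ≤ 2 ^ (j + 1) := by exact_mod_cast h3.le
    have hp0 : (0 : ℝ) < p := by exact_mod_cast (hP p h1).1.pos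
    rw [← div_eq_mul_inv, ← one_div, div_le_div_iff₀ (by positivity) hp0]
    rw [pow_succ] at h4
    linarith
  have hB : (M : ℝ) * ∑ j ∈ Ico j₀ J, (1 / 2 : ℝ) ^ j ≤ 4 := by
    have h1 := geom_sum_Ico_le_of_lt_one (x := (1 / 2 : ℝ)) (m := j₀) (n := J) (by norm_num)
      (by norm_num)
    have h3 : M < 2 ^ (j₀ + 1) := Nat.lt_pow_succ_log_self one_lt_two M
    have h4 : (M : ℝ) ≤ 2 ^ (j₀ + 1) := by exact_mod_cast h3.le
    refine (mul_le_mul h4 h1 (sum_nonneg fun _ _ => by positivity) (by positivity)).trans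
      (le_of_eq ?_)
    rw [one_div, inv_pow]
    field_simp
    ring
  have h2 : ‖∑ p ∈ P, ∑ n ∈ range (T * M), if p ∣ n then g n * a n else 0‖ ≤
      δ * T * (2 * L) + 8 / δ * T := by
    rw [← Finset.sum_fiberwise_of_maps_to hmaps]
    refine (norm_sum_le _ _).trans ((Finset.sum_le_sum hN).trans ?_)
    rw [sum_add_distrib, ← mul_sum, ← mul_sum]
    refine add_le_add (by gcongr) ?_
    calc _ = 2 / δ * T * (M * ∑ j ∈ Ico j₀ J, (1 / 2 : ℝ) ^ j) := by ring
      _ ≤ 2 / δ * T * 4 := by gcongr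
      _ = _ := by ring
  set ω : ℕ → ℝ := fun n => ∑ p ∈ P, if p ∣ n then (1 : ℝ) else 0 with hω
  have h4 : ‖∑ n ∈ range (T * M), ((ω n - L : ℝ) : ℂ) * (g n * a n)‖ ≤
      δ * L / 2 * T + 1 / δ * T := by
    have h5 : ∀ n ∈ range (T * M), ‖((ω n - L : ℝ) : ℂ) * (g n * a n)‖ ≤
        (if n ≡ c [MOD M] then δ * L / 2 else 0) +
          (2 * δ * L)⁻¹ * if 1 ≤ n ∧ n ≡ c [MOD M] then (ω n - L) ^ 2 else 0 := by
      intro n _
      by_cases h1 : n ≡ c [MOD M]
      · rcases Nat.eq_zero_or_pos n with rfl | hn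
        · simp only [ha, res, Nat.zero_div, u0, ite_self, mul_zero, norm_zero]
          positivity
        rw [if_pos h1, if_pos ⟨hn, h1⟩, norm_mul, norm_mul, Complex.norm_real, Real.norm_eq_abs]
        refine (mul_le_of_le_one_right (abs_nonneg _)
          (mul_le_one₀ (hg _) (norm_nonneg _) (norm_res_le (fun n => hu _) _))).trans ?_
        rw [← sq_abs]
        generalize |ω n - L| = x
        have : δ * L / 2 + (2 * δ * L)⁻¹ * x ^ 2 - x = (2 * δ * L)⁻¹ * (x - δ * L) ^ 2 := by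
          field_simp
          ring
        have : 0 ≤ (2 * δ * L)⁻¹ * (x - δ * L) ^ 2 := by positivity
        linarith
      · simp [ha, res, h1]
    refine (norm_sum_le _ _).trans ((Finset.sum_le_sum h5).trans ?_)
    rw [sum_add_distrib, arcs_class_sum (fun _ => δ * L / 2) hc, ← mul_sum, ← sum_filter,
      sum_const, card_range, nsmul_eq_mul, mul_comm (T : ℝ)]
    have h6 := tk_AP P hM (fun p hp => ⟨(hP p hp).1, fun h =>
      absurd (Nat.le_of_dvd hM h) (not_le.2 (hP p hp).2.1)⟩) c (T * M)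
    have h7 : ∑ n ∈ range (T * M) with 1 ≤ n ∧ n ≡ c [MOD M], (ω n - L) ^ 2 ≤
        ∑ n ∈ Icc 1 (T * M) with n ≡ c [MOD M], (ω n - L) ^ 2 :=
      sum_le_sum_of_subset_of_nonneg (fun n hn => by
        simp only [mem_filter, mem_range, mem_Icc] at hn ⊢
        exact ⟨⟨hn.2.1, hn.1.le⟩, hn.2.2⟩) fun _ _ _ => sq_nonneg _
    have h8 : (P.card : ℝ) ≤ R := by
      have : P ⊆ Icc 1 R := fun p hp => mem_Icc.2 ⟨(hP p hp).1.one_le, (hP p hp).2.2⟩
      simpa using (Nat.cast_le (α := ℝ)).2 (card_le_card this)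
    have h9 : L ≤ P.card := by
      refine (sum_le_card_nsmul _ _ 1 fun p hp => ?_).trans (by simp)
      exact inv_le_one_of_one_le₀ (by exact_mod_cast (hP p hp).1.one_le)
    have h10 : 4 * (R : ℝ) ^ 2 ≤ T := by exact_mod_cast hRT
    have h11 : ((P.card : ℝ) + L) ^ 2 ≤ T * L :=
      calc _ ≤ (2 * (R : ℝ)) ^ 2 := by gcongr; linarith
        _ ≤ T := by linarith
        _ ≤ _ := le_mul_of_one_le_right T0 hL1
    rw [Nat.cast_mul, mul_div_cancel_right₀ _ M0.ne'] at h6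
    refine add_le_add_right ?_ _
    calc _ ≤ (2 * δ * L)⁻¹ * (2 * (T * L)) := by
          refine mul_le_mul_of_nonneg_left ?_ (by positivity)
          linarith
      _ = _ := by field_simp
  have h5 : (L : ℂ) * ∑ n ∈ range (T * M), g n * a n =
      (∑ p ∈ P, ∑ n ∈ range (T * M), if p ∣ n then g n * a n else 0) -
      ∑ n ∈ range (T * M), ((ω n - L : ℝ) : ℂ) * (g n * a n) := by
    rw [sum_comm, ← sum_sub_distrib, mul_sum]
    refine sum_congr rfl fun n _ => ?_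
    have : (∑ p ∈ P, if p ∣ n then g n * a n else 0) = (ω n : ℂ) * (g n * a n) := by
      simp only [hω]
      push_cast
      rw [sum_mul]
      exact sum_congr rfl fun p _ => by split_ifs <;> simp
    rw [this]
    push_cast
    ring
  have h6 : L * ‖∑ n ∈ range (T * M), g n * a n‖ =
      ‖(L : ℂ) * ∑ n ∈ range (T * M), g n * a n‖ := by
    rw [norm_mul, Complex.norm_real, Real.norm_of_nonneg L0.le]
  rw [e0]
  refine le_of_mul_le_mul_left ?_ L0
  rw [h6, h5]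
  refine (norm_sub_le _ _).trans ((add_le_add h2 h4).trans ?_)
  have h7 : 9 / δ ≤ δ * L / 2 := by
    rw [div_le_iff₀ hδ]; linarith
  have h8 : 9 / δ * T ≤ δ * L / 2 * T := by gcongr
  have e : 9 / δ * T = 8 / δ * T + 1 / δ * T := by ring
  linarith

/-- The minor arcs. -/
lemma minor_AP (g : ℕ → ℂ) (hg : ∀ n, ‖g n‖ ≤ 1) {M c R H X : ℕ} (hc : c < M) (P : Finset ℕ)
    (hP : ∀ p ∈ P, p.Prime ∧ M < p ∧ p ≤ R) (hm : ∀ p ∈ P, ∀ m, g (p * m) = g m)
    {δ A α : ℝ} (hδ : 0 < δ) (hL1 : 1 ≤ ∑ p ∈ P, (p : ℝ)⁻¹)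
    (hL : 18 ≤ δ ^ 2 * ∑ p ∈ P, (p : ℝ)⁻¹) (hA0 : 0 < A) (hA : 8 * (M : ℝ) ^ 2 * R ≤ δ ^ 2 * A)
    (hRX : 4 * R ^ 2 ≤ X) (hH : 1 ≤ H) (hHX : H ≤ X) (hX : 1 ≤ δ * X)
    (hα : ∀ r : ℕ, 1 ≤ r → r ≤ R → A / H ≤ dZ (r * α)) :
    ∑ x ∈ range X, ‖∑ j ∈ range H, g (c + M * (x + j)) * ee (α * (x + j : ℕ))‖ ≤
      10 * δ * H * X := by
  have H0 : (0 : ℝ) < H := by exact_mod_cast hH
  have X0 : (0 : ℝ) ≤ X := Nat.cast_nonneg _
  set K := X / H + 1 with hK
  have hKH : X < K * H := by rw [hK, mul_comm]; exact Nat.lt_mul_div_succ X (by omega)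
  have hKH' : K * H ≤ X + H := by
    rw [hK, add_mul, one_mul]; exact Nat.add_le_add_right (Nat.div_mul_le_self _ _) _
  have key : ∀ s ∈ range H, ∑ k ∈ range K,
      ‖∑ j ∈ range H, g (c + M * (k * H + s + 1 + j)) *
        ee (α * (k * H + s + 1 + j : ℕ))‖ ≤ 9 * δ * X := by
    intro s hs
    have hs := mem_range.1 hs
    obtain ⟨t, ht⟩ : ∃ t, s + 1 + t = H := ⟨H - (s + 1), by omega⟩
    obtain ⟨N, hN⟩ : ∃ N, N = s + K * H := ⟨_, rfl⟩
    choose d d1 d2 using fun k => RCLike.exists_norm_eq_mul_self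
      (∑ j ∈ range H, g (c + M * (k * H + s + 1 + j)) * ee (α * (k * H + s + 1 + j : ℕ)))
    let θ : ℕ → ℂ := fun k => Nat.casesOn k 0 fun k => if k < K then d k else 0
    have θ1 : ∀ k, ‖θ k‖ ≤ 1 := fun k => by
      rcases k with _ | k
      · simp [θ]
      · simp only [θ]
        split_ifs
        · exact (d1 k).le
        · simp
    have θ2 : ∀ k, K < k → θ k = 0 := fun k hk => by
      rcases k with _ | k
      · rfl
      · exact if_neg (by omega)
    have u0 : θ ((0 + t) / H) * ee (α * (0 : ℕ)) = 0 := by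
      rw [Nat.div_eq_of_lt (by omega)]
      exact zero_mul _
    have hb := arcs_blocks2 (fun n => g (c + M * n) * ee (α * n)) θ rfl ht hN
    have hT : (X : ℝ) ≤ (N + 1 : ℕ) := by exact_mod_cast (by omega : X ≤ N + 1)
    have hk := katai_AP g (fun n => θ ((n + t) / H) * ee (α * n)) hg
      (fun n => by rw [norm_mul, norm_ee, mul_one]; exact θ1 _) u0 (T := N + 1) (R := R)
      (fun n hn => by
        rw [θ2 _ ((Nat.le_div_iff_mul_le (by omega)).2 (by rw [Nat.succ_mul]; omega)), zero_mul])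
      hc P hP hm (E := 4 * X / A) hδ hL1 hL (by omega) (by positivity)
      (fun p hp q hq hpq t₁ t₂ I => by
        have hp' : p ≤ R := (hP p hp).2.2
        have hq' : q ≤ R := (hP q hq).2.2
        have d1 : A / H ≤ dZ (((p : ℝ) - q) * α) := by
          rcases lt_or_gt_of_ne hpq with h | h
          · have := hα (q - p) (by omega) (by omega)
            rw [Nat.cast_sub h.le, ← dZ_neg] at this
            convert this using 2
            ring
          · have := hα (p - q) (by omega) (by omega)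
            rwa [Nat.cast_sub h.le] at this
        have d4 := (mul_le_mul_of_nonneg_right (mul_le_mul_of_nonneg_left d1 (by norm_num))
          (norm_nonneg _)).trans (arcs_corr2 θ θ1 θ2 H t t₁ t₂ p q I α)
        refine le_of_mul_le_mul_left (d4.trans ?_) (by positivity)
        have e : 4 * (A / H) * (4 * X / A) = 16 * X / H := by
          field_simp
          ring
        rw [e, le_div_iff₀ H0]
        have : (4 * K + 6) * H ≤ 16 * X := by rw [add_mul, mul_assoc]; omega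
        exact_mod_cast this)
      (by
        calc _ = 8 * (M : ℝ) ^ 2 * R * (X / A) := by ring
          _ ≤ δ ^ 2 * A * (X / A) := by gcongr
          _ = δ ^ 2 * X := by field_simp
          _ ≤ _ := by gcongr)
    have e : ∑ n ∈ range (N + 1), g (c + M * n) * (θ ((n + t) / H) * ee (α * n)) =
        ((∑ k ∈ range K, ‖∑ j ∈ range H, g (c + M * (k * H + s + 1 + j)) *
          ee (α * (k * H + s + 1 + j : ℕ))‖ : ℝ) : ℂ) := by
      rw [range_eq_Ico, sum_eq_sum_Ico_succ_bot (by omega), u0, mul_zero, zero_add,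
        Complex.ofReal_sum, sum_congr rfl fun n _ => mul_left_comm _ _ _]
      refine hb.trans (sum_congr rfl fun k hk => ?_)
      refine Eq.trans ?_ (d2 k).symm
      simp only [θ, if_pos (mem_range.1 hk)]
    rw [e, Complex.norm_real] at hk
    refine (le_abs_self _).trans (hk.trans ?_)
    have : ((N + 1 : ℕ) : ℝ) ≤ 3 * X := by exact_mod_cast (by omega : N + 1 ≤ 3 * X)
    nlinarith
  refine (sum_le_sum_of_subset_of_nonneg (range_subset_range.2 (hKH.le.trans (Nat.le_succ _)))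
    fun _ _ _ => norm_nonneg _).trans ?_
  rw [sum_range_succ', arcs_sum_mul, sum_comm]
  have k1 := sum_le_card_nsmul _ _ _ key
  rw [card_range, nsmul_eq_mul] at k1
  have k2 : ‖∑ j ∈ range H, g (c + M * (0 + j)) * ee (α * (0 + j : ℕ))‖ ≤ H := by
    refine (norm_sum_le _ _).trans ((sum_le_card_nsmul _ _ 1 fun j _ => ?_).trans (by simp))
    rw [norm_mul, norm_ee, mul_one]; exact hg _
  have k4 := mul_le_mul_of_nonneg_left hX H0.le
  linarith

/-- Splitting a short sum with a rational phase into residue classes. -/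
lemma major_split (g : ℕ → ℂ) (hg : ∀ n, ‖g n‖ ≤ 1) {M c r H X : ℕ} (hr : 0 < r) (a : ℤ) {B : ℝ}
    (hS : ∀ i < r, ∑ y ∈ range (X / r + 2),
      ‖∑ l ∈ range (H / r), g (c + M * i + M * r * (y + l))‖ ≤ B) :
    ∑ y ∈ range X, ‖∑ j ∈ range H, g (c + M * (y + j)) * ee (a / r * (y + j : ℕ))‖ ≤
      r * (r * B) + X * r := by
  have r0 : (r : ℝ) ≠ 0 := by exact_mod_cast hr.ne'
  set F : ℕ → ℝ := fun z => ‖∑ l ∈ range (H / r), g (c + M * (z + l * r))‖ with hF
  have h1 : ∀ y ∈ range X, ‖∑ j ∈ range H, g (c + M * (y + j)) * ee (a / r * (y + j : ℕ))‖ ≤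
      ∑ i ∈ range r, F (i + y) + r := by
    intro y _
    conv_lhs => rw [← Nat.div_add_mod' H r, sum_range_add, arcs_sum_mul, sum_comm]
    refine (norm_add_le _ _).trans (add_le_add ((norm_sum_le _ _).trans
      (sum_le_sum fun i _ => le_of_eq ?_)) ?_)
    · rw [← one_mul (F _), ← norm_ee (a / r * (y + i : ℕ)), ← norm_mul, mul_sum]
      congr 1
      refine sum_congr rfl fun l _ => ?_
      rw [mul_comm (ee _), ← ee_add_int (a / r * (y + i : ℕ)) (a * l)]
      congr 2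
      · ring
      · push_cast
        field_simp
        ring
    · refine (norm_sum_le _ _).trans ((sum_le_card_nsmul _ _ 1 fun j _ => ?_).trans ?_)
      · rw [norm_mul, norm_ee, mul_one]; exact hg _
      · rw [card_range, nsmul_eq_mul, mul_one]
        exact_mod_cast (Nat.mod_lt H hr).le
  refine (sum_le_sum h1).trans ?_
  rw [sum_add_distrib, sum_const, card_range, nsmul_eq_mul, sum_comm]
  refine add_le_add_left ?_ _
  have h2 : ∑ z ∈ range ((X / r + 2) * r), F z ≤ r * B := by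
    rw [arcs_sum_mul, sum_comm]
    refine (sum_le_card_nsmul _ _ B fun i hi => ?_).trans (by simp)
    refine le_trans (le_of_eq (sum_congr rfl fun y _ => ?_)) (hS i (mem_range.1 hi))
    simp only [hF]
    congr 1
    exact sum_congr rfl fun l _ => by congr 1; ring
  refine (sum_le_card_nsmul _ _ (r * B) fun i hi => le_trans ?_ h2).trans (by simp)
  have b2 := sum_range_add F i X
  have b3 : ∑ z ∈ range (i + X), F z ≤ ∑ z ∈ range ((X / r + 2) * r), F z :=
    sum_le_sum_of_subset_of_nonneg (range_subset_range.2 (by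
      have := Nat.lt_div_mul_add (a := X) hr
      have := mem_range.1 hi
      rw [add_mul]
      omega)) fun _ _ _ => norm_nonneg _
  have b4 : 0 ≤ ∑ z ∈ range i, F z := sum_nonneg fun _ _ => norm_nonneg _
  linarith

lemma half_le_div {a b : ℕ} (hb : 0 < b) (h : b ≤ a) : (a : ℝ) ≤ 2 * b * (a / b : ℕ) := by
  have h1 := Nat.lt_div_mul_add (a := a) hb
  have h2 : b ≤ a / b * b := Nat.le_mul_of_pos_left _ (Nat.div_pos h hb)
  have h3 : a ≤ 2 * b * (a / b) := by rw [mul_assoc, mul_comm b]; omega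
  exact_mod_cast h3

theorem unif_of_short {ε : ℝ} (hε : 0 < ε) : ∃ K : ℕ, ∀ (g : ℕ → ℂ) (M₁ H₀ H₁ X₀ X₁ : ℝ),
    (∀ n, ‖g n‖ ≤ 1) → 2 ≤ M₁ → Inv (M₁ ^ K) g → M₁ ^ K ≤ H₀ → H₁ * M₁ ^ K ≤ X₀ →
    ShortAP g (ε / 100) (M₁ ^ K) (H₀ / M₁ ^ K) H₁ (X₀ / M₁ ^ K) (3 * X₁) →
    UnifAP g ε M₁ H₀ H₁ X₀ X₁ := by
  obtain ⟨k, hk⟩ := exists_nat_ge
    (max (max 100 (100 / ε)) (2 * Real.exp (51 + 18 / (ε / 10) ^ 2)))
  have k1 : (100 : ℝ) ≤ k := ((le_max_left _ _).trans (le_max_left _ _)).trans hk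
  have k2 : 100 / ε ≤ k := ((le_max_right _ _).trans (le_max_left _ _)).trans hk
  have k3 : 2 * Real.exp (51 + 18 / (ε / 10) ^ 2) ≤ k := (le_max_right _ _).trans hk
  refine ⟨k * 10, fun g M₁ H₀ H₁ X₀ X₁ hg hM₁ hinv hH₀ hX₀ hS M c H X hc hM hH0 hH1 hX0 hX1 α => ?_⟩
  rw [pow_mul] at hinv hH₀ hX₀ hS
  set W := M₁ ^ k with hW
  have k4 : 100 ≤ k := by exact_mod_cast k1
  have W1 : (k : ℝ) ≤ W := by
    have : (k : ℝ) ≤ 2 ^ k := by exact_mod_cast Nat.lt_two_pow_self.le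
    exact this.trans (pow_le_pow_left₀ zero_le_two hM₁ k)
  have W2 : 100 ≤ W := k1.trans W1
  have W3 : 100 ≤ ε * W := (div_le_iff₀' hε).1 (k2.trans W1)
  have W4 : M₁ ^ 3 ≤ W := pow_le_pow_right₀ (by linarith) (by omega)
  have W5 : M₁ ≤ W := le_self_pow₀ (by linarith) (by omega)
  have W0 : 0 < W := by linarith
  have Wp : ∀ {i j : ℕ}, i ≤ j → W ^ i ≤ W ^ j := fun h => pow_le_pow_right₀ (by linarith) h
  have Wq : ∀ i : ℕ, 100 * W ^ i ≤ W ^ (i + 1) := fun i => by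
    rw [pow_succ']; gcongr
  have V1 : 1 ≤ W ^ 10 := one_le_pow₀ (by linarith)
  have hH : W ^ 10 ≤ H := hH₀.trans hH0
  have hHX' : H * W ^ 10 ≤ X := le_trans (by gcongr) (hX₀.trans hX0)
  have H0 : (1 : ℝ) ≤ H := V1.trans hH
  have hHX : (H : ℝ) ≤ X := (le_mul_of_one_le_right (by linarith) V1).trans hHX'
  have H1 : 1 ≤ H := by exact_mod_cast H0
  have hHX1 : H ≤ X := by exact_mod_cast hHX
  have e : ∀ x : ℕ, ‖∑ j ∈ range H, g (c + M * (x + j)) * ee (α * j)‖ =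
      ‖∑ j ∈ range H, g (c + M * (x + j)) * ee (α * (x + j : ℕ))‖ := by
    intro x
    rw [← one_mul ‖∑ j ∈ range H, _ * ee (α * j)‖, ← norm_ee (α * x), ← norm_mul, mul_sum]
    congr 1
    refine sum_congr rfl fun j _ => ?_
    rw [Nat.cast_add, mul_add α, ee_add, mul_left_comm]
  simp only [e]
  set R := ⌊W⌋₊ with hR
  have R1 : (R : ℝ) ≤ W := Nat.floor_le W0.le
  by_cases hcs : ∀ r : ℕ, 1 ≤ r → r ≤ R → W ^ 5 / H ≤ dZ (r * α)
  · have M2 : 2 * M₁ ≤ M₁ ^ 2 := by nlinarith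
    have hL : 1 + 18 / (ε / 10) ^ 2 ≤ LL (M₁ ^ 2) W := by
      refine le_trans ?_ (LL_ge (by linarith) (by nlinarith))
      have l1 : 0 < Real.log M₁ := Real.log_pos (by linarith)
      have l2 := Real.log_le_log (by positivity) k3
      rw [Real.log_mul two_ne_zero (Real.exp_pos _).ne', Real.log_exp] at l2
      rw [hW, Real.log_pow, Real.log_pow, Real.log_mul (by linarith) l1.ne',
        Real.log_mul (by norm_num) l1.ne', Nat.cast_ofNat]
      linarith
    have d0 : 0 < (ε / 10) ^ 2 := by positivity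
    have d1 : 0 < 18 / (ε / 10) ^ 2 := by positivity
    refine (minor_AP g hg (R := R) hc (primesIn (M₁ ^ 2) W) (fun p hp => ?_) (fun p hp => ?_)
      (δ := ε / 10) (A := W ^ 5) (by positivity) (le_trans (by linarith) hL) ?_ (by positivity) ?_
      ?_ H1 hHX1 ?_ hcs).trans (le_of_eq (by ring))
    · obtain ⟨a1, a2, a3⟩ := mem_primesIn.1 hp
      exact ⟨a1, by exact_mod_cast (by linarith : (M : ℝ) < p), Nat.le_floor a3⟩
    · obtain ⟨a1, a2, a3⟩ := mem_primesIn.1 hp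
      exact hinv p a1.pos (a3.trans (le_self_pow₀ (by linarith) (by norm_num)))
    · exact (div_le_iff₀' d0).1 (le_trans (by linarith) hL)
    · calc _ ≤ 8 * W ^ 2 * W := by gcongr; linarith
        _ ≤ 100 ^ 2 / 100 * W ^ 3 := by nlinarith [pow_pos W0 3]
        _ ≤ (ε * W) ^ 2 / 100 * W ^ 3 := by gcongr
        _ = _ := by ring
    · have : 4 * (R : ℝ) ^ 2 ≤ X :=
        calc _ ≤ 100 * W ^ 2 := by gcongr; norm_num
          _ ≤ W ^ 10 := (Wq 2).trans (Wp (by norm_num))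
          _ ≤ _ := hH.trans hHX
      exact_mod_cast this
    · have : W ≤ X := (le_self_pow₀ (by linarith) (by norm_num)).trans (hH.trans hHX)
      nlinarith
  push Not at hcs
  obtain ⟨r, r1, r2, hr⟩ := hcs
  have r0 : (1 : ℝ) ≤ r := by exact_mod_cast r1
  have r3 : (r : ℝ) ≤ W := le_trans (by exact_mod_cast r2) R1
  set a := round (r * α) with ha
  have hβ : |α - a / r| ≤ W ^ 5 / H := by
    have e2 : r * α - a = r * (α - a / r) := by field_simp
    rw [dZ, ← ha, e2, abs_mul, Nat.abs_cast] at hr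
    exact (le_mul_of_one_le_left (abs_nonneg _) r0).trans hr.le
  have e3 : ∀ n : ℕ, ee (α * n) = ee (a / r * n) * ee ((α - a / r) * n) := by
    intro n
    rw [← ee_add]
    congr 1
    ring
  simp only [e3, ← mul_assoc]
  set Q := ⌈W ^ 6⌉₊ with hQ
  have Q1 : W ^ 6 ≤ Q := Nat.le_ceil _
  have V6 : 1 ≤ W ^ 6 := one_le_pow₀ (by linarith)
  have Q2 : (Q : ℝ) ≤ 2 * W ^ 6 := by
    have := Nat.ceil_lt_add_one (a := W ^ 6) (by positivity)
    linarith
  have Q0 : 0 < Q := by exact_mod_cast (by linarith : (0 : ℝ) < Q)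
  have Q3 : 2 * (Q * r : ℕ) ≤ W ^ 8 := by
    have : (Q : ℝ) * r ≤ 2 * W ^ 6 * W := by gcongr
    have := Wq 7
    have := pow_pos W0 7
    push_cast
    nlinarith
  have Q4 : (Q : ℝ) ≤ (Q * r : ℕ) := by exact_mod_cast Nat.le_mul_of_pos_right Q r1
  have V8 : W ^ 8 ≤ W ^ 10 := Wp (by norm_num)
  have Q5 : (0 : ℝ) ≤ (Q * r : ℕ) := Nat.cast_nonneg _
  have εH : 100 * W ^ 9 ≤ ε * H := by
    calc _ ≤ ε * W * W ^ 9 := by gcongr
      _ = ε * W ^ 10 := by ring
      _ ≤ _ := by gcongr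
  have V9 : W ^ 8 ≤ W ^ 9 := Wp (by norm_num)
  refine arcs_major (fun n => g (c + M * n) * ee (a / r * n))
    (fun n => by rw [norm_mul, norm_ee, mul_one]; exact hg _) (Q := Q) hε (by positivity) H1 hβ
    ?_ (by nlinarith [pow_pos W0 8]) hHX1 ?_
  · calc _ ≤ ε * W * W ^ 5 := by gcongr; linarith
      _ = ε * W ^ 6 := by ring
      _ ≤ _ := by gcongr
  set H' := H / Q with hH'
  set X' := X + H with hX'
  have X1 : (X : ℝ) ≤ X' := by exact_mod_cast Nat.le_add_right X H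
  have rX : 2 * r ≤ X := by
    have : 2 * (r : ℝ) ≤ X := by
      have := (Wq 1).trans ((Wp (by norm_num)).trans (hH.trans hHX))
      linarith
    exact_mod_cast this
  have X2 : (r : ℝ) * (X' / r + 2 : ℕ) ≤ 2 * X' := by
    have : r * (X' / r + 2) ≤ 2 * X' := by
      have := Nat.mul_div_le X' r
      rw [mul_add]
      omega
    exact_mod_cast this
  have hs := major_split g hg (M := M) (c := c) (H := H') (X := X') r1 a
    (B := ε / 100 * (H' / r : ℕ) * (X' / r + 2 : ℕ)) fun i hi => by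
      refine hS (M * r) (c + M * i) _ _ ?_ ?_ ?_ ?_ ?_ ?_
      · calc c + M * i < M * (i + 1) := by rw [mul_add]; omega
          _ ≤ _ := Nat.mul_le_mul_left _ hi
      · push_cast
        calc _ ≤ W * W := by gcongr; linarith
          _ = W ^ 2 := by ring
          _ ≤ _ := Wp (by norm_num)
      · rw [hH', Nat.div_div_eq_div_mul, div_le_iff₀' (by positivity)]
        refine hH0.trans ((half_le_div (b := Q * r) (by positivity) ?_).trans ?_)
        · exact_mod_cast (by linarith : ((Q * r : ℕ) : ℝ) ≤ H)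
        · gcongr
          linarith
      · exact le_trans (by exact_mod_cast (Nat.div_le_self _ _).trans (Nat.div_le_self _ _)) hH1
      · rw [div_le_iff₀' (by positivity)]
        have b1 : X' ≤ r * (X' / r + 2) := by
          have := Nat.lt_div_mul_add (a := X') r1
          rw [mul_add, mul_comm r]
          omega
        have b2 : (X' : ℝ) ≤ r * (X' / r + 2 : ℕ) := by exact_mod_cast b1
        refine hX0.trans (X1.trans (b2.trans ?_))
        gcongr
        exact r3.trans (le_self_pow₀ (by linarith) (by norm_num))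
      · have b1 : X' / r + 2 ≤ 3 * X := by
          have := Nat.div_le_self X' r
          omega
        have b2 : ((X' / r + 2 : ℕ) : ℝ) ≤ 3 * X := by exact_mod_cast b1
        linarith
  refine hs.trans ?_
  have b1 : (r : ℝ) * (H' / r : ℕ) ≤ H' := by exact_mod_cast Nat.mul_div_le H' r
  have b2 : (H : ℝ) ≤ 2 * Q * H' :=
    half_le_div Q0 (by exact_mod_cast (by linarith : (Q : ℝ) ≤ H))
  have Q6 : (0 : ℝ) < Q := by exact_mod_cast Q0
  have b3 : (r : ℝ) ≤ ε / 10 * H' := by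
    refine le_of_mul_le_mul_left ?_ (by positivity : (0 : ℝ) < 2 * Q)
    have : ε / 10 * H ≤ ε / 10 * (2 * Q * H') := by gcongr
    push_cast at Q3
    nlinarith [pow_pos W0 8]
  have X0 : (0 : ℝ) ≤ X' := Nat.cast_nonneg _
  have b4 : (X' : ℝ) * r ≤ X' * (ε / 10 * H') := by gcongr
  have b5 : ε / 100 * (r * (H' / r : ℕ)) * (r * (X' / r + 2 : ℕ)) ≤ ε / 100 * H' * (2 * X') := by
    gcongr
  have b6 : 0 ≤ ε * H' * X' := by positivity
  linarith

end Pool.Agent.Work.MP_d018b2_nt.U
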