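import Pool.Agent.Work.MP_d018b2_nt.UDefs
import Pool.Agent.Work.MP_ca0f09_nt.D1

/-! Mean values and the inequality of Turan and Kubilius in a progression. -/

set_option autoImplicit false
open Filter Topology Finset MeasureTheory

namespace Pool.Agent.Work.MP_d018b2_nt.U

open Pool.Agent.Lib.MR Pool.Agent.Lib.LargeSieve Pool.Agent.Work.MP_ca0f09_nt
open Pool.Agent.Work.MP_51e72e_nt.LT

lemma log_sub_ge {a b N : ℕ} (ha : 1 ≤ a) (hab : a ≤ b) (hb : b ≤ N) :
    ((b : ℝ) - a) / N ≤ Real.log b - Real.log a := by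
  have ha' : (0 : ℝ) < a := by exact_mod_cast ha
  have hab' : (a : ℝ) ≤ b := by exact_mod_cast hab
  have hb' : (b : ℝ) ≤ N := by exact_mod_cast hb
  have hb0 : (0 : ℝ) < b := by linarith
  have h := Real.one_sub_inv_le_log_of_pos (div_pos hb0 ha')
  rw [Real.log_div hb0.ne' ha'.ne', inv_div] at h
  refine le_trans ?_ h
  rw [one_sub_div hb0.ne']
  gcongr

lemma sum_kernel_AP {N M m : ℕ} (hM : 0 < M) (hm : m ∈ Icc 1 N) {T : ℝ} (hT : 0 < T) :
    ∑ n ∈ Icc 1 N with n ≡ m [MOD M], Real.exp (-(T * |Real.log m - Real.log n|))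
      ≤ 1 + 2 * N / M / T := by
  obtain ⟨hm1, hmN⟩ := mem_Icc.1 hm
  have hN : (0 : ℝ) < N := by exact_mod_cast hm1.trans hmN
  have hMr : (0 : ℝ) < M := by exact_mod_cast hM
  set e : ℕ → ℝ := fun k => Real.exp (-(T * M / N * (k + 1))) with he
  have he0 : ∀ k, 0 ≤ e k := fun k => (Real.exp_pos _).le
  have hs := sum_exp_neg_le (show 0 < T * M / N by positivity) N
  have key : ∀ a b : ℕ, 1 ≤ a → a < b → b ≤ N → a ≡ b [MOD M] →
      (b - a) / M - 1 ∈ range N ∧ b = a + M * ((b - a) / M - 1 + 1) ∧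
      Real.exp (-(T * (Real.log b - Real.log a))) ≤ e ((b - a) / M - 1) := by
    intro a b h1 h2 h3 h4
    obtain ⟨k, hk⟩ := (Nat.modEq_iff_dvd' h2.le).1 h4
    have k0 : 0 < k := Nat.pos_of_ne_zero (by rintro rfl; omega)
    rw [hk, Nat.mul_div_cancel_left _ hM, Nat.sub_add_cancel k0]
    have k1 : k ≤ M * k := Nat.le_mul_of_pos_left _ hM
    refine ⟨mem_range.2 (by omega), by omega, ?_⟩
    have h5 := log_sub_ge h1 h2.le h3
    have h6 : (b : ℝ) - a = M * k := by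
      rw [← Nat.cast_sub h2.le, hk]; push_cast; ring
    have h7 : ((k - 1 : ℕ) : ℝ) + 1 = k := by
      rw [Nat.cast_sub k0]; push_cast; ring
    simp only [he, h7]
    refine Real.exp_le_exp.2 (neg_le_neg ?_)
    rw [h6] at h5
    calc T * M / N * k = T * (M * k / N) := by ring
      _ ≤ _ := by gcongr
  have hsub : (Icc 1 N).filter (fun n => n ≡ m [MOD M]) ⊆
      ((Ico 1 m).filter fun n => n ≡ m [MOD M]) ∪
        ({m} ∪ (Ioc m N).filter fun n => n ≡ m [MOD M]) := by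
    intro n hn
    simp only [mem_filter, mem_Icc, mem_union, mem_Ico, mem_singleton, mem_Ioc] at hn ⊢
    rcases lt_trichotomy n m with h | h | h
    · exact Or.inl ⟨⟨hn.1.1, h⟩, hn.2⟩
    · exact Or.inr (Or.inl h)
    · exact Or.inr (Or.inr ⟨⟨h, hn.1.2⟩, hn.2⟩)
  have h1 : ∑ n ∈ Ico 1 m with n ≡ m [MOD M], Real.exp (-(T * |Real.log m - Real.log n|)) ≤
      ∑ k ∈ range N, e k := by
    refine sum_le_of_inj (fun n => (m - n) / M - 1) (fun n hn => ?_) (fun n hn n' hn' h => ?_)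
      (fun n hn => ?_) fun k _ => he0 k
    · obtain ⟨a, b⟩ := mem_filter.1 hn
      exact (key n m (mem_Ico.1 a).1 (mem_Ico.1 a).2 hmN b).1
    · obtain ⟨a, b⟩ := mem_filter.1 hn
      obtain ⟨a', b'⟩ := mem_filter.1 hn'
      have c := (key n m (mem_Ico.1 a).1 (mem_Ico.1 a).2 hmN b).2.1
      have c' := (key n' m (mem_Ico.1 a').1 (mem_Ico.1 a').2 hmN b').2.1
      simp only at h
      rw [h] at c
      omega
    · obtain ⟨a, b⟩ := mem_filter.1 hn
      refine le_trans ?_ (key n m (mem_Ico.1 a).1 (mem_Ico.1 a).2 hmN b).2.2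
      gcongr
      exact le_abs_self _
  have h2 : ∑ n ∈ Ioc m N with n ≡ m [MOD M], Real.exp (-(T * |Real.log m - Real.log n|)) ≤
      ∑ k ∈ range N, e k := by
    refine sum_le_of_inj (fun n => (n - m) / M - 1) (fun n hn => ?_) (fun n hn n' hn' h => ?_)
      (fun n hn => ?_) fun k _ => he0 k
    · obtain ⟨a, b⟩ := mem_filter.1 hn
      exact (key m n hm1 (mem_Ioc.1 a).1 (mem_Ioc.1 a).2 b.symm).1
    · obtain ⟨a, b⟩ := mem_filter.1 hn
      obtain ⟨a', b'⟩ := mem_filter.1 hn'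
      have c := (key m n hm1 (mem_Ioc.1 a).1 (mem_Ioc.1 a).2 b.symm).2.1
      have c' := (key m n' hm1 (mem_Ioc.1 a').1 (mem_Ioc.1 a').2 b'.symm).2.1
      simp only at h
      rw [h] at c
      omega
    · obtain ⟨a, b⟩ := mem_filter.1 hn
      refine le_trans ?_ (key m n hm1 (mem_Ioc.1 a).1 (mem_Ioc.1 a).2 b.symm).2.2
      rw [abs_sub_comm]
      gcongr
      exact le_abs_self _
  refine (sum_le_sum_of_subset_of_nonneg hsub fun _ _ _ => (Real.exp_pos _).le).trans ?_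
  rw [sum_union, sum_union, sum_singleton]
  · simp only [sub_self, abs_zero, mul_zero, neg_zero, Real.exp_zero]
    have e2 : 2 * (N : ℝ) / M / T = 1 / (T * M / N) + 1 / (T * M / N) := by field_simp; ring
    simp only [he] at h1 h2
    linarith
  · simp
  · rw [disjoint_left]; intro n h1 h2
    simp only [mem_union, mem_filter, mem_Ico, mem_singleton, mem_Ioc] at h1 h2; omega

lemma DP_res (S : Finset ℕ) (M a : ℕ) (b : ℕ → ℂ) :
    DP S (res M a b) = DP (S.filter fun n => n ≡ a [MOD M]) b := by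
  funext u
  simp only [DP, res, sum_filter, ite_mul, zero_mul]

/-- Mean value theorem for Dirichlet polynomials supported on one residue class. -/
theorem mean_value_AP {S : Finset ℕ} {N M : ℕ} (hM : 0 < M) (hS : S ⊆ Icc 1 N) (a : ℕ)
    (b : ℕ → ℂ) {T : ℝ} (hT : 0 < T) :
    MS T Set.univ (DP S (res M a b)) ≤
      Real.pi * (T + 2 * N / M) * ∑ n ∈ S with n ≡ a [MOD M], ‖b n‖ ^ 2 := by
  rw [DP_res]
  set S' := S.filter fun n => n ≡ a [MOD M] with hS'
  have h := MS_eq S' id b hT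
  simp only [id] at h
  rw [show DP S' b = fun u => ∑ i ∈ S', b i * nit i u from rfl, h]
  set k : ℕ → ℕ → ℝ := fun m n => Real.exp (-(T * |Real.log m - Real.log n|)) with hk
  have hk0 : ∀ m n, 0 ≤ k m n := fun m n => (Real.exp_pos _).le
  have hks : ∀ m n, k m n = k n m := fun m n => by simp only [hk, abs_sub_comm]
  have h1 : ∑ i ∈ S', ∑ j ∈ S', (b i * (starRingEnd ℂ) (b j)).re * k i j
      ≤ ∑ i ∈ S', ∑ j ∈ S', (‖b i‖ ^ 2 / 2 * k i j + ‖b j‖ ^ 2 / 2 * k j i) := by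
    refine sum_le_sum fun i _ => sum_le_sum fun j _ => ?_
    rw [hks j i, ← add_mul]
    refine mul_le_mul_of_nonneg_right ((Complex.re_le_norm _).trans ?_) (hk0 i j)
    rw [norm_mul, Complex.norm_conj]
    nlinarith [sq_nonneg (‖b i‖ - ‖b j‖)]
  have h2 : ∑ i ∈ S', ∑ j ∈ S', ‖b i‖ ^ 2 / 2 * k i j ≤
      (1 + 2 * N / M / T) / 2 * ∑ n ∈ S', ‖b n‖ ^ 2 := by
    rw [mul_sum]
    refine sum_le_sum fun i hi => ?_
    rw [← mul_sum]
    obtain ⟨i1, i2⟩ := mem_filter.1 hi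
    have := (sum_le_sum_of_subset_of_nonneg (s := S') (t := (Icc 1 N).filter fun n => n ≡ i [MOD M])
      (fun j hj => mem_filter.2 ⟨hS (mem_filter.1 hj).1, (mem_filter.1 hj).2.trans i2.symm⟩)
      fun j _ _ => hk0 i j).trans (sum_kernel_AP hM (hS i1) hT)
    nlinarith [sq_nonneg ‖b i‖]
  simp only [sum_add_distrib] at h1
  rw [sum_comm (f := fun i j => ‖b j‖ ^ 2 / 2 * k j i)] at h1
  have h3 : Real.pi * (T + 2 * N / M) * ∑ n ∈ S', ‖b n‖ ^ 2
      = Real.pi * T * ((1 + 2 * N / M / T) * ∑ n ∈ S', ‖b n‖ ^ 2) := by field_simp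
  rw [h3]
  have := Real.pi_pos
  gcongr
  linarith

/-- Multiples of `d` in a residue class. -/
lemma abs_card_dvd_AP {M d : ℕ} (hM : 0 < M) (hd : 0 < d) (h : Nat.Coprime d M) (a N : ℕ) :
    |∑ n ∈ Icc 1 N with n ≡ a [MOD M], (if d ∣ n then (1 : ℝ) else 0) - N / M * (d : ℝ)⁻¹| ≤ 1 := by
  have key := Pool.Agent.Lib.ANT.abs_card_modEq_sub_le 0 N (d * M)
    (Nat.chineseRemainder h 0 a) (Nat.mul_pos hd hM)
  rw [sum_boole, filter_filter]
  have e : (Icc 1 N).filter (fun n => n ≡ a [MOD M] ∧ d ∣ n) =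
      (Ioc 0 (0 + N)).filter fun n => n ≡ Nat.chineseRemainder h 0 a [MOD d * M] := by
    rw [zero_add]
    refine filter_congr fun n _ => ?_
    rw [← Nat.modEq_and_modEq_iff_modEq_mul h]
    have c := (Nat.chineseRemainder h 0 a).2
    constructor
    · rintro ⟨h1, h2⟩
      exact ⟨((Nat.modEq_zero_iff_dvd).2 h2).trans c.1.symm, h1.trans c.2.symm⟩
    · rintro ⟨h1, h2⟩
      exact ⟨h2.trans c.2, (Nat.modEq_zero_iff_dvd).1 (h1.trans c.1)⟩
  rw [e]
  convert key using 3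
  push_cast
  have : (M : ℝ) ≠ 0 := by positivity
  have : (d : ℝ) ≠ 0 := by positivity
  field_simp

/-- The inequality of Turan and Kubilius in a residue class. -/
theorem tk_AP (P : Finset ℕ) {M : ℕ} (hM : 0 < M) (hP : ∀ p ∈ P, p.Prime ∧ ¬ p ∣ M) (a N : ℕ) :
    ∑ n ∈ Icc 1 N with n ≡ a [MOD M],
        ((∑ p ∈ P, if p ∣ n then (1 : ℝ) else 0) - ∑ p ∈ P, (p : ℝ)⁻¹) ^ 2 ≤
      N / M * (∑ p ∈ P, (p : ℝ)⁻¹) + (P.card + ∑ p ∈ P, (p : ℝ)⁻¹) ^ 2 := by
  set L : ℝ := ∑ p ∈ P, (p : ℝ)⁻¹ with hL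
  set Y : ℝ := N / M with hY
  set I := (Icc 1 N).filter fun n => n ≡ a [MOD M] with hI
  have hL0 : 0 ≤ L := Finset.sum_nonneg fun p _ => by positivity
  have hY0 : 0 ≤ Y := by positivity
  have co : ∀ p ∈ P, p.Coprime M := fun p hp =>
    (Nat.Prime.coprime_iff_not_dvd (hP p hp).1).2 (hP p hp).2
  have h0 : (I.card : ℝ) ≤ Y + 1 := by
    have := (abs_le.1 (abs_card_dvd_AP hM one_pos (Nat.coprime_one_left M) a N)).2
    simp only [one_dvd, if_true, sum_const, nsmul_eq_mul, mul_one, Nat.cast_one, inv_one] at this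
    linarith
  have h1 : Y * L - P.card ≤ ∑ n ∈ I, ∑ p ∈ P, if p ∣ n then (1 : ℝ) else 0 := by
    rw [Finset.sum_comm, hL, Finset.mul_sum, Finset.card_eq_sum_ones, Nat.cast_sum,
      ← Finset.sum_sub_distrib]
    refine Finset.sum_le_sum fun p hp => ?_
    have := (abs_le.1 (abs_card_dvd_AP hM (hP p hp).1.pos (co p hp) a N)).1
    push_cast
    linarith
  have h2 : ∑ n ∈ I, (∑ p ∈ P, if p ∣ n then (1 : ℝ) else 0) ^ 2 ≤
      Y * L + Y * L ^ 2 + (P.card : ℝ) ^ 2 := by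
    have e : (P.card : ℝ) ^ 2 = ∑ _p ∈ P, ∑ _q ∈ P, (1 : ℝ) := by simp [sq]
    rw [e]
    simp_rw [sq, Finset.sum_mul_sum]
    rw [Finset.sum_comm, hL, Finset.sum_mul_sum, Finset.mul_sum, Finset.mul_sum,
      ← Finset.sum_add_distrib, ← Finset.sum_add_distrib]
    refine Finset.sum_le_sum fun p hp => ?_
    rw [Finset.sum_comm]
    have h3 : ∀ q ∈ P, ∑ n ∈ I, (if p ∣ n then (1 : ℝ) else 0) * (if q ∣ n then 1 else 0) ≤
        (if q = p then Y * (p : ℝ)⁻¹ else 0) + Y * ((p : ℝ)⁻¹ * (q : ℝ)⁻¹) + 1 := by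
      intro q hq
      by_cases hqp : q = p
      · subst hqp
        rw [if_pos rfl]
        have e1 : ∑ n ∈ I, (if q ∣ n then (1 : ℝ) else 0) * (if q ∣ n then 1 else 0) =
            ∑ n ∈ I, (if q ∣ n then (1 : ℝ) else 0) :=
          Finset.sum_congr rfl fun n _ => by split_ifs <;> simp
        have := (abs_le.1 (abs_card_dvd_AP hM (hP q hq).1.pos (co q hq) a N)).2
        have : (0 : ℝ) ≤ Y * ((q : ℝ)⁻¹ * (q : ℝ)⁻¹) := by positivity
        linarith
      · rw [if_neg hqp, zero_add]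
        have hc : p.Coprime q := (Nat.coprime_primes (hP p hp).1 (hP q hq).1).2 (Ne.symm hqp)
        have e1 : ∑ n ∈ I, (if p ∣ n then (1 : ℝ) else 0) * (if q ∣ n then 1 else 0) =
            ∑ n ∈ I, (if p * q ∣ n then (1 : ℝ) else 0) := by
          refine Finset.sum_congr rfl fun n _ => ?_
          by_cases h5 : p ∣ n
          · by_cases h6 : q ∣ n
            · simp [h5, h6, hc.mul_dvd_of_dvd_of_dvd h5 h6]
            · have : ¬ p * q ∣ n := fun h => h6 (dvd_of_mul_left_dvd h)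
              simp [h6, this]
          · have : ¬ p * q ∣ n := fun h => h5 (dvd_of_mul_right_dvd h)
            simp [h5, this]
        have := (abs_le.1 (abs_card_dvd_AP hM (Nat.mul_pos (hP p hp).1.pos (hP q hq).1.pos)
          (Nat.Coprime.mul_left (co p hp) (co q hq)) a N)).2
        push_cast at this
        rw [mul_inv] at this
        linarith
    refine (Finset.sum_le_sum h3).trans (le_of_eq ?_)
    rw [Finset.sum_add_distrib, Finset.sum_add_distrib, Finset.sum_ite_eq' P p, if_pos hp,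
      Finset.mul_sum]
  have h3 : ∑ n ∈ I, ((∑ p ∈ P, if p ∣ n then (1 : ℝ) else 0) - L) ^ 2 =
      ∑ n ∈ I, (∑ p ∈ P, if p ∣ n then (1 : ℝ) else 0) ^ 2 -
        2 * L * (∑ n ∈ I, ∑ p ∈ P, if p ∣ n then (1 : ℝ) else 0) + I.card * L ^ 2 := by
    simp_rw [sub_sq]
    rw [Finset.sum_add_distrib, Finset.sum_sub_distrib, Finset.mul_sum]
    congr 1
    · congr 1
      exact Finset.sum_congr rfl fun n _ => by ring
    · simp
  rw [h3]
  nlinarith [mul_le_mul_of_nonneg_left h1 hL0, mul_le_mul_of_nonneg_right h0 (sq_nonneg L)]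

end Pool.Agent.Work.MP_d018b2_nt.U
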