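import Pool.Agent.Work.MP_d018b2_nt.UDefs

/-! The centred term along a progression, with explicit errors. -/

set_option autoImplicit false
open Filter Topology Finset Matrix

namespace Pool.Agent.Work.MP_d018b2_nt.U

open Pool.Agent.Work.MP_ca0f09_nt Pool.Agent.Lib.MR

lemma Kub.scale {S : Finset ℕ} {k W M : ℕ} {err : ℝ} (h : Kub S k W M err) {O : Finset ℤ}
    (hO : O.card ≤ k) {F : ℤ → ℝ} {b : ℝ} (hb : ∀ x, |F x| ≤ b) (hF : Pat S O F) (c : ℤ) :
    ∑ y ∈ range M, F (c + W * y) ≤ M * mean (pr S) F + b * err := by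
  rcases ((abs_nonneg _).trans (hb 0)).eq_or_lt with h0 | h0
  · have : F = fun _ => 0 := funext fun x => abs_nonpos_iff.1 (h0 ▸ hb x)
    simp [this, ← h0, mean]
  have := (abs_le.1 (h O hO (fun x => b⁻¹ * F x) (fun x => by
    rw [abs_mul, abs_of_pos (inv_pos.2 h0), inv_mul_le_iff₀ h0, mul_one]; exact hb x)
    (fun x y hxy => by simp only [hF x y hxy]) c)).2
  rw [← mul_sum, mean_const_mul, mul_left_comm, ← mul_sub, inv_mul_le_iff₀ h0] at this
  linarith

lemma sum_ind_le {W : ℕ} (hW : 0 < W) (R : ℕ) (l : ℤ) :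
    ∑ i ∈ range R, ind W (l + i) ≤ R / W + 1 := by
  have h1 : R ≤ (R / W + 1) * W := by
    have := Nat.lt_div_mul_add (a := R) hW
    rw [add_mul]; omega
  refine (sum_le_sum_of_subset_of_nonneg (range_subset_range.2 h1)
    fun _ _ _ => ind_nonneg _ _).trans ?_
  rw [arcs_sum_mul]
  have h2 : ∀ k : ℕ, ∑ s ∈ range W, ind W (l + ((k * W + s : ℕ) : ℤ)) = 1 := fun k => by
    rw [← sum_ind_coprime hW (Nat.coprime_one_right W) (l + k * W)]
    exact sum_congr rfl fun s _ => by congr 1; push_cast; ring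
  simp only [h2, sum_const, card_range, nsmul_eq_mul, mul_one]
  push_cast
  linarith [Nat.cast_div_le (α := ℝ) (m := R) (n := W)]

lemma sum_sumL {α : Type} (s : Finset α) (I : Finset ℕ) (r : ℕ) (F : ℕ → List α → ℝ) :
    ∑ y ∈ I, sumL s r (F y) = sumL s r (fun l => ∑ y ∈ I, F y l) := by
  induction r generalizing F with
  | zero => rfl
  | succ r ih =>
    simp only [sumL]
    rw [sum_comm]
    exact sum_congr rfl fun t _ => ih _

lemma sumL_add_const {α : Type} (s : Finset α) (r : ℕ) (F : List α → ℝ) (b : ℝ) :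
    sumL s r (fun l => F l + b) = sumL s r F + (s.card : ℝ) ^ r * b := by
  induction r generalizing F with
  | zero => simp [sumL]
  | succ r ih =>
    simp only [sumL, ih, sum_add_distrib, sum_const, nsmul_eq_mul]
    ring

variable {ι : Type} (c : CD ι)

lemma bilin_eq' (a b : ℤ → ℝ) (x : ℤ) {A : ℕ} (hA : 2 * A ≤ c.h * c.D)
    (hlag : ∀ τ ∈ c.Ed, 2 * c.lag τ ≤ 3 * (c.h * c.D)) :
    ∑ i : Fin c.R, c.ρ (x + (i : ℕ)) *
      (if (i : ℕ) < A ∧ c.ρ (x + (i : ℕ)) ≤ c.B then a (x + (i : ℕ)) else 0) *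
      (c.Tm x *ᵥ fun j : Fin c.R =>
        if c.ρ (x + (j : ℕ)) ≤ c.B then b (x + (j : ℕ)) else 0) i =
      ∑ i ∈ range A, c.tm a b (x + i) := by
  have hR := c.R_eq
  have hD := c.hD
  have h1 : ∀ i : Fin c.R, c.ρ (x + (i : ℕ)) *
      (if (i : ℕ) < A ∧ c.ρ (x + (i : ℕ)) ≤ c.B then a (x + (i : ℕ)) else 0) *
      (c.Tm x *ᵥ fun j : Fin c.R =>
        if c.ρ (x + (j : ℕ)) ≤ c.B then b (x + (j : ℕ)) else 0) i =
      if (i : ℕ) < A then c.tm a b (x + (i : ℕ)) else 0 := by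
    intro i
    by_cases hi : (i : ℕ) < A
    swap
    · simp [hi]
    rw [if_pos hi]
    simp only [Matrix.mulVec, dotProduct, CD.Tm, Finset.sum_mul]
    rw [Finset.sum_comm, Finset.mul_sum]
    have h2 : ∀ t : Bool × ι, ∑ j : Fin c.R,
        (if ((j : ℕ) : ℤ) = (i : ℕ) + c.disp t then c.cw x (i : ℕ) t else 0) *
          (if c.ρ (x + (j : ℕ)) ≤ c.B then b (x + (j : ℕ)) else 0) =
        if 0 ≤ (i : ℕ) + c.disp t ∧ (i : ℕ) + c.disp t < c.R then c.cw x (i : ℕ) t *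
          (if c.ρ (x + ((i : ℕ) + c.disp t)) ≤ c.B then b (x + ((i : ℕ) + c.disp t)) else 0)
          else 0 := by
      intro t
      rw [← c.sum_fin_ite ((i : ℕ) + c.disp t) (fun z => c.cw x (i : ℕ) t *
        (if c.ρ (x + z) ≤ c.B then b (x + z) else 0))]
      simp only [ite_mul, zero_mul]
    simp only [h2]
    unfold CD.St CD.tm
    rw [Finset.sum_product, Fintype.sum_bool]
    have h3 : ∀ τ ∈ c.Ed, c.ρ (x + (i : ℕ)) *
        (if (i : ℕ) < A ∧ c.ρ (x + (i : ℕ)) ≤ c.B then a (x + (i : ℕ)) else 0) *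
        (if 0 ≤ (i : ℕ) + c.disp (false, τ) ∧ (i : ℕ) + c.disp (false, τ) < c.R then
          c.cw x (i : ℕ) (false, τ) *
          (if c.ρ (x + ((i : ℕ) + c.disp (false, τ))) ≤ c.B
            then b (x + ((i : ℕ) + c.disp (false, τ))) else 0) else 0) = 0 := by
      intro τ hτ
      have h4 : ¬ (0 ≤ (i : ℕ) + c.disp (false, τ) ∧ (i : ℕ) + c.disp (false, τ) < c.R) := by
        rintro ⟨h5, -⟩
        have := (c.lag_bounds hτ).1
        simp only [CD.disp, Bool.false_eq_true, if_false] at h5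
        omega
      rw [if_neg h4]; simp
    rw [Finset.sum_eq_zero h3, add_zero]
    refine Finset.sum_congr rfl fun τ hτ => ?_
    have h5 := hlag τ hτ
    have hd : c.disp (true, τ) = c.lag τ := by simp [CD.disp]
    have h6 : 0 ≤ ((i : ℕ) : ℤ) + c.lag τ ∧ ((i : ℕ) : ℤ) + c.lag τ < c.R := by omega
    simp only [CD.cw, CD.phi1, hd, h6, hi, and_self, true_and, if_true, ← add_assoc]
    by_cases hu1 : c.u (x + (i : ℕ)) τ = 0
    · simp [hu1]
    by_cases hu2 : c.u (x + (i : ℕ) + c.lag τ) τ = 0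
    · simp [hu2]
    rw [if_pos (c.hB _ τ hτ hu1), if_pos (c.hB _ τ hτ hu2)]
    have := (c.hρ (x + (i : ℕ))).ne'
    field_simp
  simp only [h1]
  rw [Fin.sum_univ_eq_sum_range (fun i => if i < A then c.tm a b (x + (i : ℕ)) else 0) c.R,
    ← Finset.sum_filter]
  congr 1
  ext i
  simp only [Finset.mem_filter, Finset.mem_range]
  omega

/-- truncated vertex weight -/
noncomputable def rt (n : ℤ) : ℝ := if c.ρ n ≤ c.B then c.ρ n else 0

lemma rt_mem (n : ℤ) : 0 ≤ rt c n ∧ rt c n ≤ c.B ∧ rt c n ≤ c.ρ n := by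
  have := c.hρ n
  have := c.hB0
  unfold rt
  split_ifs with h
  · exact ⟨by linarith, h, le_rfl⟩
  · exact ⟨le_rfl, by linarith, by linarith⟩

/-- mass of a window on one class -/
noncomputable def Yc (W : ℕ) (l x : ℤ) : ℝ := ∑ i ∈ range c.R, ind W (l + i) * rt c (x + i)

/-- trace of the power of the kernel -/
noncomputable def tr (x : ℤ) : ℝ := ∑ i, (c.Tm x ^ (2 * c.r)) i i

lemma Yc_mem (W : ℕ) (l x : ℤ) : 0 ≤ Yc c W l x ∧ Yc c W l x ≤ c.R * c.B := by
  refine ⟨sum_nonneg fun i _ => mul_nonneg (ind_nonneg _ _) (rt_mem c _).1,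
    (sum_le_card_nsmul _ _ c.B fun i _ => ?_).trans (by simp)⟩
  exact (mul_le_of_le_one_left (rt_mem c _).1 (ind_le_one _ _)).trans (rt_mem c _).2.1

lemma window_le' (a b : ℤ → ℝ) (ha : ∀ n, |a n| ≤ 1) (hb : ∀ n, |b n| ≤ 1) {Λ : ℝ} (hΛ : 0 < Λ)
    (x : ℤ) {W A : ℕ} (hW : 0 < W) (hA : 2 * (A * W) ≤ c.h * c.D)
    (hlag : ∀ τ ∈ c.Ed, 2 * c.lag τ ≤ 3 * (c.h * c.D)) {l : ℤ}
    (hl : ∀ τ ∈ c.Ed, (W : ℤ) ∣ l + c.lag τ) :
    |∑ j ∈ range A, c.tm a b (x + W * j)| ≤ Λ * (Yc c W 0 x + Yc c W l x) +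
      2 * (c.R * c.B) * (Λ * (tr c x / Λ ^ (2 * c.r))) := by
  set a' : ℤ → ℝ := fun n => ind W (0 + (n - x)) * a n with ha'
  set b' : ℤ → ℝ := fun n => ind W (l + (n - x)) * b n with hb'
  have e : ∑ j ∈ range A, c.tm a b (x + W * j) = ∑ i ∈ range (A * W), c.tm a' b' (x + i) := by
    rw [arcs_sum_mul]
    refine sum_congr rfl fun j _ => ?_
    rw [sum_eq_single_of_mem 0 (mem_range.2 hW)]
    · refine sum_congr (by simp) fun τ hτ => ?_
      have e1 : x + ((j * W + 0 : ℕ) : ℤ) = x + W * j := by push_cast; ring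
      have e2 : ind W (l + (x + W * j + c.lag τ - x)) = 1 :=
        if_pos (by
          rw [show l + (x + W * j + c.lag τ - x) = l + c.lag τ + W * j by ring]
          exact dvd_add (hl τ hτ) (Dvd.intro _ rfl))
      simp only [ha', hb', e1, e2]
      simp [ind]
    · intro s hs h0
      refine sum_eq_zero fun τ _ => ?_
      have : ind W (0 + (x + ((j * W + s : ℕ) : ℤ) - x)) = 0 := if_neg fun h => h0 (by
        rw [zero_add, add_sub_cancel_left, Int.natCast_dvd_natCast,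
          Nat.dvd_add_right (Dvd.intro_left j rfl)] at h
        exact Nat.eq_zero_of_dvd_of_lt h (mem_range.1 hs))
      simp only [ha', this, zero_mul, mul_zero]
  rw [e, ← bilin_eq' c a' b' x hA hlag]
  have hρ : ∀ i : Fin c.R, 0 < c.ρ (x + (i : ℕ)) := fun i => c.hρ _
  have key : ∀ (P : Fin c.R → Prop) [DecidablePred P] (f : ℤ → ℝ) (l : ℤ), (∀ n, |f n| ≤ 1) →
      (∀ i, P i → c.ρ (x + (i : ℕ)) ≤ c.B) →
      ∑ i : Fin c.R, c.ρ (x + (i : ℕ)) *
        (if P i then ind W (l + (x + (i : ℕ) - x)) * f (x + (i : ℕ)) else 0) ^ 2 ≤ Yc c W l x := by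
    intro P _ f l hf hP
    unfold Yc
    rw [← Fin.sum_univ_eq_sum_range fun i => ind W (l + i) * rt c (x + i)]
    refine Finset.sum_le_sum fun i _ => ?_
    split_ifs with h1
    · rw [add_sub_cancel_left, rt, if_pos (hP i h1), mul_comm, mul_pow]
      refine mul_le_mul_of_nonneg_right ?_ (hρ i).le
      have := (sq_le_one_iff_abs_le_one _).2 (hf (x + (i : ℕ)))
      unfold ind
      split_ifs
      · simpa using this
      · simp
    · simpa using mul_nonneg (ind_nonneg W (l + (i : ℕ))) (rt_mem c (x + (i : ℕ))).1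
  have y0 := Yc_mem c W 0 x
  have y1 := Yc_mem c W l x
  have ht : 0 ≤ tr c x := trace_nonneg (c.Tm x) _ hρ (c.Tm_rev x) c.r
  have h1 := bilin_pow_le (c.Tm x) _ hρ (c.Tm_rev x)
    (fun i => if (i : ℕ) < A * W ∧ c.ρ (x + (i : ℕ)) ≤ c.B then a' (x + (i : ℕ)) else 0)
    (fun j : Fin c.R => if c.ρ (x + (j : ℕ)) ≤ c.B then b' (x + (j : ℕ)) else 0) c.r c.hr
  have h2 := (key (fun i => (i : ℕ) < A * W ∧ c.ρ (x + (i : ℕ)) ≤ c.B) a 0 ha
    fun _ h => h.2).trans (le_add_of_nonneg_right y1.1)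
  have h3 := (key (fun j => c.ρ (x + (j : ℕ)) ≤ c.B) b l hb fun _ h => h).trans
    (le_add_of_nonneg_left y0.1)
  have h4 : ∀ f : Fin c.R → ℝ, 0 ≤ ∑ i : Fin c.R, c.ρ (x + (i : ℕ)) * f i ^ 2 := fun f =>
    Finset.sum_nonneg fun i _ => mul_nonneg (hρ i).le (sq_nonneg _)
  have hY0 := add_nonneg y0.1 y1.1
  have h5 := mul_le_mul (pow_le_pow_left₀ (h4 _) h2 c.r) (pow_le_pow_left₀ (h4 _) h3 c.r)
    (pow_nonneg (h4 _) _) (pow_nonneg hY0 _)
  rw [← pow_add, ← two_mul] at h5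
  refine (abs_le_of_pow_le c.hr ht hY0 hΛ
    (h1.trans (mul_le_mul_of_nonneg_left h5 ht))).trans ?_
  exact add_le_add le_rfl
    (mul_le_mul_of_nonneg_right (by linarith [y0.2, y1.2]) (by positivity))

/-- the points visited by a walk -/
def vis : ℤ → List (Bool × ι) → Finset ℤ
  | i, [] => {i}
  | i, t :: l => insert i (vis (i + c.disp t) l)

lemma mem_vis (i : ℤ) (l : List (Bool × ι)) : i ∈ vis c i l := by
  cases l <;> simp [vis]

lemma card_vis (i : ℤ) (l : List (Bool × ι)) : (vis c i l).card ≤ l.length + 1 := by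
  induction l generalizing i with
  | nil => simp [vis]
  | cons t l ih => exact (card_insert_le _ _).trans (Nat.succ_le_succ (ih _))

lemma phi1_le (x i : ℤ) {t : Bool × ι} (ht : t ∈ c.St) : c.phi1 x i t ≤ c.K := by
  have h0 := c.mem_St.1 ht
  have h1 := c.K1 (x + i) _ (c.hEd _ h0).1
  have h2 := (single_le_sum (s := c.Ed.filter fun τ => c.p τ = c.p t.2)
    (f := fun τ => c.w τ * c.u (x + i) τ) (fun τ hτ => mul_nonneg (c.hEd τ (mem_filter.1 hτ).1).2.2.2 (c.hu _ _).1)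
    (mem_filter.2 ⟨h0, rfl⟩)).trans h1
  rw [CD.phi1, div_le_iff₀ (c.hρ _)]
  exact (mul_le_of_le_one_right (mul_nonneg (c.hEd _ h0).2.2.2 (c.hu _ _).1) (c.hu _ _).2).trans h2

lemma abs_wt_le (x i : ℤ) {l : List (Bool × ι)} (hl : ∀ t ∈ l, t ∈ c.St) :
    |c.wt x i l| ≤ c.K ^ l.length := by
  have h1 : |c.phi x i l * c.cen x i l| ≤ c.K ^ l.length := by
    induction l generalizing i with
    | nil => simp [CD.phi, CD.cen]
    | cons t l ih =>
      have ht := hl t (by simp)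
      have h2 := ih (i + c.disp t) fun t' ht' => hl t' (by simp [ht'])
      have h3 : |ind (c.p t.2) (x + i) - 1 / c.p t.2| ≤ 1 := by
        have h4 := ind_nonneg (c.p t.2) (x + i)
        have h5 := ind_le_one (c.p t.2) (x + i)
        have h6 : (0 : ℝ) ≤ 1 / c.p t.2 := by positivity
        have h7 : 1 / (c.p t.2 : ℝ) ≤ 1 := by simpa using Nat.cast_inv_le_one _
        rw [abs_le]; constructor <;> linarith
      simp only [CD.phi, CD.cen, List.length_cons]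
      rw [mul_mul_mul_comm, abs_mul, abs_mul, abs_of_nonneg (c.phi1_nonneg x i ht), pow_succ']
      exact mul_le_mul ((mul_le_of_le_one_right (c.phi1_nonneg x i ht) h3).trans
        (phi1_le c x i ht)) h2 (abs_nonneg _) c.hK.le
  rw [CD.wt, abs_mul, abs_of_nonneg (c.inw_mem i l).1]
  exact (mul_le_of_le_one_left (abs_nonneg _) (c.inw_mem i l).2).trans h1

section

variable {S : Finset ℕ}
  (hloc : ∀ x y : ℤ, (∀ q ∈ S, (q : ℤ) ∣ x ↔ (q : ℤ) ∣ y) → c.u x = c.u y ∧ c.ρ x = c.ρ y)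
  (hPS : c.P ⊆ S) (hN : c.N = pr S)
include hloc hPS

lemma pat_wt (i : ℤ) {l : List (Bool × ι)} (hl : ∀ t ∈ l, t ∈ c.St) :
    Pat S (vis c i l) fun x => c.wt x i l := by
  intro x y hxy
  have h1 : c.phi x i l = c.phi y i l ∧ c.cen x i l = c.cen y i l := by
    induction l generalizing i with
    | nil => simp [CD.phi, CD.cen]
    | cons t l ih =>
      have h2 := ih (i + c.disp t) (fun t' ht' => hl t' (by simp [ht']))
        fun q hq o ho => hxy q hq o (mem_insert_of_mem ho)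
      have h3 := hloc _ _ fun q hq => hxy q hq i (mem_vis c _ _)
      have h4 := hloc _ _ fun q hq => hxy q hq _ (mem_insert_of_mem (mem_vis c (i + c.disp t) l))
      have h5 := hxy _ (hPS (c.hEd _ (c.mem_St.1 (hl t (by simp)))).1) i (mem_vis c _ _)
      simp only [CD.phi, CD.cen, CD.phi1, ind, h2.1, h2.2, h3.1, h3.2, h4.1, h5, and_self]
  simp only [CD.wt, h1.1, h1.2]

include hN

lemma sum_tr_le {W M : ℕ} {err : ℝ} (hK : Kub S (2 * c.r + 1) W M err) (v : ℤ) :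
    ∑ y ∈ range M, tr c (v + W * y) ≤ c.R * (M * (24 * √c.L * c.K) ^ (2 * c.r) +
      (c.St.card : ℝ) ^ (2 * c.r) * (c.K ^ (2 * c.r) * err)) := by
  have h1 := mul_le_mul_of_nonneg_left c.moment (Nat.cast_nonneg (α := ℝ) M)
  have h2 : ∑ y ∈ range M, tr c (v + W * y) ≤ ∑ i : Fin c.R,
      (M * mean c.N (fun x => (c.Tm x ^ (2 * c.r)) i i) +
        (c.St.card : ℝ) ^ (2 * c.r) * (c.K ^ (2 * c.r) * err)) := by
    unfold tr
    rw [sum_comm]
    refine sum_le_sum fun i _ => ?_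
    simp only [c.pow_eq]
    rw [sum_sumL, mean_sumL, ← sumL_const_mul, ← sumL_add_const, hN]
    refine sumL_mono _ _ fun l hl hs => ?_
    refine hK.scale (O := vis c (i : ℕ) l) (hl ▸ card_vis c _ l)
      (F := fun x => if c.endp (i : ℕ) l = (i : ℕ) then c.wt x (i : ℕ) l else 0) (fun x => ?_)
      (fun x y hxy => by simp only [pat_wt c hloc hPS _ hs x y hxy]) v
    split_ifs
    · exact hl ▸ abs_wt_le c _ _ hs
    · simpa using (pow_pos c.hK _).le
  rw [sum_add_distrib, ← mul_sum, ← mean_sum, sum_const, card_univ, Fintype.card_fin,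
    nsmul_eq_mul] at h2
  linarith

omit hPS in
lemma sum_Yc_le {W M : ℕ} (hW : 0 < W) {err : ℝ} (h0 : 0 ≤ err)
    (hK : Kub S (2 * c.r + 1) W M err) (l v : ℤ) :
    ∑ y ∈ range M, Yc c W l (v + W * y) ≤ (c.R / W + 1) * (M * mean c.Q c.ρ + c.B * err) := by
  have e1 : mean c.N c.ρ = mean c.Q c.ρ :=
    mean_mul_period _ (Finset.prod_pos fun q hq => (c.hP q hq).1.pos) c.hQ c.hρQ
  have hm : 0 ≤ mean c.Q c.ρ := mean_nonneg _ fun x => (c.hρ x).le
  have hB := c.hB0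
  unfold Yc
  rw [sum_comm]
  refine le_trans (sum_le_sum fun i _ => ?_) ((sum_mul _ _ _).symm.le.trans
    (mul_le_mul_of_nonneg_right (sum_ind_le hW c.R l) (by positivity)))
  rw [← mul_sum]
  refine mul_le_mul_of_nonneg_left ?_ (ind_nonneg _ _)
  have h1 := hK.scale (O := {0}) (by simp) (F := rt c) (b := c.B)
    (fun x => by rw [abs_of_nonneg (rt_mem c x).1]; exact (rt_mem c x).2.1)
    (fun x y hxy => by
      have := (hloc x y fun q hq => by simpa using hxy q hq 0 (by simp)).2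
      simp only [rt, this]) (v + i)
  have h2 : mean (pr S) (rt c) ≤ mean c.Q c.ρ := by
    rw [← e1, hN]; exact mean_mono _ fun x => (rt_mem c x).2.2
  have h3 := mul_le_mul_of_nonneg_left h2 (Nat.cast_nonneg (α := ℝ) M)
  simp only [add_right_comm v _ (i : ℤ)]
  linarith

theorem centredU {W M : ℕ} (hW : 0 < W) (hWD : 4 * W ≤ c.h * c.D) {err s : ℝ} (h0 : 0 ≤ err)
    (hK : Kub S (2 * c.r + 1) W M err) (hs1 : 1 ≤ s) (hs : (c.St.card : ℝ) ≤ s)
    (herr : (2 * s) ^ (2 * c.r) * err ≤ M) (hB : 2 * W * c.R * c.B ≤ 4 ^ c.r * mean c.Q c.ρ)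
    (hlag : ∀ τ ∈ c.Ed, 2 * c.lag τ ≤ 3 * (c.h * c.D)) {l : ℤ}
    (hl : ∀ τ ∈ c.Ed, (W : ℤ) ∣ l + c.lag τ) (a b : ℤ → ℝ) (ha : ∀ n, |a n| ≤ 1)
    (hb : ∀ n, |b n| ≤ 1) (v : ℤ) :
    |∑ y ∈ range M, c.tm a b (v + W * y)| ≤
      5760 * (√c.L * c.K * mean c.Q c.ρ) * M + c.h * c.D * ∑ τ ∈ c.Ed, c.w τ := by
  have hs' := c.one_le_sqrt
  have hK0 := c.hK
  have hB0 := c.hB0
  set Λ := 48 * √c.L * c.K with hΛ
  have hΛ0 : 0 < Λ := by positivity
  set m := mean c.Q c.ρ with hm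
  have hm0 : 0 ≤ m := mean_nonneg _ fun x => (c.hρ x).le
  set A := c.h * c.D / (2 * W) with hA
  have hA1 : 2 * (A * W) ≤ c.h * c.D := by
    have := Nat.div_mul_le_self (c.h * c.D) (2 * W)
    nlinarith
  have hA2 : c.h * c.D ≤ 4 * (A * W) := by
    have := Nat.lt_div_mul_add (a := c.h * c.D) (b := 2 * W) (by omega)
    nlinarith
  have hR1 : c.R ≤ 12 * (A * W) := by have := c.R_eq; have := c.D_le; omega
  have hR2 : W ≤ c.R := by have := c.R_eq; omega
  have hA0 : 0 < A := Nat.pos_of_ne_zero fun h => by rw [h] at hR1; omega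
  have hW' : (0 : ℝ) < W := by exact_mod_cast hW
  have hA' : (0 : ℝ) < A := by exact_mod_cast hA0
  have hW1 : (1 : ℝ) ≤ W := by exact_mod_cast hW
  have hR1' : (c.R : ℝ) / W ≤ 12 * A := by
    rw [div_le_iff₀ hW', mul_assoc]; exact_mod_cast hR1
  have hR2' : (1 : ℝ) ≤ c.R / W := by rw [le_div_iff₀ hW', one_mul]; exact_mod_cast hR2
  have hR3 : (1 : ℝ) ≤ c.R := by exact_mod_cast hW.trans_le hR2
  have e4 : (2 * s) ^ (2 * c.r) = 4 ^ c.r * s ^ (2 * c.r) := by
    rw [mul_pow, pow_mul]; norm_num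
  have p4 : (0 : ℝ) < 4 ^ c.r := by positivity
  have sp : 1 ≤ s ^ (2 * c.r) := one_le_pow₀ hs1
  have hRB : 2 * (c.R * c.B) ≤ 4 ^ c.r * m / W := by rw [le_div_iff₀ hW']; linarith
  have k1 : c.B * err ≤ M * m := by
    have a1 : c.B ≤ 4 ^ c.r * m := by
      have : 1 * 1 * c.B ≤ W * c.R * c.B := by gcongr
      nlinarith
    have a2 : 4 ^ c.r * err ≤ M := by
      refine le_trans ?_ herr
      rw [e4]; gcongr; nlinarith
    calc c.B * err ≤ 4 ^ c.r * m * err := by gcongr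
      _ = 4 ^ c.r * err * m := by ring
      _ ≤ _ := by gcongr
  have k2 : ∀ l, ∑ y ∈ range M, Yc c W l (v + W * y) ≤ 4 * (c.R / W) * (M * m) := fun l => by
    refine (sum_Yc_le c hloc hN hW h0 hK l v).trans ?_
    calc _ ≤ (c.R / W + c.R / W) * (M * m + M * m) := by gcongr
      _ = _ := by ring
  have k3 : (∑ y ∈ range M, tr c (v + W * y)) / Λ ^ (2 * c.r) ≤ c.R * (2 * M / 4 ^ c.r) := by
    rw [div_le_iff₀ (pow_pos hΛ0 _)]
    refine (sum_tr_le c hloc hPS hN hK v).trans ?_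
    rw [mul_assoc (c.R : ℝ)]
    refine mul_le_mul_of_nonneg_left ?_ (Nat.cast_nonneg _)
    have h2 : Λ ^ (2 * c.r) = 4 ^ c.r * (24 * √c.L * c.K) ^ (2 * c.r) := by
      rw [show (4 : ℝ) = 2 ^ 2 by norm_num, ← pow_mul, ← mul_pow, hΛ]; congr 1; ring
    have h3 : c.K ^ (2 * c.r) ≤ Λ ^ (2 * c.r) := by gcongr; nlinarith
    have h4 : s ^ (2 * c.r) * err ≤ M / 4 ^ c.r := by
      rw [le_div_iff₀ p4]; rw [e4] at herr; linarith
    calc _ ≤ M * (24 * √c.L * c.K) ^ (2 * c.r) + s ^ (2 * c.r) * (Λ ^ (2 * c.r) * err) := by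
          gcongr
      _ = M / 4 ^ c.r * Λ ^ (2 * c.r) + s ^ (2 * c.r) * err * Λ ^ (2 * c.r) := by
          rw [h2]; field_simp
      _ ≤ M / 4 ^ c.r * Λ ^ (2 * c.r) + M / 4 ^ c.r * Λ ^ (2 * c.r) := by gcongr
      _ = _ := by ring
  have h1 : |∑ y ∈ range M, ∑ j ∈ range A, c.tm a b (v + W * y + W * j)| ≤
      120 * A * (Λ * (M * m)) := by
    refine (abs_sum_le_sum_abs _ _).trans ((sum_le_sum fun (y : ℕ) _ =>
      window_le' c a b ha hb hΛ0 (v + W * y) hW hA1 hlag hl).trans ?_)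
    rw [sum_add_distrib, ← mul_sum, ← mul_sum, ← mul_sum, ← sum_div, sum_add_distrib]
    calc _ ≤ Λ * (4 * (c.R / W) * (M * m) + 4 * (c.R / W) * (M * m)) +
          4 ^ c.r * m / W * (Λ * (c.R * (2 * M / 4 ^ c.r))) := by
          refine add_le_add (mul_le_mul_of_nonneg_left (add_le_add (k2 _) (k2 _)) hΛ0.le) ?_
          refine le_trans (mul_le_mul_of_nonneg_left (mul_le_mul_of_nonneg_left k3 hΛ0.le)
            (by positivity)) ?_
          gcongr
      _ = 10 * (c.R / W) * (Λ * (M * m)) := by field_simp; ring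
      _ ≤ 10 * (12 * A) * (Λ * (M * m)) := by gcongr
      _ = _ := by ring
  set Sw := ∑ τ ∈ c.Ed, c.w τ
  have hA3 : ∀ n, |c.tm a b n| ≤ Sw := c.abs_tm_le a b ha hb
  have hSw : 0 ≤ Sw := (abs_nonneg _).trans (hA3 0)
  have h2 : |∑ y ∈ range M, ∑ j ∈ range A, c.tm a b (v + W * y + W * j) -
      A * ∑ y ∈ range M, c.tm a b (v + W * y)| ≤ A * (2 * A * Sw) := by
    rw [sum_comm]
    have e : (A : ℝ) * ∑ y ∈ range M, c.tm a b (v + W * y) =
        ∑ _j ∈ range A, ∑ y ∈ range M, c.tm a b (v + W * y) := by simp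
    rw [e, ← sum_sub_distrib]
    refine (abs_sum_le_sum_abs _ _).trans
      ((sum_le_card_nsmul _ _ (2 * A * Sw) fun j hj => ?_).trans (by simp))
    have := shift_sum_le (fun z => c.tm a b (v + W * z)) Sw (fun n => hA3 _) M j
    simp only [mul_add, ← add_assoc] at this
    refine this.trans ?_
    have : (j : ℝ) ≤ A := by exact_mod_cast (mem_range.1 hj).le
    gcongr
  have h3 : A * |∑ y ∈ range M, c.tm a b (v + W * y)| ≤
      A * (120 * (Λ * (M * m)) + 2 * A * Sw) := by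
    rw [← abs_of_pos hA', ← abs_mul, abs_of_pos hA']
    have := abs_sub_abs_le_abs_sub (A * ∑ y ∈ range M, c.tm a b (v + W * y))
      (∑ y ∈ range M, ∑ j ∈ range A, c.tm a b (v + W * y + W * j))
    rw [abs_sub_comm] at this
    linarith
  refine (le_of_mul_le_mul_left h3 hA').trans (add_le_add (le_of_eq (by rw [hΛ]; ring)) ?_)
  have : 2 * (A : ℝ) ≤ c.h * c.D := by
    have : 2 * A ≤ c.h * c.D := by nlinarith
    exact_mod_cast this
  gcongr

end

end Pool.Agent.Work.MP_d018b2_nt.U
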