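import Pool.Agent.Work.MP_d018b2_nt.UBasic

/-! One level of the bilinear decomposition in a progression. -/

set_option autoImplicit false
open Filter Topology Finset MeasureTheory

namespace Pool.Agent.Work.MP_d018b2_nt.U

open Pool.Agent.Lib.MR Pool.Agent.Lib.LargeSieve Pool.Agent.Work.MP_ca0f09_nt
open Pool.Agent.Work.MP_51e72e_nt.LT

/-- The cofactors that put the product in the class. -/
noncomputable def cof (M a : ℕ) (g : ℕ → ℂ) (c m : ℕ) : ℂ := if c * m ≡ a [MOD M] then g m else 0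

lemma norm_cof_le {M a : ℕ} {g : ℕ → ℂ} (hg : ∀ n, ‖g n‖ ≤ 1) (c m : ℕ) : ‖cof M a g c m‖ ≤ 1 := by
  unfold cof
  split_ifs
  · exact hg m
  · simp

lemma cof_mod (M a : ℕ) (g : ℕ → ℂ) (p : ℕ) : cof M a g (p % M) = cof M a g p := by
  funext m
  unfold cof
  have : (p % M) * m ≡ a [MOD M] ↔ p * m ≡ a [MOD M] :=
    ⟨fun h => ((Nat.mod_modEq p M).mul_right m).symm.trans h,
      fun h => ((Nat.mod_modEq p M).mul_right m).trans h⟩
  simp only [this]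

lemma collect_AP (S : Finset ℕ) (hS : ∀ p ∈ S, p.Prime) (Mp : ℕ → ℕ) (N : ℕ)
    (hM : ∀ p ∈ S, p * Mp p ≤ N) (M a : ℕ) (g : ℕ → ℂ) (u : ℝ) :
    ∑ p ∈ S, nit p u * DP (Icc 1 (Mp p)) (cof M a g p) u =
      DP (Icc 1 N) (res M a fun n => ∑ p ∈ S, if p ∣ n ∧ n / p ≤ Mp p then g (n / p) else 0) u := by
  have h1 : ∀ p ∈ S, nit p u * DP (Icc 1 (Mp p)) (cof M a g p) u =
      ∑ n ∈ Icc 1 N, (if n ≡ a [MOD M] then
        (if p ∣ n ∧ n / p ≤ Mp p then g (n / p) else 0) else 0) * nit n u := by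
    intro p hp
    have h2 := decomp_collect {p} (fun q hq => by rw [mem_singleton.1 hq]; exact hS p hp) Mp N
      (fun q hq => by rw [mem_singleton.1 hq]; exact hM p hp) (fun _ => 1) (cof M a g p) u
    simp only [sum_singleton, one_mul] at h2
    rw [h2]
    unfold DP
    refine sum_congr rfl fun n _ => ?_
    congr 1
    by_cases h3 : p ∣ n ∧ n / p ≤ Mp p
    · simp only [if_pos h3, cof, Nat.mul_div_cancel' h3.1]
    · simp only [if_neg h3, ite_self]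
  rw [sum_congr rfl h1, sum_comm]
  unfold DP
  refine sum_congr rfl fun n _ => ?_
  rw [← sum_mul]
  congr 1
  unfold res
  split_ifs
  · rfl
  · simp

lemma group_AP {M : ℕ} (hM : 0 < M) (a : ℕ) (g : ℕ → ℂ) (X : ℕ) (κ P Q u : ℝ) :
    ∑ p ∈ primesIn P Q, nit p u * DP (Icc 1 ⌊(X : ℝ) / (1 + κ) ^ lev κ p⌋₊) (cof M a g p) u =
      ∑ i ∈ idx κ P Q ×ˢ range M, DP (piece κ P Q i.1) (res M i.2 fun _ => 1) u *
        DP (Icc 1 ⌊(X : ℝ) / (1 + κ) ^ i.1⌋₊) (cof M a g i.2) u := by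
  have hmaps : ∀ p ∈ primesIn P Q, lev κ p ∈ idx κ P Q := fun p hp =>
    Finset.mem_image_of_mem _ hp
  rw [← Finset.sum_fiberwise_of_maps_to hmaps, sum_product]
  refine Finset.sum_congr rfl fun v _ => ?_
  have h1 : ∀ c, DP (piece κ P Q v) (res M c fun _ => 1) u *
      DP (Icc 1 ⌊(X : ℝ) / (1 + κ) ^ v⌋₊) (cof M a g c) u =
      ∑ p ∈ piece κ P Q v, res M c (fun _ => 1) p * nit p u *
        DP (Icc 1 ⌊(X : ℝ) / (1 + κ) ^ v⌋₊) (cof M a g c) u := fun c => by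
    rw [← sum_mul]
    rfl
  simp only [h1]
  rw [sum_comm]
  refine Finset.sum_congr rfl fun p hp => ?_
  rw [(Finset.mem_filter.1 hp).2, sum_eq_single (p % M)]
  · rw [cof_mod, res, if_pos (Nat.mod_modEq p M).symm, one_mul]
  · intro c hc hne
    have : ¬ p ≡ c [MOD M] := fun h => hne (by
      rw [Nat.ModEq, Nat.mod_eq_of_lt (mem_range.1 hc)] at h
      exact h.symm)
    rw [res, if_neg this, zero_mul, zero_mul]
  · intro h
    exact absurd (mem_range.2 (Nat.mod_lt p hM)) h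

lemma coeff_AP {g : ℕ → ℂ} (hg : ∀ n, ‖g n‖ ≤ 1) (S : Finset ℕ) (hS : ∀ p ∈ S, p.Prime)
    (hm : ∀ p ∈ S, ∀ m : ℕ, g (p * m) = g m) (M : ℕ → ℕ) (X Y : ℕ)
    (h1 : ∀ p ∈ S, X / p ≤ M p) (h2 : ∀ p ∈ S, p * M p ≤ Y) (L : ℝ) (n : ℕ) :
    ‖(L : ℂ) * (if n ≤ X then g n else 0) -
        ∑ p ∈ S, if p ∣ n ∧ n / p ≤ M p then g (n / p) else 0‖ ^ 2 ≤
      2 * ((∑ p ∈ S, if p ∣ n then (1 : ℝ) else 0) - L) ^ 2 +
        2 * L ^ 2 * (if n ∈ Ioc X Y then 1 else 0) := by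
  set om : ℝ := ∑ p ∈ S, if p ∣ n then (1 : ℝ) else 0 with hom
  by_cases hn : n ≤ X
  · rw [if_pos hn, if_neg (fun h => absurd (Finset.mem_Ioc.1 h).1 (not_lt.2 hn))]
    have e : (L : ℂ) * g n - ∑ p ∈ S, (if p ∣ n ∧ n / p ≤ M p then g (n / p) else 0) =
        ((L - om : ℝ) : ℂ) * g n := by
      rw [hom]
      push_cast
      rw [sub_mul, Finset.sum_mul]
      congr 1
      refine Finset.sum_congr rfl fun p hp => ?_
      have h3 : n / p ≤ M p := (Nat.div_le_div_right hn).trans (h1 p hp)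
      by_cases h4 : p ∣ n
      · obtain ⟨m, rfl⟩ := h4
        have h5 : p * m / p = m := Nat.mul_div_cancel_left _ (hS p hp).pos
        rw [h5] at h3 ⊢
        simp [h3, hm p hp m]
      · simp [h4]
    have b1 : ‖((L - om : ℝ) : ℂ) * g n‖ ≤ |L - om| := by
      rw [norm_mul, Complex.norm_real]
      exact mul_le_of_le_one_right (norm_nonneg _) (hg n)
    rw [e]
    have b4 := pow_le_pow_left₀ (norm_nonneg _) b1 2
    have b5 : |L - om| ^ 2 = (om - L) ^ 2 := by rw [sq_abs]; ring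
    nlinarith [sq_nonneg (om - L)]
  · rw [if_neg hn, mul_zero, zero_sub, norm_neg]
    by_cases hY : n ≤ Y
    · rw [if_pos (Finset.mem_Ioc.2 ⟨not_le.1 hn, hY⟩)]
      have b2 : ‖∑ p ∈ S, (if p ∣ n ∧ n / p ≤ M p then g (n / p) else 0)‖ ≤ om := by
        rw [hom]
        refine (norm_sum_le _ _).trans (Finset.sum_le_sum fun p _ => ?_)
        by_cases h4 : p ∣ n ∧ n / p ≤ M p
        · rw [if_pos h4, if_pos h4.1]
          exact hg _
        · rw [if_neg h4, norm_zero]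
          split_ifs <;> norm_num
      have b4 := pow_le_pow_left₀ (norm_nonneg _) b2 2
      nlinarith [sq_nonneg (om - 2 * L)]
    · have e : ∑ p ∈ S, (if p ∣ n ∧ n / p ≤ M p then g (n / p) else 0) = 0 := by
        refine Finset.sum_eq_zero fun p hp => if_neg fun h => hY ?_
        calc n = p * (n / p) := (Nat.mul_div_cancel' h.1).symm
          _ ≤ p * M p := Nat.mul_le_mul_left _ h.2
          _ ≤ Y := h2 p hp
      rw [e, norm_zero, if_neg fun h => hY (Finset.mem_Ioc.1 h).2]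
      nlinarith [sq_nonneg (om - L)]

theorem decomp_AP {g : ℕ → ℂ} (hg : ∀ n, ‖g n‖ ≤ 1) {X M a : ℕ} {κ P Q T : ℝ}
    (hm : ∀ p ∈ primesIn P Q, ∀ m, g (p * m) = g m) (hM : 0 < M) (hMP : (M : ℝ) < P)
    (hκ : 0 < κ) (hκ1 : κ ≤ 1) (hL : 1 ≤ LL P Q) (hQ1 : 1 ≤ Q)
    (hQ : Q ^ 2 * M ≤ X) (hT : 0 < T) (hTX : T ≤ X / M) :
    MS T Set.univ (fun u => DP (Icc 1 X) (res M a g) u - (((LL P Q)⁻¹ : ℝ) : ℂ) *
      ∑ p ∈ primesIn P Q, nit p u * DP (Icc 1 ⌊(X : ℝ) / (1 + κ) ^ lev κ p⌋₊) (cof M a g p) u)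
      ≤ 1000 * ((X : ℝ) / M) ^ 2 * (1 / LL P Q + κ) := by
  set S := primesIn P Q with hSdef
  set L := LL P Q with hLdef
  have hL0 : 0 < L := by linarith
  have hM0 : (0 : ℝ) < M := by exact_mod_cast hM
  have hS : ∀ p ∈ S, p.Prime := fun p hp => (mem_primesIn.1 hp).1
  have hS' : ∀ p ∈ S, p.Prime ∧ ¬ p ∣ M := fun p hp => ⟨hS p hp, fun h => by
    have h1 : (p : ℝ) ≤ M := by exact_mod_cast Nat.le_of_dvd hM h
    linarith [(mem_primesIn.1 hp).2.1]⟩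
  set Mp : ℕ → ℕ := fun p => ⌊(X : ℝ) / (1 + κ) ^ lev κ p⌋₊ with hMp
  set Y : ℕ := ⌊(1 + κ) * X⌋₊ with hY
  have hX0 : (0 : ℝ) ≤ X := by positivity
  have hYle : (Y : ℝ) ≤ (1 + κ) * X := Nat.floor_le (by positivity)
  have hXY : X ≤ Y := Nat.le_floor (by nlinarith)
  have hY2 : Y ≤ 2 * X := by
    have : (Y : ℝ) ≤ (2 * X : ℕ) := by
      push_cast
      nlinarith
    exact_mod_cast this
  have h1 : ∀ p ∈ S, X / p ≤ Mp p := by
    intro p hp
    have hl := (lev_spec hκ (hS p hp).one_le).1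
    refine Nat.le_floor (Nat.cast_div_le.trans ?_)
    exact div_le_div_of_nonneg_left hX0 (by positivity) hl
  have h2 : ∀ p ∈ S, p * Mp p ≤ Y := by
    intro p hp
    have hl := (lev_spec hκ (hS p hp).one_le).2
    refine Nat.le_floor ?_
    have h3 : (Mp p : ℝ) ≤ (X : ℝ) / (1 + κ) ^ lev κ p := Nat.floor_le (by positivity)
    have h4 : (0 : ℝ) < (1 + κ) ^ lev κ p := by positivity
    push_cast
    calc (p : ℝ) * Mp p ≤ (1 + κ) ^ (lev κ p + 1) * ((X : ℝ) / (1 + κ) ^ lev κ p) :=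
          mul_le_mul hl.le h3 (by positivity) (by positivity)
      _ = (1 + κ) * X := by
          rw [pow_succ]
          field_simp
  have hcard : (S.card : ℝ) ≤ Q := by
    have h3 : S ⊆ Icc 1 ⌊Q⌋₊ := filter_subset _ _
    have := Finset.card_le_card h3
    rw [Nat.card_Icc, Nat.add_sub_cancel] at this
    exact (Nat.cast_le.2 this).trans (Nat.floor_le (by linarith))
  have hLS : L ≤ S.card := by
    have := Finset.sum_le_card_nsmul S (fun p => (p : ℝ)⁻¹) 1 fun p hp =>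
      inv_le_one_of_one_le₀ (by exact_mod_cast (hS p hp).one_le)
    rwa [nsmul_eq_mul, mul_one] at this
  set Z : ℝ := (X : ℝ) / M with hZ
  have hQZ : Q ^ 2 ≤ Z := (le_div_iff₀ hM0).2 hQ
  have hZ0 : 0 ≤ Z := by positivity
  set d : ℕ → ℂ := fun n => (L : ℂ) * (if n ≤ X then g n else 0) -
    ∑ p ∈ S, if p ∣ n ∧ n / p ≤ Mp p then g (n / p) else 0 with hd
  have hLc : ((L⁻¹ : ℝ) : ℂ) * (L : ℂ) = 1 := by
    rw [← Complex.ofReal_mul, inv_mul_cancel₀ hL0.ne', Complex.ofReal_one]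
  have hE : (fun u => DP (Icc 1 X) (res M a g) u - ((L⁻¹ : ℝ) : ℂ) *
      ∑ p ∈ S, nit p u * DP (Icc 1 (Mp p)) (cof M a g p) u) =
      DP (Icc 1 (2 * X)) (res M a fun n => ((L⁻¹ : ℝ) : ℂ) * d n) := by
    funext u
    rw [collect_AP S hS Mp (2 * X) (fun p hp => (h2 p hp).trans hY2)]
    have h3 : DP (Icc 1 X) (res M a g) u =
        DP (Icc 1 (2 * X)) (fun n => if n ≤ X then res M a g n else 0) u := by
      have h4 : Icc 1 X = (Icc 1 (2 * X)).filter (· ≤ X) := by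
        ext n
        simp only [Finset.mem_Icc, Finset.mem_filter]
        omega
      unfold DP
      rw [h4, Finset.sum_filter]
      refine Finset.sum_congr rfl fun n _ => ?_
      by_cases h5 : n ≤ X
      · simp [h5]
      · simp [h5]
    rw [h3]
    unfold DP
    rw [Finset.mul_sum, ← Finset.sum_sub_distrib]
    refine Finset.sum_congr rfl fun n _ => ?_
    unfold res
    by_cases h6 : n ≡ a [MOD M]
    · simp only [hd, if_pos h6]
      rw [mul_sub, ← mul_assoc ((L⁻¹ : ℝ) : ℂ) (L : ℂ), hLc]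
      ring
    · simp only [if_neg h6, ite_self, zero_mul, mul_zero, sub_zero]
  rw [hE]
  refine (mean_value_AP hM (Finset.Subset.refl _) a _ hT).trans ?_
  have hsum : ∑ n ∈ Icc 1 (2 * X) with n ≡ a [MOD M], ‖d n‖ ^ 2 ≤
      14 * Z * L + 2 * L ^ 2 * (κ * Z) := by
    refine (Finset.sum_le_sum fun n _ => coeff_AP hg S hS hm Mp X Y h1 h2 L n).trans ?_
    rw [Finset.sum_add_distrib, ← Finset.mul_sum, ← Finset.mul_sum]
    have a1 := tk_AP S hM hS' a (2 * X)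
    have a3 : ∑ n ∈ Icc 1 (2 * X) with n ≡ a [MOD M], (if n ∈ Ioc X Y then (1 : ℝ) else 0) ≤
        κ * Z + 1 := by
      rw [Finset.sum_boole]
      have a4 : (((Icc 1 (2 * X)).filter (fun n => n ≡ a [MOD M])).filter (· ∈ Ioc X Y)).card ≤
          ((Ioc X (X + (Y - X))).filter (fun n => n ≡ a [MOD M])).card := by
        refine Finset.card_le_card fun n hn => ?_
        rw [Nat.add_sub_cancel' hXY]
        exact mem_filter.2 ⟨(mem_filter.1 hn).2, (mem_filter.1 (mem_filter.1 hn).1).2⟩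
      have a5 := (abs_le.1 (Pool.Agent.Lib.ANT.abs_card_modEq_sub_le X (Y - X) M a hM)).2
      rw [Nat.cast_sub hXY] at a5
      have a6 : ((Y : ℝ) - X) / M ≤ κ * Z := by
        rw [hZ, ← mul_div_assoc]
        exact div_le_div_of_nonneg_right (by linarith) hM0.le
      have a7 := (Nat.cast_le (α := ℝ)).2 a4
      linarith
    have a6 : ∑ p ∈ S, (p : ℝ)⁻¹ = L := rfl
    rw [a6] at a1
    push_cast at a1
    have a2 : (2 * (X : ℝ)) / M = 2 * Z := by rw [hZ]; ring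
    rw [a2] at a1
    have a7 : ((S.card : ℝ) + L) ^ 2 ≤ (2 * Q) ^ 2 :=
      pow_le_pow_left₀ (by positivity) (by linarith) 2
    have a10 : L ^ 2 ≤ Q ^ 2 := pow_le_pow_left₀ hL0.le (by linarith) 2
    have a8 := mul_le_mul_of_nonneg_left hL hZ0
    have a9 := mul_le_mul_of_nonneg_left a3 (show 0 ≤ 2 * L ^ 2 by positivity)
    nlinarith
  have hsum2 : ∑ n ∈ Icc 1 (2 * X) with n ≡ a [MOD M], ‖((L⁻¹ : ℝ) : ℂ) * d n‖ ^ 2 ≤
      14 * Z * (1 / L + κ) := by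
    have e1 : ∑ n ∈ Icc 1 (2 * X) with n ≡ a [MOD M], ‖((L⁻¹ : ℝ) : ℂ) * d n‖ ^ 2 =
        (L⁻¹) ^ 2 * ∑ n ∈ Icc 1 (2 * X) with n ≡ a [MOD M], ‖d n‖ ^ 2 := by
      rw [Finset.mul_sum]
      refine Finset.sum_congr rfl fun n _ => ?_
      rw [norm_mul, mul_pow, Complex.norm_real, Real.norm_eq_abs, sq_abs]
    rw [e1]
    refine (mul_le_mul_of_nonneg_left hsum (by positivity)).trans ?_
    have e2 : (L⁻¹) ^ 2 * (14 * Z * L + 2 * L ^ 2 * (κ * Z)) = 14 * Z * (1 / L) + 2 * (κ * Z) := by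
      field_simp
    rw [e2]
    nlinarith [mul_nonneg hκ.le hZ0]
  have hpi : Real.pi * (T + 2 * ((2 * X : ℕ) : ℝ) / M) ≤ 20 * Z := by
    have a2 : 2 * ((2 * X : ℕ) : ℝ) / M = 4 * Z := by rw [hZ]; push_cast; ring
    rw [a2]
    nlinarith [Real.pi_le_four, Real.pi_pos]
  have hpos : 0 ≤ 1 / L + κ := by positivity
  calc _ ≤ 20 * Z * (14 * Z * (1 / L + κ)) :=
        mul_le_mul hpi hsum2 (Finset.sum_nonneg fun _ _ => by positivity) (by positivity)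
    _ = 280 * Z ^ 2 * (1 / L + κ) := by ring
    _ ≤ _ := by gcongr; norm_num

lemma piece_AP {f g : ℕ → ℂ} (hg : ∀ n, ‖g n‖ ≤ 1) {X v : ℕ} {κ P Q T α : ℝ} (hκ : 0 < κ)
    (hκ1 : κ ≤ 1) (hP : 2 ≤ P) (hT : 0 < T) (hTX : T ≤ X / Q) (hα : 0 ≤ α) (hv : v ∈ idx κ P Q)
    {V : Set ℝ} (hV : MeasurableSet V) (hVG : V ⊆ Good f κ P Q α) :
    MS T V (fun u => DP (piece κ P Q v) f u * DP (Icc 1 ⌊(X : ℝ) / (1 + κ) ^ v⌋₊) g u) ≤
      10 * (X : ℝ) ^ 2 * (P / 2) ^ (-(2 * α)) := by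
  have hX : (0 : ℝ) ≤ X := Nat.cast_nonneg X
  obtain ⟨r1, r2⟩ := mem_idx hκ hκ1 hv
  have h1 := MS_le_of_le ((Trig.DP (piece κ P Q v) f).mul
    (Trig.DP (Icc 1 ⌊(X : ℝ) / (1 + κ) ^ v⌋₊) g)) (Trig.DP (Icc 1 ⌊(X : ℝ) / (1 + κ) ^ v⌋₊) g) T
    hV (c := ((1 + κ) ^ v) ^ (1 - α)) fun u hu => by
      rw [norm_mul]
      exact mul_le_mul_of_nonneg_right (hVG hu v hv) (norm_nonneg _)
  have h2 := (MS_mono (Trig.DP (Icc 1 ⌊(X : ℝ) / (1 + κ) ^ v⌋₊) g) T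
    (Set.subset_univ V)).trans (mean_value (Finset.Subset.refl _) g hT)
  have hR := Levels_one_le hκ v
  generalize (1 + κ) ^ v = R at *
  have hR0 : 0 < R := by linarith
  have hM : (⌊(X : ℝ) / R⌋₊ : ℝ) ≤ X / R := Nat.floor_le (by positivity)
  have h3 : ∑ n ∈ Icc 1 ⌊(X : ℝ) / R⌋₊, ‖g n‖ ^ 2 ≤ X / R := by
    have := Finset.sum_le_card_nsmul (Icc 1 ⌊(X : ℝ) / R⌋₊) (fun n => ‖g n‖ ^ 2) 1
      fun n _ => pow_le_one₀ (norm_nonneg _) (hg n)
    rw [Nat.card_Icc, Nat.add_sub_cancel, nsmul_eq_mul, mul_one] at this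
    exact this.trans hM
  have h4 : T ≤ X / R := hTX.trans (div_le_div_of_nonneg_left hX hR0 r2)
  have h5 : Real.pi * (T + 2 * (⌊(X : ℝ) / R⌋₊ : ℝ)) * ∑ n ∈ Icc 1 ⌊(X : ℝ) / R⌋₊, ‖g n‖ ^ 2 ≤
      Real.pi * (X / R + 2 * (X / R)) * (X / R) := by
    have := Real.pi_pos
    gcongr
  have h6 : (R ^ (1 - α)) ^ 2 = R ^ 2 * R ^ (-(2 * α)) := by
    rw [← Real.rpow_natCast, ← Real.rpow_natCast, ← Real.rpow_mul hR0.le, ← Real.rpow_add hR0]
    congr 1; push_cast; ring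
  have h7 : R ^ (-(2 * α)) ≤ (P / 2) ^ (-(2 * α)) :=
    Real.rpow_le_rpow_of_nonpos (by linarith) r1 (by linarith)
  refine h1.trans ((mul_le_mul_of_nonneg_left (h2.trans h5) (sq_nonneg _)).trans ?_)
  calc _ = 3 * Real.pi * (X : ℝ) ^ 2 * R ^ (-(2 * α)) := by rw [h6]; field_simp; ring
    _ ≤ _ := by gcongr; exact Levels_pi

theorem core_AP {g : ℕ → ℂ} (hg : ∀ n, ‖g n‖ ≤ 1) {X M a : ℕ} {κ P Q T α : ℝ}
    (hm : ∀ p ∈ primesIn P Q, ∀ m, g (p * m) = g m) (hM : 0 < M) (hMP : (M : ℝ) < P)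
    (hκ : 0 < κ) (hκ1 : κ ≤ 1) (hL : 1 ≤ LL P Q) (hP : 2 ≤ P) (hQ1 : 1 ≤ Q)
    (hQ : Q ^ 2 * M ≤ X) (hT : 0 < T) (hTX : T ≤ X / (Q * M)) (hα0 : 0 ≤ α) (hα : α ≤ 1)
    (h : 2 * Real.log (8 * Real.log X + 16) ≤ α * Real.log (P / 2)) :
    ∃ U : Set ℝ, MeasurableSet U ∧
      (cm T).real U ≤ 10 * M * (idx κ P Q).card * (X : ℝ) ^ (5 * α) ∧
      MS T Uᶜ (DP (Icc 1 X) (res M a g)) ≤ 2000 * ((X : ℝ) / M) ^ 2 * (1 / LL P Q + κ)
        + 20 * ((M : ℝ) * (idx κ P Q).card) ^ 2 * (X : ℝ) ^ 2 * (P / 2) ^ (-(2 * α)) := by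
  have hX0 : (0 : ℝ) ≤ X := Nat.cast_nonneg X
  have hM1 : (1 : ℝ) ≤ M := by exact_mod_cast hM
  have hQ0 : 0 < Q := by linarith
  have hQX : Q ≤ X := by nlinarith [mul_le_mul_of_nonneg_left hM1 (sq_nonneg Q)]
  have hX1 : 1 ≤ X := by exact_mod_cast hQ1.trans hQX
  have hT1 : T ≤ X / M :=
    hTX.trans (div_le_div_of_nonneg_left hX0 (by linarith) (by nlinarith))
  have hT2 : T ≤ X / Q :=
    hTX.trans (div_le_div_of_nonneg_left hX0 hQ0 (by nlinarith))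
  have hT3 : T ≤ X := hT1.trans (div_le_self hX0 hM1)
  have hone : ∀ c n, ‖res M c (fun _ => (1 : ℂ)) n‖ ≤ 1 := fun c => norm_res_le fun _ => by simp
  set U : Set ℝ := ⋃ c ∈ range M, (Good (res M c fun _ => 1) κ P Q α)ᶜ with hU
  have hUm : MeasurableSet U :=
    Finset.measurableSet_biUnion _ fun c _ => (measurableSet_Good _ κ P Q α).compl
  refine ⟨U, hUm, ?_, ?_⟩
  · refine (measureReal_biUnion_finset_le _ _).trans ?_
    have := Finset.sum_le_card_nsmul (range M)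
      (fun c => (cm T).real (Good (res M c fun _ => 1) κ P Q α)ᶜ) _
      fun c _ => level_meas (hone c) hκ hκ1 hP hX1 hQX hT hT3 hα0 hα h
    rw [card_range, nsmul_eq_mul] at this
    exact this.trans (le_of_eq (by ring))
  · have hsub : ∀ c ∈ range M, Uᶜ ⊆ Good (res M c fun _ => 1) κ P Q α := by
      intro c hc u hu
      by_contra hn
      exact hu (Set.mem_biUnion hc hn)
    have hd := decomp_AP (a := a) hg hm hM hMP hκ hκ1 hL hQ1 hQ hT hT1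
    simp only [group_AP hM] at hd
    have t2 : ∀ i ∈ idx κ P Q ×ˢ range M, Trig fun u =>
        DP (piece κ P Q i.1) (res M i.2 fun _ => 1) u *
          DP (Icc 1 ⌊(X : ℝ) / (1 + κ) ^ i.1⌋₊) (cof M a g i.2) u :=
      fun i _ => (Trig.DP _ _).mul (Trig.DP _ _)
    have t3 := (Trig.const (((LL P Q)⁻¹ : ℝ) : ℂ)).mul (Trig.sum t2)
    have t1 := (Trig.DP (Icc 1 X) (res M a g)).sub t3
    have h1 := MS_add_le t1 t3 T Uᶜ
    simp only [sub_add_cancel] at h1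
    have h2 := (MS_mono t1 T (Set.subset_univ Uᶜ)).trans hd
    have h3 := MS_le_of_le t3 (Trig.sum t2) T hUm.compl (c := 1) fun u _ => by
      rw [norm_mul, Complex.norm_real, Real.norm_eq_abs, abs_of_nonneg (by positivity)]
      exact mul_le_mul_of_nonneg_right (inv_le_one_of_one_le₀ hL) (norm_nonneg _)
    have h4 := MS_sum_le t2 T Uᶜ
    have h5 := Finset.sum_le_card_nsmul (idx κ P Q ×ˢ range M) _ _ fun i hi =>
      piece_AP (X := X) (norm_cof_le (M := M) (a := a) hg i.2) hκ hκ1 hP hT hT2 hα0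
        (mem_product.1 hi).1 hUm.compl (hsub i.2 (mem_product.1 hi).2)
    rw [nsmul_eq_mul] at h5
    have h6 := mul_le_mul_of_nonneg_left h5
      (Nat.cast_nonneg (α := ℝ) (idx κ P Q ×ˢ range M).card)
    have h7 : ((idx κ P Q ×ˢ range M).card : ℝ) = M * (idx κ P Q).card := by
      rw [card_product, card_range]
      push_cast
      ring
    rw [h7] at h4 h6
    change MS T Uᶜ (DP (Icc 1 X) (res M a g)) ≤ _ at h1
    nlinarith

end Pool.Agent.Work.MP_d018b2_nt.U
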