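import Pool.Agent.Work.MP_51e72e_nt.L2Unif

/-! Definitions for the version of the two-point estimate that is uniform in the modulus. -/

set_option autoImplicit false
open Filter Topology Finset

namespace Pool.Agent.Work.MP_d018b2_nt.U

open Pool.Agent.Lib.LargeSieve Pool.Agent.Work.MP_ca0f09_nt

/-- `g` is invariant under multiplication by the integers up to `y`. -/
def Inv {β : Type} (y : ℝ) (g : ℕ → β) : Prop :=
  ∀ d : ℕ, 0 < d → (d : ℝ) ≤ y → ∀ m, g (d * m) = g m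

/-- Cancellation in almost all short segments of every progression of modulus at most `M₁`. -/
def ShortAP (g : ℕ → ℂ) (ε M₁ H₀ H₁ X₀ X₁ : ℝ) : Prop :=
  ∀ M c H X : ℕ, c < M → (M : ℝ) ≤ M₁ → H₀ ≤ H → (H : ℝ) ≤ H₁ → X₀ ≤ X → (X : ℝ) ≤ X₁ →
    ∑ y ∈ range X, ‖∑ j ∈ range H, g (c + M * (y + j))‖ ≤ ε * H * X

/-- The same with an arbitrary linear phase. -/
def UnifAP (g : ℕ → ℂ) (ε M₁ H₀ H₁ X₀ X₁ : ℝ) : Prop :=
  ∀ M c H X : ℕ, c < M → (M : ℝ) ≤ M₁ → H₀ ≤ H → (H : ℝ) ≤ H₁ → X₀ ≤ X → (X : ℝ) ≤ X₁ →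
    ∀ α : ℝ, ∑ y ∈ range X, ‖∑ j ∈ range H, g (c + M * (y + j)) * ee (α * j)‖ ≤ ε * H * X

/-- Restriction to a residue class. -/
noncomputable def res (M a : ℕ) (g : ℕ → ℂ) (n : ℕ) : ℂ := if n ≡ a [MOD M] then g n else 0

/-- `F x` is determined by the divisibility of the numbers `x + o` by the elements of `S`. -/
def Pat (S : Finset ℕ) (O : Finset ℤ) (F : ℤ → ℝ) : Prop :=
  ∀ x y : ℤ, (∀ q ∈ S, ∀ o ∈ O, (q : ℤ) ∣ x + o ↔ (q : ℤ) ∣ y + o) → F x = F y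

/-- The independence model for the primes of `S` holds on segments of length `M` of progressions
modulo `W`, with error `err`. -/
def Kub (S : Finset ℕ) (k W M : ℕ) (err : ℝ) : Prop :=
  ∀ O : Finset ℤ, O.card ≤ k → ∀ F : ℤ → ℝ, (∀ x, |F x| ≤ 1) → Pat S O F → ∀ c : ℤ,
    |∑ y ∈ range M, F (c + W * y) - M * mean (pr S) F| ≤ err

lemma Inv.mono {β : Type} {y z : ℝ} {g : ℕ → β} (h : Inv y g) (hz : z ≤ y) : Inv z g :=
  fun d hd hy => h d hd (hy.trans hz)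

lemma ShortAP.mono {g : ℕ → ℂ} {ε M₁ H₀ H₁ X₀ X₁ ε' M₁' H₀' H₁' X₀' X₁' : ℝ}
    (h : ShortAP g ε M₁ H₀ H₁ X₀ X₁) (h0 : ε ≤ ε') (h1 : M₁' ≤ M₁) (h2 : H₀ ≤ H₀')
    (h3 : H₁' ≤ H₁) (h4 : X₀ ≤ X₀') (h5 : X₁' ≤ X₁) : ShortAP g ε' M₁' H₀' H₁' X₀' X₁' :=
  fun M c H X a b d e f k => (h M c H X a (b.trans h1) (h2.trans d) (e.trans h3) (h4.trans f)
    (k.trans h5)).trans (by gcongr)

lemma UnifAP.mono {g : ℕ → ℂ} {ε M₁ H₀ H₁ X₀ X₁ ε' M₁' H₀' H₁' X₀' X₁' : ℝ}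
    (h : UnifAP g ε M₁ H₀ H₁ X₀ X₁) (h0 : ε ≤ ε') (h1 : M₁' ≤ M₁) (h2 : H₀ ≤ H₀')
    (h3 : H₁' ≤ H₁) (h4 : X₀ ≤ X₀') (h5 : X₁' ≤ X₁) : UnifAP g ε' M₁' H₀' H₁' X₀' X₁' :=
  fun M c H X a b d e f k α => (h M c H X a (b.trans h1) (h2.trans d) (e.trans h3) (h4.trans f)
    (k.trans h5) α).trans (by gcongr)

lemma Kub.mono {S : Finset ℕ} {k W M k' : ℕ} {err err' : ℝ} (h : Kub S k W M err) (h1 : k' ≤ k)
    (h2 : err ≤ err') : Kub S k' W M err' :=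
  fun O a F b c d => (h O (a.trans h1) F b c d).trans h2

lemma norm_res_le {M a : ℕ} {g : ℕ → ℂ} (hg : ∀ n, ‖g n‖ ≤ 1) (n : ℕ) : ‖res M a g n‖ ≤ 1 := by
  unfold res
  split_ifs
  · exact hg n
  · simp

end Pool.Agent.Work.MP_d018b2_nt.U
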