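import Pool.Agent.Work.MP_d018b2_nt.UBasic

/-! Divisor sums of rough weights in a progression: sparse sets of frequencies. -/

set_option autoImplicit false
open Filter Topology Finset MeasureTheory

namespace Pool.Agent.Work.MP_d018b2_nt.U

open Pool.Agent.Lib.MR Pool.Agent.Lib.LargeSieve Pool.Agent.Work.MP_ca0f09_nt
open Pool.Agent.Work.MP_51e72e_nt.LT
open Pool.Agent.Work.MP_51e72e_nt

lemma exc_ev (a : ℝ) (n : ℕ) {γ : ℝ} (hγ : 0 < γ) :
    ∀ᶠ X : ℕ in atTop, a * Real.log X ^ n ≤ (X : ℝ) ^ γ := by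
  have h := (isLittleO_log_rpow_rpow_atTop n hγ).bound (c := 1 / (|a| + 1)) (by positivity)
  filter_upwards [tendsto_natCast_atTop_atTop (R := ℝ) |>.eventually h] with X hX
  have h0 : 0 ≤ Real.log X ^ n := pow_nonneg (Real.log_natCast_nonneg X) n
  rw [Real.rpow_natCast, Real.norm_of_nonneg h0, Real.norm_of_nonneg (by positivity),
    one_div, ← div_eq_inv_mul, le_div_iff₀ (by positivity)] at hX
  nlinarith [le_abs_self a]

lemma exc_one {M : ℕ} (hM : 0 < M) {j : ℕ} (hj : j.Coprime M) (a : ℕ) :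
    ∑ x ∈ range M, (if (j : ZMod M) * (x : ℕ) = a then (1 : ℂ) else 0) = 1 := by
  have : NeZero M := ⟨hM.ne'⟩
  obtain ⟨v, hv⟩ := (ZMod.isUnit_iff_coprime _ _).2 hj
  rw [sum_eq_single_of_mem (((v⁻¹ : (ZMod M)ˣ) : ZMod M) * a).val (mem_range.2 (ZMod.val_lt _))]
  · rw [if_pos (by rw [ZMod.natCast_zmod_val, ← hv, Units.mul_inv_cancel_left])]
  · intro x hx hne
    refine if_neg fun h => hne ?_
    rw [← h, ← hv, Units.inv_mul_cancel_left, ZMod.val_cast_of_lt (mem_range.1 hx)]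

/-- The pointwise bound for the main part. -/
lemma exc_point {M : ℕ} (hM : 0 < M) (a : ℕ) {φ : ℕ → ℝ} (hφ : ∀ j, |φ j| ≤ 1)
    (hco : ∀ j, φ j ≠ 0 → j.Coprime M) {c C : ℝ} (hc : 0 < c) (hC : 0 ≤ C) {K : ℕ}
    (H : ∀ f : ZMod M → ℂ, (∀ a, ‖f a‖ ≤ 1) → ∀ A : ℝ, 1 ≤ A → ∀ u : ℝ, |u| ≤ A ^ K →
      ‖∑ r ∈ Icc 1 ⌊A⌋₊, f r * nit r u - (∑ a ∈ range M, f a) / M * L2.Phi u A‖
        ≤ M * C * A ^ (1 - c))
    {X A : ℕ} {B : ℝ} (hB : 1 ≤ B) (hA : 1 ≤ A) (hAB : A * B ≤ X) {u : ℝ} (hu : |u| ≤ B ^ K)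
    (δ : ℝ) :
    ‖DP (Icc 1 X) (res M a fun n => ((Fd φ n - δ : ℝ) : ℂ)) u
      - DP (Icc 1 X) (res M a fun m =>
        ((∑ j ∈ m.divisors with ¬ j ≤ A, φ j + (dl φ A - δ) : ℝ) : ℂ)) u‖
      ≤ 2 * (M * C * X * B ^ (-c)) * (1 + Real.log A) := by
  have hA1 : (1 : ℝ) ≤ A := by exact_mod_cast hA
  have hAX : A ≤ X := by
    have : (A : ℝ) ≤ X := by nlinarith
    exact_mod_cast this
  have hX : (0 : ℝ) < X := by nlinarith
  set E := M * C * X * B ^ (-c) with hE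
  have hE0 : 0 ≤ E := by positivity
  set ι : ℕ → ℂ := fun n => if n ≡ a [MOD M] then 1 else 0 with hι
  have key : ∀ j ∈ Icc 1 A, j.Coprime M →
      ‖∑ r ∈ Icc 1 (X / j), ι (j * r) * nit r u - 1 / M * L2.Phi u (X / j)‖ ≤ E * (1 / j) := by
    intro j hj hjM
    obtain ⟨h1, h2⟩ := mem_Icc.1 hj
    have hj0 : (0 : ℝ) < j := by exact_mod_cast h1
    have hjA : (j : ℝ) ≤ A := by exact_mod_cast h2
    have h3 : B ≤ X / j := by rw [le_div_iff₀ hj0]; nlinarith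
    have h4 := H (fun x => if (j : ZMod M) * x = a then 1 else 0)
      (fun x => by split_ifs <;> simp) (X / j) (hB.trans h3) u
      (hu.trans (pow_le_pow_left₀ (by linarith) h3 K))
    rw [Nat.floor_div_eq_div, exc_one hM hjM] at h4
    simp only [hι, ← ZMod.natCast_eq_natCast_iff, Nat.cast_mul]
    refine h4.trans ?_
    have h5 : ((X : ℝ) / j) ^ (-c) ≤ B ^ (-c) :=
      Real.rpow_le_rpow_of_nonpos (by linarith) h3 (by linarith)
    rw [sub_eq_add_neg, Real.rpow_add (by positivity), Real.rpow_one, hE]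
    calc _ ≤ M * C * (X / j * B ^ (-c)) := by gcongr
      _ = _ := by ring
  have e1 : ∑ m ∈ Icc 1 X, ((∑ j ∈ m.divisors with j ≤ A, φ j : ℝ) : ℂ) * ι m * nit m u
      = ∑ j ∈ Icc 1 A, φ j * nit j u * ∑ r ∈ Icc 1 (X / j), ι (j * r) * nit r u := by
    have h := L2.sum_div_swap X (· ≤ A) fun j m => (φ j : ℂ) * ι m * nit m u
    have h' : {j ∈ Icc 1 X | j ≤ A} = Icc 1 A := by
      ext j; simp only [mem_filter, Finset.mem_Icc]; omega
    rw [h'] at h
    push_cast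
    simp only [sum_mul, mul_sum]
    rw [h]
    refine sum_congr rfl fun j hj => sum_congr rfl fun r hr => ?_
    rw [nit_mul (by have := (mem_Icc.1 hj).1; omega) (by have := (mem_Icc.1 hr).1; omega)]
    ring
  have e2 : ∑ j ∈ Icc 1 A, φ j * nit j u * (1 / M * L2.Phi u (X / j)) =
      dl φ A * (1 / M * L2.Phi u X) := by
    rw [dl]
    push_cast
    rw [sum_mul]
    refine sum_congr rfl fun j hj => ?_
    have h := L2.Phi_div u hX (mem_Icc.1 hj).1
    calc _ = (φ j / M) * (nit j u * L2.Phi u (X / j)) := by ring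
      _ = _ := by rw [h]; ring
  have e3 : DP (Icc 1 X) (res M a fun n => ((Fd φ n - δ : ℝ) : ℂ)) u
      - DP (Icc 1 X) (res M a fun m =>
        ((∑ j ∈ m.divisors with ¬ j ≤ A, φ j + (dl φ A - δ) : ℝ) : ℂ)) u
      = ∑ j ∈ Icc 1 A, φ j * nit j u *
          (∑ r ∈ Icc 1 (X / j), ι (j * r) * nit r u - 1 / M * L2.Phi u (X / j))
        - dl φ A * (∑ r ∈ Icc 1 X, ι r * nit r u - 1 / M * L2.Phi u X) := by
    simp only [mul_sub, sum_sub_distrib]
    rw [e2, ← e1, DP, DP, ← sum_sub_distrib, mul_sum, sub_sub_sub_cancel_right, ← sum_sub_distrib]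
    refine sum_congr rfl fun m _ => ?_
    simp only [res, hι, Fd]
    rw [← sum_filter_add_sum_filter_not m.divisors (· ≤ A) φ]
    split_ifs
    · push_cast
      ring
    · simp
  rw [e3]
  have b1 : ‖∑ j ∈ Icc 1 A, φ j * nit j u *
      (∑ r ∈ Icc 1 (X / j), ι (j * r) * nit r u - 1 / M * L2.Phi u (X / j))‖
      ≤ E * (1 + Real.log A) := by
    refine (norm_sum_le _ _).trans
      ((sum_le_sum (g := fun j : ℕ => E * (1 / j)) fun j hj => ?_).trans ?_)
    · by_cases h0 : φ j = 0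
      · rw [h0, Complex.ofReal_zero, zero_mul, zero_mul, norm_zero]
        positivity
      · rw [norm_mul, norm_mul, norm_nit, mul_one, Complex.norm_real, Real.norm_eq_abs]
        exact le_trans (mul_le_of_le_one_left (norm_nonneg _) (hφ j)) (key j hj (hco j h0))
    · rw [← mul_sum]
      exact mul_le_mul_of_nonneg_left (L2.harm_le A) hE0
  have b2 := key 1 (mem_Icc.2 ⟨le_rfl, hA⟩) (Nat.coprime_one_left M)
  simp only [Nat.div_one, Nat.cast_one, div_one, mul_one, one_mul] at b2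
  have d2 : |dl φ A| ≤ 1 + Real.log A := L2.norm_wsum_le hφ le_rfl
  refine (norm_sub_le _ _).trans ?_
  rw [norm_mul, Complex.norm_real, Real.norm_eq_abs]
  have t1 := mul_le_mul d2 b2 (norm_nonneg _) ((abs_nonneg _).trans d2)
  linarith

open Classical in
lemma exc_range {η θ : ℝ} (hη : 0 < η) (hη' : η ≤ 1 / 10) (hθ : 0 < θ) (hθ' : θ ≤ 1 / 10) :
    ∀ᶠ X : ℕ in atTop, ∀ N : ℕ, (N : ℝ) ≤ (X : ℝ) ^ (1 + θ) →
      ∑ n ∈ Ioc ⌊(X : ℝ) ^ (1 - θ)⌋₊ N with L2.Rough ((X : ℝ) ^ η) n, (1 / (n : ℝ))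
        ≤ 8 * θ / η := by
  have hl : Tendsto (fun X : ℕ => Real.log X) atTop atTop :=
    Real.tendsto_log_atTop.comp tendsto_natCast_atTop_atTop
  filter_upwards [eventually_ge_atTop 2, L2.ev_log 2 one_half_pos, hl.eventually_ge_atTop 1,
    hl.eventually_ge_atTop (2 / θ)] with X h2 he hL hd N hN
  have hX : (1 : ℝ) < X := by exact_mod_cast h2
  have hX0 : (0 : ℝ) < X := by linarith
  set L := Real.log X with hLdef
  set A := ⌊(X : ℝ) ^ (1 - θ)⌋₊ with hA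
  have hA1 : 1 ≤ (X : ℝ) ^ (1 - θ) := Real.one_le_rpow hX.le (by linarith)
  have hA0 : 0 < A := Nat.floor_pos.2 hA1
  have hAr : (1 : ℝ) ≤ A := by exact_mod_cast hA0
  have hA2 : (X : ℝ) ^ (1 - θ) ≤ 2 * A := by
    have := Nat.lt_floor_add_one ((X : ℝ) ^ (1 - θ))
    linarith
  set J := ⌈2 * θ * L / Real.log 2⌉₊ with hJ
  have l2 : 2 / 3 < Real.log 2 := by linarith [Real.log_two_gt_d9]
  have hNJ : N ≤ 2 ^ (J + 1) * A := by
    have a1 : (X : ℝ) ^ (2 * θ) ≤ 2 ^ J := by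
      rw [← Real.rpow_natCast, Real.rpow_def_of_pos hX0, Real.rpow_def_of_pos two_pos]
      refine Real.exp_le_exp.2 ?_
      have := Nat.le_ceil (2 * θ * L / Real.log 2)
      rw [div_le_iff₀ (by linarith)] at this
      linarith
    have : (N : ℝ) ≤ 2 ^ (J + 1) * A := by
      calc (N : ℝ) ≤ X ^ (2 * θ) * X ^ (1 - θ) := by
            rw [← Real.rpow_add hX0]; convert hN using 2; ring
        _ ≤ 2 ^ J * (2 * A) := by gcongr
        _ = _ := by ring
    exact_mod_cast this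
  refine (sum_le_sum_of_subset_of_nonneg (filter_subset_filter _ (Ioc_subset_Ioc_right hNJ))
    fun _ _ _ => by positivity).trans ((L2.sum_inv_rough (Real.one_lt_rpow hX hη) A hA0 _).trans ?_)
  have b1 : ((J + 1 : ℕ) : ℝ) ≤ 4 * θ * L := by
    have c1 : (J : ℝ) < 2 * θ * L / Real.log 2 + 1 := Nat.ceil_lt_add_one (by positivity)
    have c2 : 2 * θ * L / Real.log 2 ≤ 3 * (θ * L) := by
      rw [div_le_iff₀ (by linarith)]
      nlinarith [mul_pos hθ (by linarith : 0 < L)]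
    rw [div_le_iff₀ hθ] at hd
    push_cast
    linarith
  have b2 : ((X : ℝ) ^ η) ^ 4 / A ≤ 1 / (η * L) := by
    rw [div_le_div_iff₀ (by linarith) (by positivity), one_mul, ← Real.rpow_natCast,
      ← Real.rpow_mul hX0.le]
    have c1 : (X : ℝ) ^ (η * (4 : ℕ)) * X ^ (1 / 2 : ℝ) ≤ X ^ (1 - θ) := by
      rw [← Real.rpow_add hX0]
      exact Real.rpow_le_rpow_of_exponent_le hX.le (by push_cast; linarith)
    have c2 : 2 * (η * L) ≤ (X : ℝ) ^ (1 / 2 : ℝ) := by nlinarith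
    have c3 : 0 ≤ (X : ℝ) ^ (η * (4 : ℕ)) := by positivity
    have c4 := (mul_le_mul_of_nonneg_left c2 c3).trans (c1.trans hA2)
    generalize (X : ℝ) ^ (η * (4 : ℕ)) = Z at c4 ⊢
    linarith
  rw [Real.log_rpow hX0, ← hLdef]
  calc _ ≤ (4 * θ * L) * (1 / (η * L) + 1 / (η * L)) := by gcongr
    _ = _ := by field_simp; ring

/-- The large divisors are small in mean square along the progression. -/
lemma exc_tail {w y R ρ τ : ℝ} {φ : ℕ → ℝ} (hφ : ∀ j, |φ j| ≤ 1) (hr : ∀ j, φ j ≠ 0 → Rough w j)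
    {X A M : ℕ} (hM : 0 < M) (a : ℕ) (hMy : (M : ℝ) < y) (hXA : (X : ℝ) < (A + 1) * y)
    (hR : ∀ n ≤ X, (#(n.divisors.filter (Rough w)) : ℝ) ≤ R) (hτ : |τ| ≤ ρ) (hw : 0 ≤ w)
    (hL : 1 ≤ LL y w) (hwX : 4 * w ^ 2 ≤ X / M) (hMX : 1 ≤ (X : ℝ) / M) :
    ∑ m ∈ Icc 1 X with m ≡ a [MOD M], ‖((∑ j ∈ m.divisors with ¬ j ≤ A, φ j + τ : ℝ) : ℂ)‖ ^ 2
      ≤ 4 * (X / M) * (R ^ 2 / LL y w + ρ ^ 2) := by
  set L := LL y w with hLdef
  have hL0 : 0 < L := by linarith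
  have h1 := tk_AP (primesIn y w) hM (fun p hp => ⟨(mem_primesIn.1 hp).1, fun c => by
    have a1 : (p : ℝ) ≤ M := by exact_mod_cast Nat.le_of_dvd hM c
    linarith [(mem_primesIn.1 hp).2.1]⟩) a X
  have hc : ((primesIn y w).card : ℝ) ≤ w := by
    refine le_trans ?_ (Nat.floor_le hw)
    exact_mod_cast (card_filter_le _ _).trans (by simp)
  have hLc : L ≤ (primesIn y w).card := by
    refine (sum_le_card_nsmul _ _ 1 fun p hp => ?_).trans (by simp)
    exact inv_le_one_of_one_le₀ (by exact_mod_cast (mem_primesIn.1 hp).1.one_le)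
  change _ ≤ X / M * L + (_ + L) ^ 2 at h1
  have h2 : X / M * L + ((primesIn y w).card + L) ^ 2 ≤ 2 * (X / M) * L := by
    have : ((primesIn y w).card + L) ^ 2 ≤ (2 * w) ^ 2 := by gcongr; linarith
    nlinarith
  have h3 : ∀ m ∈ (Icc 1 X).filter (· ≡ a [MOD M]),
      ‖((∑ j ∈ m.divisors with ¬ j ≤ A, φ j + τ : ℝ) : ℂ)‖ ^ 2 ≤ 2 * (R / L) ^ 2 *
        ((∑ p ∈ primesIn y w, if p ∣ m then (1 : ℝ) else 0) - L) ^ 2 + 2 * ρ ^ 2 := by
    intro m hm
    obtain ⟨m1, m2⟩ := mem_Icc.1 (mem_filter.1 hm).1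
    have a0 : τ ^ 2 ≤ ρ ^ 2 := sq_le_sq' (abs_le.1 hτ).1 (abs_le.1 hτ).2
    rw [Complex.norm_real, Real.norm_eq_abs, sq_abs]
    by_cases h : ∃ j ∈ m.divisors.filter (¬ · ≤ A), φ j ≠ 0
    · obtain ⟨j, hj, hj0⟩ := h
      obtain ⟨hj1, hj2⟩ := mem_filter.1 hj
      obtain ⟨r, rfl⟩ := Nat.dvd_of_mem_divisors hj1
      have a1 : ∑ p ∈ primesIn y w, (if p ∣ j * r then (1 : ℝ) else 0) = 0 := by
        refine sum_eq_zero fun p hp => if_neg fun c => ?_
        obtain ⟨p1, p2, p3⟩ := mem_primesIn.1 hp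
        rcases (Nat.Prime.dvd_mul p1).1 c with c | c
        · exact (hr j hj0 p p1 c).not_ge p3
        · have hr0 : 0 < r := Nat.pos_of_mul_pos_left m1
          have b1 : (p : ℝ) ≤ r := by exact_mod_cast Nat.le_of_dvd hr0 c
          have b2 : (A : ℝ) + 1 ≤ j := by exact_mod_cast not_le.1 hj2
          have b3 : (j : ℝ) * r ≤ X := by exact_mod_cast m2
          have b4 : ((A : ℝ) + 1) * y ≤ j * r :=
            mul_le_mul b2 (p2.trans b1) ((Nat.cast_nonneg M).trans hMy.le) (Nat.cast_nonneg j)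
          linarith
      have a2 : |∑ i ∈ (j * r).divisors with ¬ i ≤ A, φ i| ≤ R := by
        refine (abs_sum_le_sum_abs _ _).trans ((abs_sum_le_card hφ hr _).trans
          (le_trans ?_ (hR _ m2)))
        exact_mod_cast card_le_card (filter_subset_filter _ (filter_subset _ _))
      have a3 := sq_le_sq' (abs_le.1 a2).1 (abs_le.1 a2).2
      rw [a1, zero_sub, neg_sq, mul_assoc, ← mul_pow, div_mul_cancel₀ _ hL0.ne']
      nlinarith [sq_nonneg (∑ i ∈ (j * r).divisors with ¬ i ≤ A, φ i - τ)]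
    · rw [sum_eq_zero fun j hj => not_not.1 fun c => h ⟨j, hj, c⟩, zero_add]
      nlinarith [sq_nonneg ρ, mul_nonneg (sq_nonneg (R / L))
        (sq_nonneg ((∑ p ∈ primesIn y w, if p ∣ m then (1 : ℝ) else 0) - L))]
  refine (sum_le_sum h3).trans ?_
  rw [sum_add_distrib, ← mul_sum, sum_const, nsmul_eq_mul]
  have h4 := (abs_le.1 (Pool.Agent.Lib.ANT.abs_card_modEq_sub_le 0 X M a hM)).2
  rw [zero_add, ← Icc_succ_left_eq_Ioc] at h4
  have h5 : (#((Icc 1 X).filter (· ≡ a [MOD M])) : ℝ) ≤ 2 * (X / M) := by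
    change (#((Icc 1 X).filter (· ≡ a [MOD M])) : ℝ) - _ ≤ _ at h4
    linarith
  calc _ ≤ 2 * (R / L) ^ 2 * (2 * (X / M) * L) + 2 * (X / M) * (2 * ρ ^ 2) := by
        gcongr
        exact h1.trans h2
    _ = _ := by field_simp; ring

theorem exc_AP {η : ℝ} (hη : 0 < η) (hη' : η ≤ 1 / 10) (A : ℕ) {ε : ℝ} (hε : 0 < ε) :
    ∃ β : ℝ, 0 < β ∧ ∃ θ : ℝ, 0 < θ ∧ ∀ᶠ X : ℕ in atTop, ∀ N : ℕ, (X : ℝ) ^ (1 - θ) ≤ N →
      (N : ℝ) ≤ (X : ℝ) ^ (1 + θ) → ∀ φ : ℕ → ℝ, (∀ j, |φ j| ≤ 1) →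
      (∀ j, φ j ≠ 0 → Rough ((X : ℝ) ^ η) j) → ∀ M a : ℕ, 0 < M → (M : ℝ) ≤ Real.log X ^ A →
      ∀ T : ℝ, 0 < T → T ≤ X / M → ∀ U : Set ℝ, MeasurableSet U →
        (cm T).real U ≤ (X : ℝ) ^ β →
        MS T U (DP (Icc 1 X) (res M a fun n => ((Fd φ n - dl φ N : ℝ) : ℂ)))
          ≤ ε * ((X : ℝ) / M) ^ 2 := by
  classical
  set R : ℝ := 2 ^ ⌈1 / η⌉₊ with hR
  set L₀ := 1 + 384 * R ^ 2 / ε with hL₀
  have hL₀1 : 1 ≤ L₀ := le_add_of_nonneg_right (by positivity)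
  set ρ := min (1 / 10) (ε / 384) with hρ
  have hρ0 : 0 < ρ := by positivity
  have hρ1 : ρ ≤ 1 / 10 := min_le_left _ _
  have hρ2 : ρ ≤ ε / 384 := min_le_right _ _
  set θ := min (ρ * η / 8) (η * Real.exp (-(L₀ + 50))) with hθ
  have hθ0 : 0 < θ := by positivity
  have hθ1 : θ ≤ ρ * η / 8 := min_le_left _ _
  have hθ2 : θ ≤ η * Real.exp (-(L₀ + 50)) := min_le_right _ _
  have hθ3 : 2 * θ ≤ η := by nlinarith
  obtain ⟨c, hc, -, C, hC, H⟩ := L2.char_sum ⌈5 / θ⌉₊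
  refine ⟨θ * c, by positivity, θ, hθ0, ?_⟩
  have hl : Tendsto (fun X : ℕ => Real.log X) atTop atTop :=
    Real.tendsto_log_atTop.comp tendsto_natCast_atTop_atTop
  filter_upwards [eventually_ge_atTop 2, hl.eventually_ge_atTop 1, exc_ev 3 A hθ0,
    exc_ev (128 * C ^ 2 / ε) (4 * A + 2) (mul_pos hθ0 hc),
    exc_range hη hη' hθ0 (by linarith), exc_ev 4 A one_half_pos,
    exc_ev (128 / ε) (2 * A) one_pos] with X h2 hL hb hf hg hw ht N hN1 hN2 φ hφ hr M a hM hMA T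
    hT hTX U hU hUβ
  have hX : (1 : ℝ) < X := by exact_mod_cast h2
  have hX0 : (0 : ℝ) < X := by linarith
  have hM1 : (1 : ℝ) ≤ M := by exact_mod_cast hM
  set L := Real.log X with hLdef
  have hLX : L ≤ X := (Real.log_le_sub_one_of_pos hX0).trans (by linarith)
  set A₀ := ⌊(X : ℝ) ^ (1 - θ)⌋₊ with hA
  have hA0 : 0 < A₀ := Nat.floor_pos.2 (Real.one_le_rpow hX.le (by linarith))
  have hA1 : (A₀ : ℝ) ≤ X ^ (1 - θ) := Nat.floor_le (by positivity)
  have hsp : (X : ℝ) ^ (1 - θ) * X ^ θ = X := by rw [← Real.rpow_add hX0]; simp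
  have hy : 0 < (X : ℝ) ^ θ := by positivity
  have hAB : A₀ * (X : ℝ) ^ θ ≤ X := (mul_le_mul_of_nonneg_right hA1 hy.le).trans hsp.le
  have hAN : A₀ ≤ N := by exact_mod_cast hA1.trans hN1
  have hyw : ((X : ℝ) ^ θ) ^ 2 ≤ X ^ η := by
    rw [← Real.rpow_natCast, ← Real.rpow_mul hX0.le]
    exact Real.rpow_le_rpow_of_exponent_le hX.le (by push_cast; linarith)
  set D := DP (Icc 1 X) (res M a fun n => ((Fd φ n - dl φ N : ℝ) : ℂ)) with hD
  set F := DP (Icc 1 X) (res M a fun m =>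
    ((∑ j ∈ m.divisors with ¬ j ≤ A₀, φ j + (dl φ A₀ - dl φ N) : ℝ) : ℂ)) with hF
  have tD : Trig D := Trig.DP _ _
  have tF : Trig F := Trig.DP _ _
  have hZ : 0 < (X : ℝ) / M := by positivity
  -- the large divisors
  have m1 : MS T Set.univ F ≤ ε / 4 * ((X : ℝ) / M) ^ 2 := by
    refine (mean_value_AP hM Subset.rfl a _ hT).trans ?_
    have a1 : L₀ ≤ LL ((X : ℝ) ^ θ) ((X : ℝ) ^ η) := by
      have b1 := LL_ge (P := (X : ℝ) ^ θ) (Q := (X : ℝ) ^ η) (by linarith) (by nlinarith)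
      rw [Real.log_rpow hX0, Real.log_rpow hX0, ← hLdef, Real.log_mul hη.ne' (by linarith),
        Real.log_mul hθ0.ne' (by linarith)] at b1
      have b2 := Real.log_le_log hθ0 hθ2
      rw [Real.log_mul hη.ne' (Real.exp_pos _).ne', Real.log_exp] at b2
      linarith
    have a2 : |dl φ A₀ - dl φ N| ≤ ρ := by
      have e : Icc 1 N = Icc 1 A₀ ∪ Ioc A₀ N := by
        ext j; simp only [mem_union, Finset.mem_Icc, Finset.mem_Ioc]; omega
      rw [dl, dl, e, sum_union (disjoint_left.2 fun j h1 h2 => by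
        have := (mem_Icc.1 h1).2; have := (mem_Ioc.1 h2).1; omega), sub_add_cancel_left, abs_neg]
      have := L2.abs_sum_le_rough hφ hr (Ioc A₀ N) (fun j => 1 / (j : ℝ)) fun _ => by positivity
      simp only [mul_one_div] at this
      refine this.trans ((hg N hN2).trans ?_)
      rw [div_le_iff₀ hη]
      linarith
    have a3 : 4 * ((X : ℝ) ^ η) ^ 2 ≤ X / M := by
      have b1 : ((X : ℝ) ^ η) ^ 2 ≤ X ^ (1 / 2 : ℝ) := by
        rw [← Real.rpow_natCast, ← Real.rpow_mul hX0.le]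
        exact Real.rpow_le_rpow_of_exponent_le hX.le (by push_cast; linarith)
      have b2 : (X : ℝ) ^ (1 / 2 : ℝ) * X ^ (1 / 2 : ℝ) = X := by
        rw [← Real.rpow_add hX0]; norm_num
      rw [le_div_iff₀ (by linarith)]
      calc _ = ((X : ℝ) ^ η) ^ 2 * (4 * M) := by ring
        _ ≤ X ^ (1 / 2 : ℝ) * X ^ (1 / 2 : ℝ) := by gcongr; linarith
        _ = _ := b2
    have a4 := exc_tail (R := R) (y := (X : ℝ) ^ θ) (A := A₀) hφ hr hM a (by linarith)
      (by conv_lhs => rw [← hsp]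
          exact mul_lt_mul_of_pos_right (Nat.lt_floor_add_one _) hy)
      (fun n hn => by
        rw [hR]
        exact_mod_cast card_rough_divisors (by positivity) ⌈1 / η⌉₊ n (by
          refine (Nat.cast_le.2 hn).trans ?_
          rw [← Real.rpow_natCast, ← Real.rpow_mul hX0.le]
          conv_lhs => rw [← Real.rpow_one X]
          refine Real.rpow_le_rpow_of_exponent_le hX.le ?_
          have := Nat.le_ceil (1 / η)
          rw [div_le_iff₀ hη] at this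
          linarith))
      a2 (by positivity) (by linarith) a3
      (by nlinarith [Real.one_le_rpow hX.le hη.le])
    have a5 : R ^ 2 / LL ((X : ℝ) ^ θ) ((X : ℝ) ^ η) ≤ ε / 384 := by
      rw [div_le_div_iff₀ (by linarith) (by norm_num)]
      have : 384 * R ^ 2 / ε ≤ LL ((X : ℝ) ^ θ) ((X : ℝ) ^ η) := by linarith
      rw [div_le_iff₀ hε] at this
      linarith
    rw [mul_div_assoc]
    calc _ ≤ 4 * (X / M + 2 * (X / M)) * (4 * (X / M) * (ε / 384 + ε / 384)) := by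
          gcongr
          · exact Real.pi_le_four
          · refine a4.trans ?_
            gcongr
            nlinarith
      _ = _ := by ring
  -- the main part
  have m2 : MS T (U ∩ {u | |u| ≤ (X : ℝ) ^ 5}) (fun u => D u - F u) ≤
      ε / 8 * ((X : ℝ) / M) ^ 2 := by
    have hlog : 1 + Real.log A₀ ≤ 2 * L := by
      have : Real.log A₀ ≤ L := by
        refine Real.log_le_log (by exact_mod_cast hA0) ?_
        nlinarith [Nat.cast_nonneg (α := ℝ) A₀]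
      linarith
    have a1 : ∀ u ∈ U ∩ {u | |u| ≤ (X : ℝ) ^ 5},
        ‖D u - F u‖ ≤ 4 * M * C * X * (X : ℝ) ^ (-(θ * c)) * L := by
      intro u hu
      have b1 : |u| ≤ ((X : ℝ) ^ θ) ^ ⌈5 / θ⌉₊ := by
        refine le_trans hu.2 ?_
        rw [← Real.rpow_natCast, ← Real.rpow_natCast, ← Real.rpow_mul hX0.le]
        refine Real.rpow_le_rpow_of_exponent_le hX.le ?_
        have := Nat.le_ceil (5 / θ)
        rw [div_le_iff₀ hθ0] at this
        push_cast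
        linarith
      refine (exc_point hM a hφ (fun j hj => (hr j hj).coprime hM (by nlinarith)) hc hC (H M hM)
        (by linarith) hA0 hAB b1 _).trans ?_
      rw [← Real.rpow_mul hX0.le, mul_neg]
      calc _ ≤ 2 * (M * C * X * (X : ℝ) ^ (-(θ * c))) * (2 * L) := by gcongr
        _ = _ := by ring
    refine (MS_le_const (tD.sub tF) T (hU.inter (measurableSet_le (by fun_prop) (by fun_prop)))
      a1).trans ?_
    have a2 : (cm T).real (U ∩ {u | |u| ≤ (X : ℝ) ^ 5}) ≤ (X : ℝ) ^ (θ * c) :=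
      (measureReal_mono Set.inter_subset_left).trans hUβ
    refine (mul_le_mul_of_nonneg_left a2 (sq_nonneg _)).trans ?_
    rw [Real.rpow_neg hX0.le]
    have a3 : 0 < (X : ℝ) ^ (θ * c) := by positivity
    generalize (X : ℝ) ^ (θ * c) = Y at hf a3 ⊢
    have a4 : 128 * C ^ 2 / ε * ((M : ℝ) ^ 4 * L ^ 2) ≤ Y := by
      refine le_trans ?_ hf
      rw [pow_add, mul_comm 4 A, pow_mul]
      gcongr
    rw [div_mul_eq_mul_div, div_le_iff₀ hε] at a4
    have : (4 * M * C * X * Y⁻¹ * L) ^ 2 * Y =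
        128 * C ^ 2 * ((M : ℝ) ^ 4 * L ^ 2) / (8 * Y) * ((X : ℝ) / M) ^ 2 := by
      field_simp
      ring
    rw [this]
    refine mul_le_mul_of_nonneg_right ?_ (sq_nonneg _)
    rw [div_le_div_iff₀ (by positivity) (by norm_num)]
    nlinarith
  -- the tail
  have m3 : MS T {u | (X : ℝ) ^ 5 < |u|} D ≤ ε / 4 * ((X : ℝ) / M) ^ 2 := by
    have a1 : ∀ u ∈ {u : ℝ | (X : ℝ) ^ 5 < |u|}, ‖D u‖ ≤ 4 * X ^ 2 := by
      intro u _
      refine (norm_DP_le _ _ _).trans ((sum_le_card_nsmul _ _ (4 * X : ℝ)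
        fun m hm => ?_).trans (le_of_eq (by simp; ring)))
      rw [res]
      split_ifs
      swap
      · simp
      rw [Complex.norm_real, Real.norm_eq_abs]
      refine (abs_sub _ _).trans ?_
      have b1 : |Fd φ m| ≤ X := by
        refine (abs_sum_le_sum_abs _ _).trans ((sum_le_card_nsmul _ _ 1 fun j _ => hφ j).trans ?_)
        rw [nsmul_eq_mul, mul_one]
        exact Nat.cast_le.2 ((Nat.card_divisors_le_self m).trans (mem_Icc.1 hm).2)
      have b2 : |dl φ N| ≤ 1 + Real.log N := L2.norm_wsum_le hφ le_rfl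
      have b3 := Real.log_le_log (by exact_mod_cast hA0.trans_le hAN) hN2
      rw [Real.log_rpow hX0, ← hLdef] at b3
      nlinarith
    refine (MS_le_const tD T (measurableSet_lt (by fun_prop) (by fun_prop)) a1).trans ?_
    refine (mul_le_mul_of_nonneg_left (cm_tail T (by positivity)) (sq_nonneg _)).trans ?_
    have a2 : 128 / ε * (M : ℝ) ^ 2 ≤ X := by
      rw [Real.rpow_one, mul_comm 2 A, pow_mul] at ht
      refine le_trans ?_ ht
      gcongr
    have a3 : T ≤ X := hTX.trans (div_le_self hX0.le hM1)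
    rw [div_mul_eq_mul_div, div_le_iff₀ hε] at a2
    calc _ ≤ (4 * (X : ℝ) ^ 2) ^ 2 * (2 * X ^ 2 / X ^ 5) := by gcongr
      _ = 128 * (M : ℝ) ^ 2 * X / (4 * M ^ 2) := by field_simp; ring
      _ ≤ X * ε * X / (4 * M ^ 2) := by gcongr
      _ = _ := by field_simp
  have m4 : MS T U D ≤ MS T (U ∩ {u | |u| ≤ (X : ℝ) ^ 5}) D + MS T {u | (X : ℝ) ^ 5 < |u|} D := by
    refine (MS_mono tD T fun u hu => ?_).trans (MS_union_le tD T _ _)
    rcases le_or_gt |u| ((X : ℝ) ^ 5) with h | h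
    exacts [Or.inl ⟨hu, h⟩, Or.inr h]
  have m5 := MS_add_le (tD.sub tF) tF T (U ∩ {u | |u| ≤ (X : ℝ) ^ 5})
  simp only [sub_add_cancel] at m5
  have m6 := MS_mono tF T (Set.subset_univ (U ∩ {u | |u| ≤ (X : ℝ) ^ 5}))
  change MS T _ D ≤ _ at m5
  linarith

end Pool.Agent.Work.MP_d018b2_nt.U
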