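import Pool.Agent.Work.MP_d018b2_nt.UMain

/-! The forms `q r + 1` on the range `x ≤ q < 2 x`. -/

set_option autoImplicit false
open Filter Topology Finset Real

namespace Pool.Agent.Work.MP_d018b2_nt.U

open Pool.Agent.Work.MP_ca0f09_nt Pool.Agent.Lib.MR Pool.Agent.Work.MP_51e72e_nt.LT

/-- the integers in `[x, 2 x)` -/
noncomputable def II (x : ℝ) : Finset ℕ :=
  (range ⌈2 * x⌉₊).filter fun q : ℕ => x ≤ (q : ℝ) ∧ (q : ℝ) < 2 * x

lemma II_eq (x : ℝ) : II x = Ico ⌈x⌉₊ ⌈2 * x⌉₊ := by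
  ext q
  simp only [II, mem_filter, mem_range, mem_Ico, Nat.lt_ceil, Nat.ceil_le]
  tauto

lemma abs_card_II {x : ℝ} (hx : 0 ≤ x) : |(#(II x) : ℝ) - x| ≤ 1 := by
  rw [II_eq, Nat.card_Ico, Nat.cast_sub (Nat.ceil_mono (by linarith)), abs_le]
  have := Nat.le_ceil x
  have := Nat.le_ceil (2 * x)
  have := Nat.ceil_lt_add_one hx
  have := Nat.ceil_lt_add_one (show 0 ≤ 2 * x by linarith)
  constructor <;> linarith

/-- divisor sum of `q r + 1` -/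
noncomputable def Tn {β : Type} [AddCommMonoid β] (φ : ℕ → β) (x : ℝ) (r q : ℕ) : β :=
  ∑ m ∈ Icc 1 ⌈2 * r * x⌉₊, if m ∣ q * r + 1 then φ m else 0

/-- admissible weights -/
def Adm (η : ℝ) (A : ℕ) (x : ℝ) (φ : ℕ → ℝ) (r : ℕ) : Prop :=
  1 ≤ r ∧ (r : ℝ) ≤ log x ^ A ∧ (∀ j, |φ j| ≤ 1) ∧ ∀ j, φ j ≠ 0 → Rough (x ^ η) j

/-- centred divisor sum -/
noncomputable def Cn (φ : ℕ → ℝ) (x : ℝ) (r q : ℕ) : ℝ := Tn φ x r q - dl φ ⌈2 * r * x⌉₊

theorem keyU {η : ℝ} (hη : 0 < η) : ∃ B : ℝ, 1 ≤ B ∧ ∀ A : ℕ, ∀ ε : ℝ, 0 < ε →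
    ∀ᶠ x : ℝ in atTop,
      (∀ φ r, Adm η A x φ r → |dl φ ⌈2 * r * x⌉₊| ≤ B ∧ (∀ q ∈ II x, |Cn φ x r q| ≤ B ∧
        |Tn φ x r q| ≤ B) ∧ |∑ q ∈ II x, Cn φ x r q| ≤ ε * x) ∧
      ∀ φ r ψ s, Adm η A x φ r → Adm η A x ψ s → r ≠ s →
        |∑ q ∈ II x, Cn φ x r q * Cn ψ x s q| ≤ ε * x := by
  have hη2 := half_pos hη
  have hB := one_le_BB (η / 2)
  refine ⟨BB (η / 2), hB, fun A ε hε => ?_⟩
  set B := BB (η / 2) with hBd
  have Bp : 0 < B := by linarith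
  obtain ⟨N₁, hN₁⟩ := eventually_atTop.1
    (corrU hη2 (2 * A + 1) (show 0 < ε / (5 * B ^ 2) by positivity))
  filter_upwards [eventually_ge_atTop (N₁ : ℝ), eventually_ge_atTop 2,
    tendsto_log_atTop.eventually_ge_atTop 3, tendsto_log_atTop.eventually (ev_pow_exp 3 A one_pos),
    tendsto_log_atTop.eventually (ev_pow_exp 1 A hη2)] with x x1 x2 x3 x4 x5
  have x0 : 0 < x := by linarith
  rw [one_mul, exp_log x0] at x4
  rw [one_mul, mul_comm, ← rpow_def_of_pos x0] at x5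
  have a1 : 1 ≤ log x ^ A := one_le_pow₀ (by linarith)
  set N₀ := ⌈2 * log x ^ A * x⌉₊ with hN₀
  have n1 : 2 * log x ^ A * x ≤ N₀ := Nat.le_ceil _
  have n0 : 1 * x ≤ log x ^ A * x := by gcongr
  have n2 : (N₀ : ℝ) ≤ 3 * log x ^ A * x := by
    linarith [Nat.ceil_lt_add_one (show 0 ≤ 2 * log x ^ A * x by positivity)]
  have n3 : (N₀ : ℝ) ^ (η / 2) ≤ x ^ η := by
    calc _ ≤ (x ^ (2 : ℝ)) ^ (η / 2) := by
          gcongr; rw [rpow_two, sq]; exact n2.trans (by gcongr)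
      _ = _ := by rw [← rpow_mul x0.le]; congr 1; ring
  have n4 : 2 ≤ N₀ := by
    have : (2 : ℝ) ≤ N₀ := by linarith
    exact_mod_cast this
  have n5 : log x ≤ log N₀ := log_le_log x0 (by linarith)
  have n6 : log x ^ A * log x ^ A * 3 ≤ log N₀ ^ (2 * A + 1) := by
    calc _ ≤ log N₀ ^ A * log N₀ ^ A * log N₀ := by gcongr; linarith
      _ = _ := by ring
  have n7 : log x ^ A * 1 ≤ log x ^ A * log x ^ A := by gcongr
  have H := hN₁ N₀ (by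
    have : (N₁ : ℝ) ≤ N₀ := by linarith
    exact_mod_cast this)
  have c1 := Nat.le_ceil x
  have c2 : ⌈x⌉₊ ≤ ⌈2 * x⌉₊ := Nat.ceil_mono (by linarith)
  have c3 : ⌈2 * x⌉₊ ≤ N₀ := Nat.ceil_mono (by linarith)
  have c4 : (N₀ : ℝ) / log N₀ ^ (2 * A + 1) ≤ ⌈x⌉₊ := by
    rw [div_le_iff₀' (by linarith)]
    refine n2.trans ?_
    gcongr
    linarith
  have dif : ∀ f : ℕ → ℝ, (∀ N : ℕ, (N₀ : ℝ) / log N₀ ^ (2 * A + 1) ≤ N → N ≤ N₀ →
      |∑ q ∈ range N, f q| ≤ ε / (5 * B ^ 2) * N) → |∑ q ∈ II x, f q| ≤ ε / B ^ 2 * x := by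
    intro f hf
    rw [II_eq, sum_Ico_eq_sub _ c2]
    refine (abs_sub _ _).trans ((add_le_add (hf _ (c4.trans (by exact_mod_cast c2)) c3)
      (hf _ c4 (c2.trans c3))).trans ?_)
    have := Nat.ceil_lt_add_one x0.le
    have := Nat.ceil_lt_add_one (show 0 ≤ 2 * x by linarith)
    calc _ = ε / (5 * B ^ 2) * (⌈2 * x⌉₊ + ⌈x⌉₊) := by ring
      _ ≤ ε / (5 * B ^ 2) * (5 * x) := by gcongr; linarith
      _ = _ := by field_simp
  have tr : ∀ φ r, Adm η A x φ r → ∃ φ' : ℕ → ℝ, (∀ j, φ' j ≠ 0 → Rough ((N₀ : ℝ) ^ (η / 2)) j) ∧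
      (∀ j, |φ' j| ≤ 1) ∧ dl φ ⌈2 * r * x⌉₊ = dl φ' N₀ ∧ ∀ q ∈ II x, |Tn φ x r q| ≤ B ∧
        Cn φ x r q = B * Gc (η / 2) φ' (dl φ' N₀) (q * r + 1) := by
    rintro φ r ⟨r1, r2, p1, p2⟩
    have m1 : ⌈2 * r * x⌉₊ ≤ N₀ := Nat.ceil_mono (by gcongr)
    set φ' : ℕ → ℝ := fun j => if j ≤ ⌈2 * r * x⌉₊ then φ j else 0 with hφ'
    have q1 : ∀ j, φ' j ≠ 0 → Rough ((N₀ : ℝ) ^ (η / 2)) j := fun j hj =>
      (p2 j fun h => hj (by simp [hφ', h])).mono n3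
    have q2 : ∀ j, |φ' j| ≤ 1 := fun j => by
      simp only [hφ']
      split_ifs
      · exact p1 j
      · simp
    have q3 : dl φ ⌈2 * r * x⌉₊ = dl φ' N₀ := by
      unfold dl
      rw [← sum_subset (Icc_subset_Icc_right m1) fun j h1 h2 => by
        simp only [mem_Icc] at h1 h2
        simp only [hφ']
        rw [if_neg (by omega), zero_div]]
      exact sum_congr rfl fun j hj => by simp only [hφ', if_pos (mem_Icc.1 hj).2]
    refine ⟨φ', q1, q2, q3, fun q hq => ?_⟩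
    have q4 : q * r + 1 ≤ ⌈2 * r * x⌉₊ := Nat.lt_ceil.2 (by
      have r0 : (0 : ℝ) < r := by exact_mod_cast r1
      have := mul_lt_mul_of_pos_right (mem_filter.1 hq).2.2 r0
      push_cast; linarith)
    have q5 : Tn φ x r q = Fd φ' (q * r + 1) := by
      rw [Tn, ← sum_filter, Fd]
      refine sum_congr ?_ fun j hj => by
        simp only [hφ', if_pos ((Nat.divisor_le hj).trans q4)]
      ext j
      simp only [mem_filter, mem_Icc, Nat.mem_divisors]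
      exact ⟨fun h => ⟨h.2, by omega⟩, fun h => ⟨⟨Nat.pos_of_dvd_of_pos h.1 (by omega),
        (Nat.le_of_dvd (by omega) h.1).trans q4⟩, h.1⟩⟩
    have q6 : q * r + 1 ≤ N₀ * N₀ := (q4.trans m1).trans (Nat.le_mul_self _)
    refine ⟨by linarith [abs_Fd_le' hη2 q2 n4 q1 q6, congrArg abs q5], ?_⟩
    rw [Cn, q3, q5, Gc_eq hη2 q2 n4 q1 (abs_dl_le' hη2 q2 n4 q1) q6, ← hBd]
    field_simp
  have two : ∀ φ r ψ s, Adm η A x φ r → Adm η A x ψ s → s < r →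
      |∑ q ∈ II x, Cn φ x r q * Cn ψ x s q| ≤ ε * x := by
    intro φ r ψ s h1 h2 hrs
    obtain ⟨φ', f1, f2, -, f4⟩ := tr φ r h1
    obtain ⟨ψ', g1, g2, -, g4⟩ := tr ψ s h2
    obtain ⟨k, rfl⟩ := Nat.exists_eq_add_of_le hrs.le
    have s1 := h2.1
    have r2 := h1.2.1
    have s2 := h2.2.1
    have k2 : (k : ℝ) ≤ log x ^ A := le_trans (by exact_mod_cast Nat.le_add_left k s) r2
    have iv : ∀ f : ℕ → ℝ, (∀ j, f j ≠ 0 → Rough ((N₀ : ℝ) ^ (η / 2)) j) → ∀ c, ∀ d n : ℕ, 1 ≤ d →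
        (d : ℝ) ≤ log x ^ A → Gc (η / 2) f c (d * n) = Gc (η / 2) f c n :=
      fun f hf c d n d1 d2 => Gc_Inv hf c d d1 (d2.trans (x5.trans (by gcongr; linarith))) n
    have := dif (fun q => Gc (η / 2) φ' (dl φ' N₀) ((s + k) * s * q + s) *
      Gc (η / 2) ψ' (dl ψ' N₀) ((s + k) * s * q + s + k)) fun N a b =>
        H ψ' g1 g2 _ (fun _ => abs_clamp_le _) (Gc_Inv f1 _) k _ s N (by omega) (by linarith)
          (by nlinarith) (by
            rw [Nat.cast_mul]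
            linarith [mul_le_mul r2 s2 (Nat.cast_nonneg _) (by linarith)]) a b
    rw [sum_congr rfl fun q hq => show Cn φ x (s + k) q * Cn ψ x s q = B ^ 2 *
      (Gc (η / 2) φ' (dl φ' N₀) ((s + k) * s * q + s) *
        Gc (η / 2) ψ' (dl ψ' N₀) ((s + k) * s * q + s + k)) by
      rw [(f4 q hq).2, (g4 q hq).2, ← iv φ' f1 _ s _ s1 s2, ← iv ψ' g1 _ (s + k) _ h1.1 r2,
        show s * (q * (s + k) + 1) = (s + k) * s * q + s by ring,
        show (s + k) * (q * s + 1) = (s + k) * s * q + s + k by ring]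
      ring, ← mul_sum, abs_mul, abs_of_pos (by positivity)]
    exact (mul_le_mul_of_nonneg_left this (by positivity)).trans (le_of_eq (by field_simp))
  refine ⟨fun φ r h => ?_, fun φ r ψ s h1 h2 hrs => ?_⟩
  · obtain ⟨φ', f1, f2, f3, f4⟩ := tr φ r h
    refine ⟨by linarith [abs_dl_le' hη2 f2 n4 f1, congrArg abs f3], fun q hq => ⟨?_, (f4 q hq).1⟩,
      ?_⟩
    · rw [(f4 q hq).2, abs_mul, abs_of_pos Bp]
      exact mul_le_of_le_one_right Bp.le (abs_clamp_le _)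
    · have := dif (fun q => 1 * Gc (η / 2) φ' (dl φ' N₀) (r * q + 0 + 1)) fun N a b =>
        H φ' f1 f2 (fun _ => 1) (by simp) (fun _ _ _ _ => rfl) 1 r 0 N le_rfl
          (by push_cast; linarith) h.1 (by linarith [h.2.1]) a b
      rw [sum_congr rfl fun q hq => (f4 q hq).2, ← mul_sum, abs_mul, abs_of_pos Bp]
      simp only [one_mul, add_zero, mul_comm r] at this
      calc _ ≤ B ^ 2 * (ε / B ^ 2 * x) :=
            mul_le_mul (le_self_pow₀ hB two_ne_zero) this (abs_nonneg _) (by positivity)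
        _ = _ := by field_simp
  · rcases lt_or_gt_of_ne hrs with h | h
    · simpa only [mul_comm (Cn ψ x s _)] using two ψ s φ r h2 h1 h
    · exact two φ r ψ s h1 h2 h

end Pool.Agent.Work.MP_d018b2_nt.U
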