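import Pool.Agent.Work.MP_d018b2_nt.UDefs

/-! Averaged cancellation along prime shifts in a progression. -/

set_option autoImplicit false
open Filter Topology Finset MeasureTheory

namespace Pool.Agent.Work.MP_d018b2_nt.U

open Pool.Agent.Lib.MR Pool.Agent.Lib.LargeSieve Pool.Agent.Work.MP_ca0f09_nt
open Pool.Agent.Work.MP_51e72e_nt.LT

/-- The circle method step for an arbitrary set of shifts with small additive energy. -/
lemma Free_abs {ε C β : ℝ} (hε : 0 < ε) (hC0 : 0 < C) (hβ : 0 < β) {H : ℕ} (hH0 : 0 < H)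
    (T : Finset ℕ) (hT : ∀ t ∈ T, t ≤ H) (c : ℕ → ℝ)
    (hE : ((4 * H : ℕ) : ℝ) * energy T c ≤ (C * β ^ 2) ^ 2)
    (g : ℕ → ℝ) (hg : ∀ n, |g n| ≤ 1) (X : ℕ)
    (hX : ∀ a ∈ range (4 * H), ∑ x ∈ range X,
        ‖∑ j ∈ range (2 * H), (g (x + j) : ℂ) * ee ((a : ℝ) / (4 * H : ℕ) * j)‖
          ≤ ε ^ 2 * (ε ^ 2 / 16) ^ 2 / (8 * C ^ 3) * (2 * H : ℕ) * X) :
    ∑ m ∈ Ico H X, |∑ p ∈ T, c p * g (m + p)| ≤ ε * X * β / 2 := by
  classical
  set η : ℝ := ε ^ 2 / 16 with hη
  have hη0 : 0 < η := by positivity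
  have hHr : (0 : ℝ) < H := by exact_mod_cast hH0
  have hTH : ∀ p ∈ T, p * 1 ≤ H := fun p hp => by simpa using hT p hp
  set b : ℝ := β ^ 2 with hb
  have hb0 : 0 < b := by positivity
  set B : ℕ → ℝ := fun a => ‖fB H 1 T c a‖ ^ 2 with hB
  have hB0 : ∀ a, 0 ≤ B a := fun a => sq_nonneg _
  have hB4 : ∑ a ∈ range (4 * H), B a ^ 2 ≤ (C * b) ^ 2 := by
    rw [sum_fB_eq H 1 hH0 one_pos T c hTH]
    exact hE
  have hBle : ∀ a ∈ range (4 * H), B a ≤ C * b := by
    intro a ha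
    refine (pow_le_pow_iff_left₀ (hB0 a) (by positivity) two_ne_zero).1 (le_trans ?_ hB4)
    exact single_le_sum (f := fun a => B a ^ 2) (fun _ _ => sq_nonneg _) ha
  set L := (range (4 * H)).filter fun a => η * b < B a with hL
  have hLcard : (#L : ℝ) ≤ C ^ 2 / η ^ 2 := by
    have h1 : ∀ a ∈ L, (η * b) ^ 2 ≤ B a ^ 2 := fun a ha =>
      pow_le_pow_left₀ (by positivity) (mem_filter.1 ha).2.le 2
    have h2 := (card_nsmul_le_sum _ _ _ h1).trans
      ((sum_le_sum_of_subset_of_nonneg (filter_subset _ _) fun _ _ _ => sq_nonneg _).trans hB4)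
    rw [nsmul_eq_mul, mul_pow, mul_pow, ← mul_assoc] at h2
    rw [le_div_iff₀ (by positivity)]
    exact le_of_mul_le_mul_right h2 (by positivity)
  set G : ℕ → ℝ := fun m => ∑ p ∈ T, c p * g (m + p) with hG
  set A : ℕ → ℕ → ℂ := fun x a => fA H (fun m => g (x + m)) a with hA
  have hAX : ∀ a ∈ range (4 * H), ∑ x ∈ range X, ‖A x a‖
      ≤ ε ^ 2 * η ^ 2 / (8 * C ^ 3) * (2 * H) * X := by
    intro a ha
    refine le_trans (le_of_eq ?_) ((hX a ha).trans (le_of_eq (by push_cast; ring)))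
    refine sum_congr rfl fun x _ => ?_
    simp only [hA, fA]
    congr 1
    refine sum_congr rfl fun m _ => ?_
    congr 2
    push_cast; ring
  have hblock : ∀ x, ∑ t ∈ range H, G (x + t) ^ 2
      ≤ η * b * (2 * H) + C * b / 2 * ∑ a ∈ L, ‖A x a‖ := by
    intro x
    have h1 := block_parseval H 1 hH0 (fun m => g (x + m)) T c hTH
    have h2 := sum_fA_le H hH0 (fun m => g (x + m)) fun m => hg _
    have h3 : ∑ a ∈ range (4 * H), ‖A x a‖ ^ 2 * B a
        ≤ η * b * ∑ a ∈ range (4 * H), ‖A x a‖ ^ 2 + (2 * H) * (C * b) * ∑ a ∈ L, ‖A x a‖ := by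
      rw [hL, sum_filter, mul_sum, mul_sum, ← sum_add_distrib]
      refine sum_le_sum fun a ha => ?_
      have hn := norm_nonneg (A x a)
      split_ifs with hab
      · have a1 : ‖A x a‖ ≤ 2 * H := norm_fA_le H _ (fun m => hg _) a
        have a2 := hBle a ha
        have : ‖A x a‖ ^ 2 * B a ≤ (2 * H) * (C * b) * ‖A x a‖ := by
          calc ‖A x a‖ ^ 2 * B a = ‖A x a‖ * B a * ‖A x a‖ := by ring
            _ ≤ _ := by gcongr
        have : 0 ≤ η * b * ‖A x a‖ ^ 2 := by positivity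
        linarith
      · rw [mul_zero, add_zero, mul_comm]
        gcongr
        exact not_lt.1 hab
    have e : ∑ t ∈ range H, G (x + t) ^ 2
        = ∑ t ∈ range H, (∑ p ∈ T, c p * g (x + (t + p * 1))) ^ 2 := by
      simp only [hG, add_assoc, mul_one]
    rw [e]
    refine h1.trans ?_
    rw [div_le_iff₀ (by positivity)]
    refine h3.trans ?_
    have : η * b * ∑ a ∈ range (4 * H), ‖A x a‖ ^ 2 ≤ η * b * ((4 * H : ℕ) * (2 * H)) := by
      gcongr
    refine (add_le_add this le_rfl).trans (le_of_eq ?_)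
    push_cast; ring
  have hsq : ∑ m ∈ Ico H X, G m ^ 2 ≤ ε ^ 2 / 4 * b * X := by
    have h1 := sum_window_ge H X (fun m => G m ^ 2) fun m => sq_nonneg _
    have h2 : ∑ x ∈ range X, ∑ t ∈ range H, G (x + t) ^ 2 ≤ H * (ε ^ 2 / 4 * b * X) := by
      refine (sum_le_sum fun x _ => hblock x).trans ?_
      rw [sum_add_distrib, sum_const, card_range, nsmul_eq_mul, ← mul_sum, sum_comm]
      have h3 : ∑ a ∈ L, ∑ x ∈ range X, ‖A x a‖
          ≤ C ^ 2 / η ^ 2 * (ε ^ 2 * η ^ 2 / (8 * C ^ 3) * (2 * H) * X) := by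
        refine (sum_le_card_nsmul _ _ _ fun a ha => hAX a (mem_filter.1 ha).1).trans ?_
        rw [nsmul_eq_mul]
        gcongr
      refine (add_le_add le_rfl (mul_le_mul_of_nonneg_left h3 (by positivity))).trans
        (le_of_eq ?_)
      rw [hη]; field_simp; ring
    exact le_of_mul_le_mul_left (h1.trans h2) hHr
  refine (pow_le_pow_iff_left₀ (sum_nonneg fun _ _ => abs_nonneg _) (by positivity)
    two_ne_zero).1 ?_
  calc (∑ m ∈ Ico H X, |G m|) ^ 2 ≤ #(Ico H X) * ∑ m ∈ Ico H X, |G m| ^ 2 :=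
        sq_sum_le_card_mul_sum_sq
    _ ≤ X * (ε ^ 2 / 4 * b * X) := by
        simp only [sq_abs]
        gcongr
        rw [Nat.card_Ico]
        exact_mod_cast Nat.sub_le X H
    _ = _ := by rw [hb]; ring

/-- The energy is bounded through the numbers of pairs with a given difference. -/
lemma Free_energy_abs (S : Finset ℕ) (Y : ℕ) (hS : S ⊆ Ioc 0 Y) (ω : ℕ → ℝ)
    (hω : ∀ p, |ω p| ≤ 1) (R : ℕ → ℝ)
    (hR : ∀ k ∈ Ioc 0 Y, ((S.filter fun t => t + k ∈ S).card : ℝ) ≤ R k) :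
    energy S ω ≤ (Y : ℝ) ^ 2 + 2 * ∑ k ∈ Ioc 0 Y, R k ^ 2 := by
  classical
  have hS' : ∀ p ∈ S, 0 < p ∧ p ≤ Y := fun p hp => mem_Ioc.1 (hS hp)
  set r : ℤ → ℝ := fun j => ((S ×ˢ S).filter fun x => (x.2 : ℤ) - x.1 = j).card with hr
  have h1 : energy S ω ≤ ∑ j ∈ Icc (-(Y : ℤ)) Y, r j ^ 2 := by
    have e : ∑ j ∈ Icc (-(Y : ℤ)) Y, r j ^ 2 = ∑ x ∈ S ×ˢ S, r ((x.2 : ℤ) - x.1) := by
      rw [← sum_fiberwise_of_maps_to (s := S ×ˢ S) (t := Icc (-(Y : ℤ)) Y)
        (g := fun x => (x.2 : ℤ) - x.1)]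
      · refine sum_congr rfl fun j _ => ?_
        rw [sum_congr rfl (g := fun _ => r j) fun x hx => by rw [(mem_filter.1 hx).2]]
        simp [hr, sq]
      · intro x hx
        have a := (hS' _ (mem_product.1 hx).1).2
        have b := (hS' _ (mem_product.1 hx).2).2
        simp only [mem_Icc]; omega
    rw [e, energy]
    refine sum_le_sum fun x hx => ?_
    simp only [hr]
    rw [card_filter]
    push_cast
    refine sum_le_sum fun y hy => ?_
    have a2 := hω x.1
    have b2 := hω x.2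
    have c2 := hω y.1
    have d2 := hω y.2
    by_cases h : (x.2 : ℤ) - x.1 = (y.2 : ℤ) - y.1
    · rw [if_pos h, if_pos h.symm]
      refine (le_abs_self _).trans ?_
      rw [abs_mul, abs_mul, abs_mul]
      calc _ ≤ ((1 : ℝ) * 1) * (1 * 1) := by gcongr
        _ = _ := by ring
    · rw [if_neg h, if_neg (Ne.symm h)]
  refine h1.trans ?_
  have hpos : ∀ j ∈ Ioc 0 Y, r j ≤ R j := by
    intro j hj
    refine le_trans ?_ (hR j hj)
    simp only [hr, Nat.cast_le]
    refine card_le_card_of_injOn (fun x => x.1) ?_ ?_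
    · intro x hx
      simp only [coe_filter, mem_product, Set.mem_ofPred_eq] at hx ⊢
      have : x.1 + j = x.2 := by omega
      exact ⟨hx.1.1, this ▸ hx.1.2⟩
    · intro x hx y hy h
      simp only [coe_filter, mem_product, Set.mem_ofPred_eq] at hx hy h
      exact Prod.ext h (by omega)
  have hneg : ∀ j : ℤ, r (-j) = r j := by
    intro j
    simp only [hr, Nat.cast_inj]
    refine card_bij (fun x _ => x.swap) ?_ ?_ ?_
    · intro x hx
      simp only [mem_filter, mem_product, Prod.fst_swap, Prod.snd_swap] at hx ⊢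
      exact ⟨⟨hx.1.2, hx.1.1⟩, by omega⟩
    · intro x _ y _ h
      exact Prod.swap_injective h
    · intro y hy
      refine ⟨y.swap, ?_, by simp⟩
      simp only [mem_filter, mem_product, Prod.fst_swap, Prod.snd_swap] at hy ⊢
      exact ⟨⟨hy.1.2, hy.1.1⟩, by omega⟩
  have hzero : r 0 ≤ Y := by
    simp only [hr, Nat.cast_le]
    refine le_trans (card_le_card_of_injOn (t := Ioc 0 Y) (fun x => x.1) ?_ ?_) (by simp)
    · intro x hx
      simp only [coe_filter, mem_product, Set.mem_ofPred_eq, coe_Ioc, Set.mem_Ioc] at hx ⊢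
      exact hS' _ hx.1.1
    · intro x hx y hy h
      simp only [coe_filter, mem_product, Set.mem_ofPred_eq] at hx hy h
      exact Prod.ext h (by omega)
  have hr0 : ∀ j, 0 ≤ r j := fun j => by simp only [hr]; positivity
  have hsub : Icc (-(Y : ℤ)) Y ⊆ insert 0 (((Ioc 0 Y).image fun j : ℕ => (j : ℤ)) ∪
      ((Ioc 0 Y).image fun j : ℕ => -(j : ℤ))) := by
    intro j hj
    simp only [mem_Icc, mem_insert, mem_union, mem_image, mem_Ioc] at hj ⊢
    rcases lt_trichotomy j 0 with h | h | h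
    · exact Or.inr (Or.inr ⟨j.natAbs, by omega, by omega⟩)
    · exact Or.inl h
    · exact Or.inr (Or.inl ⟨j.natAbs, by omega, by omega⟩)
  have hA : ∑ j ∈ Ioc 0 Y, r j ^ 2 ≤ ∑ j ∈ Ioc 0 Y, R j ^ 2 :=
    sum_le_sum fun j hj => pow_le_pow_left₀ (hr0 _) (hpos j hj) 2
  have hB : r 0 ^ 2 ≤ (Y : ℝ) ^ 2 := pow_le_pow_left₀ (hr0 _) hzero 2
  calc ∑ j ∈ Icc (-(Y : ℤ)) Y, r j ^ 2
      ≤ _ := sum_le_sum_of_subset_of_nonneg hsub fun _ _ _ => sq_nonneg _
    _ ≤ r 0 ^ 2 + (∑ j ∈ Ioc 0 Y, r j ^ 2 + ∑ j ∈ Ioc 0 Y, r j ^ 2) := by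
        rw [sum_insert (by simp)]
        refine add_le_add le_rfl ?_
        refine (le_add_of_nonneg_right (sum_nonneg (s := ((Ioc 0 Y).image fun j : ℕ => (j : ℤ)) ∩
          ((Ioc 0 Y).image fun j : ℕ => -(j : ℤ))) fun j _ => sq_nonneg (r j))).trans (le_of_eq ?_)
        rw [sum_union_inter, sum_image (fun _ _ _ _ h => by exact_mod_cast h),
          sum_image (fun _ _ _ _ h => by simpa using h)]
        simp only [hneg]
    _ ≤ _ := by linarith

lemma Free_root (W l a : ℕ) : ∃ ρ : ℕ, l.Prime → ¬ l ∣ W →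
    ρ < l ∧ ∀ t : ℕ, l ∣ a + W * t ↔ t % l = ρ := by
  by_cases hl : l.Prime
  swap
  · exact ⟨0, fun h => absurd h hl⟩
  haveI := Fact.mk hl
  refine ⟨(-(a : ZMod l) * (W : ZMod l)⁻¹).val, fun _ hW => ⟨ZMod.val_lt _, fun t => ?_⟩⟩
  have hW' : (W : ZMod l) ≠ 0 := fun h => hW ((ZMod.natCast_eq_zero_iff W l).1 h)
  rw [← ZMod.natCast_eq_zero_iff, ← ZMod.val_natCast, (ZMod.val_injective l).eq_iff]
  push_cast
  rw [eq_mul_inv_iff_mul_eq₀ hW']
  constructor
  · intro h; linear_combination h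
  · intro h; linear_combination h

/-- Upper bound for prime pairs in a progression. -/
lemma Free_pairs (W r k H : ℕ) (hW : 0 < W) (hk : 0 < k) {w : ℝ} (hw : 1 < w)
    (hH : w ^ 10 ≤ H) (S : Finset ℕ) (hS : S ⊆ Ioc 0 H)
    (hp : ∀ t ∈ S, (r + W * t).Prime ∧ w < (r + W * t : ℕ)) :
    ((S.filter fun t => t + k ∈ S).card : ℝ) ≤
      3 * H * ((W : ℝ) / W.totient) ^ 2 / Real.log w ^ 2 * ((k : ℝ) / k.totient) := by
  classical
  have hlw : 0 < Real.log w := Real.log_pos hw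
  choose ρ hρ using Free_root W
  let Ω : ℕ → Finset ℕ := fun l =>
    if l ∣ W then ∅ else if l ∣ 2 * k then {ρ l r} else {ρ l r, ρ l (r + W * k)}
  let q : Bool → ℕ := fun b => if b then W else 2 * k * W
  have hcard : ∀ l : ℕ, l.Prime → ¬ l ∣ W → ¬ l ∣ 2 * k → (Ω l).card = 2 ∧ 2 < l := by
    intro l hl h1 h2
    constructor
    · simp only [Ω, if_neg h1, if_neg h2]
      refine Finset.card_pair fun he => ?_
      have a1 := ((hρ l r hl h1).2 (ρ l r)).2 (Nat.mod_eq_of_lt (hρ l r hl h1).1)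
      have a2 := ((hρ l (r + W * k) hl h1).2 (ρ l r)).2
        ((Nat.mod_eq_of_lt (hρ l r hl h1).1).trans he)
      have a3 : l ∣ W * k := by
        have e : r + W * k + W * ρ l r = (r + W * ρ l r) + W * k := by ring
        rw [e] at a2
        exact (Nat.dvd_add_right a1).1 a2
      rcases (Nat.Prime.dvd_mul hl).1 a3 with h | h
      · exact h1 h
      · exact h2 (Dvd.dvd.mul_left h 2)
    · rcases hl.two_le.lt_or_eq with h3 | h3
      · exact h3
      · exact absurd (h3 ▸ Dvd.intro k rfl) h2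
  have hs := Pool.Agent.Lib.ANT.sieve_dim (Finset.univ : Finset Bool) q
    (fun b _ => by cases b <;> simp [q, hk, hW]) w hw Ω
    (fun l hl _ => by
      intro x hx
      simp only [Ω] at hx
      split_ifs at hx with h1 h2
      · simp at hx
      · rw [mem_singleton.1 hx]; exact mem_range.2 (hρ l r hl h1).1
      · rcases mem_insert.1 hx with h | h
        · rw [h]; exact mem_range.2 (hρ l r hl h1).1
        · rw [mem_singleton.1 h]; exact mem_range.2 (hρ l _ hl h1).1)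
    (fun l hl _ => by
      by_cases h1 : l ∣ W
      · simp only [Ω, if_pos h1]; simpa using hl.pos
      by_cases h2 : l ∣ 2 * k
      · simp only [Ω, if_neg h1, if_pos h2]; simpa using hl.one_lt
      · have := hcard l hl h1 h2
        omega)
    (fun l hl _ => by
      by_cases h1 : l ∣ W
      · simp only [Ω, if_pos h1, card_empty, Nat.le_zero, card_eq_zero, filter_eq_empty_iff]
        intro b _
        cases b
        · simpa [q] using Dvd.dvd.mul_left h1 _
        · simpa [q] using h1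
      by_cases h2 : l ∣ 2 * k
      · simp only [Ω, if_neg h1, if_pos h2, Finset.card_singleton]
        refine Finset.card_le_one.mpr ?_
        have h3 : l ∣ 2 * k * W := Dvd.dvd.mul_right h2 _
        intro a ha b hb
        cases a <;> cases b <;> simp_all [q]
      · rw [(hcard l hl h1 h2).1]
        exact (Finset.card_filter_le _ _).trans (by simp)) 0 H
  have hsub : (S.filter fun t => t + k ∈ S) ⊆
      (Ioc 0 (0 + H)).filter (fun n => ∀ p ∈ (range (⌊w⌋₊ + 1)).filter Nat.Prime,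
        n % p ∉ Ω p) := by
    intro t ht
    obtain ⟨h1, h2⟩ := mem_filter.1 ht
    refine mem_filter.2 ⟨by simpa using hS h1, fun l hl hmem => ?_⟩
    obtain ⟨hl1, hl2⟩ := mem_filter.1 hl
    have hlw' : (l : ℝ) ≤ w :=
      (Nat.cast_le.mpr (Nat.lt_succ_iff.mp (mem_range.1 hl1))).trans (Nat.floor_le (by linarith))
    have key : ∀ s ∈ S, ¬ l ∣ r + W * s := fun s hs hd => by
      have e := (Nat.prime_dvd_prime_iff_eq hl2 (hp s hs).1).1 hd
      have := (hp s hs).2
      rw [← e] at this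
      linarith
    simp only [Ω] at hmem
    split_ifs at hmem with a1 a2
    · simp at hmem
    · exact key t h1 (((hρ l r hl2 a1).2 t).2 (mem_singleton.1 hmem))
    · rcases mem_insert.1 hmem with h | h
      · exact key t h1 (((hρ l r hl2 a1).2 t).2 h)
      · have := ((hρ l _ hl2 a1).2 t).2 (mem_singleton.1 h)
        refine key _ h2 ?_
        have e : r + W * (t + k) = r + W * k + W * t := by ring
        rwa [e]
  refine (Nat.cast_le.mpr (card_le_card hsub)).trans (hs.trans ?_)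
  have hk' : (0 : ℝ) < k := by exact_mod_cast hk
  have hW' : (0 : ℝ) < W := by exact_mod_cast hW
  have hφ : (0 : ℝ) < k.totient := by exact_mod_cast Nat.totient_pos.mpr hk
  have hφW : (0 : ℝ) < W.totient := by exact_mod_cast Nat.totient_pos.mpr hW
  have hφ1 : (k.totient : ℝ) ≤ k := by exact_mod_cast Nat.totient_le k
  have hφW1 : (W.totient : ℝ) ≤ W := by exact_mod_cast Nat.totient_le W
  have hφ2 : (k.totient : ℝ) * W.totient ≤ (2 * k * W).totient := by
    have a := Nat.totient_super_multiplicative k W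
    have b := Pool.Agent.Lib.ANT.totient_le_totient_mul 2 (k * W) two_pos
    rw [← mul_assoc] at b
    exact_mod_cast a.trans b
  have hprod : ∏ b : Bool, (((q b).totient : ℝ) / q b * Real.log w) =
      ((W.totient : ℝ) / W * Real.log w) *
        (((2 * k * W).totient : ℝ) / (2 * k * W) * Real.log w) := by
    simp [q]
  rw [hprod]
  simp only [Finset.card_univ, Fintype.card_bool]
  set s : ℝ := ((W : ℝ) / W.totient) ^ 2 * ((k : ℝ) / k.totient) with hs'
  have hs1 : 1 ≤ s := by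
    have a : 1 ≤ (W : ℝ) / W.totient := (one_le_div hφW).mpr hφW1
    have b : 1 ≤ (k : ℝ) / k.totient := (one_le_div hφ).mpr hφ1
    exact one_le_mul_of_one_le_of_one_le (one_le_pow₀ a) b
  have hH0 : (0 : ℝ) ≤ H := Nat.cast_nonneg _
  have e1 : (H : ℝ) / (((W.totient : ℝ) / W * Real.log w) *
      (((2 * k * W).totient : ℝ) / (2 * k * W) * Real.log w)) ≤ 2 * s * H / Real.log w ^ 2 := by
    have : Real.log w ^ 2 / (2 * s) ≤ ((W.totient : ℝ) / W * Real.log w) *
        (((2 * k * W).totient : ℝ) / (2 * k * W) * Real.log w) := by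
      have : Real.log w ^ 2 / (2 * s) = ((W.totient : ℝ) / W * Real.log w) *
          (((k.totient : ℝ) * W.totient) / (2 * k * W) * Real.log w) := by
        rw [hs']; field_simp
      rw [this]
      gcongr
    calc _ ≤ (H : ℝ) / (Real.log w ^ 2 / (2 * s)) :=
          div_le_div_of_nonneg_left hH0 (by positivity) this
      _ = _ := by field_simp
  have e2 : (w ^ 2) ^ 4 ≤ s * H / Real.log w ^ 2 := by
    have a1 : Real.log w ≤ w := (Real.log_le_sub_one_of_pos (by linarith)).trans (by linarith)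
    rw [le_div_iff₀ (by positivity)]
    calc (w ^ 2) ^ 4 * Real.log w ^ 2 ≤ (w ^ 2) ^ 4 * w ^ 2 := by gcongr
      _ = 1 * w ^ 10 := by ring
      _ ≤ s * H := by gcongr
  have e3 : 3 * H * ((W : ℝ) / W.totient) ^ 2 / Real.log w ^ 2 * ((k : ℝ) / k.totient) =
      2 * s * H / Real.log w ^ 2 + s * H / Real.log w ^ 2 := by
    rw [hs']; ring
  rw [e3]
  linarith

/-- The additive energy of the primes of a progression. -/
lemma Free_energy (W r H : ℕ) (hW : 0 < W) {Q : ℝ} (hQ : 2 ≤ Q) (hH1 : Q ≤ (H : ℝ) ^ 2)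
    (hH2 : (H : ℝ) * W ≤ 2 * Q) (S : Finset ℕ) (hS : S ⊆ Ioc 0 H)
    (hp : ∀ t ∈ S, (r + W * t).Prime ∧ Q ≤ (r + W * t : ℕ)) (ω : ℕ → ℝ) (hω : ∀ p, |ω p| ≤ 1) :
    ((4 * H : ℕ) : ℝ) * energy S ω ≤ (160000 * (Q / (W.totient * Real.log Q)) ^ 2) ^ 2 := by
  have hQ0 : 0 < Q := by linarith
  set w : ℝ := Q ^ ((1 : ℝ) / 32) with hw
  have hw1 : 1 < w := Real.one_lt_rpow (by linarith) (by norm_num)
  have hw32 : w ^ 32 = Q := by
    rw [hw, ← Real.rpow_natCast, ← Real.rpow_mul hQ0.le]; norm_num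
  have hlog : Real.log Q = 32 * Real.log w := by
    rw [← hw32, Real.log_pow]; norm_num
  have hlw : 0 < Real.log w := Real.log_pos hw1
  have hH0 : (0 : ℝ) ≤ H := Nat.cast_nonneg _
  have h16 : w ^ 16 ≤ H := by
    refine (pow_le_pow_iff_left₀ (by positivity) hH0 two_ne_zero).1 ?_
    rw [← pow_mul]; exact hw32.le.trans hH1
  have hwQ : w < Q := by
    rw [← hw32]
    calc w = w ^ 1 := (pow_one w).symm
      _ < w ^ 32 := pow_lt_pow_right₀ hw1 (by norm_num)
  have hW' : (0 : ℝ) < W := by exact_mod_cast hW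
  have hφW : (0 : ℝ) < W.totient := by exact_mod_cast Nat.totient_pos.mpr hW
  have hφW1 : (W.totient : ℝ) ≤ W := by exact_mod_cast Nat.totient_le W
  set s : ℝ := (W : ℝ) / W.totient with hs
  have hs1 : 1 ≤ s := (one_le_div hφW).mpr hφW1
  have h1 := Free_energy_abs S H hS ω hω
    (fun k => 3 * H * s ^ 2 / Real.log w ^ 2 * ((k : ℝ) / k.totient)) fun k hk =>
      Free_pairs W r k H hW (mem_Ioc.1 hk).1 hw1
        ((pow_le_pow_right₀ hw1.le (by norm_num)).trans h16) S hS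
        fun t ht => ⟨(hp t ht).1, hwQ.trans_le (hp t ht).2⟩
  have h2 : ∑ k ∈ Ioc 0 H, (3 * H * s ^ 2 / Real.log w ^ 2 * ((k : ℝ) / k.totient)) ^ 2 ≤
      189 * H ^ 3 * s ^ 4 / Real.log w ^ 4 := by
    simp only [mul_pow]
    rw [← mul_sum]
    calc _ ≤ (3 * H * s ^ 2 / Real.log w ^ 2) ^ 2 * (21 * H) := by
          gcongr; exact sum_sq_div_totient_le H
      _ = _ := by field_simp; ring
  have h3 : (H : ℝ) ^ 2 ≤ H ^ 3 * s ^ 4 / Real.log w ^ 4 := by
    have a1 : Real.log w ≤ w := (Real.log_le_sub_one_of_pos (by linarith)).trans (by linarith)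
    have a2 : w ^ 4 ≤ H := (pow_le_pow_right₀ hw1.le (by norm_num)).trans h16
    have a3 : 1 ≤ s ^ 4 := one_le_pow₀ hs1
    rw [le_div_iff₀ (by positivity)]
    calc (H : ℝ) ^ 2 * Real.log w ^ 4 ≤ (H : ℝ) ^ 2 * w ^ 4 := by gcongr
      _ ≤ (H : ℝ) ^ 2 * (H : ℝ) := by gcongr
      _ = (H : ℝ) ^ 3 * 1 := by ring
      _ ≤ _ := by gcongr
  have h4 : energy S ω ≤ 379 * H ^ 3 * s ^ 4 / Real.log w ^ 4 := by
    have : (379 : ℝ) * H ^ 3 * s ^ 4 / Real.log w ^ 4 = H ^ 3 * s ^ 4 / Real.log w ^ 4 +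
      2 * (189 * H ^ 3 * s ^ 4 / Real.log w ^ 4) := by ring
    rw [this]; linarith
  calc ((4 * H : ℕ) : ℝ) * energy S ω
      ≤ ((4 * H : ℕ) : ℝ) * (379 * H ^ 3 * s ^ 4 / Real.log w ^ 4) := by gcongr
    _ = 1516 * (H * W) ^ 4 / (W.totient * Real.log w) ^ 4 := by
        rw [hs]; push_cast; field_simp; ring
    _ ≤ 1516 * (2 * Q) ^ 4 / (W.totient * Real.log w) ^ 4 := by gcongr
    _ = 1516 * 16 * 32 ^ 4 * (Q / (W.totient * Real.log Q)) ^ 4 := by
        rw [hlog]; field_simp; ring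
    _ ≤ 160000 ^ 2 * (Q / (W.totient * Real.log Q)) ^ 4 := by gcongr; norm_num
    _ = _ := by ring

lemma Free_sum_mul (f : ℕ → ℝ) (a h : ℕ) :
    ∑ y ∈ range (h * a), f y = ∑ j ∈ range h, ∑ i ∈ range a, f (h * i + j) := by
  rw [sum_comm]
  induction a with
  | zero => simp
  | succ a ih => rw [Nat.mul_succ, sum_range_add, ih, sum_range_succ]

theorem free_AP {ε : ℝ} (hε : 0 < ε) : ∃ δ : ℝ, 0 < δ ∧ ∃ Q₁ : ℝ,
    ∀ (g : ℕ → ℝ) (W h : ℕ) (Q X₀ X₁ : ℝ), (∀ n, |g n| ≤ 1) → 1 ≤ W → 1 ≤ h → Q₁ ≤ Q →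
    (W : ℝ) ^ 2 ≤ Q → UnifAP (fun n => ((g n : ℝ) : ℂ)) δ (W * h) (Q / W) (8 * Q) X₀ X₁ →
    ∀ (T : Finset ℕ) (p₀ : ℕ),
      (∀ p ∈ T, p.Prime ∧ Q ≤ p ∧ (p : ℝ) ≤ 2 * Q ∧ p ≡ p₀ [MOD W]) →
    ∀ c : ℕ → ℝ, (∀ p, |c p| ≤ 1) → ∀ v X : ℕ, v < W → h * X₀ ≤ X → h * Q ^ 3 ≤ X →
      (X : ℝ) + 4 ≤ X₁ →
      ∑ y ∈ range X, |∑ p ∈ T, c p * g (v + W * y + h * p)|
        ≤ ε * X * Q / (W.totient * Real.log Q) := by
  classical
  refine ⟨(ε / 2) ^ 2 * ((ε / 2) ^ 2 / 16) ^ 2 / (8 * 160000 ^ 3), by positivity,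
    max 2 (8 / ε), ?_⟩
  intro g W h Q X₀ X₁ hg hW hh hQ hWQ hU T p₀ hT c hc v X hv hX0 hX3 hX1
  have hQ2 : 2 ≤ Q := le_of_max_le_left hQ
  have hQε : 8 / ε ≤ Q := le_of_max_le_right hQ
  have hQ0 : 0 < Q := by linarith
  have hlQ : 0 < Real.log Q := Real.log_pos (by linarith)
  have hWr : (1 : ℝ) ≤ W := by exact_mod_cast hW
  have hhr : (1 : ℝ) ≤ h := by exact_mod_cast hh
  have hφW : (0 : ℝ) < W.totient := by exact_mod_cast Nat.totient_pos.mpr hW
  have hφW1 : (W.totient : ℝ) ≤ W := by exact_mod_cast Nat.totient_le W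
  set β : ℝ := Q / (W.totient * Real.log Q) with hβ
  have hβ0 : 0 < β := by positivity
  set H := ⌊2 * Q / W⌋₊ with hH
  have hW0 : (0 : ℝ) < W := zero_lt_one.trans_le hWr
  have hQW : (W : ℝ) ≤ Q / W := by rw [le_div_iff₀ hW0, ← sq]; exact hWQ
  have hWW : (W : ℝ) ≤ W ^ 2 := le_self_pow₀ hWr two_ne_zero
  have hQ3 : 2 ≤ Q ^ 3 := hQ2.trans (le_self_pow₀ (one_le_two.trans hQ2) three_ne_zero)
  have hHle : (H : ℝ) ≤ 2 * Q / W := Nat.floor_le (by positivity)
  have hHge : Q / W ≤ H := by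
    have := Nat.lt_floor_add_one (2 * Q / W)
    have e : 2 * Q / W = 2 * (Q / W) := by ring
    rw [← hH, e] at this
    linarith
  have hHW : (H : ℝ) * W ≤ 2 * Q := (le_div_iff₀ (by linarith)).1 hHle
  have hHQ : (H : ℝ) ≤ 2 * Q := (le_mul_of_one_le_right (Nat.cast_nonneg _) hWr).trans hHW
  have hH0 : 0 < H := by
    have : (0 : ℝ) < H := by linarith
    exact_mod_cast this
  have hH2 : Q ≤ (H : ℝ) ^ 2 := by
    calc Q = W * (Q / W) := by field_simp
      _ ≤ H * H := mul_le_mul (hQW.trans hHge) hHge (by positivity) (by positivity)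
      _ = _ := by ring
  set r := p₀ % W with hr
  have hrW : r < W := Nat.mod_lt _ hW
  have hdec : ∀ p ∈ T, r + W * (p / W) = p := fun p hp => by
    have := (hT p hp).2.2.2
    rw [hr, ← show p % W = p₀ % W from this]
    exact Nat.mod_add_div p W
  set S := T.image (· / W) with hS
  have hSp : ∀ t ∈ S, r + W * t ∈ T := fun t ht => by
    obtain ⟨p, hp, rfl⟩ := mem_image.1 ht
    rw [hdec p hp]; exact hp
  have hSI : S ⊆ Ioc 0 H := fun t ht => by
    obtain ⟨-, h1, h2, -⟩ := hT _ (hSp t ht)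
    push_cast at h1 h2
    refine mem_Ioc.2 ⟨Nat.pos_of_ne_zero fun h0 => ?_, Nat.le_floor ?_⟩
    · subst h0
      have : (r : ℝ) < W := by exact_mod_cast hrW
      simp only [Nat.cast_zero, mul_zero, add_zero] at h1
      exact absurd (h1.trans_lt (this.trans_le (hWW.trans hWQ))) (lt_irrefl _)
    · rw [le_div_iff₀ (by linarith)]
      have : (0 : ℝ) ≤ r := Nat.cast_nonneg _
      linarith
  have hSc : (#S : ℝ) ≤ H := by
    have := card_le_card hSI
    rw [Nat.card_Ioc] at this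
    exact_mod_cast this
  set ω : ℕ → ℝ := fun t => c (r + W * t) with hω
  have hE := Free_energy W r H hW hQ2 hH2 hHW S hSI
    (fun t ht => ⟨(hT _ (hSp t ht)).1, (hT _ (hSp t ht)).2.1⟩) ω fun t => hc _
  set X' := X / h + 1 with hX'
  have hXX : X ≤ h * X' := by
    have := Nat.div_add_mod X h
    have := Nat.mod_lt X hh
    rw [hX', mul_add]; omega
  have hXX2 : h * (X' + 1) ≤ X + 2 * h := by
    have := Nat.mul_div_le X h
    rw [hX', mul_add, mul_add]; omega
  have hX'le : X' + 1 ≤ X + 2 := by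
    have := Nat.div_le_self X h
    omega
  have hclass : ∀ c' < W * h, ∑ m ∈ range (X' + 1), |∑ t ∈ S, ω t * g (c' + W * h * (m + t))|
      ≤ H * H + ε / 2 * (X' + 1 : ℕ) * β / 2 := by
    intro c' hc'
    have hmain := Free_abs (half_pos hε) (by norm_num : (0 : ℝ) < 160000) hβ0 hH0 S
      (fun t ht => (mem_Ioc.1 (hSI ht)).2) ω hE (fun m => g (c' + W * h * m)) (fun _ => hg _)
      (X' + 1) fun a _ => hU (W * h) c' (2 * H) (X' + 1) hc' (by push_cast; exact le_rfl)
        (by push_cast; linarith) (by push_cast; linarith)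
        (by
          have a1 : (X : ℝ) ≤ h * X' := by exact_mod_cast hXX
          have a2 : X₀ ≤ X' := le_of_mul_le_mul_left (hX0.trans a1) (by linarith)
          push_cast; linarith)
        (by
          have a1 : ((X' + 1 : ℕ) : ℝ) ≤ (X + 2 : ℕ) := by exact_mod_cast hX'le
          push_cast at a1 ⊢; linarith) _
    have hinit : ∑ m ∈ range H, |∑ t ∈ S, ω t * g (c' + W * h * (m + t))| ≤ H * H := by
      have h1 : ∀ m ∈ range H, |∑ t ∈ S, ω t * g (c' + W * h * (m + t))| ≤ H := by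
        intro m _
        refine (abs_sum_le_sum_abs _ _).trans (le_trans ?_ hSc)
        have : ∀ t ∈ S, |ω t * g (c' + W * h * (m + t))| ≤ 1 := fun p _ => by
          rw [abs_mul]; exact mul_le_one₀ (hc _) (abs_nonneg _) (hg _)
        simpa using sum_le_card_nsmul _ _ _ this
      refine (sum_le_card_nsmul _ _ _ h1).trans ?_
      rw [card_range, nsmul_eq_mul]
    have hsub : range (X' + 1) ⊆ range H ∪ Ico H (X' + 1) := fun m hm => by
      simp only [mem_union, mem_range, mem_Ico] at hm ⊢; omega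
    refine (sum_le_sum_of_subset_of_nonneg hsub fun _ _ _ => abs_nonneg _).trans ?_
    rw [sum_union (by rw [range_eq_Ico]; exact Ico_disjoint_Ico_consecutive 0 H _)]
    exact add_le_add hinit hmain
  have hj : ∀ j ∈ range h, ∑ i ∈ range X', |∑ p ∈ T, c p * g (v + W * (h * i + j) + h * p)|
      ≤ H * H + ε / 2 * (X' + 1 : ℕ) * β / 2 := by
    intro j hj
    have hj' := mem_range.1 hj
    have hWh : 0 < W * h := Nat.mul_pos hW hh
    set cj := v + h * r + W * j with hcj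
    have hι : cj / (W * h) ≤ 1 := by
      refine Nat.lt_succ_iff.1 ((Nat.div_lt_iff_lt_mul hWh).2 ?_)
      have a1 : h * (r + 1) ≤ h * W := Nat.mul_le_mul_left _ hrW
      have a2 : W * (j + 1) ≤ W * h := Nat.mul_le_mul_left _ hj'
      rw [mul_add, mul_one] at a1 a2
      rw [mul_comm h W] at a1
      omega
    refine le_trans ?_ (hclass (cj % (W * h)) (Nat.mod_lt _ hWh))
    have e : ∀ i, ∑ p ∈ T, c p * g (v + W * (h * i + j) + h * p) =
        ∑ t ∈ S, ω t * g (cj % (W * h) + W * h * (i + cj / (W * h) + t)) := by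
      intro i
      rw [hS, sum_image fun p hp p' hp' he => by
        rw [← hdec p hp, ← hdec p' hp']; exact congrArg (fun x => r + W * x) he]
      refine sum_congr rfl fun p hp => ?_
      simp only [hω, hdec p hp]
      congr 2
      have a := Nat.mod_add_div cj (W * h)
      have b := hdec p hp
      calc v + W * (h * i + j) + h * p = v + W * (h * i + j) + h * (r + W * (p / W)) := by rw [b]
        _ = cj + W * h * (i + p / W) := by rw [hcj]; ring
        _ = cj % (W * h) + W * h * (cj / (W * h)) + W * h * (i + p / W) := by rw [a]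
        _ = _ := by ring
    simp only [e]
    rw [range_eq_Ico, sum_Ico_add' (fun m =>
      |∑ t ∈ S, ω t * g (cj % (W * h) + W * h * (m + t))|) 0 X' (cj / (W * h)), range_eq_Ico]
    exact sum_le_sum_of_subset_of_nonneg (Ico_subset_Ico (Nat.zero_le _) (by omega))
      fun _ _ _ => abs_nonneg _
  refine (sum_le_sum_of_subset_of_nonneg (range_mono hXX) fun _ _ _ => abs_nonneg _).trans ?_
  rw [Free_sum_mul (fun y => |∑ p ∈ T, c p * g (v + W * y + h * p)|) X' h]
  refine (sum_le_card_nsmul _ _ _ hj).trans ?_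
  rw [card_range, nsmul_eq_mul, mul_div_assoc (ε * X), ← hβ]
  have a1 : (h : ℝ) * (X' + 1 : ℕ) ≤ 2 * X := by
    have : ((h * (X' + 1) : ℕ) : ℝ) ≤ (X + 2 * h : ℕ) := by exact_mod_cast hXX2
    have b : (h : ℝ) * 2 ≤ h * Q ^ 3 := by gcongr
    push_cast at this ⊢
    linarith
  have a2 : (h : ℝ) * (H * H) ≤ ε * X * β / 2 := by
    have b1 : Real.log Q ≤ Q := (Real.log_le_sub_one_of_pos hQ0).trans (by linarith)
    have b2 : 1 / (W : ℝ) ^ 2 ≤ β := by
      rw [hβ, div_le_div_iff₀ (by positivity) (by positivity)]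
      have : (W.totient : ℝ) ≤ W ^ 2 := hφW1.trans hWW
      calc 1 * (W.totient * Real.log Q) = W.totient * Real.log Q := one_mul _
        _ ≤ W ^ 2 * Q := by gcongr
        _ = _ := by ring
    have b3 : 8 ≤ Q * ε := (div_le_iff₀ hε).1 hQε
    calc (h : ℝ) * (H * H) = h * (H * W) ^ 2 * (1 / (W : ℝ) ^ 2) := by field_simp
      _ ≤ h * (2 * Q) ^ 2 * β := by gcongr
      _ = 8 * (h * Q ^ 2) * β / 2 := by ring
      _ ≤ Q * ε * (h * Q ^ 2) * β / 2 := by gcongr
      _ = ε * (h * Q ^ 3) * β / 2 := by ring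
      _ ≤ _ := by gcongr
  calc (h : ℝ) * (H * H + ε / 2 * (X' + 1 : ℕ) * β / 2)
      = h * (H * H) + ε / 2 * (h * (X' + 1 : ℕ)) * β / 2 := by ring
    _ ≤ ε * X * β / 2 + ε / 2 * (2 * X) * β / 2 := by gcongr
    _ = _ := by ring

end Pool.Agent.Work.MP_d018b2_nt.U
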