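import Pool.Agent.Work.MP_d018b2_nt.UBasic

/-! The independence model for divisibility by small primes, with an explicit error. -/

set_option autoImplicit false
open Filter Topology Finset

namespace Pool.Agent.Work.MP_d018b2_nt.U

open Pool.Agent.Work.MP_ca0f09_nt

lemma mean_affine {P W : ℕ} (hP : 0 < P) (h : Nat.Coprime W P) {f : ℤ → ℝ} (hf : Dep P f)
    (c : ℤ) : mean P (fun y => f (c + W * y)) = mean P f := by
  have : NeZero P := ⟨hP.ne'⟩
  set g : ZMod P → ℝ := fun z => f (z.val : ℕ) with hg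
  have e1 : ∀ x : ℤ, f x = g (x : ZMod P) := fun x => hf _ _ (by
    rw [← ZMod.intCast_eq_intCast_iff_dvd_sub]
    simp)
  have e2 : ∀ G : ZMod P → ℝ, ∑ x ∈ range P, G ((x : ℕ) : ZMod P) = ∑ z, G z := fun G =>
    sum_nbij' (fun a => (a : ZMod P)) ZMod.val (fun _ _ => mem_univ _)
      (fun a _ => mem_range.2 (ZMod.val_lt a)) (fun a ha => ZMod.val_cast_of_lt (mem_range.1 ha))
      (fun a _ => ZMod.natCast_zmod_val a) fun _ _ => rfl
  obtain ⟨v, hv⟩ := (ZMod.isUnit_iff_coprime W P).2 h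
  unfold mean
  congr 1
  simp only [e1]
  push_cast
  rw [e2 fun z => g (c + W * z), e2 g, ← hv]
  exact Equiv.sum_comp ((Units.mulLeft v).trans (Equiv.addLeft (c : ZMod P))) g

lemma abs_mean_le_of {N : ℕ} (hN : 0 < N) {f : ℤ → ℝ} {b : ℝ} (hb : ∀ x, |f x| ≤ b) :
    |mean N f| ≤ b := by
  rw [abs_le]
  constructor
  · rw [← mean_const hN (-b)]; exact mean_mono _ fun x => (abs_le.1 (hb x)).1
  · rw [← mean_const hN b]; exact mean_mono _ fun x => (abs_le.1 (hb x)).2

lemma sum_sub_mean_le' {N : ℕ} (hN : 0 < N) {F : ℤ → ℝ} (hF : Dep N F) {b : ℝ}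
    (hb : ∀ x, |F x| ≤ b) (M : ℕ) : |∑ x ∈ range M, F x - M * mean N F| ≤ 2 * N * b := by
  set G : ℤ → ℝ := fun x => F x - mean N F with hG
  have hGd : Dep N G := hF.sub (Dep.const _ _)
  have h0 : ∑ x ∈ range N, G x = 0 := by
    have : mean N G = 0 := by rw [hG, mean_sub, mean_const hN]; simp
    unfold mean at this
    have hN' : (N : ℝ) ≠ 0 := by positivity
    exact (div_eq_zero_iff.1 this).resolve_right hN'
  have key : ∀ j : ℕ, ∑ x ∈ range (N * j), G x = 0 := by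
    intro j
    induction j with
    | zero => simp
    | succ j ih =>
      rw [Nat.mul_succ, Finset.sum_range_add, ih]
      have : ∑ x ∈ range N, G ((N * j + x : ℕ) : ℤ) = ∑ x ∈ range N, G x :=
        Finset.sum_congr rfl fun x _ => hGd _ _ (by push_cast; simp)
      rw [this, h0]; simp
  have h1 : ∑ x ∈ range M, F x - M * mean N F = ∑ x ∈ range M, G x := by
    simp [hG, Finset.sum_sub_distrib]
  rw [h1]
  conv_lhs => rw [← Nat.div_add_mod M N]
  rw [Finset.sum_range_add, key, zero_add]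
  have h2 : ∀ x, |G x| ≤ 2 * b := fun x =>
    (abs_sub _ _).trans (by linarith [hb x, abs_mean_le_of hN hb])
  refine (Finset.abs_sum_le_sum_abs _ _).trans
    ((sum_le_card_nsmul _ _ (2 * b) fun x _ => h2 _).trans ?_)
  rw [card_range, nsmul_eq_mul]
  have h3 : ((M % N : ℕ) : ℝ) ≤ N := by exact_mod_cast (Nat.mod_lt M hN).le
  have h4 : 0 ≤ b := (abs_nonneg _).trans (hb 0)
  nlinarith

/-- periodic functions along a progression -/
lemma sum_AP_sub_mean {P N W : ℕ} (hN : 0 < N) (hPN : P ∣ N) (h : Nat.Coprime W P) {f : ℤ → ℝ}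
    (hf : Dep P f) {b : ℝ} (hb : ∀ x, |f x| ≤ b) (c : ℤ) (M : ℕ) :
    |∑ y ∈ range M, f (c + W * y) - M * mean N f| ≤ 2 * P * b := by
  have hP : 0 < P := Nat.pos_of_dvd_of_pos hPN hN
  obtain ⟨k, rfl⟩ := hPN
  rw [mean_mul_period k (Nat.pos_of_mul_pos_left hN) hP hf, ← mean_affine hP h hf c]
  refine sum_sub_mean_le' hP (F := fun y => f (c + W * y)) (fun x y hxy => hf _ _ ?_)
    (fun x => hb _) M
  rw [add_sub_add_left_eq_sub, ← mul_sub]
  exact hxy.mul_left _

/-- Moebius differences on the lattice of subsets -/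
noncomputable def dd (G : Finset ℕ → ℝ) (A : Finset ℕ) : ℝ :=
  ∑ B ∈ A.powerset, (-1) ^ (A.card + B.card) * G B

lemma dd_insert (G : Finset ℕ → ℝ) {A : Finset ℕ} {q : ℕ} (hq : q ∉ A) :
    dd G (insert q A) = dd (fun B => G (insert q B)) A - dd G A := by
  unfold dd
  rw [sum_powerset_insert hq, ← sum_add_distrib, ← sum_sub_distrib]
  refine sum_congr rfl fun B hB => ?_
  have : q ∉ B := fun h => hq (mem_powerset.1 hB h)
  rw [card_insert_of_notMem hq, card_insert_of_notMem this]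
  ring

lemma sum_dd (S : Finset ℕ) (G : Finset ℕ → ℝ) : ∑ A ∈ S.powerset, dd G A = G S := by
  induction S using Finset.induction_on generalizing G with
  | empty => simp [dd]
  | insert q S hq ih =>
    rw [sum_powerset_insert hq, ← sum_add_distrib, ← ih fun B => G (insert q B)]
    refine sum_congr rfl fun A hA => ?_
    rw [dd_insert G fun h => hq (mem_powerset.1 hA h)]
    ring

lemma abs_dd_le {G : Finset ℕ → ℝ} (hG : ∀ B, |G B| ≤ 1) (A : Finset ℕ) :
    |dd G A| ≤ 2 ^ A.card := by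
  refine (abs_sum_le_sum_abs _ _).trans ((sum_le_card_nsmul _ _ 1 fun B _ => ?_).trans (by simp))
  rw [abs_mul, abs_pow, abs_neg, abs_one, one_pow, one_mul]
  exact hG B

lemma dd_eq_zero {G : Finset ℕ → ℝ} {A : Finset ℕ} {q : ℕ} (hq : q ∈ A)
    (h : ∀ B, G (insert q B) = G B) : dd G A = 0 := by
  rw [← insert_erase hq, dd_insert G (notMem_erase q A)]
  simp only [h, sub_self]

lemma trunc_le {G : Finset ℕ → ℝ} (hG : ∀ B, |G B| ≤ 1) {S T : Finset ℕ}
    (h : ∀ q ∈ S, q ∉ T → ∀ B, G (insert q B) = G B) (J : ℕ) :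
    |G S - ∑ A ∈ S.powerset with A.card ≤ J, dd G A| ≤ 2 * 3 ^ J * (T.powersetCard J).card := by
  have hz : ∀ A ∈ S.powerset, ¬ A ⊆ T → dd G A = 0 := fun A hS hA => by
    obtain ⟨q, h1, h2⟩ := not_subset.1 hA
    exact dd_eq_zero h1 (h q (mem_powerset.1 hS h1) h2)
  by_cases c : T.card ≤ J
  · have : ∑ A ∈ S.powerset with A.card ≤ J, dd G A = G S := by
      rw [← sum_dd S G]
      refine sum_subset (filter_subset _ _) fun A h1 h2 => hz A h1 fun h3 => h2 ?_
      exact mem_filter.2 ⟨h1, (card_le_card h3).trans c⟩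
    rw [this, sub_self, abs_zero]
    positivity
  have c' : J ≤ T.card := by omega
  have h1 : (1 : ℝ) ≤ (T.powersetCard J).card := by
    exact_mod_cast card_pos.2 (powersetCard_nonempty.2 c')
  have h2 : |∑ A ∈ S.powerset with A.card ≤ J, dd G A| ≤ 3 ^ J * (T.powersetCard J).card := by
    calc _ ≤ ∑ A ∈ S.powerset with A.card ≤ J, ∑ A' ∈ T.powersetCard J,
          (if A ⊆ A' then (2 : ℝ) ^ A.card else 0) := by
          refine (abs_sum_le_sum_abs _ _).trans (sum_le_sum fun A hA => ?_)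
          have nn : ∀ A' ∈ T.powersetCard J, 0 ≤ (if A ⊆ A' then (2 : ℝ) ^ A.card else 0) :=
            fun _ _ => by split_ifs <;> positivity
          by_cases hAT : A ⊆ T
          · obtain ⟨A', a1, a2, a3⟩ := exists_subsuperset_card_eq hAT (mem_filter.1 hA).2 c'
            have := single_le_sum nn (mem_powersetCard.2 ⟨a2, a3⟩)
            rw [if_pos a1] at this
            exact (abs_dd_le hG A).trans this
          · rw [hz A (mem_filter.1 hA).1 hAT, abs_zero]
            exact sum_nonneg nn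
      _ ≤ ∑ _A' ∈ T.powersetCard J, (3 : ℝ) ^ J := by
          rw [sum_comm]
          refine sum_le_sum fun A' hA' => ?_
          rw [← sum_filter]
          have e := sum_pow_mul_eq_add_pow (2 : ℝ) 1 A'
          simp only [one_pow, mul_one] at e
          rw [(mem_powersetCard.1 hA').2, show (2 : ℝ) + 1 = 3 by norm_num] at e
          rw [← e]
          exact sum_le_sum_of_subset_of_nonneg
            (fun A hA => mem_powerset.2 (mem_filter.1 hA).2) fun _ _ _ => by positivity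
      _ = _ := by rw [sum_const, nsmul_eq_mul, mul_comm]
  have h3 : (1 : ℝ) ≤ 3 ^ J := one_le_pow₀ (by norm_num)
  have h4 := abs_sub (G S) (∑ A ∈ S.powerset with A.card ≤ J, dd G A)
  nlinarith [hG S, mul_le_mul h3 h1 zero_le_one (by positivity)]

/-- the divisibility pattern -/
def pat (A : Finset ℕ) (O : Finset ℤ) (x : ℤ) : Finset (ℕ × ℤ) :=
  (A ×ˢ O).filter fun a => (a.1 : ℤ) ∣ x + a.2

lemma dep_pat {A B : Finset ℕ} (h : B ⊆ A) (O : Finset ℤ) (Φ : Finset (ℕ × ℤ) → ℝ) :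
    Dep (pr A) fun x => Φ (pat B O x) := by
  intro x y hxy
  have : pat B O x = pat B O y := by
    refine filter_congr fun a ha => dvd_iff_dvd_of_dvd_sub ?_
    rw [add_sub_add_right_eq_sub]
    exact (Int.natCast_dvd_natCast.2 (dvd_prod_of_mem _ (h (mem_product.1 ha).1))).trans hxy
  simp only [this]

lemma Pat.exists_ext {S : Finset ℕ} {O : Finset ℤ} {F : ℤ → ℝ} (h : Pat S O F)
    (hF : ∀ x, |F x| ≤ 1) :
    ∃ Φ : Finset (ℕ × ℤ) → ℝ, (∀ π, |Φ π| ≤ 1) ∧ ∀ x, F x = Φ (pat S O x) := by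
  classical
  refine ⟨fun π => if h : ∃ x, pat S O x = π then F h.choose else 0, fun π => ?_, fun x => ?_⟩
  · beta_reduce
    split_ifs
    · exact hF _
    · simp
  · have ex : ∃ y, pat S O y = pat S O x := ⟨x, rfl⟩
    beta_reduce
    rw [dif_pos ex]
    refine h _ _ fun q hq o ho => ?_
    have := Finset.ext_iff.1 ex.choose_spec (q, o)
    simpa [pat, hq, ho] using this.symm

/-- number of offsets at which `q` divides -/
noncomputable def sg (O : Finset ℤ) (q : ℕ) (x : ℤ) : ℝ := ∑ o ∈ O, ind q (x + o)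

lemma sg_nonneg (O : Finset ℤ) (q : ℕ) (x : ℤ) : 0 ≤ sg O q x :=
  sum_nonneg fun _ _ => ind_nonneg _ _

lemma sg_le (O : Finset ℤ) (q : ℕ) (x : ℤ) : sg O q x ≤ O.card := by
  unfold sg
  simpa using sum_le_card_nsmul O (fun o => ind q (x + o)) 1 fun _ _ => ind_le_one _ _

lemma dep_prod_sg (O : Finset ℤ) (A : Finset ℕ) : Dep (pr A) fun x => ∏ q ∈ A, sg O q x :=
  fun x y h => prod_congr rfl fun _ hq =>
    Dep.sum O (fun o _ => dep_ind (dvd_prod_of_mem _ hq) o) x y h

lemma mean_prod_sg (O : Finset ℤ) {N : ℕ} (hN : 0 < N) (A : Finset ℕ) (hA : ∀ q ∈ A, q.Prime)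
    (hd : pr A ∣ N) : mean N (fun x => ∏ q ∈ A, sg O q x) = ∏ q ∈ A, (O.card : ℝ) / q := by
  induction A using Finset.induction_on with
  | empty => simp [mean_const hN]
  | insert q A hq ih =>
    have hA' : ∀ q ∈ A, q.Prime := fun q' h => hA q' (mem_insert_of_mem h)
    have hqp := hA q (mem_insert_self _ _)
    have hd1 : pr A ∣ N := (prod_dvd_prod_of_subset _ _ _ (subset_insert _ _)).trans hd
    have hd2 : q ∣ N := (dvd_prod_of_mem _ (mem_insert_self _ _)).trans hd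
    simp only [prod_insert hq]
    have e : (fun x => sg O q x * ∏ q ∈ A, sg O q x) =
        fun x => ∑ o ∈ O, (∏ q ∈ A, sg O q x) * ind q (x + o) := by
      funext x
      rw [← mul_sum, mul_comm]; rfl
    rw [e, mean_sum]
    simp only [mean_mul_ind hqp.pos (coprime_prod_primes hA' hqp hq) hd2 hd1 (dep_prod_sg O A),
      ih hA' hd1, sum_const, nsmul_eq_mul]
    ring

theorem kub (S : Finset ℕ) {z W k : ℕ} (hz : 1 ≤ z) (hk : k ≤ z)
    (hS : ∀ q ∈ S, q.Prime ∧ q ≤ z ∧ ¬ q ∣ W) (M J : ℕ) :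
    Kub S k W M (4 * M * (Real.exp (9 * k * ∑ q ∈ S, 1 / (q : ℝ)) / 3 ^ J) +
      6 * (J + 1) * 3 ^ J * (z : ℝ) ^ (3 * J)) := by
  classical
  intro O hO F hF hpat c
  obtain ⟨Φ, hΦ, hFΦ⟩ := hpat.exists_ext hF
  have hS1 : ∀ q ∈ S, q.Prime := fun q hq => (hS q hq).1
  have hN := pr_pos hS1
  have z1 : (1 : ℝ) ≤ z := by exact_mod_cast hz
  have co : ∀ A ⊆ S, Nat.Coprime W (pr A) := fun A hA =>
    Nat.Coprime.prod_right fun q hq =>
      ((Nat.Prime.coprime_iff_not_dvd (hS q (hA hq)).1).2 (hS q (hA hq)).2.2).symm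
  have dv : ∀ A ⊆ S, pr A ∣ pr S := fun A hA => prod_dvd_prod_of_subset _ _ _ hA
  have le : ∀ A ⊆ S, A.card ≤ J → (pr A : ℝ) ≤ z ^ J := fun A hA hJ => by
    have h1 : pr A ≤ z ^ A.card := prod_le_pow_card _ _ _ fun q hq => (hS q (hA hq)).2.1
    exact_mod_cast h1.trans (Nat.pow_le_pow_right hz hJ)
  have cS : S.card ≤ z := by
    refine (card_le_card (t := Icc 1 z) fun q hq => mem_Icc.2 ⟨(hS1 q hq).pos, (hS q hq).2.1⟩).trans ?_
    simp
  have cP : ∀ j ≤ J, ((S.powersetCard j).card : ℝ) ≤ z ^ J := fun j hj => by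
    rw [card_powersetCard]
    exact_mod_cast (Nat.choose_le_pow _ _).trans
      ((Nat.pow_le_pow_left cS j).trans (Nat.pow_le_pow_right hz hj))
  set I := S.powerset.filter fun A => A.card ≤ J with hI
  have cI : (I.card : ℝ) ≤ (J + 1) * z ^ J := by
    have h1 : I ⊆ (range (J + 1)).biUnion fun j => S.powersetCard j := fun A hA =>
      mem_biUnion.2 ⟨A.card, mem_range.2 (Nat.lt_succ_of_le (mem_filter.1 hA).2),
        mem_powersetCard.2 ⟨mem_powerset.1 (mem_filter.1 hA).1, rfl⟩⟩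
    have h2 : (I.card : ℝ) ≤ ∑ j ∈ range (J + 1), ((S.powersetCard j).card : ℝ) := by
      exact_mod_cast (card_le_card h1).trans card_biUnion_le
    refine h2.trans ((sum_le_card_nsmul _ _ _ fun j hj =>
      cP j (Nat.lt_succ_iff.1 (mem_range.1 hj))).trans (by simp))
  set d : Finset ℕ → ℤ → ℝ := fun A x => dd (fun B => Φ (pat B O x)) A with hd
  set H : ℤ → ℝ := fun x => ∑ A ∈ S.powersetCard J, ∏ q ∈ A, sg O q x with hH
  have h1 : ∀ x, |F x - ∑ A ∈ I, d A x| ≤ 2 * 3 ^ J * H x := by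
    intro x
    rw [hFΦ x]
    refine (trunc_le (G := fun B => Φ (pat B O x)) (fun B => hΦ _)
      (T := S.filter fun q => ∃ o ∈ O, (q : ℤ) ∣ x + o) ?_ J).trans ?_
    swap
    · refine mul_le_mul_of_nonneg_left ?_ (by positivity)
      rw [card_eq_sum_ones, Nat.cast_sum]
      refine le_trans (sum_le_sum fun A hA => ?_) (sum_le_sum_of_subset_of_nonneg
        (powersetCard_mono (filter_subset _ _)) fun A _ _ => prod_nonneg fun q _ => sg_nonneg _ _ _)
      rw [Nat.cast_one]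
      refine one_le_prod fun q hq => ?_
      obtain ⟨o, ho, h⟩ := (mem_filter.1 ((mem_powersetCard.1 hA).1 hq)).2
      refine le_trans (le_of_eq ?_) (single_le_sum (fun o _ => ind_nonneg q (x + o)) ho)
      simp [ind, h]
    · intro q hq hq' B
      congr 1
      ext a
      simp only [pat, mem_filter, mem_product, mem_insert]
      refine ⟨fun ⟨⟨a1, a2⟩, a3⟩ => ⟨⟨a1.resolve_left fun e => hq' ?_, a2⟩, a3⟩,
        fun ⟨⟨a1, a2⟩, a3⟩ => ⟨⟨Or.inr a1, a2⟩, a3⟩⟩
      exact mem_filter.2 ⟨hq, a.2, a2, e ▸ a3⟩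
  have hOk : (O.card : ℝ) ≤ k := by exact_mod_cast hO
  have hkz : (k : ℝ) ≤ z := by exact_mod_cast hk
  have t1 : |∑ y ∈ range M, ∑ A ∈ I, d A (c + W * y) - M * mean (pr S) fun x => ∑ A ∈ I, d A x|
      ≤ (J + 1) * z ^ J * (2 * z ^ J * 2 ^ J) := by
    rw [sum_comm, mean_sum, mul_sum, ← sum_sub_distrib]
    refine (abs_sum_le_sum_abs _ _).trans ((sum_le_card_nsmul _ _ (2 * (z : ℝ) ^ J * 2 ^ J)
      fun A hA => ?_).trans ?_)
    · have a1 := mem_powerset.1 (mem_filter.1 hA).1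
      have a2 := (mem_filter.1 hA).2
      refine (sum_AP_sub_mean hN (dv A a1) (co A a1) (f := d A) (b := 2 ^ J) ?_
        (fun x => (abs_dd_le (fun B => hΦ _) A).trans (pow_le_pow_right₀ one_le_two a2)) c M).trans ?_
      · exact Dep.sum _ fun B hB => (Dep.const _ _).mul (dep_pat (mem_powerset.1 hB) O Φ)
      · have := le A a1 a2
        gcongr
    · rw [nsmul_eq_mul]
      gcongr
  have t2 : |∑ y ∈ range M, H (c + W * y) - M * mean (pr S) H|
      ≤ z ^ J * (2 * z ^ J * z ^ J) := by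
    simp only [hH]
    rw [sum_comm, mean_sum, mul_sum, ← sum_sub_distrib]
    refine (abs_sum_le_sum_abs _ _).trans ((sum_le_card_nsmul _ _ (2 * (z : ℝ) ^ J * z ^ J)
      fun A hA => ?_).trans ?_)
    · obtain ⟨a1, a2⟩ := mem_powersetCard.1 hA
      refine (sum_AP_sub_mean hN (dv A a1) (co A a1) (dep_prod_sg O A) (b := z ^ J)
        (fun x => ?_) c M).trans ?_
      · rw [abs_of_nonneg (prod_nonneg fun q _ => sg_nonneg _ _ _), ← a2, ← prod_const]
        exact prod_le_prod (fun q _ => sg_nonneg _ _ _) fun q _ =>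
          (sg_le _ _ _).trans (hOk.trans hkz)
      · have := le A a1 a2.le
        gcongr
    · rw [nsmul_eq_mul]
      have := cP J le_rfl
      gcongr
  have t3 : mean (pr S) H ≤ Real.exp (9 * k * ∑ q ∈ S, 1 / (q : ℝ)) / 9 ^ J := by
    rw [le_div_iff₀ (by positivity), hH, mean_sum, sum_mul, mul_sum]
    refine le_trans ?_ (Real.prod_one_add_le_exp_sum S fun q => by positivity)
    rw [prod_one_add]
    refine le_trans (sum_le_sum fun A hA => ?_) (sum_le_sum_of_subset_of_nonneg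
      (fun A hA => mem_powerset.2 (mem_powersetCard.1 hA).1 : S.powersetCard J ⊆ S.powerset)
      fun A _ _ => prod_nonneg fun q _ => by positivity)
    obtain ⟨a1, a2⟩ := mem_powersetCard.1 hA
    rw [mean_prod_sg O hN A (fun q hq => hS1 q (a1 hq)) (dv A a1), ← a2, ← prod_const,
      ← prod_mul_distrib]
    refine prod_le_prod (fun q _ => by positivity) fun q _ => ?_
    rw [mul_one_div, div_mul_eq_mul_div, mul_comm]
    gcongr
  have t4 : |∑ y ∈ range M, (F (c + W * y) - ∑ A ∈ I, d A (c + W * y))|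
      ≤ 2 * 3 ^ J * ∑ y ∈ range M, H (c + W * y) := by
    rw [mul_sum]
    exact (abs_sum_le_sum_abs _ _).trans (sum_le_sum fun y _ => h1 _)
  have t5 : |mean (pr S) F - mean (pr S) fun x => ∑ A ∈ I, d A x| ≤ 2 * 3 ^ J * mean (pr S) H := by
    rw [← mean_sub, ← mean_const_mul, abs_le, neg_le, ← neg_one_mul, ← mean_const_mul]
    exact ⟨mean_mono _ fun x => by linarith [(abs_le.1 (h1 x)).1],
      mean_mono _ fun x => (abs_le.1 (h1 x)).2⟩
  rw [sum_sub_distrib] at t4
  have hM : (0 : ℝ) ≤ M := Nat.cast_nonneg _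
  have t6 := mul_le_mul_of_nonneg_left t5 hM
  rw [← abs_of_nonneg hM, ← abs_mul, abs_of_nonneg hM, mul_sub] at t6
  have p3 : (0 : ℝ) < 3 ^ J := by positivity
  have e9 : (9 : ℝ) ^ J = 3 ^ J * 3 ^ J := by rw [← mul_pow]; norm_num
  set e := Real.exp (9 * k * ∑ q ∈ S, 1 / (q : ℝ))
  have t7 : 3 ^ J * mean (pr S) H ≤ e / 3 ^ J := by
    refine (mul_le_mul_of_nonneg_left t3 p3.le).trans (le_of_eq ?_)
    rw [e9]; field_simp
  have t8 := mul_le_mul_of_nonneg_left t7 hM
  have zJ : (1 : ℝ) ≤ z ^ J := one_le_pow₀ z1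
  have e3 : (z : ℝ) ^ (3 * J) = z ^ J * z ^ J * z ^ J := by ring
  have p2 : (2 : ℝ) ^ J ≤ 3 ^ J := by gcongr; norm_num
  have hJ : (0 : ℝ) ≤ J := Nat.cast_nonneg _
  rw [e3]
  set Z := (z : ℝ) ^ J
  have t9 : (J + 1) * Z * (2 * Z * 2 ^ J) ≤ 2 * (J + 1) * 3 ^ J * (Z * Z * Z) := by
    calc _ = 2 * (J + 1) * 2 ^ J * (Z * Z * 1) := by ring
      _ ≤ _ := by gcongr
  have t10 := mul_le_mul_of_nonneg_left (abs_le.1 t2).2 p3.le
  have t11 : 0 ≤ J * (3 ^ J * (Z * Z * Z)) := by positivity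
  rw [abs_le] at t1 t4 t6 ⊢
  constructor <;> nlinarith [t1.1, t1.2, t4.1, t4.2, t6.1, t6.2]

end Pool.Agent.Work.MP_d018b2_nt.U
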