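import Mathlib

/-! Choice of the parameters. -/

set_option autoImplicit false
open Filter Topology Finset Real

namespace Pool.Agent.Work.MP_d018b2_nt.U

lemma ev_pow_exp (C : ℝ) (n : ℕ) {a : ℝ} (ha : 0 < a) :
    ∀ᶠ L : ℝ in atTop, C * L ^ n ≤ exp (a * L) := by
  have h := ((tendsto_exp_div_pow_atTop n).comp (tendsto_id.const_mul_atTop ha)).eventually_ge_atTop
    (|C| / a ^ n)
  filter_upwards [h, eventually_gt_atTop 0] with L h1 h2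
  simp only [Function.comp, id] at h1
  rw [div_le_div_iff₀ (by positivity) (by positivity), mul_pow, mul_comm (a ^ n), ← mul_assoc]
    at h1
  exact (mul_le_mul_of_nonneg_right (le_abs_self C) (by positivity)).trans
    (le_of_mul_le_mul_right h1 (by positivity))

lemma kub_num (c : ℕ) {ε : ℝ} (hε : 0 < ε) : ∀ᶠ u : ℕ in atTop, ∀ (D r N : ℕ) (L : ℝ),
    D ≤ 2 ^ (c * u) → r ≤ c * u → 0 ≤ L → L ≤ 1 + u → exp (5 * (u : ℝ) ^ 4) ≤ N →
    (8 * (D : ℝ)) ^ (2 * r) * (4 * (D * N : ℕ) * (exp (9 * (2 * r + 1 : ℕ) * L) / 3 ^ (u ^ 3)) +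
      6 * ((u ^ 3 : ℕ) + 1) * 3 ^ (u ^ 3) * ((2 ^ u : ℕ) : ℝ) ^ (3 * u ^ 3)) ≤ ε * N ∧
    2 * r + 1 ≤ 2 ^ u := by
  have t : Tendsto (fun u : ℕ => (u : ℝ)) atTop atTop := tendsto_natCast_atTop_atTop
  filter_upwards [t.eventually_ge_atTop (100 * ((c : ℝ) + 1) ^ 2), t.eventually_ge_atTop (2 / ε),
    t.eventually (ev_pow_exp (2 * c + 1) 1 (log_pos one_lt_two))] with u u1 u2 u3 D r N L hD hr
    L0 L1 hN
  have c0 : (0 : ℝ) ≤ c := Nat.cast_nonneg _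
  have u0 : (100 : ℝ) ≤ u := by nlinarith
  have hr' : (r : ℝ) ≤ c * u := by exact_mod_cast hr
  have r0 : (0 : ℝ) ≤ r := Nat.cast_nonneg _
  have e2 : ∀ n : ℕ, (2 : ℝ) ^ n ≤ exp n := fun n => by
    rw [← exp_one_pow]; gcongr; linarith [add_one_le_exp (1 : ℝ)]
  have hD' : (D : ℝ) ≤ exp (c * u) := by
    refine le_trans ?_ ((e2 (c * u)).trans (by push_cast; rfl))
    exact_mod_cast hD
  have h8 : (8 : ℝ) ≤ exp 3 := by have := e2 3; norm_num at this ⊢; exact this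
  have k1 : (8 * (D : ℝ)) ^ (2 * r) ≤ exp (2 * (c * u) * (3 + c * u)) := by
    calc _ ≤ (exp 3 * exp (c * u)) ^ (2 * r) := by gcongr
      _ = exp (2 * r * (3 + c * u)) := by rw [← exp_add, ← exp_nat_mul]; push_cast; rfl
      _ ≤ _ := by gcongr
  have k2 : exp ((u : ℝ) ^ 3) ≤ 3 ^ (u ^ 3) := by
    rw [← Nat.cast_pow, ← exp_one_pow]; gcongr; linarith [exp_one_lt_d9]
  have k3 : (3 : ℝ) ^ (u ^ 3) ≤ exp (2 * (u : ℝ) ^ 3) := by
    rw [mul_comm, ← Nat.cast_pow, exp_nat_mul]; gcongr; linarith [add_one_le_exp (2 : ℝ)]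
  have k4 : 2 / ε ≤ exp u := by linarith [add_one_le_exp (u : ℝ)]
  have k5 : exp (-(u : ℝ)) ≤ ε / 2 := by
    rw [exp_neg, ← inv_div]; exact inv_anti₀ (by positivity) k4
  have N0 : (0 : ℝ) ≤ N := Nat.cast_nonneg _
  have cu : (c : ℝ) * u ≤ (c + 1) * u := by nlinarith
  have cu1 : (u : ℝ) ≤ (c + 1) * u := by nlinarith
  have cu2 : ((c + 1) * u : ℝ) ^ 2 * 100 ≤ u ^ 3 := by
    calc _ = 100 * ((c : ℝ) + 1) ^ 2 * u ^ 2 := by ring
      _ ≤ u * u ^ 2 := by gcongr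
      _ = _ := by ring
  set y : ℝ := (c + 1) * u
  have cu0 : (0 : ℝ) ≤ c * u := by positivity
  have k6 : 2 * (c * u) * (3 + c * u) ≤ 3 * y ^ 2 := by nlinarith
  refine ⟨?_, ?_⟩
  · rw [mul_add]
    have a1 : (8 * (D : ℝ)) ^ (2 * r) *
        (4 * (D * N : ℕ) * (exp (9 * (2 * r + 1 : ℕ) * L) / 3 ^ (u ^ 3))) ≤ ε / 2 * N := by
      have b1 : (9 * (2 * r + 1 : ℕ) * L : ℝ) ≤ 9 * (3 * y) * (2 * y) := by
        push_cast; gcongr <;> linarith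
      calc _ ≤ exp (3 * y ^ 2) * (exp 3 * (exp y * N) *
            (exp (9 * (3 * y) * (2 * y)) / exp ((u : ℝ) ^ 3))) := by
            rw [Nat.cast_mul D]
            gcongr ?_ * (?_ * (?_ * _) * (exp ?_ / ?_))
            · exact k1.trans (exp_le_exp.2 k6)
            · linarith
            · exact hD'.trans (exp_le_exp.2 cu)
        _ = exp (3 * y ^ 2 + 3 + y + 9 * (3 * y) * (2 * y) - (u : ℝ) ^ 3) * N := by
            simp only [exp_add, exp_sub]; ring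
        _ ≤ exp (-(u : ℝ)) * N := by gcongr; nlinarith
        _ ≤ _ := by gcongr
    have a2 : (8 * (D : ℝ)) ^ (2 * r) * (6 * ((u ^ 3 : ℕ) + 1) * 3 ^ (u ^ 3) *
        ((2 ^ u : ℕ) : ℝ) ^ (3 * u ^ 3)) ≤ ε / 2 * N := by
      have b1 : ((2 ^ u : ℕ) : ℝ) ^ (3 * u ^ 3) ≤ exp (3 * (u : ℝ) ^ 4) := by
        push_cast
        rw [← pow_mul]
        exact (e2 _).trans (le_of_eq (by push_cast; ring_nf))
      have b2 : (100 : ℝ) * u ^ 3 ≤ u ^ 4 := by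
        calc _ ≤ u * (u : ℝ) ^ 3 := by gcongr
          _ = _ := by ring
      have b3 : (u : ℝ) ≤ u ^ 3 := le_self_pow₀ (by linarith) (by norm_num)
      calc _ ≤ exp (3 * y ^ 2) * (exp 3 * exp ((u : ℝ) ^ 3) * exp (2 * (u : ℝ) ^ 3) *
            exp (3 * (u : ℝ) ^ 4)) := by
            gcongr
            · exact k1.trans (exp_le_exp.2 k6)
            · linarith
            · push_cast; exact add_one_le_exp _
        _ = exp (3 * y ^ 2 + 3 + (u : ℝ) ^ 3 + 2 * (u : ℝ) ^ 3 + 3 * (u : ℝ) ^ 4) := by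
            simp only [exp_add]; ring
        _ ≤ exp (-(u : ℝ) + 5 * (u : ℝ) ^ 4) := exp_le_exp.2 (by linarith)
        _ ≤ _ := by rw [exp_add]; gcongr
    linarith
  · rw [pow_one, mul_comm (log 2), exp_nat_mul, exp_log two_pos] at u3
    have : ((2 * r + 1 : ℕ) : ℝ) ≤ (2 ^ u : ℕ) := by push_cast; nlinarith
    exact_mod_cast this

lemma scale_num (c m : ℕ) {η : ℝ} (hη : 0 < η) (Q₁ : ℝ) (u₀ : ℕ) : ∀ᶠ L : ℝ in atTop,
    ∃ u x : ℕ, u₀ ≤ u ∧ exp L ≤ (u : ℝ) ^ 5 ∧ 5 * (u : ℝ) ^ 4 + √(exp L) ≤ exp L ∧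
      c * u + 1 ≤ √(exp L) ∧ u ^ c ≤ x ∧ log x ^ 4 ≤ u ∧ exp (L ^ 5) * exp L ^ m ≤ x / 2 ∧
      8 * (x : ℝ) ^ c ≤ exp √(exp L) ∧ exp L ^ m ≤ exp √(exp L) ∧ 4 * √(exp L) ≤ exp L ∧
      √(exp L) ≤ η * exp L ∧ max Q₁ 4 ≤ exp (L ^ 5) ∧ 2 ≤ exp L := by
  have p5 : (0 : ℝ) < 1 / 5 := by norm_num
  have p2 : (0 : ℝ) < 1 / 2 := by norm_num
  filter_upwards [ev_pow_exp u₀ 0 p5, ev_pow_exp 81 0 p5, ev_pow_exp (2 * c + 1) 0 p5,
    ev_pow_exp 16 24 p5, ev_pow_exp (3 + 2 * c) 6 p2, ev_pow_exp m 1 p2, ev_pow_exp 4 0 p2,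
    ev_pow_exp η⁻¹ 0 p2, eventually_ge_atTop (max Q₁ 4), eventually_ge_atTop (c : ℝ),
    eventually_ge_atTop ((m : ℝ) + 2)] with L a1 a2 a3 a4 a5 a6 a7 a8 a9 a10 a11
  simp only [pow_zero, mul_one, pow_one] at a1 a2 a3 a6 a7 a8
  have L1 : 4 ≤ L := le_of_max_le_right a9
  have c0 : (0 : ℝ) ≤ c := Nat.cast_nonneg _
  have m0 : (0 : ℝ) ≤ m := Nat.cast_nonneg _
  have es : √(exp L) = exp (1 / 2 * L) := by rw [← exp_half]; congr 1; ring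
  have e2 : exp L = exp (1 / 2 * L) * exp (1 / 2 * L) := by rw [← exp_add]; congr 1; ring
  set t := exp (1 / 5 * L) with ht
  have e5 : exp L = t ^ 5 := by rw [ht, ← exp_nat_mul]; congr 1; push_cast; ring
  have e6 : exp (1 / 2 * L) ≤ t ^ 4 := by
    rw [ht, ← exp_nat_mul]; exact exp_le_exp.2 (by push_cast; linarith)
  have e7 : t ^ 2 ≤ exp (1 / 2 * L) := by
    rw [ht, ← exp_nat_mul]; exact exp_le_exp.2 (by push_cast; linarith)
  have u1 : t ≤ ⌈t⌉₊ := Nat.le_ceil _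
  have u2 : (⌈t⌉₊ : ℝ) ≤ 2 * t := by linarith [Nat.ceil_lt_add_one (a := t) (by linarith)]
  have x1 : exp (L ^ 6) ≤ ⌈exp (L ^ 6)⌉₊ := Nat.le_ceil _
  have L6 : 1 ≤ L ^ 6 := one_le_pow₀ (by linarith)
  have L5 : L ≤ L ^ 5 := le_self_pow₀ (by linarith) (by norm_num)
  have x2 : (⌈exp (L ^ 6)⌉₊ : ℝ) ≤ exp (2 * L ^ 6) := by
    have := Nat.ceil_lt_add_one (exp_pos (L ^ 6)).le
    rw [two_mul, exp_add]
    nlinarith [add_one_le_exp (L ^ 6)]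
  have s0 := exp_pos (1 / 2 * L)
  rw [es]
  refine ⟨⌈t⌉₊, ⌈exp (L ^ 6)⌉₊, by exact_mod_cast a1.trans u1, ?_, ?_, ?_, ?_, ?_, ?_, ?_, ?_,
    ?_, ?_, a9.trans (by linarith [add_one_le_exp (L ^ 5)]), by linarith [add_one_le_exp L]⟩
  · rw [e5]; gcongr
  · have : (⌈t⌉₊ : ℝ) ^ 4 ≤ (2 * t) ^ 4 := by gcongr
    have : 81 * t ^ 4 ≤ t * t ^ 4 := by gcongr
    rw [e5]; linarith
  · have : (c : ℝ) * ⌈t⌉₊ ≤ c * (2 * t) := by gcongr
    nlinarith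
  · have : (⌈t⌉₊ : ℝ) ^ c ≤ ⌈exp (L ^ 6)⌉₊ := by
      calc _ ≤ exp L ^ c := by
            gcongr
            have : 2 * t ≤ t ^ 4 * t := by
              gcongr; linarith [add_one_le_exp (1 / 2 * L)]
            rw [e5]; linarith
        _ = exp (c * L) := (exp_nat_mul _ _).symm
        _ ≤ exp (L ^ 6) := exp_le_exp.2 (by nlinarith)
        _ ≤ _ := x1
    exact_mod_cast this
  · have h1 : log ⌈exp (L ^ 6)⌉₊ ≤ 2 * L ^ 6 :=
      (log_le_iff_le_exp ((exp_pos _).trans_le x1)).2 x2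
    calc _ ≤ (2 * L ^ 6) ^ 4 := by gcongr
      _ = 16 * L ^ 24 := by ring
      _ ≤ _ := a4.trans u1
  · rw [le_div_iff₀ two_pos]
    refine le_trans ?_ x1
    calc _ ≤ exp (L ^ 5) * exp L ^ m * exp 1 := by gcongr; linarith [add_one_le_exp (1 : ℝ)]
      _ = exp (L ^ 5 + m * L + 1) := by rw [← exp_nat_mul, ← exp_add, ← exp_add]
      _ ≤ _ := exp_le_exp.2 (by nlinarith)
  · calc _ ≤ exp 3 * exp (2 * L ^ 6) ^ c := by
          gcongr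
          have := add_one_le_exp (1 : ℝ)
          calc (8 : ℝ) = 2 ^ 3 := by norm_num
            _ ≤ exp 1 ^ 3 := by gcongr; linarith
            _ = _ := by rw [exp_one_pow]; norm_num
      _ = exp (3 + c * (2 * L ^ 6)) := by rw [← exp_nat_mul, ← exp_add]
      _ ≤ _ := exp_le_exp.2 (by nlinarith)
  · rw [← exp_nat_mul]; exact exp_le_exp.2 a6
  · rw [e2]; gcongr
  · rw [e2, ← mul_assoc]
    exact le_mul_of_one_le_left s0.le ((inv_le_iff_one_le_mul₀' hη).1 a8)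

end Pool.Agent.Work.MP_d018b2_nt.U
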