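import Pool.Agent.Work.MP_d018b2_nt.UCore
import Pool.Agent.Work.MP_d018b2_nt.UExc

/-! Centred divisor sums in short segments of progressions. -/

set_option autoImplicit false
open Filter Topology Finset MeasureTheory

namespace Pool.Agent.Work.MP_d018b2_nt.U

open Pool.Agent.Lib.MR Pool.Agent.Lib.LargeSieve Pool.Agent.Work.MP_ca0f09_nt
open Pool.Agent.Work.MP_51e72e_nt.LT

lemma window_one (g : ℕ → ℂ) {M i : ℕ} (hi : i < M) (c y : ℕ) :
    ∑ j ∈ range M, res M c g (c + M * y + i + 1 + j) = g (c + M * (y + 1)) := by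
  rw [sum_eq_single (M - 1 - i)]
  · have e : c + M * y + i + 1 + (M - 1 - i) = c + M * (y + 1) := by
      rw [mul_add, mul_one]; omega
    rw [e, res, if_pos]
    exact (Nat.modEq_iff_dvd' (Nat.le_add_right _ _)).2 (by simp) |>.symm
  · intro j hj hne
    rw [res, if_neg]
    intro h
    have h1 := (Nat.modEq_iff_dvd' (by omega)).1 h.symm
    have e : c + M * y + i + 1 + j - c = M * y + (i + 1 + j) := by omega
    rw [e] at h1
    obtain ⟨t, ht⟩ := (Nat.dvd_add_right (dvd_mul_right M y)).1 h1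
    have hj' := mem_range.1 hj
    rcases t with _ | _ | t
    · omega
    · omega
    · have : M * (t + 1 + 1) = M * t + 2 * M := by ring
      omega
  · intro h
    exact absurd (mem_range.2 (by omega)) h

lemma window_eq (g : ℕ → ℂ) {M i : ℕ} (hi : i < M) (c y H : ℕ) :
    ∑ j ∈ range (M * H), res M c g (c + M * y + i + 1 + j)
      = ∑ j ∈ range H, g (c + M * (y + 1 + j)) := by
  induction H with
  | zero => simp
  | succ H ih =>
    rw [mul_add, mul_one, sum_range_add, ih, sum_range_succ]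
    congr 1
    have := window_one g hi c (y + H)
    rw [show y + H + 1 = y + 1 + H by ring] at this
    rw [← this]
    refine sum_congr rfl fun j _ => ?_
    congr 1
    ring

lemma short_of_MS {g : ℕ → ℂ} (hg : ∀ n, ‖g n‖ ≤ 1) {M c H X : ℕ} (hc : c < M) {η k : ℝ}
    (hη : 0 < η) (hk : 0 < k) (hH : 4 * (1 + M * k) ≤ η * H) (hX : 2 ≤ η * X) (hHX : H + 2 ≤ X)
    (hMS : MS (((X + 2 + H : ℕ) : ℝ) / k) Set.univ (DP (Icc 1 (M * (X + 2 + H))) (res M c g))
      ≤ η ^ 3 / 8 * ((X + 2 + H : ℕ) : ℝ) ^ 2) :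
    ∑ y ∈ range X, ‖∑ j ∈ range H, g (c + M * (y + j))‖ ≤ 6 * η * H * X := by
  have hM : 0 < M := by omega
  have hMr : (0 : ℝ) < M := by exact_mod_cast hM
  have a3' : (H : ℝ) + 2 ≤ X := by exact_mod_cast hHX
  have H0 : (0 : ℝ) ≤ H := by positivity
  have Xpos : (0 : ℝ) < X := by linarith
  have ηH : 0 < η * H := lt_of_lt_of_le (by positivity) hH
  set x₀ := ⌈η * X⌉₊ with hx₀
  have x1 : η * X ≤ x₀ := Nat.le_ceil _
  have x2 : (x₀ : ℝ) < η * X + 1 := Nat.ceil_lt_add_one (by positivity)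
  have x3 : 1 ≤ x₀ := Nat.ceil_pos.2 (by positivity)
  have Tpos : (0 : ℝ) < ((X + 2 + H : ℕ) : ℝ) / k := by push_cast; positivity
  have b1 := short_le_MS (norm_res_le (M := M) (a := c) hg) Tpos (x₀ := M * x₀)
    (Nat.mul_pos hM x3) (M * (X + 2)) (M * H)
  have b2 : (((M * (X + 2) : ℕ) : ℝ) + (M * H : ℕ)) / (((X + 2 + H : ℕ) : ℝ) / k) = M * k := by
    push_cast; field_simp
  rw [b2, ← mul_add M] at b1
  have b0 : (M : ℝ) * ∑ y ∈ Icc x₀ X, ‖∑ j ∈ range H, g (c + M * (y + 1 + j))‖ ^ 2 ≤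
      ∑ x ∈ Icc (M * x₀) (M * (X + 2)), ‖∑ j ∈ range (M * H), res M c g (x + 1 + j)‖ ^ 2 := by
    have e : (M : ℝ) * ∑ y ∈ Icc x₀ X, ‖∑ j ∈ range H, g (c + M * (y + 1 + j))‖ ^ 2 =
        ∑ p ∈ Icc x₀ X ×ˢ range M, ‖∑ j ∈ range H, g (c + M * (p.1 + 1 + j))‖ ^ 2 := by
      rw [sum_product, mul_sum]
      exact sum_congr rfl fun y _ => by simp
    rw [e]
    refine sum_le_of_inj (fun p : ℕ × ℕ => c + M * p.1 + p.2) (fun p hp => ?_)
      (fun p hp q hq h => ?_) (fun p hp => ?_) fun _ _ => by positivity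
    · obtain ⟨h1, h2⟩ := mem_product.1 hp
      have h3 := Nat.mul_le_mul_left M (mem_Icc.1 h1).1
      have h4 := Nat.mul_le_mul_left M (mem_Icc.1 h1).2
      have h5 := mem_range.1 h2
      rw [mem_Icc, mul_add]
      omega
    · have h1 := mem_range.1 (mem_product.1 hp).2
      have h2 := mem_range.1 (mem_product.1 hq).2
      have h3 : M * p.1 + p.2 = M * q.1 + q.2 := by simp only at h; omega
      have h4 := congrArg (· / M) h3
      have h5 := congrArg (· % M) h3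
      simp only [Nat.mul_add_div hM, Nat.div_eq_of_lt h1, Nat.div_eq_of_lt h2, add_zero,
        Nat.mul_add_mod, Nat.mod_eq_of_lt h1, Nat.mod_eq_of_lt h2] at h4 h5
      exact Prod.ext h4 h5
    · rw [window_eq g (mem_range.1 (mem_product.1 hp).2)]
  have b3 : 2 * ((M * H : ℕ) : ℝ) ^ 2 / (Real.pi * (M * x₀ : ℕ)) *
      MS (((X + 2 + H : ℕ) : ℝ) / k) Set.univ (DP (Icc 1 (M * (X + 2 + H))) (res M c g))
        ≤ M * (η ^ 2 * H ^ 2 * X) := by
    have c1 : 2 * ((M * H : ℕ) : ℝ) ^ 2 / (Real.pi * (M * x₀ : ℕ)) ≤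
        2 * ((M : ℝ) * H) ^ 2 / (1 * (M * (η * X))) := by
      push_cast
      gcongr
      linarith [Real.pi_gt_three]
    have c2 : η ^ 3 / 8 * ((X + 2 + H : ℕ) : ℝ) ^ 2 ≤ η ^ 3 / 8 * (2 * X) ^ 2 := by
      gcongr; push_cast; linarith
    calc _ ≤ 2 * ((M : ℝ) * H) ^ 2 / (1 * (M * (η * X))) * (η ^ 3 / 8 * (2 * X) ^ 2) :=
          mul_le_mul c1 (hMS.trans c2) (MS_nonneg _ _ _) (by positivity)
      _ = _ := by field_simp; ring
  have b4 : 8 * ((M * (X + 2) : ℕ) : ℝ) * (1 + M * k) ^ 2 ≤ M * (η ^ 2 * H ^ 2 * X) := by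
    have h1 : (4 * (1 + M * k)) ^ 2 ≤ (η * H) ^ 2 := by gcongr
    have h2 : ((X : ℝ) + 2) * (8 * (1 + M * k) ^ 2) ≤ (2 * X) * ((η * H) ^ 2 / 2) :=
      mul_le_mul (by linarith) (by linarith) (by positivity) (by positivity)
    push_cast
    nlinarith
  have b5 := shortOps_split (F := fun y => ‖∑ j ∈ range H, g (c + M * (y + j))‖) (B := H)
    (fun _ => norm_nonneg _) (fun y => shortOps_norm_le (g := fun t => g (c + M * t))
      (fun _ => hg _) y H) x₀ X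
  have b6 : ∑ x ∈ Icc x₀ X, ‖∑ j ∈ range H, g (c + M * (x + 1 + j))‖ ≤
      X * (η * H) + (∑ x ∈ Icc x₀ X, ‖∑ j ∈ range H, g (c + M * (x + 1 + j))‖ ^ 2) / (η * H) := by
    have c1 : ∑ x ∈ Icc x₀ X, η * H ≤ X * (η * H) := by
      rw [sum_const, nsmul_eq_mul]
      gcongr
      rw [Nat.card_Icc]
      exact_mod_cast (by omega : X + 1 - x₀ ≤ X)
    refine le_trans ?_ (add_le_add c1 le_rfl)
    rw [sum_div, ← sum_add_distrib]
    refine sum_le_sum fun x _ => ?_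
    generalize ‖∑ j ∈ range H, g (c + M * (x + 1 + j))‖ = a
    rw [← sub_le_iff_le_add', le_div_iff₀ ηH]
    nlinarith [sq_nonneg (a - η * H), sq_nonneg a]
  have b7 : (∑ x ∈ Icc x₀ X, ‖∑ j ∈ range H, g (c + M * (x + 1 + j))‖ ^ 2) / (η * H)
      ≤ 2 * η * H * X := by
    rw [div_le_iff₀ ηH]
    refine le_of_mul_le_mul_left ?_ hMr
    calc _ ≤ _ := b0
      _ ≤ _ := b1
      _ ≤ M * (η ^ 2 * H ^ 2 * X) + M * (η ^ 2 * H ^ 2 * X) := add_le_add b3 b4
      _ = _ := by ring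
  have b8 : ((x₀ : ℝ) + 1) * H ≤ 2 * (η * X) * H := by
    gcongr; linarith
  have b9 : 0 ≤ η * H * X := by positivity
  linarith

/-- The bilinear decomposition with explicit parameters. -/
lemma core_num {g : ℕ → ℂ} (hg : ∀ n, ‖g n‖ ≤ 1) {M a Y : ℕ} {ε α β A l : ℝ}
    (hm : ∀ p ∈ primesIn (Real.exp (l ^ 2)) (Real.exp (l ^ 4)), ∀ m, g (p * m) = g m)
    (hε : 0 < ε) (hε1 : ε ≤ 1) (hα : 0 < α) (hα1 : α ≤ 1) (hαβ : 6 * α ≤ β) (hA : 0 ≤ A)
    (hM : 0 < M) (hMA : (M : ℝ) ≤ Real.exp (A * l)) (hl : A + 2 ≤ l)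
    (hlog : 50 + 8000 / ε ≤ Real.log l) (hαl : 200 + 4 * A ≤ α * l)
    (hC : 360 / ((ε / 8000) ^ 2 * ε) * l ^ 8 ≤ Real.exp l)
    (hD : 30 / (ε / 8000) * l ^ 4 ≤ Real.exp l) (hE : (A + 1) * l ≤ α * (Real.exp l / 2))
    (hF : 4 * l ^ 4 ≤ Real.exp l) (hY : Real.exp (Real.exp l / 2) ≤ Y)
    (hX : Real.log ((M * Y : ℕ) : ℝ) ≤ 2 * Real.exp l) :
    ∃ U : Set ℝ, MeasurableSet U ∧
      (cm (Y / Real.exp (l ^ 4))).real U ≤ ((M * Y : ℕ) : ℝ) ^ β ∧
      MS (Y / Real.exp (l ^ 4)) Uᶜ (DP (Icc 1 (M * Y)) (res M a g)) ≤ ε * (Y : ℝ) ^ 2 := by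
  set κ : ℝ := ε / 8000 with hκdef
  have hκ : 0 < κ := by positivity
  have hκ1 : κ ≤ 1 := by rw [hκdef]; linarith
  have hl2 : 2 ≤ l := by linarith
  have hMr : (1 : ℝ) ≤ M := by exact_mod_cast hM
  have hY0 : (0 : ℝ) < Y := lt_of_lt_of_le (Real.exp_pos _) hY
  have hLL := Core_LL hl2
  have hdiv : 0 < 8000 / ε := by positivity
  have hL1 : 8000 / ε ≤ LL (Real.exp (l ^ 2)) (Real.exp (l ^ 4)) := by linarith
  have hL2 : 1 ≤ LL (Real.exp (l ^ 2)) (Real.exp (l ^ 4)) := by linarith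
  have hl22 : 2 ≤ l ^ 2 := by nlinarith
  have hYX : (Y : ℝ) ≤ ((M * Y : ℕ) : ℝ) := by
    push_cast; exact le_mul_of_one_le_left hY0.le hMr
  have hX1 : (1 : ℝ) ≤ ((M * Y : ℕ) : ℝ) :=
    (Real.one_le_exp (by positivity)).trans (hY.trans hYX)
  obtain ⟨U, u1, u2, u3⟩ := core_AP hg (X := M * Y) (M := M) (a := a) (κ := κ)
    (T := Y / Real.exp (l ^ 4)) (α := α) hm hM
    (hMA.trans_lt (Real.exp_lt_exp.2 (by nlinarith))) hκ hκ1 hL2 (Core_two_le hl2)
    (Real.one_le_exp (by positivity))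
    (by
      have : Real.exp (l ^ 4) ^ 2 ≤ Y := by
        refine le_trans ?_ hY
        rw [← Real.exp_nat_mul]
        exact Real.exp_le_exp.2 (by push_cast; linarith)
      push_cast
      nlinarith)
    (by positivity) (le_of_eq (by push_cast; field_simp)) hα.le hα1
    (by
      have h1 : l ^ 2 / 2 ≤ Real.log (Real.exp (l ^ 2) / 2) := by
        rw [Real.le_log_iff_exp_le (by positivity)]
        exact Core_half hl22
      have h0 := Real.log_nonneg hX1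
      have h2 : Real.log (8 * Real.log ((M * Y : ℕ) : ℝ) + 16) ≤ 31 + l := by
        rw [Real.log_le_iff_le_exp (by positivity), Real.exp_add]
        have h3 := Real.add_one_le_exp (31 : ℝ)
        have h4 : 1 ≤ Real.exp l := Real.one_le_exp (by linarith)
        nlinarith
      have h3 : α * (l ^ 2 / 2) ≤ α * Real.log (Real.exp (l ^ 2) / 2) := by gcongr
      nlinarith)
  have hn := Core_card (r := l) hκ hκ1 (le_refl (1 : ℝ)) (Real.exp (l ^ 2))
  rw [div_one] at hn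
  set n : ℝ := ((idx κ (Real.exp (l ^ 2)) (Real.exp (l ^ 4))).card : ℝ) with hndef
  have hn0 : 0 ≤ n := by positivity
  have hr4 : 1 ≤ l ^ 4 := one_le_pow₀ (by linarith)
  have hn1 : n ≤ 3 * l ^ 4 / κ := by
    have h1 : 1 ≤ l ^ 4 / κ := by rw [le_div_iff₀ hκ]; linarith
    have h2 : 2 * l ^ 4 * 1 / κ = 2 * (l ^ 4 / κ) := by ring
    have h3 : 3 * l ^ 4 / κ = 3 * (l ^ 4 / κ) := by ring
    linarith
  refine ⟨U, u1, u2.trans ?_, u3.trans ?_⟩
  · have h1 : 10 * M * n ≤ ((M * Y : ℕ) : ℝ) ^ α := by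
      calc 10 * M * n ≤ 10 * Real.exp (A * l) * (3 * l ^ 4 / κ) := by gcongr
        _ = Real.exp (A * l) * (30 / κ * l ^ 4) := by ring
        _ ≤ Real.exp (A * l) * Real.exp l := by gcongr
        _ ≤ Real.exp (Real.exp l / 2) ^ α := by
          rw [← Real.exp_add, ← Real.exp_mul]
          exact Real.exp_le_exp.2 (by linarith)
        _ ≤ _ := Real.rpow_le_rpow (Real.exp_pos _).le (hY.trans hYX) hα.le
    have h6 : ((M * Y : ℕ) : ℝ) ^ α * ((M * Y : ℕ) : ℝ) ^ (5 * α) ≤ ((M * Y : ℕ) : ℝ) ^ β := by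
      rw [← Real.rpow_add (by linarith)]
      exact Real.rpow_le_rpow_of_exponent_le hX1 (by linarith)
    exact le_trans (mul_le_mul_of_nonneg_right h1 (by positivity)) h6
  · have hinv : 1 / LL (Real.exp (l ^ 2)) (Real.exp (l ^ 4)) ≤ κ := by
      rw [div_le_iff₀ (by linarith)]
      have : κ * (8000 / ε) = 1 := by rw [hκdef]; field_simp
      nlinarith
    have hp := Core_rpow_le (t := l ^ 2) (a := 2 * α) hl22 (by positivity)
    set p : ℝ := (Real.exp (l ^ 2) / 2) ^ (-(2 * α)) with hpdef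
    have hp0 : 0 ≤ p := by positivity
    have key : 20 * n ^ 2 * (M : ℝ) ^ 4 * p ≤ ε / 2 := by
      have h3 : 20 * (3 * l ^ 4 / κ) ^ 2 = ε / 2 * (360 / (κ ^ 2 * ε) * l ^ 8) := by
        field_simp
        ring
      calc _ ≤ 20 * (3 * l ^ 4 / κ) ^ 2 * Real.exp (A * l) ^ 4
            * Real.exp (-(2 * α * l ^ 2 / 2)) := by gcongr
        _ ≤ ε / 2 * Real.exp l * Real.exp (A * l) ^ 4 * Real.exp (-(2 * α * l ^ 2 / 2)) := by
          rw [h3]; gcongr
        _ = ε / 2 * Real.exp (l + (4 : ℕ) * (A * l) + -(2 * α * l ^ 2 / 2)) := by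
          rw [Real.exp_add, Real.exp_add, Real.exp_nat_mul]; ring
        _ ≤ ε / 2 * 1 := by
          gcongr
          rw [Real.exp_le_one_iff]
          push_cast
          nlinarith
        _ = _ := mul_one _
    have e0 : ((M * Y : ℕ) : ℝ) / M = Y := by push_cast; field_simp
    have e1 : 20 * ((M : ℝ) * n) ^ 2 * ((M * Y : ℕ) : ℝ) ^ 2 * p
        = (20 * n ^ 2 * (M : ℝ) ^ 4 * p) * (Y : ℝ) ^ 2 := by push_cast; ring
    have e2 : 2000 * (Y : ℝ) ^ 2 * (1 / LL (Real.exp (l ^ 2)) (Real.exp (l ^ 4)) + κ)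
        ≤ 2000 * (Y : ℝ) ^ 2 * (κ + κ) := by gcongr
    rw [e0, e1]
    have hY2 : (0 : ℝ) ≤ (Y : ℝ) ^ 2 := by positivity
    have e3 : 2000 * (Y : ℝ) ^ 2 * (κ + κ) = ε / 2 * (Y : ℝ) ^ 2 := by rw [hκdef]; ring
    linarith [mul_le_mul_of_nonneg_right key hY2]

theorem short_G {η : ℝ} (hη : 0 < η) (A : ℕ) {ε : ℝ} (hε : 0 < ε) :
    ∀ᶠ N : ℕ in atTop, ∀ φ : ℕ → ℝ, (∀ j, |φ j| ≤ 1) →
      (∀ j, φ j ≠ 0 → Rough ((N : ℝ) ^ η) j) →
      ShortAP (fun n => ((Gc η φ (dl φ N) n : ℝ) : ℂ)) ε (Real.log N ^ A)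
        (Real.exp (Real.log (Real.log N) ^ 5)) (Real.exp (√(Real.log N)))
        (N / Real.exp (√(Real.log N))) (N * Real.exp (2 * √(Real.log N))) := by
  obtain ⟨δ, hδ, rfl⟩ : ∃ δ : ℝ, 0 < δ ∧ ε = 6 * δ := ⟨ε / 6, by positivity, by ring⟩
  set e : ℝ := min (δ ^ 3 / 16) 1 with hedef
  have he : 0 < e := lt_min (by positivity) one_pos
  have he1 : e ≤ 1 := min_le_right _ _
  have he2 : e ≤ δ ^ 3 / 16 := min_le_left _ _
  obtain ⟨β, hβ, θ, hθ, hE⟩ := exc_AP (η := min (η / 2) (1 / 10))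
    (lt_min (by positivity) (by norm_num)) (min_le_right _ _) (2 * A) he
  obtain ⟨X₀, hX₀⟩ := eventually_atTop.1 hE
  set α : ℝ := min (β / 6) 1 with hαdef
  have hα : 0 < α := lt_min (by positivity) one_pos
  have hα1 : α ≤ 1 := min_le_right _ _
  have hαβ : 6 * α ≤ β := by
    have : α ≤ β / 6 := min_le_left _ _
    linarith
  have hA0 : (0 : ℝ) ≤ A := by positivity
  have hll : Tendsto (fun X : ℕ => Real.log (Real.log X)) atTop atTop :=
    Real.tendsto_log_atTop.comp (Real.tendsto_log_atTop.comp tendsto_natCast_atTop_atTop)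
  have hevl : ∀ᶠ l : ℝ in atTop, (A : ℝ) + 2 ≤ l ∧ 50 + 8000 / e ≤ Real.log l ∧
      200 + 4 * (A : ℝ) ≤ α * l ∧ 360 / ((e / 8000) ^ 2 * e) * l ^ 8 ≤ Real.exp (1 * l) ∧
      30 / (e / 8000) * l ^ 4 ≤ Real.exp (1 * l) ∧
      2 * (A + 1) / α * l ^ 1 ≤ Real.exp (1 * l) ∧ 4 * l ^ 4 ≤ Real.exp (1 * l) ∧
      1 / η * l ^ 4 ≤ Real.exp (1 * l) ∧ 8 / θ * l ^ 0 ≤ Real.exp (1 / 2 * l) ∧
      (A + 2) * l ^ 1 ≤ Real.exp (1 / 2 * l) ∧ 8 / δ * l ^ 0 ≤ Real.exp (1 * l) ∧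
      X₀ * l ^ 0 ≤ Real.exp (1 * l) := by
    filter_upwards [eventually_ge_atTop ((A : ℝ) + 2),
      Real.tendsto_log_atTop.eventually_ge_atTop (50 + 8000 / e),
      (tendsto_id.const_mul_atTop hα).eventually_ge_atTop (200 + 4 * (A : ℝ)),
      Core_poly_exp (360 / ((e / 8000) ^ 2 * e)) 8 (c := 1) one_pos,
      Core_poly_exp (30 / (e / 8000)) 4 (c := 1) one_pos,
      Core_poly_exp (2 * (A + 1) / α) 1 (c := 1) one_pos,
      Core_poly_exp 4 4 (c := 1) one_pos, Core_poly_exp (1 / η) 4 (c := 1) one_pos,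
      Core_poly_exp (8 / θ) 0 (c := 1 / 2) (by norm_num),
      Core_poly_exp (A + 2) 1 (c := 1 / 2) (by norm_num),
      Core_poly_exp (8 / δ) 0 (c := 1) one_pos, Core_poly_exp X₀ 0 (c := 1) one_pos]
      with l h1 h2 h3 h4 h5 h6 h7 h8 h9 h10 h11 h12
    exact ⟨h1, h2, h3, h4, h5, h6, h7, h8, h9, h10, h11, h12⟩
  filter_upwards [hll.eventually hevl, eventually_ge_atTop 2] with N hl hN2 φ h1 hφ
  intro M c H X hc hM hH0 hH1 hX0 hX1
  obtain ⟨l1, l2, l3, l4, l5, l6, l7, l8, l9, l10, l11, l12⟩ := hl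
  set l : ℝ := Real.log (Real.log N) with hldef
  simp only [one_mul, pow_zero, mul_one, pow_one] at l4 l5 l6 l7 l8 l9 l10 l11 l12
  have hN1 : (1 : ℝ) < N := by exact_mod_cast hN2
  have hN0 : (0 : ℝ) < N := by linarith
  have hNl : Real.log N = Real.exp l := (Real.exp_log (Real.log_pos hN1)).symm
  have hNe : (N : ℝ) = Real.exp (Real.exp l) := by rw [← hNl, Real.exp_log hN0]
  set s : ℝ := Real.exp (1 / 2 * l) with hsdef
  have hss : Real.exp l = s * s := by rw [hsdef, ← Real.exp_add]; congr 1; ring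
  have hs0 : 0 < s := Real.exp_pos _
  have hs : √(Real.log N) = s := by rw [hNl, hss, Real.sqrt_mul_self hs0.le]
  rw [hs] at hH1 hX0 hX1
  have hl2 : 2 ≤ l := by linarith
  have hAl : 0 ≤ A * l := mul_nonneg hA0 (by linarith)
  have hs4 : 4 ≤ s := by linarith
  have hss4 : 4 * s ≤ Real.exp l := by
    rw [hss]; exact mul_le_mul_of_nonneg_right hs4 hs0.le
  have hM0 : 0 < M := by omega
  have hMr : (1 : ℝ) ≤ M := by exact_mod_cast hM0
  have hMA : (M : ℝ) ≤ Real.exp (A * l) := by rwa [hNl, ← Real.exp_nat_mul] at hM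
  have hXlo : Real.exp (Real.exp l - s) ≤ X := by rwa [Real.exp_sub, ← hNe]
  have hXhi : (X : ℝ) ≤ Real.exp (Real.exp l + 2 * s) := by rwa [Real.exp_add, ← hNe]
  have hL2 : Real.exp l / 2 ≤ Real.exp l - s := by linarith
  have hXlo2 : Real.exp (Real.exp l / 2) ≤ X := (Real.exp_le_exp.2 hL2).trans hXlo
  have hl4 : l ≤ l ^ 4 := le_self_pow₀ (by linarith) (by norm_num)
  have hXlo3 : Real.exp l ≤ X := (Real.exp_le_exp.2 (by linarith)).trans hXlo2
  have hHX : H + 2 ≤ X := by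
    have a1 : Real.exp (s + s) ≤ Real.exp (Real.exp l - s) := Real.exp_le_exp.2 (by linarith)
    have a2 := Real.add_one_le_exp s
    rw [Real.exp_add] at a1
    have a3 : 5 * Real.exp s ≤ Real.exp s * Real.exp s :=
      mul_le_mul_of_nonneg_right (by linarith) (Real.exp_pos _).le
    have : (H : ℝ) + 2 ≤ X := by linarith
    exact_mod_cast this
  have hHX' : (H : ℝ) + 2 ≤ X := by exact_mod_cast hHX
  have hH0' : (0 : ℝ) ≤ H := by positivity
  set Y : ℕ := X + 2 + H with hYdef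
  have hXY : (X : ℝ) ≤ Y := by rw [hYdef]; push_cast; linarith
  have hY2 : (Y : ℝ) ≤ 2 * X := by rw [hYdef]; push_cast; linarith
  have hY0 : (0 : ℝ) < Y := lt_of_lt_of_le (Real.exp_pos _) (hXlo.trans hXY)
  have hYZ : (Y : ℝ) ≤ ((M * Y : ℕ) : ℝ) := by
    push_cast; exact le_mul_of_one_le_left hY0.le hMr
  have hZ0 : (0 : ℝ) < ((M * Y : ℕ) : ℝ) := hY0.trans_le hYZ
  have hZhi : Real.log ((M * Y : ℕ) : ℝ) ≤ Real.exp l + 4 * s := by
    rw [Real.log_le_iff_le_exp hZ0]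
    have a2 := Real.add_one_le_exp (1 : ℝ)
    calc ((M * Y : ℕ) : ℝ) = M * Y := by push_cast; ring
      _ ≤ Real.exp (A * l) * (Real.exp 1 * Real.exp (Real.exp l + 2 * s)) := by
        refine mul_le_mul hMA (hY2.trans ?_) hY0.le (by positivity)
        exact mul_le_mul (by linarith) hXhi (by positivity) (by positivity)
      _ ≤ _ := by
        rw [← Real.exp_add, ← Real.exp_add]
        exact Real.exp_le_exp.2 (by linarith)
  have hZlo : Real.exp l - s ≤ Real.log ((M * Y : ℕ) : ℝ) := by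
    rw [Real.le_log_iff_exp_le hZ0]
    exact hXlo.trans (hXY.trans hYZ)
  have hZ2 : Real.log ((M * Y : ℕ) : ℝ) ≤ 2 * Real.exp l := by linarith
  have hZN : M * Y ≤ N * N := by
    have : ((M * Y : ℕ) : ℝ) ≤ (N : ℝ) * N := by
      rw [hNe, ← Real.exp_add, ← Real.log_le_iff_le_exp hZ0]
      linarith
    exact_mod_cast this
  have hb : ∀ n : ℕ, ‖((Gc η φ (dl φ N) n : ℝ) : ℂ)‖ ≤ 1 := fun n => by
    rw [Complex.norm_real]; exact abs_clamp_le _
  have hθs : 8 * s ≤ θ * Real.exp l := by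
    rw [div_le_iff₀ hθ] at l9
    rw [hss]
    linarith [mul_le_mul_of_nonneg_right l9 hs0.le]
  have hθZ : θ * (Real.exp l / 2) ≤ θ * Real.log ((M * Y : ℕ) : ℝ) := by
    gcongr; linarith
  obtain ⟨U, u1, u2, u3⟩ := core_num (g := fun n => ((Gc η φ (dl φ N) n : ℝ) : ℂ)) hb
    (M := M) (a := c) (Y := Y) (ε := e) (α := α) (β := β) (A := A) (l := l)
    (fun p hp m => by
      obtain ⟨p1, -, p2⟩ := mem_primesIn.1 hp
      have p3 : (p : ℝ) ≤ (N : ℝ) ^ η := by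
        refine p2.trans ?_
        rw [Real.rpow_def_of_pos hN0, hNl]
        rw [div_mul_eq_mul_div, one_mul, div_le_iff₀ hη] at l8
        exact Real.exp_le_exp.2 l8
      rw [Gc, Gc, Fd_mul hφ p1.pos p3])
    he he1 hα hα1 hαβ hA0 hM0 hMA l1 l2 l3 l4 l5
    (by
      rw [div_mul_eq_mul_div, div_le_iff₀ hα] at l6
      linarith)
    l7 (hXlo2.trans hXY) hZ2
  have hk1 : 1 ≤ Real.exp (l ^ 4) := Real.one_le_exp (by positivity)
  have e0 : ((M * Y : ℕ) : ℝ) / M = Y := by push_cast; field_simp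
  have a5 := hX₀ (M * Y)
    (by
      have : (X₀ : ℝ) ≤ ((M * Y : ℕ) : ℝ) := l12.trans (hXlo3.trans (hXY.trans hYZ))
      exact_mod_cast this) N
    (by
      rw [Real.rpow_def_of_pos hZ0, hNe]
      exact Real.exp_le_exp.2 (by linarith))
    (by
      rw [Real.rpow_def_of_pos hZ0, hNe]
      exact Real.exp_le_exp.2 (by linarith))
    φ h1
    (fun j hj => (hφ j hj).mono (by
      rw [Real.rpow_def_of_pos hZ0, Real.rpow_def_of_pos hN0, hNl]
      refine Real.exp_le_exp.2 ?_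
      have a1 : min (η / 2) (1 / 10) ≤ η / 2 := min_le_left _ _
      have a2 : 0 ≤ min (η / 2) (1 / 10) := le_min (by positivity) (by norm_num)
      calc _ ≤ 2 * Real.exp l * (η / 2) := mul_le_mul hZ2 a1 a2 (by positivity)
        _ = _ := by ring))
    M c hM0
    (by
      rw [pow_mul]
      refine hM.trans (pow_le_pow_left₀ (Real.log_pos hN1).le ?_ _)
      rw [hNl]
      have a1 := pow_le_pow_left₀ (by positivity) (hL2.trans hZlo) 2
      have a3 : 16 * Real.exp l ≤ Real.exp l * Real.exp l :=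
        mul_le_mul_of_nonneg_right (by linarith) (Real.exp_pos _).le
      linarith [Real.exp_pos l])
    (Y / Real.exp (l ^ 4)) (by positivity) (by rw [e0]; exact div_le_self hY0.le hk1) U u1 u2
  rw [e0] at a5
  have a6 := MS_le_of_le (Trig.DP (Icc 1 (M * Y))
      (res M c fun n => ((Gc η φ (dl φ N) n : ℝ) : ℂ))) (Trig.DP (Icc 1 (M * Y))
      (res M c fun n => ((Fd φ n - dl φ N : ℝ) : ℂ))) (Y / Real.exp (l ^ 4)) u1 (c := 1)
    (fun u _ => by
      have e : DP (Icc 1 (M * Y)) (res M c fun n => ((Gc η φ (dl φ N) n : ℝ) : ℂ)) u =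
          (((BB η)⁻¹ : ℝ) : ℂ) *
            DP (Icc 1 (M * Y)) (res M c fun n => ((Fd φ n - dl φ N : ℝ) : ℂ)) u := by
        unfold DP res
        rw [mul_sum]
        refine sum_congr rfl fun n hn => ?_
        split_ifs
        · beta_reduce
          rw [Gc_eq hη h1 hN2 hφ (abs_dl_le' hη h1 hN2 hφ) ((mem_Icc.1 hn).2.trans hZN),
            div_eq_mul_inv, Complex.ofReal_mul]
          ring
        · simp
      rw [e, norm_mul, Complex.norm_real]
      refine mul_le_mul_of_nonneg_right ?_ (norm_nonneg _)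
      have := one_le_BB η
      rw [Real.norm_of_nonneg (by positivity)]
      exact inv_le_one_of_one_le₀ this)
  have a7 := MS_union_le (Trig.DP (Icc 1 (M * Y))
    (res M c fun n => ((Gc η φ (dl φ N) n : ℝ) : ℂ))) (Y / Real.exp (l ^ 4)) U Uᶜ
  rw [Set.union_compl_self] at a7
  rw [div_le_iff₀ hδ] at l11
  refine short_of_MS (g := fun n => ((Gc η φ (dl φ N) n : ℝ) : ℂ)) hb hc hδ
    (Real.exp_pos (l ^ 4)) ?_ ?_ hHX ?_
  · have b1 : l * l ≤ l ^ 4 := by
      rw [← sq]; exact pow_le_pow_right₀ (by linarith) (by norm_num)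
    have b2 : A * l + l ^ 4 + l ≤ l ^ 5 := by
      have c1 := mul_le_mul_of_nonneg_right hl2 (by positivity : 0 ≤ l ^ 4)
      have c2 := mul_le_mul_of_nonneg_right l1 (by linarith : 0 ≤ l)
      linarith
    have b3 : 1 ≤ M * Real.exp (l ^ 4) := one_le_mul_of_one_le_of_one_le hMr hk1
    calc 4 * (1 + M * Real.exp (l ^ 4)) ≤ 8 * (M * Real.exp (l ^ 4)) := by linarith
      _ ≤ Real.exp l * δ * (Real.exp (A * l) * Real.exp (l ^ 4)) := by gcongr
      _ = δ * Real.exp (A * l + l ^ 4 + l) := by rw [Real.exp_add, Real.exp_add]; ring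
      _ ≤ δ * H := by
        gcongr
        exact (Real.exp_le_exp.2 b2).trans hH0
  · linarith [mul_le_mul_of_nonneg_right hXlo3 hδ.le]
  · have : e * (Y : ℝ) ^ 2 ≤ δ ^ 3 / 16 * (Y : ℝ) ^ 2 := by gcongr
    change MS (Y / Real.exp (l ^ 4)) _ (DP (Icc 1 (M * Y)) _) ≤ δ ^ 3 / 8 * (Y : ℝ) ^ 2
    linarith

end Pool.Agent.Work.MP_d018b2_nt.U
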