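import Pool.Agent.Work.MP_d018b2_nt.USys3

/-! The divisor system from numerical conditions on its parameters. -/

set_option autoImplicit false
open Filter Topology Finset

namespace Pool.Agent.Work.MP_d018b2_nt.U.Sy

open Pool.Agent.Work.MP_ca0f09_nt

variable {Z : ℝ}

theorem markov (hZ : 0 ≤ Z) (E : Finset ℕ) (hE : ∀ q ∈ E, q.Prime) :
    ∑ s ∈ E.powerset, Z ^ s.card / pr s * Real.log (pr s) ≤
      (Z * ∑ q ∈ E, Real.log q / q) * ∏ q ∈ E, (1 + Z / (q : ℝ)) := by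
  induction E using Finset.induction_on with
  | empty => simp [pr]
  | insert a E ha ih =>
    have hE' : ∀ q ∈ E, q.Prime := fun q hq => hE q (Finset.mem_insert_of_mem hq)
    have ih := ih hE'
    have a0 : (0 : ℝ) < a := by exact_mod_cast (hE a (Finset.mem_insert_self _ _)).pos
    rw [Finset.sum_powerset_insert ha, Finset.sum_insert ha, Finset.prod_insert ha]
    have e : ∑ s ∈ E.powerset, Z ^ (insert a s).card / pr (insert a s) *
        Real.log (pr (insert a s)) = Z / a * (Real.log a * ∏ q ∈ E, (1 + Z / (q : ℝ)) +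
          ∑ s ∈ E.powerset, Z ^ s.card / pr s * Real.log (pr s)) := by
      rw [← sum_pow_div_pr, Finset.mul_sum, ← Finset.sum_add_distrib, Finset.mul_sum]
      refine Finset.sum_congr rfl fun s hs => ?_
      have hs := Finset.mem_powerset.1 hs
      have na : a ∉ s := fun c => ha (hs c)
      have s0 : (0 : ℝ) < pr s := by exact_mod_cast pr_pos fun q hq => hE' q (hs hq)
      rw [Finset.card_insert_of_notMem na, pr, Finset.prod_insert na, ← pr, Nat.cast_mul,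
        Real.log_mul a0.ne' s0.ne']
      field_simp; ring
    rw [e]
    have b1 : 0 ≤ ∏ q ∈ E, (1 + Z / (q : ℝ)) := Finset.prod_nonneg fun _ _ => by positivity
    have b2 : 0 ≤ Real.log a := Real.log_natCast_nonneg a
    have b3 : (0 : ℝ) ≤ Z / a := by positivity
    have b4 := mul_le_mul_of_nonneg_left ih b3
    have b5 := mul_nonneg (mul_nonneg b3 b3) (mul_nonneg b1 b2)
    have e2 : Z * (Real.log a / a) = Z / a * Real.log a := by ring
    rw [mul_add Z, e2]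
    nlinarith

theorem half_mass (hZ : 0 < Z) {m : ℕ} (hm : 4 * Z ≤ m) {y z : ℕ} (hz : 14 ≤ Real.log z) :
    let E := (Ioc y z).filter Nat.Prime
    (∏ q ∈ E, (1 + Z / (q : ℝ))) / 2 ≤
      ∑ s ∈ E.powerset.filter (fun s => pr s ≤ z ^ m), Z ^ s.card / pr s := by
  intro E
  have hE : ∀ q ∈ E, q.Prime := fun q hq => (Finset.mem_filter.1 hq).2
  have z0 : 0 < z := by
    rcases Nat.eq_zero_or_pos z with rfl | h
    · norm_num at hz
    · exact h
  have h1 := markov hZ.le E hE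
  have h2 : ∑ q ∈ E, Real.log q / q ≤ 2 * Real.log z := by
    have a := (abs_le.1 (Lib.ANT.abs_sum_log_div_prime_sub_log_le z z0)).2
    have b : ∑ q ∈ E, Real.log q / q ≤ ∑ p ∈ (Ioc 0 z).filter Nat.Prime, Real.log p / p :=
      Finset.sum_le_sum_of_subset_of_nonneg
        (Finset.filter_subset_filter _ (Finset.Ioc_subset_Ioc_left (Nat.zero_le _)))
        fun q _ _ => div_nonneg (Real.log_natCast_nonneg q) (by positivity)
    linarith
  have h3 := Finset.sum_filter_add_sum_filter_not E.powerset (fun s => pr s ≤ z ^ m)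
    fun s => Z ^ s.card / pr s
  rw [sum_pow_div_pr] at h3
  have h4 : (∑ s ∈ E.powerset.filter (fun s => ¬ pr s ≤ z ^ m), Z ^ s.card / pr s) *
      (m * Real.log z) ≤ ∑ s ∈ E.powerset, Z ^ s.card / pr s * Real.log (pr s) := by
    rw [Finset.sum_mul]
    refine le_trans (Finset.sum_le_sum fun s hs => ?_) (Finset.sum_le_sum_of_subset_of_nonneg
      (Finset.filter_subset (fun s => ¬ pr s ≤ z ^ m) _) fun s _ _ =>
        mul_nonneg (by positivity) (Real.log_natCast_nonneg _))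
    have c : ((z : ℝ)) ^ m ≤ pr s := by exact_mod_cast (not_le.1 (Finset.mem_filter.1 hs).2).le
    have d := Real.log_le_log (by positivity) c
    rw [Real.log_pow] at d
    gcongr
  have b1 : 0 ≤ ∏ q ∈ E, (1 + Z / (q : ℝ)) := Finset.prod_nonneg fun _ _ => by positivity
  have l0 : 0 < Real.log z := by linarith
  have m0 : (0 : ℝ) < m := by linarith
  have h5 : (∑ s ∈ E.powerset.filter (fun s => ¬ pr s ≤ z ^ m), Z ^ s.card / pr s) *
      (m * Real.log z) ≤ (∏ q ∈ E, (1 + Z / (q : ℝ))) / 2 * (m * Real.log z) :=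
    calc _ ≤ (Z * (2 * Real.log z)) * ∏ q ∈ E, (1 + Z / (q : ℝ)) :=
          h4.trans (h1.trans (by gcongr))
      _ = (∏ q ∈ E, (1 + Z / (q : ℝ))) / 2 * (4 * Z * Real.log z) := by ring
      _ ≤ _ := by gcongr
  have := le_of_mul_le_mul_right h5 (by positivity)
  linarith

theorem mean_rho (E : Finset ℕ) (lam : ℝ) :
    ∑ S ∈ E.powerset, law E S * ((Z + 1) ^ S.card / lam) = (∏ q ∈ E, (1 + Z / (q : ℝ))) / lam := by
  have h := sum_law_sup (Finset.empty_subset E) (Z + 1)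
  simp only [Finset.empty_subset, Finset.filter_true, Finset.prod_empty, one_mul,
    Finset.sdiff_empty] at h
  simp only [← mul_div_assoc]
  rw [← Finset.sum_div, h]
  congr 1
  exact Finset.prod_congr rfl fun q _ => by ring

open Classical in
theorem bad_sum (P E : Finset ℕ) :
    ∑ s ∈ E.powerset, Z ^ s.card * ∑ S ∈ E.powerset.filter (fun S => s ⊆ S),
      law E S * (if ¬ Good3 P S then 1 else 0) =
    ∑ S ∈ E.powerset.filter (fun S => ¬ Good3 P S), law E S * (Z + 1) ^ S.card := by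
  simp only [Finset.sum_filter, Finset.mul_sum]
  rw [Finset.sum_comm]
  refine Finset.sum_congr rfl fun S hS => ?_
  by_cases c : Good3 P S
  · simp [c]
  · simp only [c, not_false_eq_true, if_true, mul_one, mul_ite, mul_zero]
    rw [← Finset.sum_filter, ← Finset.sum_mul, mul_comm]
    congr 1
    have e : E.powerset.filter (fun s => s ⊆ S) = S.powerset := by
      ext s
      simp only [Finset.mem_filter, Finset.mem_powerset] at hS ⊢
      exact ⟨fun h => h.2, fun h => ⟨h.trans hS, h⟩⟩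
    have := Finset.sum_pow_mul_eq_add_pow Z 1 S
    simp only [one_pow, mul_one] at this
    rw [e, this]

/-- only the reduced classes carry edges -/
theorem avg_cop {P E : Finset ℕ} {W : ℕ} (hW : 1 ≤ W) (hP : ∀ q ∈ P, q.Prime ∧ W < q)
    (hE : ∀ q ∈ E, q.Prime ∧ W < q) (ε : ℝ) (Dm : ℕ) (g : ℕ × Finset ℕ → ℝ) :
    ∑ v ∈ Icc 1 Dm ×ˢ (range W).filter W.Coprime,
      1 / (v.1 : ℝ) * ∑ τ ∈ edges P E ε W v.1 v.2, g τ =
    ∑ v ∈ Icc 1 Dm ×ˢ range W, 1 / (v.1 : ℝ) * ∑ τ ∈ edges P E ε W v.1 v.2, g τ := by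
  refine Finset.sum_subset (Finset.product_subset_product_right (Finset.filter_subset _ _))
    fun v hv nv => ?_
  rw [Finset.sum_eq_zero, mul_zero]
  intro τ hτ
  obtain ⟨m1, m2, -, -, m3⟩ := mem_edges.1 hτ
  refine absurd (Finset.mem_product.2 ⟨(Finset.mem_product.1 hv).1,
    Finset.mem_filter.2 ⟨(Finset.mem_product.1 hv).2, ?_⟩⟩) nv
  have c : W.Coprime (τ.1 * pr τ.2) := Nat.Coprime.mul_right
    (Nat.coprime_of_lt_prime (by omega) (hP _ m1).2 (hP _ m1).1).symm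
    (cop_pr hW fun q hq => hE q (m2 hq))
  rw [Nat.Coprime, Nat.gcd_comm, ← m3.gcd_eq, Nat.gcd_comm]
  exact c

theorem avg_tot (hZ : 0 < Z) {m : ℕ} (hm : 4 * Z ≤ m) {x y z : ℕ} (hyz : y ≤ z)
    (hz : 14 ≤ Real.log z) {ε : ℝ} (hε : 0 < ε) (hε1 : ε ≤ 1) {W : ℕ} (hW : 1 ≤ W) :
    let P := (Ioc x y).filter Nat.Prime
    let E := (Ioc y z).filter Nat.Prime
    ε / 4 * ((∑ p ∈ P, 1 / (p : ℝ)) * ∏ q ∈ E, (1 + Z / (q : ℝ))) ≤
      ∑ v ∈ Icc 1 (z ^ (m + 1)) ×ˢ range W, 1 / (v.1 : ℝ) *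
        ∑ τ ∈ edges P E ε W v.1 v.2, Z ^ τ.2.card / (τ.1 * pr τ.2) := by
  intro P E
  rw [avg_eq P E ε hW]
  have h1 := half_mass hZ hm (y := y) hz
  simp only at h1
  calc _ = ε / 2 * ((∑ p ∈ P, 1 / (p : ℝ)) * ((∏ q ∈ E, (1 + Z / (q : ℝ))) / 2)) := by ring
    _ ≤ ε / 2 * ((∑ p ∈ P, 1 / (p : ℝ)) * ∑ s ∈ E.powerset.filter (fun s => pr s ≤ z ^ m),
        Z ^ s.card / pr s) := by gcongr
    _ = ∑ τ ∈ P ×ˢ E.powerset.filter (fun s => pr s ≤ z ^ m),
        ε / 2 * (Z ^ τ.2.card / (τ.1 * pr τ.2)) := by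
        rw [← Finset.mul_sum, Finset.sum_product, Finset.sum_mul_sum]
        congr 1
        exact Finset.sum_congr rfl fun _ _ => Finset.sum_congr rfl fun _ _ => by ring
    _ ≤ _ := by
        refine le_trans (Finset.sum_le_sum fun τ hτ => ?_) (Finset.sum_le_sum_of_subset_of_nonneg
          (Finset.product_subset_product_right (Finset.filter_subset (fun s => pr s ≤ z ^ m) _))
          fun _ _ _ => by positivity)
        obtain ⟨m1, m2⟩ := Finset.mem_product.1 hτ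
        obtain ⟨m2, m3⟩ := Finset.mem_filter.1 m2
        obtain ⟨m1, m4⟩ := Finset.mem_filter.1 m1
        refine mul_le_mul_of_nonneg_right (harm_ge (Nat.mul_pos m4.pos (pr_pos fun q hq =>
          (Finset.mem_filter.1 (Finset.mem_powerset.1 m2 hq)).2)) ?_ hε hε1) (by positivity)
        rw [pow_succ']
        exact Nat.mul_le_mul ((Finset.mem_Ioc.1 m1).2.trans hyz) m3

theorem avg_free (hZ : 0 ≤ Z) {x y : ℕ} (hx : 48 ≤ Real.log x) (hxy : x ≤ y) {M : ℝ}
    (hM : Real.log y ≤ M * Real.log x) {E : Finset ℕ} (hE : ∀ q ∈ E, q.Prime) {ε : ℝ} (hε : ε ≤ 1)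
    (W Dm : ℕ) (A : Finset ℕ) :
    ∑ v ∈ Icc 1 Dm ×ˢ A, 1 / (v.1 : ℝ) *
      ∑ s ∈ (edges ((Ioc x y).filter Nat.Prime) E ε W v.1 v.2).image Prod.snd,
        Z ^ s.card / (pr s * Real.log ((v.1 : ℝ) / pr s)) ≤
      2 * M * A.card * ∏ q ∈ E, (1 + Z / (q : ℝ)) := by
  have x0 : (0 : ℝ) < x := by
    rcases Nat.eq_zero_or_pos x with rfl | h
    · norm_num at hx
    · exact_mod_cast h
  have xy : (x : ℝ) ≤ y := by exact_mod_cast hxy
  have l2 := Real.log_two_lt_d9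
  have l0 : 0 < Real.log x := by linarith
  calc _ ≤ ∑ v ∈ Icc 1 Dm ×ˢ A, ∑ s ∈ E.powerset,
        (if (x : ℝ) / 2 * pr s ≤ v.1 ∧ (v.1 : ℝ) ≤ y * pr s then 1 / (v.1 : ℝ) else 0) *
          (2 / Real.log x * (Z ^ s.card / pr s)) := by
        refine Finset.sum_le_sum fun v _ => ?_
        simp only [ite_mul, zero_mul]
        rw [← Finset.sum_filter, ← Finset.mul_sum]
        refine mul_le_mul_of_nonneg_left (sum_le_of_inj id ?_ (Set.injOn_id _) ?_
          fun _ _ => by positivity) (by positivity)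
        · intro s hs
          obtain ⟨τ, hτ, rfl⟩ := Finset.mem_image.1 hs
          exact Finset.mem_filter.2 ⟨Finset.mem_powerset.2 (mem_edges.1 hτ).2.1,
            edge_ratio hE hε hτ⟩
        · intro s hs
          obtain ⟨τ, hτ, rfl⟩ := Finset.mem_image.1 hs
          have s0 : (0 : ℝ) < pr τ.2 := by
            exact_mod_cast pr_pos fun q hq => hE q ((mem_edges.1 hτ).2.1 hq)
          have a1 := Real.log_le_log (by positivity) ((le_div_iff₀ s0).2 (edge_ratio hE hε hτ).1)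
          rw [Real.log_div x0.ne' two_ne_zero] at a1
          calc _ ≤ Z ^ τ.2.card / (pr τ.2 * (Real.log x / 2)) := by gcongr; linarith
            _ = _ := by simp only [id]; field_simp
    _ = A.card * ∑ s ∈ E.powerset, (∑ D ∈ (Icc 1 Dm).filter (fun D : ℕ =>
          (x : ℝ) / 2 * pr s ≤ D ∧ (D : ℝ) ≤ y * pr s), 1 / (D : ℝ)) *
          (2 / Real.log x * (Z ^ s.card / pr s)) := by
        rw [Finset.sum_product_right, Finset.sum_congr rfl fun _ _ => Finset.sum_comm]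
        simp only [Finset.sum_const, nsmul_eq_mul, Finset.sum_filter, Finset.sum_mul]
    _ ≤ A.card * ∑ s ∈ E.powerset,
          (M * Real.log x) * (2 / Real.log x * (Z ^ s.card / pr s)) := by
        gcongr with s hs
        have s0 : (0 : ℝ) < pr s := by
          exact_mod_cast pr_pos fun q hq => hE q (Finset.mem_powerset.1 hs hq)
        refine (harm_le _ (x := x / 2 * pr s) (y := y * pr s) (by positivity)
          (by gcongr; linarith) fun D hD => ?_).trans ?_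
        · obtain ⟨a, b⟩ := Finset.mem_filter.1 hD
          exact ⟨(Finset.mem_Icc.1 a).1, b⟩
        · rw [mul_div_mul_right _ _ s0.ne', Real.log_div (by linarith) (by positivity),
            Real.log_div x0.ne' two_ne_zero]
          linarith
    _ = _ := by
        rw [← Finset.mul_sum, ← Finset.mul_sum, sum_pow_div_pr]
        field_simp

theorem sys_of (hZ : 255 ≤ Z) {k m : ℕ} (hk : Z + 1 = 2 ^ k) (k0 : k ≠ 0) (hm : 4 * Z ≤ m)
    (h W : ℕ) (hW : 1 ≤ W) {ε : ℝ} (hε : 0 < ε) (hε1 : ε ≤ 1) {C K Y M : ℝ}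
    {x y z r Dm : ℕ} (hDm : Dm = z ^ (m + 1)) (hC : 0 < C) (a1 : h ≤ x) (a2 : W ^ 4 ≤ x)
    (a3 : 2 * r ≤ x) (a4 : 1 ≤ r) (a5 : 5 * Z ≤ (x : ℝ)) (a6 : x ≤ y) (a7 : y ≤ z)
    (a8 : 48 ≤ Real.log x) (hK1 : 1 ≤ K) (hK2 : 3456 ≤ ε ^ 2 / 48 * K)
    (hL1 : 1 ≤ ∑ p ∈ (Ioc x y).filter Nat.Prime, 1 / (p : ℝ))
    (hL : 2 * (m + 2) * K ≤ ε ^ 2 / 48 * √(∑ p ∈ (Ioc x y).filter Nat.Prime, 1 / (p : ℝ)))
    (hY0 : 0 ≤ Y) (hY : 2 * r * (W.totient * Real.log z) ≤ Y ^ k)
    (h2 : Y * Real.exp ((1 - ∑ q ∈ (Ioc y z).filter Nat.Prime, 1 / (q : ℝ)) / 2) ≤ ε / 3)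
    (hB : 2 * W * (2 * h + 1) * (Dm : ℝ) * (2 * Dm) ^ k * 3 ≤ 4 ^ r * ε)
    (h4 : 2 * (4 * (Z + 1) ^ 2 * (1 + Real.log z) ^ 2 *
      (∏ q ∈ (Ioc y z).filter Nat.Prime, (1 + 16 * (Z + 1) / (q : ℝ))) *
      (∑ p ∈ (Ioc x y).filter Nat.Prime, 1 / (p : ℝ)) / x) ≤ ε ^ 2 / 48)
    (hg : ∀ j : ℕ, 2 ^ j ≤ 2 * Dm → 1 + (j : ℝ) ≤ ε * x)
    (hM : Real.log y ≤ M * Real.log x) (hCM : ε / 3 * (2 * M) ≤ ε ^ 2 / 48 * C) :
    ∃ σ : Sys h W ε (C * W.totient) (x / 2), (∀ q ∈ σ.P ∪ σ.E, q ≤ z) ∧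
      σ.D ≤ Dm ∧ σ.r = r ∧ (∀ τ ∈ σ.Ed, (σ.D : ℝ) / pr τ.2 ≤ y) ∧
      2 * W * (2 * h + 1) * σ.D * σ.B ≤ 4 ^ σ.r * ∑ S ∈ σ.E.powerset, law σ.E S * σ.ρ S := by
  classical
  have Z0 : 0 < Z := by linarith
  have x0 : (0 : ℝ) < x := by linarith
  have x1 : 1 ≤ x := by exact_mod_cast x0
  have Wx : W ≤ x := (Nat.le_self_pow (by norm_num) W).trans a2
  have ly : 48 ≤ Real.log y := a8.trans (Real.log_le_log x0 (by exact_mod_cast a6))
  have lz : 48 ≤ Real.log z :=
    ly.trans (Real.log_le_log (by exact_mod_cast (by omega : 0 < y)) (by exact_mod_cast a7))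
  have tot := avg_tot Z0 hm (x := x) a7 (by linarith) hε hε1 hW
  have mom := moment_two hZ (y := y) (z := z) (a5.trans (by exact_mod_cast a6)) ly hW (a2.trans a6)
  simp only at tot mom
  have z1 : 1 ≤ Dm := by rw [hDm]; exact Nat.one_le_pow _ _ (by omega)
  have lD : Real.log Dm = (m + 1) * Real.log z := by
    rw [hDm, Nat.cast_pow, Real.log_pow]; norm_num
  rw [← hDm] at tot
  clear hDm
  set P := (Ioc x y).filter Nat.Prime with hPd
  set E := (Ioc y z).filter Nat.Prime with hEd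
  have hP : ∀ q ∈ P, q.Prime ∧ x < q ∧ q ≤ y := fun q hq =>
    ⟨(Finset.mem_filter.1 hq).2, Finset.mem_Ioc.1 (Finset.mem_filter.1 hq).1⟩
  have hE : ∀ q ∈ E, q.Prime ∧ y < q ∧ q ≤ z := fun q hq =>
    ⟨(Finset.mem_filter.1 hq).2, Finset.mem_Ioc.1 (Finset.mem_filter.1 hq).1⟩
  have hP' : ∀ q ∈ P, q.Prime := fun q hq => (hP q hq).1
  have hE' : ∀ q ∈ E, q.Prime := fun q hq => (hE q hq).1
  have hPW : ∀ q ∈ P, q.Prime ∧ W < q := fun q hq => ⟨hP' q hq, Wx.trans_lt (hP q hq).2.1⟩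
  have hEW : ∀ q ∈ E, q.Prime ∧ W < q := fun q hq =>
    ⟨hE' q hq, (Wx.trans a6).trans_lt (hE q hq).2.1⟩
  have hPc : ∀ q ∈ P, q.Prime ∧ W.Coprime q := fun q hq =>
    ⟨hP' q hq, (Nat.coprime_of_lt_prime (by omega) (hPW q hq).2 (hP' q hq)).symm⟩
  rw [← avg_cop hW hPW hEW] at tot
  set A := (range W).filter W.Coprime with hA
  have cA : A.card = W.totient := rfl
  have fr := avg_free Z0.le a8 a6 hM hE' hε1 W Dm A
  have bad := bad_le (V := Z + 1) (by positivity) P E (x := x) (z := z) x1 (by omega)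
    (fun q hq => ⟨hP' q hq, (hP q hq).2.1.le⟩) (fun q hq => ⟨hE' q hq, (hE q hq).2.2⟩)
    fun p hp q hq => (hP p hp).2.2.trans_lt (hE q hq).2.1
  rw [← bad_sum] at bad
  rw [← hPd, cA] at fr
  have f0 : (0 : ℝ) < W.totient := by exact_mod_cast Nat.totient_pos.2 hW
  set L := ∑ p ∈ P, 1 / (p : ℝ) with hLd
  set Pi := ∏ q ∈ E, (1 + Z / (q : ℝ)) with hPi
  set lam := W.totient * Real.log z with hlam
  set δ := ε ^ 2 / 48 with hδ
  have Pi1 : 1 ≤ Pi := Finset.one_le_prod fun q _ => by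
    have : (0 : ℝ) ≤ Z / q := by positivity
    linarith
  have lz0 : 0 < Real.log z := by linarith
  have l0 : 0 < lam := by positivity
  have K0 : 0 < K := by linarith
  have δ0 : 0 < δ := by positivity
  let g : ℕ × Finset ℕ → ℝ := fun τ => 1 / τ.1 * (lam / K * (∑ t ∈ E.powerset,
      if Rel W (pr τ.2) (pr t) ∧ τ.2 ≠ t then wt Z E τ.2 t else 0) +
      Z ^ τ.2.card * ∑ S ∈ E.powerset.filter (fun S => τ.2 ⊆ S),
        law E S * (if ¬ Good3 P S then 1 else 0))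
  have g0 : ∀ τ, 0 ≤ g τ := fun τ => by
    refine mul_nonneg (by positivity) (add_nonneg (mul_nonneg (by positivity)
      (Finset.sum_nonneg fun t _ => ?_)) (mul_nonneg (by positivity)
      (Finset.sum_nonneg fun S _ => mul_nonneg (law_nonneg hE' S) ?_)))
    · split_ifs; exacts [wt_nonneg Z0.le hE' _ _, le_rfl]
    · split_ifs <;> norm_num
  have hgs : ∑ v ∈ Icc 1 Dm ×ˢ A, 1 / (v.1 : ℝ) *
      ∑ τ ∈ edges P E ε W v.1 v.2, g τ ≤ 2 * δ * (L * Pi) := by
    rw [avg_cop hW hPW hEW]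
    refine (avg_le hP' hE' hε1 hW _ fun τ _ => g0 τ).trans ?_
    rw [Finset.sum_product]
    simp only [g, ← Finset.mul_sum]
    rw [← Finset.sum_mul, Finset.sum_add_distrib, ← Finset.mul_sum]
    have b1 : lam / K * (1728 * Pi / lam) ≤ δ / 2 * Pi := by
      rw [show lam / K * (1728 * Pi / lam) = 1728 / K * Pi by field_simp]
      refine mul_le_mul_of_nonneg_right ?_ (by linarith)
      rw [div_le_iff₀ K0]; linarith
    have b2 := mul_le_mul_of_nonneg_left mom (div_pos l0 K0).le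
    have b3 : δ / 2 ≤ δ / 2 * Pi := le_mul_of_one_le_right (by positivity) Pi1
    calc _ ≤ 2 * (L * (δ * Pi)) := by gcongr; linarith
      _ = _ := by ring
  have hsp : ∑ v ∈ Icc 1 Dm ×ˢ A, 1 / (v.1 : ℝ) * (√L * (2 * K) * (Pi / lam)) ≤
      δ * (L * Pi) := by
    rw [← Finset.sum_mul, Finset.sum_product_right]
    simp only [Finset.sum_const, cA, nsmul_eq_mul]
    have b1 := harm_le (Icc 1 Dm) (x := 1) (y := Dm) one_pos
      (by exact_mod_cast z1) fun D hD => by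
        rw [Finset.mem_Icc] at hD
        exact ⟨hD.1, by exact_mod_cast hD.1, by exact_mod_cast hD.2⟩
    rw [div_one, lD] at b1
    calc _ ≤ W.totient * ((m + 2) * Real.log z) * (√L * (2 * K) * (Pi / lam)) := by
          gcongr; linarith
      _ = 2 * (m + 2) * K * √L * Pi := by rw [hlam]; field_simp
      _ ≤ δ * √L * √L * Pi := by gcongr
      _ = _ := by rw [mul_assoc δ, Real.mul_self_sqrt (by linarith), mul_assoc]
  obtain ⟨C', hC'⟩ : ∃ C', C' = C * W.totient := ⟨_, rfl⟩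
  have C0 : 0 < C' := by rw [hC']; positivity
  obtain ⟨a₀, ha₀⟩ : A.Nonempty := Finset.card_pos.1 (cA ▸ Nat.totient_pos.2 hW)
  obtain ⟨⟨D, a⟩, hv, key⟩ := Finset.exists_le_of_sum_le
    (s := Icc 1 Dm ×ˢ A)
    (f := fun v => 1 / (v.1 : ℝ) * (√L * (2 * K) * (Pi / lam) + ∑ τ ∈ edges P E ε W v.1 v.2, g τ +
      ε / 3 / C' * ∑ s ∈ (edges P E ε W v.1 v.2).image Prod.snd,
        Z ^ s.card / (pr s * Real.log ((v.1 : ℝ) / pr s))))
    (g := fun v => 1 / (v.1 : ℝ) * (ε / 3 *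
      ∑ τ ∈ edges P E ε W v.1 v.2, Z ^ τ.2.card / (τ.1 * pr τ.2)))
    ⟨(1, a₀), Finset.mem_product.2 ⟨Finset.mem_Icc.2 ⟨le_rfl, z1⟩, ha₀⟩⟩ (by
      simp only [mul_add, Finset.sum_add_distrib, mul_left_comm _ (ε / 3 / C'),
        mul_left_comm _ (ε / 3)]
      rw [← Finset.mul_sum, ← Finset.mul_sum]
      have b1 : ε / 3 / C' * (2 * M * W.totient * Pi) ≤ δ * (L * Pi) :=
        calc _ = ε / 3 * (2 * M) / C * Pi := by rw [hC']; field_simp
          _ ≤ δ * C / C * (L * Pi) := by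
              gcongr
              exact le_mul_of_one_le_left (by linarith) hL1
          _ = _ := by field_simp
      have b2 := mul_le_mul_of_nonneg_left fr (show 0 ≤ ε / 3 / C' by positivity)
      have b3 := mul_le_mul_of_nonneg_left tot (show 0 ≤ ε / 3 by positivity)
      have b4 : ε / 3 * (ε / 4 * (L * Pi)) = 4 * δ * (L * Pi) := by rw [hδ]; ring
      linarith)
  obtain ⟨D1, D2⟩ := Finset.mem_Icc.1 (Finset.mem_product.1 hv).1
  simp only at D1 D2 key
  have D0 : (0 : ℝ) < D := by exact_mod_cast D1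
  have key := le_of_mul_le_mul_left key (by positivity)
  set Ed := edges P E ε W D a with hEdd
  set Tot := ∑ τ ∈ Ed, Z ^ τ.2.card / (τ.1 * pr τ.2)
  have s0 : ∀ τ ∈ Ed, (0 : ℝ) < pr τ.2 := fun τ hτ => by
    exact_mod_cast pr_pos fun q hq => hE' q ((mem_edges.1 hτ).2.1 hq)
  have ratio : ∀ τ ∈ Ed, (x : ℝ) / 2 ≤ D / pr τ.2 := fun τ hτ =>
    (le_div_iff₀ (s0 τ hτ)).2 (edge_ratio hE' hε1 hτ).1
  have k1 : 0 < √L * (2 * K) * (Pi / lam) := by
    have := Real.sqrt_pos.2 (show 0 < L by linarith)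
    have : 0 < Pi := by linarith
    positivity
  have k2 : 0 ≤ ∑ τ ∈ Ed, g τ := Finset.sum_nonneg fun τ _ => g0 τ
  have k3 : 0 ≤ ε / 3 / C' * ∑ s ∈ Ed.image Prod.snd,
      Z ^ s.card / (pr s * Real.log ((D : ℝ) / pr s)) := by
    refine mul_nonneg (by positivity) (Finset.sum_nonneg fun s hs => ?_)
    obtain ⟨τ, hτ, rfl⟩ := Finset.mem_image.1 hs
    have := Real.log_nonneg (show 1 ≤ (D : ℝ) / pr τ.2 by linarith [ratio τ hτ])
    positivity
  have T0 : 0 < Tot := by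
    by_contra c
    have := mul_nonneg (show 0 ≤ ε / 3 by positivity) (neg_nonneg.2 (not_lt.1 c))
    linarith
  have gcd : ∀ τ ∈ Ed, 1 / (τ.1 : ℝ) + ∑ q ∈ τ.2, (1 / (q : ℝ)) ≤ ε := by
    intro τ hτ
    obtain ⟨m1, m2, -⟩ := mem_edges.1 hτ
    have b1 := two_pow_le_pr fun q hq => hE' q (m2 hq)
    have b2 := edge_le hε1 hτ
    have b3 : pr τ.2 ≤ τ.1 * pr τ.2 := Nat.le_mul_of_pos_left _ (hP' _ m1).pos
    have b4 := hg τ.2.card (by omega)
    have b5 := Finset.sum_le_card_nsmul τ.2 (fun q => 1 / (q : ℝ)) (1 / x) fun q hq =>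
      one_div_le_one_div_of_le x0 (by exact_mod_cast (a6.trans (hE q (m2 hq)).2.1.le))
    have b6 : 1 / (τ.1 : ℝ) ≤ 1 / x :=
      one_div_le_one_div_of_le x0 (by exact_mod_cast (hP _ m1).2.1.le)
    rw [nsmul_eq_mul] at b5
    have b7 : (1 + (τ.2.card : ℝ)) * (1 / x) ≤ ε := by
      rw [mul_one_div, div_le_iff₀ x0]; exact b4
    linarith
  have r1 : (1 : ℝ) ≤ r := by exact_mod_cast a4
  have r0 : (0 : ℝ) < r := by linarith
  have P0 : 0 < Pi := by linarith
  have B0 : 0 < (2 * (D : ℝ)) ^ k * Pi * 3 / (ε * lam) := by positivity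
  have hB2 : 2 * W * (2 * h + 1) * D * ((2 * (D : ℝ)) ^ k * Pi * 3 / (ε * lam)) ≤
      4 ^ r * ∑ S ∈ E.powerset, law E S * ((Z + 1) ^ S.card / lam) := by
    rw [mean_rho, ← hPi]
    have b1 : (D : ℝ) ≤ Dm := by exact_mod_cast D2
    calc _ = 2 * W * (2 * h + 1) * (D : ℝ) * (2 * D) ^ k * 3 / ε * (Pi / lam) := by field_simp
      _ ≤ 2 * W * (2 * h + 1) * (Dm : ℝ) * (2 * Dm) ^ k * 3 / ε * (Pi / lam) := by gcongr
      _ ≤ _ := by
        gcongr
        rwa [div_le_iff₀ hε]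
  refine ⟨{
    P := P, E := E, Ed := Ed, w := fun s => Z ^ s.card, ρ := fun S => (Z + 1) ^ S.card / lam
    u := uu Z P Ed lam K (K / r) ((2 * (D : ℝ)) ^ k * Pi * 3 / (ε * lam))
    D := D, r := r, a := a, L := L, K := 2 * K, γ := K / r
    B := (2 * (D : ℝ)) ^ k * Pi * 3 / (ε * lam)
    hP := fun q hq => by have := hP q hq; exact ⟨this.1, by omega, by omega, by omega⟩
    hE := hEW
    hPE := Finset.disjoint_left.2 fun q h1 h2 => by
      have := hP q h1; have := hE q h2; omega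
    hD := D1
    hEd := fun τ hτ => mem_edges.1 hτ
    hw := fun s => by positivity
    hρ := fun S => by positivity
    hu := fun S τ => by unfold uu; split_ifs <;> norm_num
    hu' := fun S _ τ _ c => by
      unfold uu at c
      split_ifs at c with k
      · exact ⟨k.1, k.2.2.2.1⟩
      · exact absurd rfl c
    hL := le_rfl
    hL1 := hL1
    hK := by positivity
    K1 := fun S _ q _ => uu_K1 Z0.le P Ed _ l0 K0 (div_le_self K0.le r1) S q
    K2 := fun S _ q _ q' hq b => uu_K2 Z0.le P Ed _ _ l0 (by positivity) S q hq b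
    hr := a4
    hγ := le_of_eq (by field_simp)
    hB := by
      refine le_trans ?_ hB2
      have : (1 : ℝ) ≤ W := by exact_mod_cast hW
      rw [mul_assoc (2 * W : ℝ), mul_assoc (2 * W : ℝ)]
      exact le_mul_of_one_le_left (by positivity) (by linarith)
    hTot := T0
    spec := by rw [mean_rho, ← hPi]; linarith [mul_pos hε T0]
    removed := by
      refine (Finset.sum_le_sum fun τ hτ => edge_removed (η := ε / 3) Z0 hk k0 hPc hE' hε1 l0 K0
        B0 hY0 (by positivity) ?_ h2 (le_of_eq ?_) hτ ?_).trans ?_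
      · rw [div_mul_eq_mul_div, le_div_iff₀ r0]
        linarith [mul_le_mul_of_nonneg_right hK1 (pow_nonneg hY0 k)]
      · rw [← hPi]; field_simp
      · have := gcd τ hτ
        have : (0 : ℝ) ≤ 1 / τ.1 := by positivity
        linarith
      · rw [Finset.sum_add_distrib, ← Finset.mul_sum]
        change ∑ τ ∈ Ed, g τ + 2 * (ε / 3) * Tot ≤ ε * Tot
        linarith
    hgcd := gcd
    hQ := ratio
    free := by
      rw [← hC']
      refine le_of_mul_le_mul_left ?_ (show 0 < ε / 3 / C' by positivity)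
      rw [show ε / 3 / C' * (C' * Tot) = ε / 3 * Tot by field_simp]
      linarith }, fun q hq => ?_, D2, rfl,
    fun τ hτ => (div_le_iff₀ (s0 τ hτ)).2 (edge_ratio hE' hε1 hτ).2, hB2⟩
  rcases Finset.mem_union.1 hq with c | c
  · exact (hP q c).2.2.trans a7
  · exact (hE q c).2.2

end Pool.Agent.Work.MP_d018b2_nt.U.Sy
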