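import Pool.Agent.Work.MP_d018b2_nt.UDefs
import Pool.Agent.Work.MP_ca0f09_nt.Construct
import Pool.Agent.Work.MP_d018b2_nt.USys4

/-! Weighted divisor systems for growing moduli. -/

set_option autoImplicit false
open Filter Topology Finset MeasureTheory

namespace Pool.Agent.Work.MP_d018b2_nt.U

open Pool.Agent.Lib.MR Pool.Agent.Lib.LargeSieve Pool.Agent.Work.MP_ca0f09_nt
open Pool.Agent.Work.MP_51e72e_nt.LT

theorem exists_sysU (w : ℕ) {ε : ℝ} (hε : 0 < ε) (hε1 : ε ≤ 1) :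
    ∃ C : ℝ, 0 < C ∧ ∃ c : ℕ, ∀ᶠ u : ℕ in atTop, ∀ x h W : ℕ, u ^ c ≤ x →
      Real.log x ^ 4 ≤ u → 1 ≤ h → h ≤ u ^ w → 1 ≤ W → W ≤ u ^ w →
      ∃ σ : Sys h W ε (C * W.totient) (x / 2), (∀ q ∈ σ.P ∪ σ.E, q ≤ 2 ^ u) ∧
        σ.D ≤ 2 ^ (c * u) ∧ σ.r ≤ c * u ∧ (∀ τ ∈ σ.Ed, (σ.D : ℝ) / pr τ.2 ≤ (x : ℝ) ^ c) ∧
        2 * W * (2 * h + 1) * σ.D * σ.B ≤
          4 ^ σ.r * ∑ S ∈ σ.E.powerset, law σ.E S * σ.ρ S := by
  obtain ⟨δ, hδ⟩ : ∃ δ : ℝ, δ = ε ^ 2 / 48 := ⟨_, rfl⟩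
  have δ0 : 0 < δ := by rw [hδ]; positivity
  have δ1 : δ ≤ 1 := by rw [hδ]; nlinarith
  obtain ⟨K, hK⟩ : ∃ K : ℝ, K = 3456 / δ := ⟨_, rfl⟩
  have K1 : 1 ≤ K := by rw [hK, le_div_iff₀ δ0]; linarith
  obtain ⟨k, hk⟩ : ∃ k : ℕ, k = 4 * (w + 2) := ⟨_, rfl⟩
  obtain ⟨V, hV⟩ : ∃ V : ℕ, V = 2 ^ k := ⟨_, rfl⟩
  have V1 : (256 : ℝ) ≤ V := by
    have : 2 ^ 8 ≤ V := hV ▸ Nat.pow_le_pow_right two_pos (by omega)
    exact_mod_cast this
  have hV' : (V : ℝ) = 2 ^ k := by rw [hV]; push_cast; rfl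
  obtain ⟨Z, hZ⟩ : ∃ Z : ℝ, Z + 1 = V := ⟨V - 1, by ring⟩
  obtain ⟨m, hm⟩ : ∃ m : ℕ, m = 4 * V := ⟨_, rfl⟩
  have hm' : (m : ℝ) = 4 * V := by rw [hm]; push_cast; rfl
  obtain ⟨R, hR⟩ : ∃ R : ℝ, R = 2 * (m + 2) * K / δ := ⟨_, rfl⟩
  have R1 : 1 ≤ R := by rw [hR, le_div_iff₀ δ0]; nlinarith
  obtain ⟨M, hM⟩ := exists_nat_ge (Real.exp (R ^ 2 + 1))
  have M1 : (1 : ℝ) ≤ M := (Real.one_le_exp (by positivity)).trans hM
  have M1' : 1 ≤ M := by exact_mod_cast M1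
  have hM' : R ^ 2 + 1 ≤ Real.log M := (Real.le_log_iff_exp_le (by linarith)).2 hM
  obtain ⟨b, hb⟩ : ∃ b : ℕ, b = w + (m + 1) * (k + 1) + 1 := ⟨_, rfl⟩
  have b1 : 1 ≤ b := by omega
  have b1' : (1 : ℝ) ≤ b := by exact_mod_cast b1
  obtain ⟨c, c1, c2, c3, c4, c5⟩ : ∃ c : ℕ, 16 * V + 3 ≤ c ∧ w * 4 ≤ c ∧ M ≤ c ∧ b ≤ c ∧
      m + 1 ≤ c := ⟨16 * V + 3 + w * 4 + M + b + (m + 1), by omega⟩
  refine ⟨ε / 3 * (2 * M) / δ, by positivity, c, ?_⟩
  have ev : ∀ a : ℝ, ∀ᶠ n : ℕ in atTop, a ≤ n := fun a =>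
    tendsto_natCast_atTop_atTop.eventually_ge_atTop a
  obtain ⟨T, T1, T2⟩ : ∃ T : ℝ, 2 * M ≤ T ∧ 162 * (2 * b) ^ 2 * M / ε ^ 2 ≤ T :=
    ⟨_, le_max_left _ _, le_max_right _ _⟩
  filter_upwards [ev (T ^ 4), ev (2 * b), ev (5 * V), ev (Real.exp 48), ev (18 * V / ε),
    ev (32 * V ^ 2 * M / δ), ev ((m + 3) / ε)] with u n1 n2 n3 n4 n5 n6 n7 x h W hx hl h1 h2 W1 W2
  have u1 : (1 : ℝ) ≤ u := by linarith
  have u0 : (0 : ℝ) < u := by linarith
  have u1' : 1 ≤ u := by exact_mod_cast u1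
  have up : ∀ j ≤ c, u ^ j ≤ x := fun j hj => (Nat.pow_le_pow_right u1' hj).trans hx
  have up' : ∀ j ≤ c, (u : ℝ) ^ j ≤ x := fun j hj => by exact_mod_cast up j hj
  have ux : (u : ℝ) ≤ x := by simpa using up' 1 (by omega)
  have x0 : (0 : ℝ) < x := by linarith
  obtain ⟨t, ht⟩ : ∃ t : ℝ, t = √(√u) := ⟨_, rfl⟩
  have t0 : 0 ≤ t := ht ▸ Real.sqrt_nonneg _
  have t4 : t ^ 4 = u := by
    rw [ht, show 4 = 2 * 2 from rfl, pow_mul, Real.sq_sqrt (Real.sqrt_nonneg _),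
      Real.sq_sqrt u0.le]
  have Tt : T ≤ t := le_of_pow_le_pow_left₀ (n := 4) (by norm_num) t0 (t4 ▸ n1)
  have lx : Real.log x ≤ t := le_of_pow_le_pow_left₀ (n := 4) (by norm_num) t0 (t4 ▸ hl)
  have t1 : 1 ≤ t := by linarith
  have a8 : 48 ≤ Real.log x := (Real.le_log_iff_exp_le x0).2 (n4.trans ux)
  have x2 : 2 ≤ x := by exact_mod_cast (show (2 : ℝ) ≤ x by linarith)
  obtain ⟨hL1, hL2⟩ := special_mass (x := x) x2 a8 M1'
  obtain ⟨y, hy⟩ : ∃ y : ℕ, y = x ^ M := ⟨_, rfl⟩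
  have a6 : x ≤ y := by rw [hy]; exact Nat.le_self_pow (by omega) x
  have ly : Real.log y = M * Real.log x := by rw [hy, Nat.cast_pow, Real.log_pow]
  rw [← hy] at hL1 hL2
  have ly1 : 48 ≤ Real.log y := by
    rw [ly]; exact a8.trans (le_mul_of_one_le_left (by linarith) M1)
  have ly2 : Real.log y ≤ M * t := by rw [ly]; gcongr
  obtain ⟨z, hz⟩ : ∃ z : ℕ, z = 2 ^ u := ⟨_, rfl⟩
  have l2 := Real.log_two_gt_d9
  have l2' := Real.log_two_lt_d9
  have lz : Real.log z = u * Real.log 2 := by rw [hz, Nat.cast_pow, Real.log_pow]; norm_num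
  have lz1 : (u : ℝ) / 2 ≤ Real.log z := by
    rw [lz, div_eq_mul_inv]; gcongr; linarith
  have lz2 : Real.log z ≤ u := by
    rw [lz]; exact mul_le_of_le_one_right (by linarith) (by linarith)
  have zu : (u : ℝ) ≤ z := by
    have : u < z := by rw [hz]; exact Nat.lt_two_pow_self
    exact_mod_cast this.le
  have a7 : y ≤ z := by
    have h1 : Real.log y ≤ Real.log z :=
      calc _ ≤ 2 * M * t / 2 := by linarith
        _ ≤ t * t ^ 3 / 2 := by
          gcongr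
          · linarith
          · exact le_self_pow₀ t1 (by norm_num)
        _ ≤ _ := by rw [← pow_succ', t4]; exact lz1
    have := (Real.log_le_log_iff (by exact_mod_cast (by omega : 0 < y)) (by linarith)).1 h1
    exact_mod_cast this
  obtain ⟨m1, m2⟩ := mertens_exp (y := y) (z := z) (by omega) ly1 a7
  have pe := prod_le_exp ((Ioc y z).filter Nat.Prime) (x := 16 * V) (by positivity)
  have W3 : (W : ℝ) ≤ u ^ w := by exact_mod_cast W2
  have h3 : (h : ℝ) ≤ u ^ w := by exact_mod_cast h2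
  obtain ⟨σ, s1, s2, s3, s4, s5⟩ := Sy.sys_of (Z := Z) (k := k) (m := m) (by linarith)
    (hZ.trans hV') (by omega) (by linarith) h W W1 hε hε1 (C := ε / 3 * (2 * M) / δ) (K := K)
    (Y := 2 * b * t) (M := M) (x := x) (y := y) (z := z) (r := b * u) rfl (by positivity)
    (h2.trans (up w (by omega)))
    ((Nat.pow_le_pow_left W2 4).trans (by rw [← pow_mul]; exact up _ c2))
    (le_trans (by
      rw [← mul_assoc, sq]
      exact Nat.mul_le_mul_right _ (by exact_mod_cast n2)) (up 2 (by omega)))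
    (Nat.mul_pos b1 u1') (by linarith) a6 a7 a8 K1
    (by rw [← hδ, hK]; exact le_of_eq (by field_simp))
    (by linarith [one_le_pow₀ (n := 2) R1])
    (by
      rw [← hδ, ← div_le_iff₀' δ0, ← hR]
      exact Real.le_sqrt_of_sq_le (by linarith))
    (by positivity)
    (by
      have f1 : (W.totient : ℝ) ≤ u ^ w := (Nat.cast_le.2 (Nat.totient_le W)).trans W3
      have f2 := Real.log_natCast_nonneg z
      calc _ ≤ 2 * ((b * u : ℕ) : ℝ) * (u ^ w * u) := by gcongr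
        _ = 2 * b * t ^ k := by rw [hk, pow_mul, t4]; push_cast; ring
        _ ≤ _ := by
          rw [mul_pow]
          gcongr
          exact le_self_pow₀ (by linarith) (by omega))
    (by
      generalize ∑ q ∈ (Ioc y z).filter Nat.Prime, 1 / (q : ℝ) = σ at m1 ⊢
      refine le_of_pow_le_pow_left₀ two_ne_zero (by positivity) ?_
      have e1 : Real.exp ((1 - σ) / 2) ^ 2 * Real.exp σ = Real.exp 1 := by
        rw [sq, ← Real.exp_add, ← Real.exp_add]; congr 1; ring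
      have e3 : Real.exp 1 ≤ 3 := by have := Real.exp_one_lt_d9; linarith
      have e4 : Real.exp ((1 - σ) / 2) ^ 2 * (t ^ 4 / 2) ≤ 9 * (M * t) :=
        calc _ ≤ Real.exp ((1 - σ) / 2) ^ 2 * (3 * (M * t) * Real.exp σ) := by
              gcongr
              rw [t4]
              refine lz1.trans (m1.trans ?_)
              gcongr
          _ = 3 * (M * t) * Real.exp 1 := by rw [← e1]; ring
          _ ≤ 3 * (M * t) * 3 := by gcongr
          _ = _ := by ring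
      have e5 := T2.trans Tt
      rw [div_le_iff₀ (by positivity)] at e5
      refine le_of_mul_le_mul_right ?_ (show (0 : ℝ) < t ^ 2 by positivity)
      calc _ = 2 * (2 * b) ^ 2 * (Real.exp ((1 - σ) / 2) ^ 2 * (t ^ 4 / 2)) := by ring
        _ ≤ 2 * (2 * b) ^ 2 * (9 * (M * t)) := by gcongr
        _ = 162 * (2 * b) ^ 2 * M * t / 9 := by ring
        _ ≤ t * ε ^ 2 * t / 9 := by gcongr
        _ = _ := by ring)
    (by
      have e : (4 : ℝ) ^ (b * u) = (z : ℝ) ^ (2 * b) := by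
        rw [hz, show (4 : ℝ) = 2 ^ 2 by norm_num, Nat.cast_pow, Nat.cast_ofNat, ← pow_mul,
          ← pow_mul]
        congr 1; ring
      rw [e, Nat.cast_pow]
      rw [div_le_iff₀ hε] at n5
      have z1 : (1 : ℝ) ≤ z := by linarith
      have f1 : (u : ℝ) ^ w ≤ z ^ w := by gcongr
      have f2 : (1 : ℝ) ≤ z ^ w := one_le_pow₀ z1
      calc _ ≤ 2 * z ^ w * (3 * z ^ w) * (z : ℝ) ^ (m + 1) * (2 * z ^ (m + 1)) ^ k * 3 := by
            gcongr <;> linarith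
        _ = 18 * V * (z : ℝ) ^ (2 * w + (m + 1) * (k + 1)) := by rw [hV']; ring
        _ ≤ z * ε * (z : ℝ) ^ (2 * w + 2 * ((m + 1) * (k + 1)) + 1) :=
            mul_le_mul (n5.trans (by gcongr)) (pow_le_pow_right₀ z1 (by omega)) (by positivity)
              (by positivity)
        _ = _ := by rw [hb]; ring)
    (by
      rw [← hδ, hZ]
      generalize ∑ q ∈ (Ioc y z).filter Nat.Prime, 1 / (q : ℝ) = σ at m2 pe
      have e1 : Real.exp σ ≤ u := by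
        linarith [mul_le_mul_of_nonneg_right ly1 (Real.exp_pos σ).le]
      have e2 : Real.exp (16 * V * σ) ≤ (u : ℝ) ^ (16 * V) := by
        rw [show (16 * V : ℝ) * σ = (16 * V : ℕ) * σ by push_cast; rfl, Real.exp_nat_mul]
        gcongr
      have f2 := Real.log_natCast_nonneg z
      rw [div_le_iff₀ δ0] at n6
      rw [← mul_div_assoc, div_le_iff₀ x0]
      calc _ ≤ 2 * (4 * V ^ 2 * (2 * (u : ℝ)) ^ 2 * u ^ (16 * V) * M) := by
            gcongr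
            · linarith
            · exact pe.trans e2
        _ = 32 * V ^ 2 * M * u ^ (16 * V + 2) := by ring
        _ ≤ u * δ * u ^ (16 * V + 2) := by gcongr
        _ = δ * u ^ (16 * V + 3) := by ring
        _ ≤ _ := by gcongr; exact up' _ c1)
    (by
      intro j hj
      rw [hz, ← pow_mul, ← pow_succ', pow_le_pow_iff_right₀ (by norm_num)] at hj
      have h1 : (j : ℝ) ≤ u * (m + 1) + 1 := by exact_mod_cast hj
      rw [div_le_iff₀ hε] at n7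
      calc _ ≤ (m + 3) * (u : ℝ) := by linarith
        _ ≤ u * ε * u := by gcongr
        _ = ε * u ^ 2 := by ring
        _ ≤ _ := by gcongr; exact up' _ (by omega))
    ly.le (by rw [← hδ]; exact le_of_eq (by field_simp))
  refine ⟨σ, hz ▸ s1, s2.trans ?_, s3 ▸ Nat.mul_le_mul_right _ c4, fun τ hτ => (s4 τ hτ).trans ?_,
    s5⟩
  · rw [hz, ← pow_mul, mul_comm]
    exact Nat.pow_le_pow_right two_pos (Nat.mul_le_mul_right _ c5)
  · rw [hy, Nat.cast_pow]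
    exact pow_le_pow_right₀ (by linarith) c3

end Pool.Agent.Work.MP_d018b2_nt.U
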