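import Pool.Agent.Work.MP_d018b2_nt.UTrans
import Pool.Agent.Work.MP_d018b2_nt.UKub
import Pool.Agent.Work.MP_d018b2_nt.UNum
import Pool.Agent.Work.MP_d018b2_nt.UShort
import Pool.Agent.Work.MP_d018b2_nt.UArcs
import Pool.Agent.Work.MP_d018b2_nt.UFree
import Pool.Agent.Work.MP_d018b2_nt.USys

/-! Two-point correlations of divisor sums, uniformly in the modulus and the shift. -/

set_option autoImplicit false
open Filter Topology Finset Real

namespace Pool.Agent.Work.MP_d018b2_nt.U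

open Pool.Agent.Work.MP_ca0f09_nt Pool.Agent.Lib.MR Pool.Agent.Work.MP_51e72e_nt.LT

lemma Gc_Inv {η y : ℝ} {φ : ℕ → ℝ} (hφ : ∀ j, φ j ≠ 0 → Rough y j) (c : ℝ) :
    Inv y (Gc η φ c) := fun d hd hy m => by rw [Gc, Gc, Fd_mul hφ hd hy]

lemma sum_inv_le {S : Finset ℕ} {u : ℕ} (hS : ∀ q ∈ S, 1 ≤ q ∧ q ≤ 2 ^ u) :
    ∑ q ∈ S, 1 / (q : ℝ) ≤ 1 + u := by
  have h1 := harmonic_le_one_add_log (2 ^ u)
  rw [harmonic_eq_sum_Icc] at h1
  push_cast at h1
  rw [log_pow] at h1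
  have h2 : (u : ℝ) * log 2 ≤ u :=
    mul_le_of_le_one_right (Nat.cast_nonneg _) (by linarith [log_two_lt_d9])
  refine le_trans ?_ (h1.trans (by linarith))
  simp only [one_div]
  exact sum_le_sum_of_subset_of_nonneg (fun q hq => mem_Icc.2 (hS q hq)) fun _ _ _ => by positivity

theorem corrU {η : ℝ} (hη : 0 < η) (A : ℕ) {ε : ℝ} (hε : 0 < ε) :
    ∀ᶠ N₀ : ℕ in atTop, ∀ ψ : ℕ → ℝ, (∀ j, ψ j ≠ 0 → Rough ((N₀ : ℝ) ^ η) j) → (∀ j, |ψ j| ≤ 1) →
      ∀ F : ℕ → ℝ, (∀ n, |F n| ≤ 1) → Inv ((N₀ : ℝ) ^ η) F → ∀ h W u N : ℕ, 1 ≤ h →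
      (h : ℝ) ≤ log N₀ ^ A → u < W → (W : ℝ) ≤ log N₀ ^ A → N₀ / log N₀ ^ A ≤ N → N ≤ N₀ →
      |∑ q ∈ range N, F (W * q + u) * Gc η ψ (dl ψ N₀) (W * q + u + h)| ≤ ε * N := by
  set e := min (ε / 6000) (1 / 2) with he
  have e0 : 0 < e := lt_min (by positivity) (by norm_num)
  have e1 : e ≤ 1 / 2 := min_le_right _ _
  have e2 : 6000 * e ≤ ε := by linarith [min_le_left (ε / 6000) (1 / 2)]
  have e3 : e ≤ 1 := by linarith
  obtain ⟨C, hC, c, hσ⟩ := exists_sysU (5 * A) e0 e3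
  obtain ⟨δ, hδ, Q₁, hfree⟩ := free_AP (div_pos e0 hC)
  obtain ⟨K, hK⟩ := unif_of_short hδ
  obtain ⟨u₀, hu₀⟩ := eventually_atTop.1 (hσ.and (kub_num c e0))
  have t1 : Tendsto (fun N : ℕ => log N) atTop atTop :=
    tendsto_log_atTop.comp tendsto_natCast_atTop_atTop
  filter_upwards [short_G hη ((2 * A + 1) * K) (show 0 < δ / 100 by positivity),
    (tendsto_log_atTop.comp t1).eventually (scale_num c ((2 * A + 1) * K + 2 * A) hη Q₁ u₀),
    (tendsto_sqrt_atTop.comp t1).eventually_ge_atTop (1 / e), eventually_ge_atTop 24]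
    with N₀ hS ⟨v, x, v0, a1, a2, a3, a4, a5, a6, a7, a8, a9, a10, a11, a12⟩ a13 a14
    ψ hψ ψ1 F hF iF h W u N hh hhA hu hWA hN1 hN2
  have N24 : (24 : ℝ) ≤ N₀ := by exact_mod_cast a14
  have l0 : 0 < log (N₀ : ℝ) := log_pos (by linarith)
  simp only [Function.comp, exp_log l0] at a1 a2 a3 a6 a7 a8 a9 a10 a11 a12 a13
  replace hS := hS ψ ψ1 hψ
  have eN : exp (log N₀) = N₀ := exp_log (by linarith)
  have eη : (N₀ : ℝ) ^ η = exp (η * log N₀) := by rw [rpow_def_of_pos (by linarith), mul_comm]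
  set l := log (N₀ : ℝ) with hl
  set E := exp √l with hE
  set H := exp (log l ^ 5) with hH
  set G := Gc η ψ (dl ψ N₀) with hG
  have iG : Inv ((N₀ : ℝ) ^ η) G := Gc_Inv hψ _
  have G1 : ∀ n, |G n| ≤ 1 := fun n => abs_clamp_le _
  have hW : 1 ≤ W := by omega
  have W1 : (1 : ℝ) ≤ W := by exact_mod_cast hW
  have h1 : (1 : ℝ) ≤ h := by exact_mod_cast hh
  have l1 : 1 ≤ l := by linarith
  have E1 : 1 ≤ E := one_le_exp (sqrt_nonneg _)
  have E4 : E ^ 4 ≤ N₀ := by rw [hE, ← exp_nat_mul, ← eN]; exact exp_le_exp.2 a9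
  have Eη : E ≤ (N₀ : ℝ) ^ η := by rw [eη]; exact exp_le_exp.2 a10
  have H4 : 4 ≤ H := le_of_max_le_right a11
  set a := l ^ A with ha
  set b := l ^ ((2 * A + 1) * K) with hb
  have a0 : 1 ≤ a := one_le_pow₀ l1
  have b0 : 1 ≤ b := one_le_pow₀ l1
  have eab : l ^ ((2 * A + 1) * K + 2 * A) = b * a * a := by rw [ha, hb]; ring
  rw [eab] at a6 a8
  have ap : 0 < a := zero_lt_one.trans_le a0
  have bp : 0 < b := zero_lt_one.trans_le b0
  have Ep : 0 < E := exp_pos _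
  have Hp : 0 < H := exp_pos _
  have aa : 1 ≤ a * a := one_le_mul_of_one_le_of_one_le a0 a0
  rw [mul_assoc b] at a6 a8
  have aaE : a * a ≤ E := (le_mul_of_one_le_left (by positivity) b0).trans a8
  have aE : a ≤ E := (le_mul_of_one_le_left ap.le a0).trans aaE
  have bE : b ≤ E := (le_mul_of_one_le_right bp.le aa).trans a8
  have NE : N₀ / E ≤ N := le_trans (by gcongr) hN1
  have NE3 : E ^ 3 ≤ N := le_trans (by rw [le_div_iff₀ Ep, ← pow_succ]; exact E4) NE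
  have wv : ∀ k : ℕ, (k : ℝ) ≤ a → k ≤ v ^ (5 * A) := fun k hk => by
    have : (k : ℝ) ≤ (v : ℝ) ^ (5 * A) := hk.trans (by
      rw [pow_mul]; exact pow_le_pow_left₀ l0.le a1 A)
    exact_mod_cast this
  obtain ⟨b1, b2⟩ := hu₀ v v0
  obtain ⟨σ, s1, s2, s3, s4, s5⟩ := b1 x h W a4 a5 hh (wv h hhA) hW (wv W hWA)
  have hD : 2 * (σ.D : ℝ) ≤ E := by
    have d1 : (σ.D : ℝ) ≤ 2 ^ (c * v) := by exact_mod_cast s2
    calc _ ≤ (2 : ℝ) ^ (c * v + 1) := by rw [pow_succ]; linarith only [d1]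
      _ ≤ exp 1 ^ (c * v + 1) := by gcongr; linarith only [add_one_le_exp (1 : ℝ)]
      _ ≤ E := by rw [exp_one_pow]; exact exp_le_exp.2 (by push_cast; exact a3)
  have hP : ∀ q ∈ σ.P ∪ σ.E, q.Prime ∧ W < q := fun q hq => by
    rcases mem_union.1 hq with hq | hq
    · exact ⟨(σ.hP q hq).1, (σ.hP q hq).2.2.1⟩
    · exact σ.hE q hq
  obtain ⟨b3, b4⟩ := b2 σ.D σ.r N _ s2 s3 (sum_nonneg fun _ _ => by positivity)
    (sum_inv_le fun q hq => ⟨(hP q hq).1.pos, s1 q hq⟩) (by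
      refine le_trans ?_ NE
      rw [le_div_iff₀ Ep, hE, ← exp_add, ← eN]
      exact exp_le_exp.2 a2)
  have hU : UnifAP (fun n => ((G n : ℝ) : ℂ)) δ (l ^ (2 * A + 1)) (H * b) E (N₀ / E * b)
      (N₀ * exp (2 * √l) / 3) := by
    refine hK _ _ _ _ _ _ (fun n => by rw [Complex.norm_real]; exact G1 n)
      (a12.trans (le_self_pow₀ l1 (by omega))) ?_ ?_ ?_ ?_ <;> rw [← pow_mul, ← hb]
    · exact fun d hd hy m => congrArg _ (iG d hd (hy.trans (bE.trans Eη)) m)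
    · exact le_mul_of_one_le_left bp.le (le_trans (by norm_num) H4)
    · refine mul_le_mul_of_nonneg_right ?_ bp.le
      rw [le_div_iff₀ Ep, ← sq]
      exact (pow_le_pow_right₀ E1 (show 2 ≤ 4 by norm_num)).trans E4
    · rw [mul_div_cancel_right₀ _ bp.ne', mul_div_cancel_right₀ _ bp.ne',
        mul_div_cancel₀ _ (by norm_num)]
      exact hS
  have x0 : 4 * (a * a) ≤ x / 2 := (mul_le_mul H4 (le_mul_of_one_le_left (by positivity) b0)
      (by positivity) Hp.le).trans a6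
  have Wa : (W : ℝ) ≤ a * a := hWA.trans (le_mul_of_one_le_left ap.le a0)
  have φ0 : (0 : ℝ) < W.totient := by exact_mod_cast Nat.totient_pos.2 hW
  refine (detU σ hh hW e0 e1 (mul_pos hC φ0) (by linarith only [x0, Wa]) s5 (by positivity)
    (kub _ (Nat.one_le_two_pow) b4 (fun q hq => ⟨(hP q hq).1, s1 q hq, fun hd =>
      absurd (Nat.le_of_dvd hW hd) (not_le.2 (hP q hq).2)⟩) _ _) b3 ?_ hF G1
    (iF.mono (hD.trans Eη)) (iG.mono (hD.trans Eη)) hu fun s hs w hw => ?_).trans (by gcongr)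
  · have k1 : 1 ≤ e * E := by
      rw [div_le_iff₀' e0] at a13
      exact a13.trans (by gcongr; linarith only [add_one_le_exp √l])
    calc (h : ℝ) * σ.D ≤ 1 * (E * E) := by
          rw [one_mul]; exact mul_le_mul (hhA.trans aE) (by linarith only [hD, Ep]) (by positivity) Ep.le
      _ ≤ e * E * (E * E) := by gcongr
      _ = e * E ^ 3 := by ring
      _ ≤ _ := by gcongr
  obtain ⟨τ, hτ, rfl⟩ := mem_image.1 hs
  have p0 : 0 < pr τ.2 := prod_primes_pos (σ.prime2 hτ)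
  have p1 : (0 : ℝ) < pr τ.2 := by exact_mod_cast p0
  have q1 := σ.hQ τ hτ
  have q2 : 8 * ((σ.D : ℝ) / pr τ.2) ≤ E := by linarith only [s4 τ hτ, a7]
  have q3 := cd_le (M := σ.D * N) p0
  have q4 : ((σ.D * N : ℕ) : ℝ) ≤ (pr τ.2 * cd (σ.D * N) (pr τ.2) : ℕ) := by
    exact_mod_cast le_cd p0
  push_cast at q3 q4
  rw [mul_div_right_comm] at q3
  rw [← div_le_iff₀' p1, mul_div_right_comm] at q4
  set Q := (σ.D : ℝ) / pr τ.2
  set X := cd (σ.D * N) (pr τ.2)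
  have Q4 : 4 ≤ Q := by linarith only [x0, aa, q1]
  have Qp : 0 < Q := by linarith only [Q4]
  have NX : (N : ℝ) ≤ X :=
    (le_mul_of_one_le_left (Nat.cast_nonneg _) (by linarith only [Q4])).trans q4
  have hN2' : (N : ℝ) ≤ N₀ := by exact_mod_cast hN2
  have key := hfree G W h Q _ _ G1 hW hh
    ((le_of_max_le_left a11).trans (le_trans (le_mul_of_one_le_right Hp.le
      (one_le_mul_of_one_le_of_one_le b0 aa)) (a6.trans q1)))
    (by linarith only [pow_le_pow_left₀ (Nat.cast_nonneg W) hWA 2, x0, q1, aa])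
    (hU.mono le_rfl ?_ ?_ q2 le_rfl le_rfl) (σ.fib τ.2) τ.1
    (fun p hp => ?_) (fun p => if p ∈ σ.fib τ.2 then Q / p else 0) (fun p => ?_) w X hw ?_ ?_ ?_
  · have h2 : ∀ m : ℕ, |∑ p ∈ σ.fib τ.2, (if p ∈ σ.fib τ.2 then Q / p else 0) *
        G (w + W * m + h * p)| = Q * |∑ p ∈ σ.fib τ.2, (1 / (p : ℝ)) * G (w + W * m + h * p)| := by
      intro m
      rw [← abs_of_pos Qp, ← abs_mul, abs_of_pos Qp, mul_sum]
      congr 1
      refine sum_congr rfl fun p hp => ?_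
      rw [if_pos hp]; ring
    simp only [h2] at key
    rw [← mul_sum] at key
    refine le_of_mul_le_mul_left (key.trans (le_of_eq ?_)) Qp
    ring
  · calc (W : ℝ) * h ≤ a * a * 1 := by rw [mul_one]; gcongr
      _ ≤ a * a * l := by gcongr
      _ = _ := by rw [ha]; ring
  · rw [le_div_iff₀ (zero_lt_one.trans_le W1)]
    refine le_trans ?_ (a6.trans q1)
    rw [mul_assoc H]
    gcongr
  · obtain ⟨f1, f2, f3⟩ := σ.fib_bounds e3 hp
    exact ⟨f1, f2, f3, Nat.ModEq.cancel_right_of_coprime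
      (coprime_W σ hW hτ).coprime_mul_left_right
      ((σ.hEd _ (σ.mem_fib hp)).2.2.2.2.trans (σ.hEd τ hτ).2.2.2.2.symm)⟩
  · split_ifs with hp
    · have h1 := (σ.fib_bounds e3 hp).2.1
      rw [abs_of_nonneg (by positivity), div_le_one (Qp.trans_le h1)]
      exact h1
    · simp
  · refine le_trans ?_ (hN1.trans NX)
    rw [le_div_iff₀ ap]
    calc _ ≤ a * (N₀ / E * b) * a := by gcongr
      _ = N₀ / E * (b * (a * a)) := by ring
      _ ≤ N₀ / E * E := by gcongr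
      _ = _ := by field_simp
  · refine le_trans ?_ (hN1.trans NX)
    rw [le_div_iff₀ ap]
    calc _ ≤ a * E ^ 3 * a := by gcongr; linarith only [q2, Qp]
      _ = a * a * E ^ 3 := by ring
      _ ≤ E * E ^ 3 := by gcongr
      _ ≤ _ := by linarith only [E4]
  · rw [two_mul, exp_add, ← hE]
    have k1 : Q * N ≤ E / 8 * N₀ := by gcongr; linarith only [q2]
    have k2 : 1 * (E * N₀) ≤ E * (E * N₀) := by gcongr
    have k3 : 1 * N₀ ≤ E * N₀ := by gcongr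
    linarith only [k1, k2, k3, q3, N24]

end Pool.Agent.Work.MP_d018b2_nt.U
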