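import Pool.Agent.Work.MP_ca0f09_nt.Construct
import Pool.Agent.Lib.ANT.SieveSums

/-! Second moment of the number of weighted divisors in a window and a residue class. -/

set_option autoImplicit false
open Filter Topology Finset

namespace Pool.Agent.Work.MP_d018b2_nt.U.Sy

open Pool.Agent.Work.MP_ca0f09_nt

/-- Primes in a window and a residue class (Brun and Titchmarsh). -/
theorem window_AP (T : Finset ℕ) {lo W b : ℕ} (hW : 1 ≤ W) (h2 : 2 ≤ lo) (h4 : W ^ 4 ≤ lo)
    (hT : ∀ q ∈ T, q.Prime ∧ lo ≤ q ∧ q ≤ 4 * lo ∧ q ≡ b [MOD W]) :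
    ∑ q ∈ T, 1 / (q : ℝ) ≤ 36 / (W.totient * Real.log lo) := by
  classical
  have l1 : (1 : ℝ) < lo := by exact_mod_cast h2
  have l0 : (0 : ℝ) < lo := by linarith
  obtain ⟨v, hv⟩ : ∃ v : ℝ, v = (lo : ℝ) ^ ((1 : ℝ) / 8) := ⟨_, rfl⟩
  have v1 : 1 < v := hv ▸ Real.one_lt_rpow l1 (by norm_num)
  have v8 : v ^ 8 = lo := by
    rw [hv, ← Real.rpow_natCast, ← Real.rpow_mul l0.le]; norm_num
  have hlog : Real.log lo = 8 * Real.log v := by rw [← v8, Real.log_pow]; norm_num
  have lv : 0 < Real.log v := Real.log_pos v1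
  have vlo : v < lo := by
    rw [← v8]
    calc v = v ^ 1 := (pow_one v).symm
      _ < _ := pow_lt_pow_right₀ v1 (by norm_num)
  have ex : ∀ p : ℕ, ∃ t : ℕ, p.Prime → ¬ p ∣ W → t < p ∧ p ∣ b % W + W * t := by
    intro p
    by_cases c : p.Prime ∧ ¬ p ∣ W
    · have := Fact.mk c.1
      refine ⟨(-(b % W : ℕ) / (W : ZMod p)).val, fun _ _ => ⟨ZMod.val_lt _, ?_⟩⟩
      have h0 : (W : ZMod p) ≠ 0 := fun h => c.2 ((ZMod.natCast_eq_zero_iff W p).1 h)
      rw [← ZMod.natCast_eq_zero_iff, Nat.cast_add, Nat.cast_mul, ZMod.natCast_zmod_val]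
      field_simp
      ring
    · exact ⟨0, fun h1 h2 => absurd ⟨h1, h2⟩ c⟩
  choose t ht using ex
  have hs := Lib.ANT.sieve_dim ({0} : Finset ℕ) (fun _ => W) (fun _ _ => hW) v v1
    (fun p => if p ∣ W then ∅ else {t p})
    (fun p hp _ => by
      split_ifs with c
      · simp
      · simpa using (ht p hp c).1)
    (fun p hp _ => by
      split_ifs with c
      · simpa using hp.pos
      · simpa using hp.one_lt)
    (fun p hp _ => by
      split_ifs with c
      · simp [c]
      · simp [c]) 0 (4 * lo / W)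
  have Wlo : W ≤ lo := (Nat.le_self_pow (by norm_num) W).trans h4
  have hc : T.card ≤ ((Ioc 0 (0 + 4 * lo / W)).filter (fun n => ∀ p ∈ (range (⌊v⌋₊ + 1)).filter
      Nat.Prime, n % p ∉ (if p ∣ W then ∅ else {t p} : Finset ℕ))).card := by
    refine Finset.card_le_card_of_injOn (fun q => q / W) (fun q hq => ?_) fun q hq q' hq' e => ?_
    · obtain ⟨a1, a2, a3, a4⟩ := hT q hq
      refine Finset.mem_coe.2 (Finset.mem_filter.2 ⟨Finset.mem_Ioc.2
        ⟨Nat.div_pos (Wlo.trans a2) hW, by simpa using Nat.div_le_div_right a3⟩, fun p hp c => ?_⟩)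
      obtain ⟨p1, p2⟩ := Finset.mem_filter.1 hp
      have p3 : (p : ℝ) ≤ v := (Nat.cast_le.2 (Nat.lt_succ_iff.1 (Finset.mem_range.1 p1))).trans
        (Nat.floor_le (by linarith))
      split_ifs at c with d
      · simp at c
      · have e1 : q / W ≡ t p [MOD p] := by
          rw [← Finset.mem_singleton.1 c]; exact (Nat.mod_modEq _ _).symm
        have e2 : q = b % W + W * (q / W) := by
          rw [← show q % W = b % W from a4]; exact (Nat.mod_add_div q W).symm
        have e3 : p ∣ q := by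
          rw [e2]
          exact (Nat.modEq_zero_iff_dvd.1 (((e1.mul_left W).add_left _).trans
            (Nat.modEq_zero_iff_dvd.2 (ht p p2 d).2)))
        have e4 := (Nat.prime_dvd_prime_iff_eq p2 a1).1 e3
        have : (lo : ℝ) ≤ p := by exact_mod_cast e4 ▸ a2
        linarith
    · have c : q % W = q' % W := (hT q hq).2.2.2.trans (hT q' hq').2.2.2.symm
      simp only at e
      rw [← Nat.div_add_mod q W, ← Nat.div_add_mod q' W, e, c]
  have hc2 := (Nat.cast_le (α := ℝ).2 hc).trans hs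
  simp only [Finset.prod_singleton, Finset.card_singleton, pow_one] at hc2
  have W0 : (0 : ℝ) < W := by exact_mod_cast hW
  have f0 : (0 : ℝ) < W.totient := by exact_mod_cast Nat.totient_pos.2 hW
  have f1 : (W.totient : ℝ) ≤ v ^ 2 := by
    refine (Nat.cast_le.2 (Nat.totient_le W)).trans (le_of_pow_le_pow_left₀ (n := 4)
      (by norm_num) (by positivity) ?_)
    rw [← pow_mul, v8]; exact_mod_cast h4
  have f2 : Real.log lo ≤ 4 * v ^ 2 := by
    have := Real.log_le_sub_one_of_pos (x := v ^ 2) (by positivity)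
    rw [Real.log_pow] at this
    push_cast at this
    linarith
  have e1 : ((4 * lo / W : ℕ) : ℝ) / (W.totient / W * Real.log v) ≤
      32 * lo / (W.totient * Real.log lo) :=
    calc _ ≤ (4 * lo / W : ℝ) / (W.totient / W * Real.log v) := by
          gcongr; exact_mod_cast Nat.cast_div_le
      _ = _ := by rw [hlog]; field_simp; norm_num
  have e2 : v ^ 4 ≤ 4 * lo / (W.totient * Real.log lo) := by
    rw [le_div_iff₀ (by rw [hlog]; positivity)]
    calc _ ≤ v ^ 4 * (v ^ 2 * (4 * v ^ 2)) := by gcongr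
      _ = _ := by rw [← v8]; ring
  have h1 := Finset.sum_le_card_nsmul T (fun q => 1 / (q : ℝ)) (1 / lo) fun q hq =>
    one_div_le_one_div_of_le l0 (by exact_mod_cast (hT q hq).2.1)
  rw [nsmul_eq_mul] at h1
  calc _ ≤ (32 * lo / (W.totient * Real.log lo) + 4 * lo / (W.totient * Real.log lo)) *
        (1 / lo) := by
        refine h1.trans ?_
        gcongr; linarith
    _ = _ := by field_simp; norm_num

/-- local weight of a pair of fillers -/
noncomputable def om (Z : ℝ) (q : ℕ) (b c : Prop) [Decidable b] [Decidable c] : ℝ :=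
  if b then (if c then Z ^ 2 / (Z + 1) / q else Z / (Z + 1) / q)
  else (if c then Z / (Z + 1) / q else 1 - Z / (Z + 1) / q)

/-- weight of a pair of fillers -/
noncomputable def wt (Z : ℝ) (E s t : Finset ℕ) : ℝ := ∏ q ∈ E, om Z q (q ∈ s) (q ∈ t)

variable {Z : ℝ}

theorem th_le (hZ : 0 ≤ Z) : Z / (Z + 1) ≤ 1 := by rw [div_le_one (by linarith)]; linarith

theorem om_nonneg (hZ : 0 ≤ Z) {q : ℕ} (hq : 1 ≤ q) (b c : Prop) [Decidable b] [Decidable c] :
    0 ≤ om Z q b c := by
  have : (1 : ℝ) ≤ q := by exact_mod_cast hq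
  have h : Z / (Z + 1) / q ≤ 1 := by rw [div_le_one (by linarith)]; linarith [th_le hZ]
  unfold om
  split_ifs
  · positivity
  · positivity
  · positivity
  · linarith

theorem wt_nonneg (hZ : 0 ≤ Z) {E : Finset ℕ} (hE : ∀ q ∈ E, q.Prime) (s t : Finset ℕ) :
    0 ≤ wt Z E s t :=
  Finset.prod_nonneg fun q hq => om_nonneg hZ (hE q hq).pos _ _

theorem wt_comm (E s t : Finset ℕ) : wt Z E s t = wt Z E t s :=
  Finset.prod_congr rfl fun q _ => by unfold om; split_ifs <;> rfl

theorem wt_eq (hZ : 0 ≤ Z) {E s t : Finset ℕ} (hs : s ⊆ E) (ht : t ⊆ E) :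
    Z ^ s.card * Z ^ t.card * ∑ S ∈ E.powerset.filter (fun S => s ∪ t ⊆ S),
      law E S * (1 / (Z + 1)) ^ S.card = wt Z E s t := by
  have hu : s ∪ t ⊆ E := Finset.union_subset hs ht
  rw [sum_law_sup hu]
  have e : ∀ {s : Finset ℕ}, s ⊆ E → ∀ f g : ℕ → ℝ,
      (∏ q ∈ s, f q) * ∏ q ∈ E \ s, g q = ∏ q ∈ E, if q ∈ s then f q else g q := by
    intro s hs f g
    rw [← Finset.prod_sdiff hs, mul_comm]
    congr 1
    · exact Finset.prod_congr rfl fun q hq => (if_neg (Finset.mem_sdiff.1 hq).2).symm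
    · exact Finset.prod_congr rfl fun q hq => (if_pos hq).symm
  have e' : ∀ {s : Finset ℕ}, s ⊆ E → Z ^ s.card = ∏ q ∈ E, if q ∈ s then Z else 1 := by
    intro s hs
    rw [← e hs]; simp
  rw [e hu, e' hs, e' ht, ← Finset.prod_mul_distrib, ← Finset.prod_mul_distrib]
  refine Finset.prod_congr rfl fun q _ => ?_
  have z : Z / (Z + 1) = 1 - 1 / (Z + 1) := by field_simp; ring
  unfold om
  by_cases a : q ∈ s <;> by_cases b : q ∈ t <;>
    simp only [a, b, Finset.mem_union, if_true, if_false, or_self, or_true, true_or]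
  · ring
  · ring
  · ring
  · rw [z]; ring

theorem wt_insert {E : Finset ℕ} {a : ℕ} (ha : a ∉ E) {s t s' t' : Finset ℕ}
    (h1 : ∀ q ∈ E, q ∈ s' ↔ q ∈ s) (h2 : ∀ q ∈ E, q ∈ t' ↔ q ∈ t) :
    wt Z (insert a E) s' t' = om Z a (a ∈ s') (a ∈ t') * wt Z E s t := by
  rw [wt, Finset.prod_insert ha]
  congr 1
  exact Finset.prod_congr rfl fun q hq => by simp only [om, h1 q hq, h2 q hq]

theorem sum_wt_exp (hZ : 255 ≤ Z) (E : Finset ℕ) (hE : ∀ q ∈ E, 5 * Z ≤ (q : ℝ)) :
    ∑ s ∈ E.powerset, ∑ t ∈ E.powerset, wt Z E s t = ∏ q ∈ E, (1 + Z / (q : ℝ)) ∧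
    ∑ s ∈ E.powerset, ∑ t ∈ E.powerset, wt Z E s t * Real.exp (top E s t) ≤
      4 * ∏ q ∈ E, (1 + Z / (q : ℝ)) := by
  have Z0 : 0 ≤ Z := by linarith
  obtain ⟨θ, hθ⟩ : ∃ θ, θ = Z / (Z + 1) := ⟨_, rfl⟩
  have t1 : θ ≤ 1 := hθ ▸ th_le Z0
  have t2 : 0.99 ≤ θ := by rw [hθ, le_div_iff₀ (by linarith)]; linarith
  have t3 : Z ^ 2 / (Z + 1) = Z - θ := by rw [hθ]; field_simp; ring
  induction E using Finset.induction_on_max with
  | empty => simp [wt, top]
  | insert a E ha ih =>
    obtain ⟨i1, i2⟩ := ih fun q hq => hE q (Finset.mem_insert_of_mem hq)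
    have na : a ∉ E := fun c => lt_irrefl _ (ha a c)
    have a0 : 5 * Z ≤ (a : ℝ) := hE a (Finset.mem_insert_self _ _)
    have ins : ∀ s : Finset ℕ, ∀ q ∈ E, q ∈ insert a s ↔ q ∈ s := fun s q hq => by
      simp [(ha q hq).ne]
    have rf : ∀ s : Finset ℕ, ∀ q ∈ E, q ∈ s ↔ q ∈ s := fun _ _ _ => Iff.rfl
    have nm : ∀ s ∈ E.powerset, a ∉ s := fun s hs c => na (Finset.mem_powerset.1 hs c)
    rw [sum2_insert na, sum2_insert na, Finset.prod_insert na]
    constructor
    · rw [← i1, Finset.mul_sum]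
      refine Finset.sum_congr rfl fun s hs => ?_
      rw [Finset.mul_sum]
      refine Finset.sum_congr rfl fun t ht => ?_
      rw [wt_insert na (rf s) (rf t), wt_insert na (rf s) (ins t), wt_insert na (ins s) (rf t),
        wt_insert na (ins s) (ins t)]
      simp only [om, nm s hs, nm t ht, Finset.mem_insert_self, if_true, if_false, t3, ← hθ]
      ring
    · set Pi := ∏ q ∈ E, (1 + Z / (q : ℝ))
      have P0 : 0 ≤ Pi := Finset.prod_nonneg fun q _ => by positivity
      have e : ∑ s ∈ E.powerset, ∑ t ∈ E.powerset,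
          (wt Z (insert a E) s t * Real.exp (top (insert a E) s t) +
            wt Z (insert a E) s (insert a t) * Real.exp (top (insert a E) s (insert a t)) +
            (wt Z (insert a E) (insert a s) t * Real.exp (top (insert a E) (insert a s) t) +
              wt Z (insert a E) (insert a s) (insert a t) *
                Real.exp (top (insert a E) (insert a s) (insert a t)))) =
          2 * (θ / a) * (∑ s ∈ E.powerset, ∑ t ∈ E.powerset, wt Z E s t) +
          (1 + (Z - 2 * θ) / a) * Real.exp (1 / a) *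
            ∑ s ∈ E.powerset, ∑ t ∈ E.powerset, wt Z E s t * Real.exp (top E s t) := by
        rw [Finset.mul_sum, Finset.mul_sum, ← Finset.sum_add_distrib]
        refine Finset.sum_congr rfl fun s hs => ?_
        rw [Finset.mul_sum, Finset.mul_sum, ← Finset.sum_add_distrib]
        refine Finset.sum_congr rfl fun t ht => ?_
        rw [wt_insert na (rf s) (rf t), wt_insert na (rf s) (ins t), wt_insert na (ins s) (rf t),
          wt_insert na (ins s) (ins t), top_same ha (rf s) (rf t) (by simp [nm s hs, nm t ht]),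
          top_same ha (ins s) (ins t) (by simp), top_diff ha (by simp [nm s hs]),
          top_diff ha (by simp [nm t ht])]
        simp only [om, nm s hs, nm t ht, Finset.mem_insert_self, if_true, if_false,
          Real.exp_add, Real.exp_zero, t3, ← hθ]
        ring
      rw [e, i1]
      obtain ⟨x, hx⟩ : ∃ x : ℝ, x = 1 / a := ⟨_, rfl⟩
      have x0 : 0 ≤ x := by rw [hx]; positivity
      have x1 : Z * x ≤ 1 / 5 := by
        rw [hx, mul_one_div, div_le_iff₀ (by linarith)]; linarith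
      have x2 : x ≤ 1 := by nlinarith
      have ex : Real.exp x ≤ 1 + x + x ^ 2 := by
        have := Real.abs_exp_sub_one_sub_id_le (x := x) (by rwa [abs_of_nonneg x0])
        linarith [(abs_le.1 this).2]
      have k : ∀ c : ℝ, c / a = c * x := fun c => by rw [hx]; ring
      rw [← hx, k, k, k]
      have z1 : 0 ≤ Z - 2 * θ := by linarith
      have c1 : (1 + (Z - 2 * θ) * x) * Real.exp x ≤ 1 + (Z - 1 / 2) * x := by
        calc _ ≤ (1 + (Z - 2 * θ) * x) * (1 + x + x ^ 2) := by gcongr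
          _ ≤ _ := by
            have b1 := mul_le_mul_of_nonneg_left x1 x0
            have b2 := mul_le_mul_of_nonneg_left x1 (mul_nonneg x0 x0)
            have b3 := mul_le_mul_of_nonneg_left x2 x0
            have b4 := mul_le_mul_of_nonneg_left t2 x0
            have b5 := mul_le_mul_of_nonneg_left t2 (mul_nonneg x0 x0)
            have b6 := mul_nonneg (mul_nonneg x0 (mul_nonneg x0 x0)) (show 0 ≤ θ by linarith)
            nlinarith [mul_nonneg x0 x0]
      have z2 : 0 ≤ Z - 1 / 2 := by linarith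
      calc _ ≤ 2 * (θ * x) * Pi + (1 + (Z - 1 / 2) * x) * (4 * Pi) := by
            gcongr
            exact Finset.sum_nonneg fun s _ => Finset.sum_nonneg fun t _ => mul_nonneg
              (Finset.prod_nonneg fun q hq => om_nonneg Z0 (by
                have := hE q (Finset.mem_insert_of_mem hq)
                exact_mod_cast (show (1 : ℝ) ≤ q by linarith)) _ _) (Real.exp_pos _).le
        _ ≤ _ := by nlinarith [mul_le_mul_of_nonneg_left t1 (mul_nonneg x0 P0)]

theorem cop_pr {s : Finset ℕ} {W : ℕ} (hW : 1 ≤ W) (hs : ∀ q ∈ s, q.Prime ∧ W < q) :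
    Nat.Coprime W (pr s) :=
  Nat.Coprime.prod_right fun q hq => (Nat.coprime_of_lt_prime (by omega) (hs q hq).2 (hs q hq).1).symm

/-- comparable and congruent -/
def Rel (W m n : ℕ) : Prop := m ≤ 2 * n ∧ n ≤ 2 * m ∧ m ≡ n [MOD W]

theorem Rel.symm {W m n : ℕ} (h : Rel W m n) : Rel W n m := ⟨h.2.1, h.1, h.2.2.symm⟩

open Classical in
/-- one-sided off-diagonal contribution -/
theorem offdiag_le (hZ : 255 ≤ Z) {y z W : ℕ} (hy : 5 * Z ≤ (y : ℝ)) (hl : 48 ≤ Real.log y)
    (hW : 1 ≤ W) (hWy : W ^ 4 ≤ y) :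
    let E := (Ioc y z).filter Nat.Prime
    ∑ x ∈ (E.powerset ×ˢ E.powerset).filter (fun x => Rel W (pr x.1) (pr x.2) ∧
        ∃ a ∈ x.1, a ∉ x.2 ∧ ∀ q ∈ E, ¬ (q ∈ x.1 ↔ q ∈ x.2) → q ≤ a), wt Z E x.1 x.2 ≤
      864 * (∏ q ∈ E, (1 + Z / (q : ℝ))) / (W.totient * Real.log z) := by
  intro E
  have Z0 : 0 ≤ Z := by linarith
  have hE : ∀ q ∈ E, q.Prime ∧ y < q ∧ q ≤ z := fun q hq => by
    simpa [E, and_comm, and_assoc, and_left_comm] using hq
  have hE5 : ∀ q ∈ E, 5 * Z ≤ (q : ℝ) := fun q hq =>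
    hy.trans (by exact_mod_cast (hE q hq).2.1.le)
  have Wy : W ≤ y := (Nat.le_self_pow (by norm_num) W).trans hWy
  have f0 : (0 : ℝ) < W.totient := by exact_mod_cast Nat.totient_pos.2 hW
  set A := (E.powerset ×ˢ E.powerset).filter (fun x => Rel W (pr x.1) (pr x.2) ∧
        ∃ a ∈ x.1, a ∉ x.2 ∧ ∀ q ∈ E, ¬ (q ∈ x.1 ↔ q ∈ x.2) → q ≤ a) with hA
  have ex : ∀ x : Finset ℕ × Finset ℕ, ∃ a : ℕ, x ∈ A →
      a ∈ x.1 ∧ a ∉ x.2 ∧ ∀ q ∈ E, ¬ (q ∈ x.1 ↔ q ∈ x.2) → q ≤ a := by
    intro x
    by_cases hx : x ∈ A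
    · obtain ⟨a, h1, h2⟩ := (Finset.mem_filter.1 hx).2.2
      exact ⟨a, fun _ => ⟨h1, h2⟩⟩
    · exact ⟨0, fun c => absurd c hx⟩
  choose al hal using ex
  let R : Finset ℕ × Finset ℕ → ℕ → Prop := fun x a =>
    Rel W (a * pr x.1) (pr x.2) ∧ ∀ q ∈ E, ¬ (q ∈ x.1 ↔ q ∈ x.2) → q < a
  have h1 : ∑ x ∈ A, wt Z E x.1 x.2 ≤
      ∑ u ∈ ((E.powerset ×ˢ E.powerset) ×ˢ E).filter (fun u => R u.1 u.2),
        wt Z E u.1.1 u.1.2 * (2 * (1 / (u.2 : ℝ))) := by
    refine sum_le_of_inj (fun x => ((x.1.erase (al x), x.2), al x)) ?_ ?_ ?_ ?_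
    · intro x hx
      obtain ⟨a1, a2, a3⟩ := hal x hx
      obtain ⟨m, c, -⟩ := Finset.mem_filter.1 hx
      simp only [Finset.mem_product, Finset.mem_powerset] at m
      simp only [Finset.mem_filter, Finset.mem_product, Finset.mem_powerset, R, pr_erase a1]
      refine ⟨⟨⟨(Finset.erase_subset _ _).trans m.1, m.2⟩, m.1 a1⟩, c, fun q hq c => ?_⟩
      have : q ≠ al x := by rintro rfl; simp [a2] at c
      exact lt_of_le_of_ne (a3 q hq (by simpa [this] using c)) this
    · intro x hx x' hx' e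
      simp only [Prod.mk.injEq] at e
      obtain ⟨⟨e1, e2⟩, e3⟩ := e
      refine Prod.ext ?_ e2
      rw [← Finset.insert_erase (hal x hx).1, e1, e3, Finset.insert_erase (hal x' hx').1]
    · intro x hx
      obtain ⟨a1, a2, -⟩ := hal x hx
      have m : al x ∈ E :=
        Finset.mem_powerset.1 (Finset.mem_product.1 (Finset.mem_filter.1 hx).1).1 a1
      have na : al x ∉ E.erase (al x) := Finset.notMem_erase _ _
      have e1 := wt_insert (Z := Z) na (s := x.1) (t := x.2) (s' := x.1) (t' := x.2)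
        (fun _ _ => Iff.rfl) (fun _ _ => Iff.rfl)
      have e2 := wt_insert (Z := Z) na (s := x.1) (t := x.2) (s' := x.1.erase (al x)) (t' := x.2)
        (fun q hq => by simp [(Finset.mem_erase.1 hq).1]) (fun _ _ => Iff.rfl)
      rw [Finset.insert_erase m] at e1 e2
      simp only [e1, e2, om, a1, a2, Finset.notMem_erase, if_true, if_false]
      have w0 := wt_nonneg Z0 (E := E.erase (al x))
        (fun q hq => (hE q (Finset.mem_of_mem_erase hq)).1) x.1 x.2
      have a0 := hE5 _ m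
      have t1 := th_le Z0
      have : Z / (Z + 1) / al x ≤ 1 / 2 := by
        rw [div_le_iff₀ (by linarith)]; linarith
      have k : Z / (Z + 1) / al x ≤ (1 - Z / (Z + 1) / al x) * (2 * (1 / (al x : ℝ))) := by
        calc Z / (Z + 1) / al x ≤ 1 / 2 * (2 * (1 / (al x : ℝ))) := by
              rw [← mul_assoc, mul_one_div (1 / 2 * 2 : ℝ)]
              gcongr; linarith
          _ ≤ _ := by gcongr; linarith
      nlinarith [mul_le_mul_of_nonneg_right k w0]
    · intro u _
      exact mul_nonneg (wt_nonneg Z0 (fun q hq => (hE q hq).1) _ _) (by positivity)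
  refine h1.trans ?_
  rw [Finset.sum_filter, Finset.sum_product]
  have lz : 0 ≤ Real.log z := Real.log_natCast_nonneg z
  have h2 : ∀ x ∈ E.powerset ×ˢ E.powerset,
      ∑ a ∈ E, (if R x a then wt Z E x.1 x.2 * (2 * (1 / (a : ℝ))) else 0) ≤
        216 / (W.totient * Real.log z) * (wt Z E x.1 x.2 * Real.exp (top E x.1 x.2)) := by
    intro x hx
    have w0 := wt_nonneg Z0 (fun q hq => (hE q hq).1) x.1 x.2
    rw [← Finset.sum_filter, ← Finset.mul_sum, ← Finset.mul_sum]
    rcases (E.filter (R x)).eq_empty_or_nonempty with e | ne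
    · rw [e]; simp only [Finset.sum_empty, mul_zero]; positivity
    set lo := (E.filter (R x)).min' ne
    obtain ⟨m1, m2⟩ := Finset.mem_filter.1 ((E.filter (R x)).min'_mem ne)
    obtain ⟨p1, p2, p3⟩ := hE _ m1
    have sub := Finset.mem_powerset.1 (Finset.mem_product.1 hx).1
    have pp : 0 < pr x.1 := pr_pos fun q hq => (hE q (sub hq)).1
    have k1 := window_AP (E.filter (R x)) (lo := lo) (b := lo) hW p1.two_le (hWy.trans p2.le)
      fun q hq => by
        obtain ⟨n1, n2⟩ := Finset.mem_filter.1 hq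
        refine ⟨(hE q n1).1, Finset.min'_le _ _ hq, Nat.le_of_mul_le_mul_right ?_ pp,
          Nat.ModEq.cancel_right_of_coprime (cop_pr hW fun q hq =>
            ⟨(hE q (sub hq)).1, Wy.trans_lt (hE q (sub hq)).2.1⟩) (n2.1.2.2.trans m2.1.2.2.symm)⟩
        have := n2.1.1
        have := m2.1.2.1
        nlinarith
    have y0 : (0 : ℝ) < y := by linarith
    have l1 : Real.log y ≤ Real.log lo := Real.log_le_log y0 (by exact_mod_cast p2.le)
    have k2 := (mertens_exp p1.two_le (hl.trans l1) p3).1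
    have k3 : ∑ q ∈ (Ioc lo z).filter Nat.Prime, 1 / (q : ℝ) ≤ top E x.1 x.2 := by
      refine Finset.sum_le_sum_of_subset_of_nonneg (fun q hq => ?_) fun _ _ _ => by positivity
      simp only [Finset.mem_filter, Finset.mem_Ioc] at hq
      refine Finset.mem_filter.2 ⟨Finset.mem_filter.2 ⟨Finset.mem_Ioc.2 ⟨by omega, hq.1.2⟩, hq.2⟩,
        fun q' hq' c => (m2.2 q' hq' c).trans hq.1.1⟩
    have k4 := Real.exp_le_exp.2 k3
    have l0 : 0 < Real.log lo := by linarith
    have z0 : 0 < Real.log z :=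
      Real.log_pos (by exact_mod_cast (show 1 < z by have := p1.two_le; omega))
    have k5 : 36 / (W.totient * Real.log lo) ≤
        108 / (W.totient * Real.log z) * Real.exp (top E x.1 x.2) := by
      rw [div_mul_eq_mul_div, div_le_div_iff₀ (by positivity) (by positivity)]
      have : Real.log z ≤ 3 * Real.log lo * Real.exp (top E x.1 x.2) := k2.trans (by gcongr)
      nlinarith [mul_le_mul_of_nonneg_left this f0.le]
    calc _ ≤ wt Z E x.1 x.2 *
          (2 * (108 / (W.totient * Real.log z) * Real.exp (top E x.1 x.2))) := by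
          gcongr; exact k1.trans k5
      _ = _ := by ring
  refine (Finset.sum_le_sum h2).trans ?_
  rw [← Finset.mul_sum, Finset.sum_product]
  have := (sum_wt_exp hZ E hE5).2
  calc _ ≤ 216 / (W.totient * Real.log z) * (4 * ∏ q ∈ E, (1 + Z / (q : ℝ))) := by gcongr
    _ = _ := by ring

open Classical in
/-- the off-diagonal second moment bound -/
theorem moment_two (hZ : 255 ≤ Z) {y z W : ℕ} (hy : 5 * Z ≤ (y : ℝ)) (hl : 48 ≤ Real.log y)
    (hW : 1 ≤ W) (hWy : W ^ 4 ≤ y) :
    let E := (Ioc y z).filter Nat.Prime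
    ∑ s ∈ E.powerset, ∑ t ∈ E.powerset,
      (if Rel W (pr s) (pr t) ∧ s ≠ t then wt Z E s t else 0) ≤
      1728 * (∏ q ∈ E, (1 + Z / (q : ℝ))) / (W.totient * Real.log z) := by
  intro E
  have w0 := wt_nonneg (show 0 ≤ Z by linarith) (E := E) fun q hq => (Finset.mem_filter.1 hq).2
  have o1 := offdiag_le hZ (z := z) hy hl hW hWy
  simp only at o1
  set Pi := ∏ q ∈ E, (1 + Z / (q : ℝ))
  let R : Finset ℕ → Finset ℕ → Prop := fun s t => Rel W (pr s) (pr t) ∧
    ∃ a ∈ s, a ∉ t ∧ ∀ q ∈ E, ¬ (q ∈ s ↔ q ∈ t) → q ≤ a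
  have o2 : ∑ s ∈ E.powerset, ∑ t ∈ E.powerset, (if R s t then wt Z E s t else 0) ≤
      864 * Pi / (W.totient * Real.log z) := by
    rwa [Finset.sum_filter, Finset.sum_product] at o1
  have o3 : ∑ s ∈ E.powerset, ∑ t ∈ E.powerset, (if R t s then wt Z E s t else 0) ≤
      864 * Pi / (W.totient * Real.log z) := by
    rw [Finset.sum_comm]
    simpa only [wt_comm E _ _] using o2
  calc _ ≤ ∑ s ∈ E.powerset, ∑ t ∈ E.powerset, ((if R s t then wt Z E s t else 0) +
        (if R t s then wt Z E s t else 0)) := by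
        refine Finset.sum_le_sum fun s hs => Finset.sum_le_sum fun t ht => ?_
        have w := w0 s t
        by_cases c : Rel W (pr s) (pr t) ∧ s ≠ t
        · rw [if_pos c]
          obtain ⟨c, e⟩ := c
          have ne : (E.filter fun q => ¬ (q ∈ s ↔ q ∈ t)).Nonempty := by
            by_contra hc
            rw [Finset.not_nonempty_iff_eq_empty, Finset.filter_eq_empty_iff] at hc
            refine e (Finset.ext fun q => ⟨fun h => ?_, fun h => ?_⟩)
            · exact (not_not.1 (hc (Finset.mem_powerset.1 hs h))).1 h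
            · exact (not_not.1 (hc (Finset.mem_powerset.1 ht h))).2 h
          obtain ⟨-, m2⟩ := Finset.mem_filter.1 (Finset.max'_mem _ ne)
          have mx : ∀ q ∈ E, ¬ (q ∈ s ↔ q ∈ t) → q ≤ Finset.max' _ ne := fun q hq c =>
            Finset.le_max' _ q (Finset.mem_filter.2 ⟨hq, c⟩)
          by_cases h1 : Finset.max' _ ne ∈ s
          · have : R s t := ⟨c, _, h1, by tauto, mx⟩
            rw [if_pos this]; split_ifs <;> linarith
          · have : R t s := ⟨c.symm, _, by tauto, h1, fun q hq c => mx q hq (by tauto)⟩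
            rw [if_pos this]; split_ifs <;> linarith
        · rw [if_neg c]; split_ifs <;> linarith
    _ ≤ _ := by
        simp only [Finset.sum_add_distrib]
        have : 1728 * Pi / (W.totient * Real.log z) = 864 * Pi / (W.totient * Real.log z) +
          864 * Pi / (W.totient * Real.log z) := by ring
        linarith

end Pool.Agent.Work.MP_d018b2_nt.U.Sy
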