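import Pool.Agent.Work.MP_d018b2_nt.USys2

/-! Congruent divisors, the cut-off and the removed mass. -/

set_option autoImplicit false
open Filter Topology Finset

namespace Pool.Agent.Work.MP_d018b2_nt.U.Sy

open Pool.Agent.Work.MP_ca0f09_nt

open Classical in
theorem bad_one {V : ℝ} (hV : 0 ≤ V) (E : Finset ℕ) {p z : ℕ} (hp : p.Prime) (hz : 1 ≤ z)
    (hE : ∀ q ∈ E, q.Prime ∧ p < q ∧ q ≤ z) :
    ∑ S ∈ E.powerset.filter (fun S => ¬ Good3 {p} S), ∏ q ∈ S, V / q ≤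
      4 * V ^ 2 * ((1 + Real.log z) / p) ^ 2 * ∏ q ∈ E, (1 + 16 * V / (q : ℝ)) := by
  set η := (1 + Real.log z) / p
  have η0 : 0 ≤ η := div_nonneg (by have := Real.log_natCast_nonneg z; linarith) (by positivity)
  let Cl : Finset ℕ → ℕ → Prop := fun S a => ∃ t ⊆ S, ∃ t' ⊆ S, a * pr t ≡ pr t' [MOD p]
  let B := E.powerset.filter (fun S => ∃ t ⊆ S, ∃ t' ⊆ S, t ≠ t' ∧ pr t ≡ pr t' [MOD p])
  have sub : ∀ {t S : Finset ℕ} {a : ℕ}, t ⊆ S → a ∉ t → t ⊆ S.erase a := fun h1 h2 =>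
    Finset.subset_erase.2 ⟨h1, h2⟩
  have key : ∀ S ⊆ E, ∀ s₁ ⊆ S, ∀ s₂ ⊆ S, ∀ s₃ ⊆ S, pr s₁ ≡ pr s₂ [MOD p] →
      pr s₂ ≡ pr s₃ [MOD p] → s₂ ≠ s₃ → ∀ a, ¬ (a ∈ s₁ ↔ a ∈ s₂) → (a ∈ s₂ ↔ a ∈ s₃) →
      a ∈ S ∧ a ∈ E ∧ S.erase a ∈ B ∧ Cl (S.erase a) a := by
    intro S hS s₁ h1 s₂ h2 s₃ h3 e1 e2 ne a c1 c2
    have mB : S.erase a ∈ E.powerset := Finset.mem_powerset.2 ((Finset.erase_subset _ _).trans hS)
    by_cases c : a ∈ s₁
    · have n2 : a ∉ s₂ := by tauto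
      have n3 : a ∉ s₃ := by tauto
      exact ⟨h1 c, hS (h1 c), Finset.mem_filter.2 ⟨mB, s₂, sub h2 n2, s₃, sub h3 n3, ne, e2⟩,
        s₁.erase a, Finset.erase_subset_erase a h1, s₂, sub h2 n2, by rwa [pr_erase c]⟩
    · have n2 : a ∈ s₂ := by tauto
      have n3 : a ∈ s₃ := by tauto
      refine ⟨h2 n2, hS (h2 n2), Finset.mem_filter.2 ⟨mB, s₂.erase a,
        Finset.erase_subset_erase a h2, s₃.erase a, Finset.erase_subset_erase a h3, ?_, ?_⟩,
        s₂.erase a, Finset.erase_subset_erase a h2, s₁, sub h1 c,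
        by rw [pr_erase n2]; exact e1.symm⟩
      · intro e
        exact ne (by rw [← Finset.insert_erase n2, e, Finset.insert_erase n3])
      · rw [← pr_erase n2, ← pr_erase n3] at e2
        obtain ⟨a1, a2, -⟩ := hE a (hS (h2 n2))
        exact Nat.ModEq.cancel_left_of_coprime ((Nat.coprime_primes hp a1).2 a2.ne) e2
  have s1 := remove_le E (x := V) hV (E.powerset.filter (fun S => ¬ Good3 {p} S)) B Cl
    (by
      intro S hS
      obtain ⟨m, c⟩ := Finset.mem_filter.1 hS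
      rw [Finset.mem_powerset] at m
      simp only [Good3, Finset.mem_singleton, forall_eq, not_forall, not_or] at c
      obtain ⟨s₁, h1, s₂, h2, s₃, h3, e1, e2, n1, n2, n3⟩ := c
      obtain ⟨a, ha⟩ : ∃ a, ¬ (a ∈ s₁ ↔ a ∈ s₂) := by
        by_contra c
        push Not at c
        exact n1 (Finset.ext c)
      by_cases c : a ∈ s₂ ↔ a ∈ s₃
      · obtain ⟨k1, k2⟩ := key S m s₁ h1 s₂ h2 s₃ h3 e1 (e1.symm.trans e2) n3 a ha c
        exact ⟨a, k1, k2⟩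
      · obtain ⟨k1, k2⟩ := key S m s₂ h2 s₁ h1 s₃ h3 e1.symm e2 n2 a (by tauto) (by tauto)
        exact ⟨a, k1, k2⟩)
  have s2 := remove_le E (x := 4 * V) (by positivity) B E.powerset Cl (by
    intro S hS
    obtain ⟨m, t, h1, t', h2, ne, e⟩ := Finset.mem_filter.1 hS
    rw [Finset.mem_powerset] at m
    have mB : ∀ a, S.erase a ∈ E.powerset := fun a =>
      Finset.mem_powerset.2 ((Finset.erase_subset _ _).trans m)
    obtain ⟨a, ha⟩ : ∃ a, ¬ (a ∈ t ↔ a ∈ t') := by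
      by_contra c
      push Not at c
      exact ne (Finset.ext c)
    by_cases c : a ∈ t
    · exact ⟨a, h1 c, m (h1 c), mB a, t.erase a, Finset.erase_subset_erase a h1, t',
        sub h2 (by tauto), by rwa [pr_erase c]⟩
    · have c' : a ∈ t' := by tauto
      exact ⟨a, h2 c', m (h2 c'), mB a, t'.erase a, Finset.erase_subset_erase a h2, t,
        sub h1 c, by rw [pr_erase c']; exact e.symm⟩)
  have step : ∀ (x : ℝ) (T : Finset (Finset ℕ)), 0 ≤ x → T ⊆ E.powerset →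
      ∑ S ∈ T, (∏ q ∈ S, x / q) * (x * ∑ a ∈ E.filter (Cl S), 1 / (a : ℝ)) ≤
        x * η * ∑ S ∈ T, ∏ q ∈ S, (4 * x) / q := by
    intro x T hx hT
    rw [Finset.mul_sum]
    refine Finset.sum_le_sum fun S hS => ?_
    have := classes_le E hp hz hE (Finset.mem_powerset.1 (hT hS))
    have nn : 0 ≤ ∏ q ∈ S, x / q := Finset.prod_nonneg fun _ _ => by positivity
    calc _ ≤ (∏ q ∈ S, x / q) * (x * (4 ^ S.card * η)) := by gcongr
      _ = _ := by rw [← prod_mul_four]; ring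
  have t1 := step V B hV (Finset.filter_subset _ _)
  have t2 := step (4 * V) E.powerset (by positivity) subset_rfl
  have t3 : ∑ S ∈ E.powerset, ∏ q ∈ S, (4 * (4 * V)) / q = ∏ q ∈ E, (1 + 16 * V / (q : ℝ)) := by
    rw [Finset.prod_one_add, show 4 * (4 * V) = 16 * V by ring]
  rw [t3] at t2
  calc _ ≤ V * η * (4 * V * η * ∏ q ∈ E, (1 + 16 * V / (q : ℝ))) := by
        refine s1.trans (t1.trans ?_)
        gcongr
        exact s2.trans t2
    _ = _ := by ring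

open Classical in
theorem bad_le {V : ℝ} (hV : 0 ≤ V) (P E : Finset ℕ) {x z : ℕ} (hx : 1 ≤ x) (hz : 1 ≤ z)
    (hP : ∀ p ∈ P, p.Prime ∧ x ≤ p) (hE : ∀ q ∈ E, q.Prime ∧ q ≤ z)
    (hPE : ∀ p ∈ P, ∀ q ∈ E, p < q) :
    ∑ S ∈ E.powerset.filter (fun S => ¬ Good3 P S), law E S * V ^ S.card ≤
      4 * V ^ 2 * (1 + Real.log z) ^ 2 * (∏ q ∈ E, (1 + 16 * V / (q : ℝ))) *
        (∑ p ∈ P, 1 / (p : ℝ)) / x := by
  have nn : ∀ S : Finset ℕ, 0 ≤ ∏ q ∈ S, V / q := fun S =>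
    Finset.prod_nonneg fun _ _ => by positivity
  calc _ ≤ ∑ S ∈ E.powerset, ∑ p ∈ P, (if ¬ Good3 {p} S then ∏ q ∈ S, V / q else 0) := by
        rw [Finset.sum_filter]
        refine Finset.sum_le_sum fun S _ => ?_
        have n2 : ∀ p ∈ P, 0 ≤ (if ¬ Good3 {p} S then ∏ q ∈ S, V / q else 0) :=
          fun p _ => by split_ifs; exacts [le_rfl, nn S]
        split_ifs with c
        · exact Finset.sum_nonneg n2
        · obtain ⟨p, hp, e⟩ : ∃ p ∈ P, ¬ Good3 {p} S := by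
            by_contra k
            push Not at k
            exact c fun p hp => k p hp p (Finset.mem_singleton_self p)
          have := Finset.single_le_sum n2 hp
          rw [if_pos e] at this
          exact (law_mul_le (fun q hq => (hE q hq).1) S hV).trans this
    _ ≤ ∑ p ∈ P, 4 * V ^ 2 * (1 + Real.log z) ^ 2 * (∏ q ∈ E, (1 + 16 * V / (q : ℝ))) *
          (1 / (p : ℝ)) / x := by
        rw [Finset.sum_comm]
        refine Finset.sum_le_sum fun p hp => ?_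
        rw [← Finset.sum_filter]
        refine (bad_one hV E (hP p hp).1 hz fun q hq =>
          ⟨(hE q hq).1, hPE p hp q hq, (hE q hq).2⟩).trans ?_
        have x0 : (0 : ℝ) < x := by exact_mod_cast hx
        have xp : (x : ℝ) ≤ p := by exact_mod_cast (hP p hp).2
        have p0 : (0 : ℝ) < p := by linarith
        have : 0 ≤ ∏ q ∈ E, (1 + 16 * V / (q : ℝ)) := Finset.prod_nonneg fun _ _ => by positivity
        calc _ = 4 * V ^ 2 * (1 + Real.log z) ^ 2 * (∏ q ∈ E, (1 + 16 * V / (q : ℝ))) *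
              (1 / (p : ℝ)) / p := by field_simp
          _ ≤ _ := by gcongr
    _ = _ := by rw [← Finset.sum_div, ← Finset.mul_sum]

/-- weighted number of the other edges through the special prime of `τ` present at `S` -/
noncomputable def NN (Z : ℝ) (Ed : Finset (ℕ × Finset ℕ)) (S : Finset ℕ) (τ : ℕ × Finset ℕ) : ℝ :=
  ∑ τ' ∈ Ed.filter (fun τ' => τ'.1 = τ.1 ∧ τ'.2 ⊆ S ∧ τ' ≠ τ), Z ^ τ'.2.card

open Classical in
/-- the cut-off -/
noncomputable def uu (Z : ℝ) (P : Finset ℕ) (Ed : Finset (ℕ × Finset ℕ)) (lam K γ B : ℝ)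
    (S : Finset ℕ) (τ : ℕ × Finset ℕ) : ℝ :=
  if τ.2 ⊆ S ∧ NN Z Ed S τ ≤ K * ((Z + 1) ^ S.card / lam) ∧
    Z ^ τ.2.card ≤ γ * ((Z + 1) ^ S.card / lam) / 2 ∧ (Z + 1) ^ S.card / lam ≤ B ∧ Good3 P S
  then 1 else 0

variable {Z : ℝ}

theorem NN_nonneg (hZ : 0 ≤ Z) (Ed : Finset (ℕ × Finset ℕ)) (S : Finset ℕ) (τ : ℕ × Finset ℕ) :
    0 ≤ NN Z Ed S τ :=
  Finset.sum_nonneg fun _ _ => by positivity

theorem uu_K1 (hZ : 0 ≤ Z) (P : Finset ℕ) (Ed : Finset (ℕ × Finset ℕ)) {lam K γ : ℝ} (B : ℝ)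
    (hl : 0 < lam) (hK : 0 < K) (hγ : γ ≤ K) (S : Finset ℕ) (q : ℕ) :
    ∑ τ ∈ Ed.filter (fun τ => τ.1 = q), Z ^ τ.2.card * uu Z P Ed lam K γ B S τ ≤
      2 * K * ((Z + 1) ^ S.card / lam) := by
  classical
  have ρ0 : 0 ≤ (Z + 1) ^ S.card / lam := by positivity
  by_cases c : ∃ τ ∈ Ed.filter (fun τ => τ.1 = q), uu Z P Ed lam K γ B S τ ≠ 0
  · obtain ⟨τ₀, h0, h1⟩ := c
    unfold uu at h1
    split_ifs at h1 with k
    swap
    · exact absurd rfl h1
    have e : ∑ τ ∈ (Ed.filter (fun τ => τ.1 = q)).erase τ₀,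
        Z ^ τ.2.card * uu Z P Ed lam K γ B S τ ≤ NN Z Ed S τ₀ := by
      rw [NN, (Finset.mem_filter.1 h0).2, ← Finset.filter_filter, ← Finset.filter_ne',
        Finset.sum_filter, Finset.sum_filter (s := Ed.filter _)]
      refine Finset.sum_le_sum fun τ _ => ?_
      unfold uu
      split_ifs with a b d d d
      · simp
      · exact absurd ⟨b.1, a⟩ d
      · simp only [mul_zero]; positivity
      · simp
      · positivity
      · rfl
    rw [← Finset.add_sum_erase _ _ h0, uu, if_pos k, mul_one]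
    nlinarith [k.2.1, k.2.2.1, mul_le_mul_of_nonneg_right hγ ρ0, mul_nonneg hK.le ρ0]
  · push Not at c
    rw [Finset.sum_eq_zero fun τ hτ => by rw [c τ hτ, mul_zero]]
    positivity

theorem uu_K2 (hZ : 0 ≤ Z) (P : Finset ℕ) (Ed : Finset (ℕ × Finset ℕ)) {lam γ : ℝ} (K B : ℝ)
    (hl : 0 < lam) (hγ : 0 ≤ γ) (S : Finset ℕ) (q : ℕ) {q' : ℕ} (hq : q' ∈ P) (b : ℕ) :
    ∑ τ ∈ Ed.filter (fun τ => τ.1 = q ∧ pr τ.2 ≡ b [MOD q']),
      Z ^ τ.2.card * uu Z P Ed lam K γ B S τ ≤ γ * ((Z + 1) ^ S.card / lam) := by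
  classical
  set T := (Ed.filter (fun τ => τ.1 = q ∧ pr τ.2 ≡ b [MOD q'])).filter fun τ =>
    τ.2 ⊆ S ∧ NN Z Ed S τ ≤ K * ((Z + 1) ^ S.card / lam) ∧
    Z ^ τ.2.card ≤ γ * ((Z + 1) ^ S.card / lam) / 2 ∧ (Z + 1) ^ S.card / lam ≤ B ∧ Good3 P S
    with hT
  have e : ∑ τ ∈ Ed.filter (fun τ => τ.1 = q ∧ pr τ.2 ≡ b [MOD q']),
      Z ^ τ.2.card * uu Z P Ed lam K γ B S τ = ∑ τ ∈ T, Z ^ τ.2.card := by
    rw [hT, Finset.sum_filter (s := Ed.filter _)]
    refine Finset.sum_congr rfl fun τ _ => ?_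
    unfold uu
    split_ifs <;> simp
  have hc : T.card ≤ 2 := by
    by_contra c
    obtain ⟨x, y, z, hx, hy, hz, n1, n2, n3⟩ := Finset.two_lt_card_iff.1 (not_le.1 c)
    simp only [hT, Finset.mem_filter] at hx hy hz
    rcases hx.2.2.2.2.2 q' hq _ hx.2.1 _ hy.2.1 _ hz.2.1 (hx.1.2.2.trans hy.1.2.2.symm)
      (hx.1.2.2.trans hz.1.2.2.symm) with k | k | k
    · exact n1 (Prod.ext (hx.1.2.1.trans hy.1.2.1.symm) k)
    · exact n2 (Prod.ext (hx.1.2.1.trans hz.1.2.1.symm) k)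
    · exact n3 (Prod.ext (hy.1.2.1.trans hz.1.2.1.symm) k)
  rw [e]
  have h1 := Finset.sum_le_card_nsmul T (fun τ => Z ^ τ.2.card)
    (γ * ((Z + 1) ^ S.card / lam) / 2) fun τ hτ => (Finset.mem_filter.1 hτ).2.2.2.1
  rw [nsmul_eq_mul] at h1
  have h2 : (T.card : ℝ) ≤ 2 := by exact_mod_cast hc
  have h3 : 0 ≤ γ * ((Z + 1) ^ S.card / lam) / 2 := by positivity
  nlinarith

open Classical in
theorem one_sub_uu (hZ : 0 ≤ Z) {k : ℕ} (hk : Z + 1 = 2 ^ k) (k0 : k ≠ 0) (P : Finset ℕ)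
    (Ed : Finset (ℕ × Finset ℕ)) {lam K γ B Y : ℝ} (hl : 0 < lam)
    (hK : 0 < K) (hB : 0 < B) (hY : 0 ≤ Y) (hγ : 0 < γ) (hYγ : 2 * lam ≤ γ * Y ^ k)
    {S : Finset ℕ} {τ : ℕ × Finset ℕ} (hS : τ.2 ⊆ S) :
    1 - uu Z P Ed lam K γ B S τ ≤ lam / K * NN Z Ed S τ * (1 / (Z + 1)) ^ S.card +
      Y * 2 ^ τ.2.card * (1 / 2) ^ S.card + 1 / (lam * B) * (Z + 1) ^ S.card +
      (if ¬ Good3 P S then 1 else 0) := by
  have a1 : 0 ≤ lam / K * NN Z Ed S τ * (1 / (Z + 1)) ^ S.card := by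
    have := NN_nonneg hZ Ed S τ; positivity
  have a2 : 0 ≤ Y * 2 ^ τ.2.card * (1 / 2) ^ S.card := by positivity
  have a3 : 0 ≤ 1 / (lam * B) * (Z + 1) ^ S.card := by positivity
  have a4 : (0 : ℝ) ≤ (if ¬ Good3 P S then 1 else 0) := by split_ifs <;> norm_num
  have p0 : (0 : ℝ) < (Z + 1) ^ S.card := by positivity
  unfold uu
  by_cases c1 : NN Z Ed S τ ≤ K * ((Z + 1) ^ S.card / lam)
  · by_cases c2 : Z ^ τ.2.card ≤ γ * ((Z + 1) ^ S.card / lam) / 2
    · by_cases c3 : (Z + 1) ^ S.card / lam ≤ B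
      · by_cases c4 : Good3 P S
        · rw [if_pos ⟨hS, c1, c2, c3, c4⟩]; linarith
        · rw [if_neg fun a => c4 a.2.2.2.2, if_pos c4]; linarith
      · rw [if_neg fun a => c3 a.2.2.2.1]
        have : 1 ≤ 1 / (lam * B) * (Z + 1) ^ S.card := by
          rw [not_le, lt_div_iff₀ hl] at c3
          rw [one_div_mul_eq_div, le_div_iff₀ (by positivity)]; linarith
        linarith
    · rw [if_neg fun a => c2 a.2.2.1]
      have : 1 ≤ Y * 2 ^ τ.2.card * (1 / 2) ^ S.card := by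
        rw [one_div, inv_pow, ← div_eq_mul_inv, le_div_iff₀ (by positivity), one_mul]
        refine le_of_pow_le_pow_left₀ k0 (by positivity) ?_
        have e : ∀ j : ℕ, ((2 : ℝ) ^ j) ^ k = (Z + 1) ^ j := fun j => by
          rw [← pow_mul, mul_comm, pow_mul, hk]
        rw [mul_pow, e, e]
        have h1 : Z ^ τ.2.card ≤ (Z + 1) ^ τ.2.card := by gcongr; linarith
        rw [not_le, ← mul_div_assoc, div_div, div_lt_iff₀ (by positivity)] at c2
        have h2 : γ * (Z + 1) ^ S.card ≤ γ * (Y ^ k * (Z + 1) ^ τ.2.card) :=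
          calc _ ≤ Z ^ τ.2.card * (lam * 2) := c2.le
            _ ≤ (Z + 1) ^ τ.2.card * (γ * Y ^ k) :=
              mul_le_mul h1 (by linarith) (by positivity) (by positivity)
            _ = _ := by ring
        exact le_of_mul_le_mul_left h2 hγ
      linarith
  · rw [if_neg fun a => c1 a.2.1]
    have : 1 ≤ lam / K * NN Z Ed S τ * (1 / (Z + 1)) ^ S.card := by
      calc (1 : ℝ) = lam / K * (K * ((Z + 1) ^ S.card / lam)) * (1 / (Z + 1)) ^ S.card := by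
            rw [one_div, inv_pow]; field_simp
        _ ≤ _ := by gcongr; exact (not_le.1 c1).le
    linarith

open Classical in
/-- the second moment term of one edge -/
theorem edge_one (hZ : 0 ≤ Z) {P E : Finset ℕ} {W : ℕ} (hP : ∀ q ∈ P, q.Prime ∧ W.Coprime q)
    (hE : ∀ q ∈ E, q.Prime) {ε : ℝ}
    (hε : ε ≤ 1) {D a : ℕ} {τ : ℕ × Finset ℕ} (h : τ ∈ edges P E ε W D a) :
    Z ^ τ.2.card * ∑ S ∈ E.powerset.filter (fun S => τ.2 ⊆ S),
        law E S * (NN Z (edges P E ε W D a) S τ * (1 / (Z + 1)) ^ S.card) ≤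
      ∑ t ∈ E.powerset, if Rel W (pr τ.2) (pr t) ∧ τ.2 ≠ t then wt Z E τ.2 t else 0 := by
  obtain ⟨p, s⟩ := τ
  have p0 : 0 < p := (hP p (mem_edges.1 h).1).1.pos
  have hN : ∀ S, NN Z (edges P E ε W D a) S (p, s) ≤ ∑ t ∈ E.powerset,
      if (Rel W (pr s) (pr t) ∧ s ≠ t) ∧ t ⊆ S then Z ^ t.card else 0 := by
    intro S
    rw [← Finset.sum_filter]
    refine sum_le_of_inj Prod.snd ?_ ?_ (fun _ _ => le_rfl) fun _ _ => by positivity
    · intro τ hτ
      obtain ⟨m, e, k, ne⟩ := Finset.mem_filter.1 hτ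
      have a1 := edge_le hε m
      have a2 := edge_le hε h
      have a3 := (mem_edges.1 m).2.2.1
      have a4 := (mem_edges.1 h).2.2.1
      have a5 := (mem_edges.1 h).2.2.2.2.trans (mem_edges.1 m).2.2.2.2.symm
      rw [e] at a1 a3 a5
      refine Finset.mem_filter.2 ⟨Finset.mem_powerset.2 (mem_edges.1 m).2.1, ⟨⟨?_, ?_, ?_⟩,
        fun c => ne (Prod.ext e c.symm)⟩, k⟩
      · refine Nat.le_of_mul_le_mul_left ?_ p0
        simp only at a2 a3; nlinarith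
      · refine Nat.le_of_mul_le_mul_left ?_ p0
        simp only at a4 a1; nlinarith
      · exact Nat.ModEq.cancel_left_of_coprime (hP p (mem_edges.1 h).1).2 a5
    · intro τ hτ τ' hτ' e
      exact Prod.ext ((Finset.mem_filter.1 hτ).2.1.trans (Finset.mem_filter.1 hτ').2.1.symm) e
  calc _ ≤ Z ^ s.card * ∑ S ∈ E.powerset.filter (fun S => s ⊆ S),
        ∑ t ∈ E.powerset, law E S * ((if (Rel W (pr s) (pr t) ∧ s ≠ t) ∧ t ⊆ S then
          Z ^ t.card else 0) * (1 / (Z + 1)) ^ S.card) := by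
        gcongr with S _
        rw [← Finset.mul_sum, ← Finset.sum_mul]
        have := law_nonneg hE S
        gcongr
        exact hN S
    _ = _ := by
        rw [Finset.sum_comm, Finset.mul_sum]
        refine Finset.sum_congr rfl fun t ht => ?_
        split_ifs with c
        · rw [← wt_eq hZ (mem_edges.1 h).2.1 (Finset.mem_powerset.1 ht), mul_assoc]
          congr 1
          rw [Finset.mul_sum, Finset.sum_filter, Finset.sum_filter]
          refine Finset.sum_congr rfl fun S _ => ?_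
          simp only [eq_true c, true_and, Finset.union_subset_iff]
          by_cases c1 : s ⊆ S <;> by_cases c2 : t ⊆ S <;> simp [c1, c2]
          ring
        · simp only [eq_false c, false_and, if_false, zero_mul, mul_zero, Finset.sum_const_zero]

open Classical in
/-- removed mass of one edge -/
theorem edge_removed (hZ : 0 < Z) {k : ℕ} (hk : Z + 1 = 2 ^ k) (k0 : k ≠ 0) {P E : Finset ℕ}
    {W : ℕ} (hP : ∀ q ∈ P, q.Prime ∧ W.Coprime q) (hE : ∀ q ∈ E, q.Prime) {ε : ℝ}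
    (hε : ε ≤ 1) {D a : ℕ} {lam K γ B Y η : ℝ} (hl : 0 < lam)
    (hK : 0 < K) (hB : 0 < B) (hY : 0 ≤ Y) (hγ : 0 < γ) (hYγ : 2 * lam ≤ γ * Y ^ k)
    (h2 : Y * Real.exp ((1 - ∑ q ∈ E, 1 / (q : ℝ)) / 2) ≤ η)
    (h3 : (2 * D) ^ k * ∏ q ∈ E, (1 + Z / (q : ℝ)) ≤ η * (lam * B))
    {τ : ℕ × Finset ℕ} (h : τ ∈ edges P E ε W D a) (h1 : ∑ q ∈ τ.2, 1 / (q : ℝ) ≤ 1) :
    Z ^ τ.2.card / τ.1 * ∑ S ∈ E.powerset.filter (fun S => τ.2 ⊆ S),
        law E S * (1 - uu Z P (edges P E ε W D a) lam K γ B S τ) ≤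
      1 / τ.1 * (lam / K * (∑ t ∈ E.powerset,
        if Rel W (pr τ.2) (pr t) ∧ τ.2 ≠ t then wt Z E τ.2 t else 0) +
        Z ^ τ.2.card * ∑ S ∈ E.powerset.filter (fun S => τ.2 ⊆ S),
          law E S * (if ¬ Good3 P S then 1 else 0)) +
      2 * η * (Z ^ τ.2.card / (τ.1 * pr τ.2)) := by
  have e1 := edge_one hZ.le hP hE hε h
  obtain ⟨m1, m2, -⟩ := mem_edges.1 h
  have p0 : (0 : ℝ) < τ.1 := by exact_mod_cast (hP _ m1).1.pos
  have hs : ∀ q ∈ τ.2, q.Prime := fun q hq => hE q (m2 hq)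
  have s0 : (0 : ℝ) < pr τ.2 := by exact_mod_cast pr_pos hs
  have e2 : ∑ S ∈ E.powerset.filter (fun S => τ.2 ⊆ S),
      law E S * (Y * 2 ^ τ.2.card * (1 / 2) ^ S.card) ≤ η / pr τ.2 := by
    simp only [mul_left_comm (law E _)]
    rw [← Finset.mul_sum, sum_law_sup m2, prod_div_eq]
    calc _ ≤ Y * 2 ^ τ.2.card * ((1 / 2) ^ τ.2.card / pr τ.2 *
          Real.exp ((1 - ∑ q ∈ E, 1 / (q : ℝ)) / 2)) := by
          gcongr; exact prod_half_le hE m2 h1
      _ = Y * Real.exp ((1 - ∑ q ∈ E, 1 / (q : ℝ)) / 2) / pr τ.2 := by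
          rw [one_div, inv_pow]; field_simp
      _ ≤ _ := by gcongr
  have e3 : ∑ S ∈ E.powerset.filter (fun S => τ.2 ⊆ S),
      law E S * (1 / (lam * B) * (Z + 1) ^ S.card) ≤ η / pr τ.2 := by
    simp only [mul_left_comm (law E _)]
    rw [← Finset.mul_sum, sum_law_sup m2, prod_div_eq]
    have a1 : ∏ q ∈ E \ τ.2, (1 - 1 / (q : ℝ) + (Z + 1) / q) ≤ ∏ q ∈ E, (1 + Z / (q : ℝ)) := by
      rw [Finset.prod_congr rfl (g := fun q : ℕ => 1 + Z / (q : ℝ)) fun q _ => by ring]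
      exact Finset.prod_le_prod_of_subset_of_one_le Finset.sdiff_subset
        (fun _ _ => by positivity) fun q _ _ => by
          have : (0 : ℝ) ≤ Z / q := by positivity
          linarith
    have a2 : (Z + 1) ^ τ.2.card ≤ (2 * D) ^ k := by
      have b1 := two_pow_le_pr hs
      have b2 := edge_le hε h
      have b3 : pr τ.2 ≤ τ.1 * pr τ.2 := Nat.le_mul_of_pos_left _ (hP _ m1).1.pos
      have b4 : (2 : ℝ) ^ τ.2.card ≤ 2 * D := by exact_mod_cast b1.trans (b3.trans b2)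
      calc (Z + 1) ^ τ.2.card = (2 ^ τ.2.card) ^ k := by
            rw [← pow_mul, mul_comm, pow_mul, hk]
        _ ≤ _ := by gcongr
    have a0 : 0 ≤ ∏ q ∈ E \ τ.2, (1 - 1 / (q : ℝ) + (Z + 1) / q) :=
      Finset.prod_nonneg fun q hq => by
        have := one_sub_nonneg (hE q (Finset.mem_sdiff.1 hq).1)
        positivity
    calc _ ≤ 1 / (lam * B) * ((2 * D) ^ k / pr τ.2 * ∏ q ∈ E, (1 + Z / (q : ℝ))) := by gcongr
      _ = 1 / (lam * B) * ((2 * D) ^ k * ∏ q ∈ E, (1 + Z / (q : ℝ))) / pr τ.2 := by ring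
      _ ≤ 1 / (lam * B) * (η * (lam * B)) / pr τ.2 := by gcongr
      _ = _ := by field_simp
  have e4 := Finset.sum_le_sum (s := E.powerset.filter (fun S => τ.2 ⊆ S)) fun S hS =>
    mul_le_mul_of_nonneg_left (one_sub_uu hZ.le hk k0 P (edges P E ε W D a) hl hK hB hY hγ hYγ
      (Finset.mem_filter.1 hS).2) (law_nonneg hE S)
  simp only [mul_add, Finset.sum_add_distrib] at e4
  have e5 : ∑ S ∈ E.powerset.filter (fun S => τ.2 ⊆ S),
      law E S * (lam / K * NN Z (edges P E ε W D a) S τ * (1 / (Z + 1)) ^ S.card) =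
      lam / K * ∑ S ∈ E.powerset.filter (fun S => τ.2 ⊆ S),
        law E S * (NN Z (edges P E ε W D a) S τ * (1 / (Z + 1)) ^ S.card) := by
    rw [Finset.mul_sum]; exact Finset.sum_congr rfl fun _ _ => by ring
  rw [e5] at e4
  have e6 := mul_le_mul_of_nonneg_left e1 (div_pos hl hK).le
  have w0 : (0 : ℝ) < Z ^ τ.2.card := by positivity
  set A := ∑ S ∈ E.powerset.filter (fun S => τ.2 ⊆ S),
    law E S * (NN Z (edges P E ε W D a) S τ * (1 / (Z + 1)) ^ S.card)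
  set G := ∑ S ∈ E.powerset.filter (fun S => τ.2 ⊆ S), law E S * (if ¬ Good3 P S then 1 else 0)
  calc _ ≤ Z ^ τ.2.card / τ.1 * (lam / K * A + η / pr τ.2 + η / pr τ.2 + G) := by
        gcongr; linarith
    _ = 1 / τ.1 * (lam / K * (Z ^ τ.2.card * A) + Z ^ τ.2.card * G) +
      2 * η * (Z ^ τ.2.card / (τ.1 * pr τ.2)) := by field_simp; ring
    _ ≤ _ := by gcongr

end Pool.Agent.Work.MP_d018b2_nt.U.Sy
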