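import Pool.Agent.Work.MP_d018b2_nt.UCent
import Pool.Agent.Work.MP_51e72e_nt.L2Main

/-! Deterministic transfer to two-point correlations in a progression. -/

set_option autoImplicit false
open Filter Topology Finset

namespace Pool.Agent.Work.MP_d018b2_nt.U

open Pool.Agent.Work.MP_ca0f09_nt Pool.Agent.Lib.MR Pool.Agent.Work.MP_51e72e_nt.LT

lemma sum_ind_AP {e W v₀ v : ℕ} (he : 0 < e) (co : Nat.Coprime W e) (hv₀ : v₀ < W) (hv : v < W)
    (h : e * v ≡ v₀ [MOD W]) (M : ℕ) (f : ℕ → ℝ) :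
    ∑ y ∈ range M, ind e ((W * y + v₀ : ℕ) : ℤ) * f (W * y + v₀) =
      ∑ y ∈ range (cd M e), if e * (W * y + v) < W * M then f (e * (W * y + v)) else 0 := by
  rw [← sum_class (fun n => ind e (n : ℤ) * f n) hv₀,
    ← sum_class (fun m => if e * m < W * M then f (e * m) else 0) hv]
  simp only [mul_left_comm _ (ind e _)]
  rw [sum_ind_mul he (W * M) fun n => (if n % W = v₀ then 1 else 0) * f n]
  have h1 : cd (W * M) e ≤ W * cd M e := by
    by_contra hlt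
    have h2 := (lt_cd he).1 (not_le.1 hlt)
    have h3 := Nat.mul_le_mul_left W (le_cd (M := M) he)
    rw [mul_left_comm] at h2
    omega
  rw [← sum_subset (range_subset_range.2 h1) fun m _ hm => by
    rw [if_neg fun h2 => hm (mem_range.2 ((lt_cd he).2 h2)), mul_zero]]
  refine sum_congr rfl fun m hm => ?_
  rw [if_pos ((lt_cd he).1 (mem_range.1 hm))]
  congr 1
  refine if_congr ⟨fun h2 => ?_, fun h2 => ?_⟩ rfl rfl
  · have h3 : e * m ≡ e * v [MOD W] := by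
      refine Nat.ModEq.trans ?_ h.symm
      unfold Nat.ModEq; rw [h2, Nat.mod_eq_of_lt hv₀]
    rw [← Nat.mod_eq_of_lt hv]
    exact Nat.ModEq.cancel_left_of_coprime co h3
  · have h3 : m ≡ v [MOD W] := by unfold Nat.ModEq; rw [h2, Nat.mod_eq_of_lt hv]
    rw [← Nat.mod_eq_of_lt hv₀]
    exact (h3.mul_left e).trans h

variable {h W : ℕ} {ε C Q₀ : ℝ} (σ : Sys h W ε C Q₀)

lemma card_Ed_le (hε1 : ε ≤ 1) : σ.Ed.card ≤ 2 * σ.D := by
  refine (card_le_card_of_injOn (t := Icc 1 (2 * σ.D)) (fun τ => τ.1 * pr τ.2) (fun τ hτ => ?_)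
    fun τ hτ τ' hτ' e => ?_).trans (by simp)
  · obtain ⟨-, -, h2, h3, -⟩ := σ.hEd τ hτ
    have h4 : ((τ.1 * pr τ.2 : ℕ) : ℝ) ≤ 2 * σ.D :=
      h3.trans (mul_le_mul_of_nonneg_right (by linarith) (Nat.cast_nonneg _))
    exact mem_coe.2 (mem_Icc.2 ⟨σ.hD.trans h2, by exact_mod_cast h4⟩)
  · have e' : τ.1 * pr τ.2 = τ'.1 * pr τ'.2 := e
    have h1 : τ.1 = τ'.1 := by
      have h2 := coprime_prod_primes (σ.prime2 hτ') (σ.prime1 hτ) fun h =>
        disjoint_left.1 σ.hPE (σ.hEd τ hτ).1 ((σ.hEd τ' hτ').2.1 h)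
      exact (Nat.prime_dvd_prime_iff_eq (σ.prime1 hτ) (σ.prime1 hτ')).1
        (h2.dvd_of_dvd_mul_right (e' ▸ Dvd.intro _ rfl))
    rw [h1] at e'
    have h2 := congrArg Nat.primeFactors (Nat.eq_of_mul_eq_mul_left (σ.prime1 hτ').pos e')
    unfold pr at h2
    rw [Nat.primeFactors_prod (σ.prime2 hτ), Nat.primeFactors_prod (σ.prime2 hτ')] at h2
    exact Prod.ext h1 h2

lemma mean_rem_le (hh : 1 ≤ h) (hε1 : ε ≤ 1) :
    mean (σ.toCD hh hε1).N σ.rem ≤ 4 * (ε * σ.tot) := by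
  set c := σ.toCD hh hε1
  have hQ : pr σ.E ∣ c.N := c.Q_dvd_N
  have hd1 : ∀ τ ∈ σ.Ed, Dep (pr σ.E) (fun n => σ.lost τ n + σ.lost τ (n + Sys.lg h τ)) :=
    fun τ hτ => (σ.dep_lost hτ).add ((σ.dep_lost hτ).shift _)
  refine le_trans (le_of_eq ?_) (mul_le_mul_of_nonneg_left σ.removed (by norm_num))
  unfold Sys.rem
  rw [mean_sum, Finset.mul_sum]
  refine Finset.sum_congr rfl fun τ hτ => ?_
  have h1 : mean c.N (σ.lost τ) =
      ∑ S ∈ σ.E.powerset.filter (fun S => τ.2 ⊆ S), law σ.E S * (1 - σ.u S τ) := by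
    rw [funext (σ.lost_eq hτ), mean_dv _ σ.primeE c.N_pos hQ
      (fun S => if τ.2 ⊆ S then 1 - σ.u S τ else 0), Finset.sum_filter]
    refine Finset.sum_congr rfl fun S _ => ?_
    split_ifs <;> simp
  have h2 : mean c.N (fun n => σ.lost τ n + σ.lost τ (n + Sys.lg h τ)) =
      2 * mean c.N (σ.lost τ) := by
    rw [mean_add, mean_shift ((σ.dep_lost hτ).mono hQ)]; ring
  rw [mean_const_mul]
  simp only [mul_add _ (ind _ _)]
  rw [mean_add, mean_mul_ind (σ.prime1 hτ).pos (c.hP _ (σ.hEd τ hτ).1).2.2.2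
    (c.p_dvd_N (σ.hEd τ hτ).1) hQ (hd1 τ hτ), mean_mul_const, h2, h1]
  ring

lemma N_eq (hh : 1 ≤ h) (hε1 : ε ≤ 1) : (σ.toCD hh hε1).N = pr (σ.P ∪ σ.E) := by
  unfold pr
  rw [prod_union σ.hPE, mul_comm]
  rfl

lemma dv_congr {x y : ℤ} (hxy : ∀ q ∈ σ.P ∪ σ.E, (q : ℤ) ∣ x ↔ (q : ℤ) ∣ y) :
    dv σ.E x = dv σ.E y := filter_congr fun q hq => hxy q (mem_union_right _ hq)

lemma sum_rem_le' (hh : 1 ≤ h) (hε1 : ε ≤ 1) {k M : ℕ} (hk : 2 ≤ k) {err : ℝ}
    (hK : Kub (σ.P ∪ σ.E) k W M err) (v : ℤ) :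
    ∑ y ∈ range M, σ.rem (v + W * y) ≤ M * (4 * (ε * σ.tot)) + (∑ τ ∈ σ.Ed, σ.w τ.2) * (4 * err) := by
  refine le_trans ?_ (add_le_add (mul_le_mul_of_nonneg_left (mean_rem_le σ hh hε1)
    (Nat.cast_nonneg _)) le_rfl)
  rw [N_eq]
  unfold Sys.rem
  rw [sum_comm, mean_sum, mul_sum, sum_mul, ← sum_add_distrib]
  refine sum_le_sum fun τ hτ => ?_
  rw [← mul_sum, mean_const_mul, mul_left_comm, ← mul_add]
  refine mul_le_mul_of_nonneg_left (hK.scale (O := {0, (Sys.lg h τ : ℤ)}) (card_le_two.trans hk)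
    (F := fun n => (σ.lost τ n + σ.lost τ (n + Sys.lg h τ)) * (ind τ.1 (n + 0) + 1 / τ.1))
    (fun x => ?_) (fun x y hxy => ?_) v) (σ.hw _)
  · have h1 : ∀ n, 0 ≤ σ.lost τ n ∧ σ.lost τ n ≤ 1 := fun n =>
      ⟨mul_nonneg (ind_nonneg _ _) (by linarith [(σ.hu (dv σ.E n) τ).2]),
        mul_le_one₀ (ind_le_one _ _) (by linarith [(σ.hu (dv σ.E n) τ).2])
          (by linarith [(σ.hu (dv σ.E n) τ).1])⟩
    have h4 := ind_nonneg τ.1 (x + 0)
    have h5 := ind_le_one τ.1 (x + 0)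
    have h6 : (0 : ℝ) ≤ 1 / τ.1 := by positivity
    have h7 : 1 / (τ.1 : ℝ) ≤ 1 := by simpa using Nat.cast_inv_le_one _
    have h2 := h1 x
    have h3 := h1 (x + Sys.lg h τ)
    rw [abs_of_nonneg (mul_nonneg (by linarith [h2.1, h3.1]) (by linarith))]
    nlinarith [h2.1, h2.2, h3.1, h3.2]
  · have h1 := dv_congr σ fun q hq => hxy q hq 0 (by simp)
    have h2 := dv_congr σ fun q hq => hxy q hq (Sys.lg h τ) (by simp)
    have h3 := hxy τ.1 (mem_union_left _ (σ.hEd τ hτ).1) 0 (by simp)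
    rw [add_zero, add_zero] at h1
    simp only [σ.lost_eq hτ, h1, h2, ind, h3]

lemma coprime_W (hW : 1 ≤ W) {τ : ℕ × Finset ℕ} (hτ : τ ∈ σ.Ed) :
    Nat.Coprime W (τ.1 * pr τ.2) := by
  have h1 := σ.coprime_a hW
  unfold Nat.Coprime at h1 ⊢
  rw [Nat.gcd_comm, ← h1]
  exact (σ.hEd τ hτ).2.2.2.2.gcd_eq

theorem detU (hh : 1 ≤ h) (hW : 1 ≤ W) (hε : 0 < ε) (hε1 : ε ≤ 1 / 2) (hC : 0 < C)
    (hQ : 4 * (W : ℝ) ≤ Q₀) (hB : 2 * W * (2 * h + 1) * σ.D * σ.B ≤
      4 ^ σ.r * ∑ S ∈ σ.E.powerset, law σ.E S * σ.ρ S)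
    {N : ℕ} {err : ℝ} (h0 : 0 ≤ err) (hK : Kub (σ.P ∪ σ.E) (2 * σ.r + 1) W (σ.D * N) err)
    (herr : (8 * (σ.D : ℝ)) ^ (2 * σ.r) * err ≤ ε * N) (hN : (h : ℝ) * σ.D ≤ ε * N)
    {F G : ℕ → ℝ} (hF : ∀ n, |F n| ≤ 1) (hG : ∀ n, |G n| ≤ 1) (iF : Inv (2 * σ.D) F)
    (iG : Inv (2 * σ.D) G) {u : ℕ} (hu : u < W)
    (hfree : ∀ s ∈ σ.Ed.image Prod.snd, ∀ v < W, ∑ y ∈ range (cd (σ.D * N) (pr s)),
      |∑ p ∈ σ.fib s, (1 / (p : ℝ)) * G (v + W * y + h * p)| ≤
        ε / C * cd (σ.D * N) (pr s) / Real.log (σ.D / pr s)) :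
    |∑ q ∈ range N, F (W * q + u) * G (W * q + u + h)| ≤ 6000 * ε * N := by
  have hε2 : ε ≤ 1 := by linarith
  have hD : (1 : ℝ) ≤ σ.D := by exact_mod_cast σ.hD
  have hh' : (1 : ℝ) ≤ h := by exact_mod_cast hh
  have hW' : (1 : ℝ) ≤ W := by exact_mod_cast hW
  have hN1 : 1 ≤ ε * N := le_trans (by nlinarith) hN
  have hN0 : (1 : ℝ) ≤ N := by nlinarith [Nat.cast_nonneg (α := ℝ) N]
  have htot : 0 < σ.tot := σ.hTot
  have hw : σ.D * σ.tot ≤ ∑ τ ∈ σ.Ed, σ.w τ.2 := by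
    unfold Sys.tot
    rw [Finset.mul_sum]
    refine Finset.sum_le_sum fun τ hτ => ?_
    have h3 : (σ.D : ℝ) ≤ τ.1 * pr τ.2 := by exact_mod_cast (σ.hEd τ hτ).2.2.1
    rw [← mul_div_assoc, div_le_iff₀ (by linarith), mul_comm]
    exact mul_le_mul_of_nonneg_left h3 (σ.hw _)
  set Sw := ∑ τ ∈ σ.Ed, σ.w τ.2 with hSw
  have hSw0 : 0 < Sw := lt_of_lt_of_le (by positivity) hw
  have he : ∀ τ ∈ σ.Ed, 0 < pr τ.2 ∧ 4 * (W : ℝ) * pr τ.2 ≤ σ.D := fun τ hτ => by
    have h1 := prod_primes_pos (σ.prime2 hτ)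
    exact ⟨h1, (le_div_iff₀ (by exact_mod_cast h1)).1 (hQ.trans (σ.hQ τ hτ))⟩
  have hd2 : ∀ τ ∈ σ.Ed, ((τ.1 * pr τ.2 : ℕ) : ℝ) ≤ 3 / 2 * σ.D := fun τ hτ =>
    (σ.hEd τ hτ).2.2.2.1.trans (by gcongr; linarith)
  set c := σ.toCD hh hε2 with hc
  set v₀ := σ.a * u % W with hv₀
  have hv₀W : v₀ < W := Nat.mod_lt _ hW
  set a : ℤ → ℝ := fun z => F z.toNat with ha
  set b : ℤ → ℝ := fun z => G z.toNat with hb
  set M := σ.D * N with hM
  have hMr : (M : ℝ) = σ.D * N := by rw [hM]; push_cast; rfl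
  have ex : ∀ y : ℕ, (v₀ : ℤ) + W * y = ((W * y + v₀ : ℕ) : ℤ) := fun y => by push_cast; ring
  have k0 : |∑ y ∈ range M, c.tm a b (v₀ + W * y)| ≤ 5761 * (ε * N * Sw) := by
    have k := centredU c (S := σ.P ∪ σ.E)
      (fun x y hxy => by
        refine ⟨funext fun τ => ?_, ?_⟩
        · change σ.u (dv σ.E x) τ = σ.u (dv σ.E y) τ
          rw [dv_congr σ hxy]
        · change σ.ρ (dv σ.E x) = σ.ρ (dv σ.E y)
          rw [dv_congr σ hxy])
      subset_union_left (N_eq σ hh hε2) hW (M := M) ?_ h0 hK (s := 4 * σ.D) (by linarith) ?_ ?_ ?_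
      ?_ (l := -(h * σ.a : ℕ)) ?_ a b (fun _ => hF _) (fun _ => hG _) v₀
    · have e : √c.L * c.K * mean c.Q c.ρ ≤ ε * σ.tot := by
        have := σ.spec
        rw [← σ.mean_rho] at this
        exact this
      refine k.trans ?_
      change _ + (h : ℝ) * σ.D * Sw ≤ _
      calc _ ≤ 5760 * (ε * σ.tot) * M + ε * N * Sw := by gcongr
        _ = 5760 * (ε * N * (σ.D * σ.tot)) + ε * N * Sw := by rw [hMr]; ring
        _ ≤ 5760 * (ε * N * Sw) + ε * N * Sw := by gcongr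
        _ = _ := by ring
    · obtain ⟨τ, hτ⟩ := σ.Ed_nonempty
      have h1 : (1 : ℝ) ≤ pr τ.2 := by exact_mod_cast (he τ hτ).1
      have h2 : 4 * (W : ℝ) ≤ h * σ.D := by nlinarith [(he τ hτ).2]
      exact_mod_cast h2
    · have h1 : (σ.Ed.card : ℝ) ≤ 2 * σ.D := by exact_mod_cast card_Ed_le σ hε2
      rw [CD.St, card_product, card_univ, Fintype.card_bool]
      push_cast
      change 2 * (σ.Ed.card : ℝ) ≤ _
      linarith
    · rw [show 2 * (4 * (σ.D : ℝ)) = 8 * σ.D by ring, hMr]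
      exact herr.trans (by nlinarith)
    · change 2 * (W : ℝ) * ((2 * h + 1) * σ.D : ℕ) * max σ.B 0 ≤
        4 ^ σ.r * mean (pr σ.E) fun n => σ.ρ (dv σ.E n)
      rcases le_total σ.B 0 with h1 | h1
      · rw [max_eq_right h1, mul_zero]
        exact mul_nonneg (by positivity) (mean_nonneg _ fun n => (σ.hρ _).le)
      · rw [max_eq_left h1, σ.mean_rho]
        push_cast
        linarith
    · intro τ hτ
      have h1 : 2 * (τ.1 * pr τ.2) ≤ 3 * σ.D := by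
        have : 2 * ((τ.1 * pr τ.2 : ℕ) : ℝ) ≤ 3 * σ.D := by linarith [hd2 τ hτ]
        exact_mod_cast this
      change 2 * (h * (τ.1 * pr τ.2)) ≤ 3 * (h * σ.D)
      nlinarith
    · intro τ hτ
      rw [neg_add_eq_sub]
      exact ((σ.hEd τ hτ).2.2.2.2.mul_left h).symm.dvd
  have k1 : |∑ y ∈ range M, σ.s1 a b (v₀ + W * y) - ∑ y ∈ range M, σ.s2 a b (v₀ + W * y) -
      ∑ y ∈ range M, c.tm a b (v₀ + W * y)| ≤ 8 * (ε * N * Sw) := by
    rw [← sum_sub_distrib, ← sum_sub_distrib]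
    refine (abs_sum_le_sum_abs _ _).trans ((sum_le_sum fun (y : ℕ) _ => σ.split_le hh hε2 a b
      (fun _ => hF _) (fun _ => hG _) _).trans
      ((sum_rem_le' σ hh hε2 (by have := σ.hr; omega) hK _).trans ?_))
    have h1 : err ≤ ε * N :=
      (le_mul_of_one_le_left h0 (one_le_pow₀ (by linarith))).trans herr
    calc _ = 4 * (ε * N * (σ.D * σ.tot)) + Sw * (4 * err) := by rw [hMr]; ring
      _ ≤ 4 * (ε * N * Sw) + Sw * (4 * (ε * N)) := by gcongr
      _ = _ := by ring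
  set A := ∑ q ∈ range N, F (W * q + u) * G (W * q + u + h)
  have k2 : |∑ y ∈ range M, σ.s1 a b (v₀ + W * y) - Sw * A| ≤ 2 * (ε * N * Sw) := by
    unfold Sys.s1
    rw [sum_comm, hSw, sum_mul, mul_sum, mul_sum, ← sum_sub_distrib]
    refine (abs_sum_le_sum_abs _ _).trans (sum_le_sum fun τ hτ => ?_)
    rw [← mul_sum, ← mul_sub, abs_mul, abs_of_nonneg (σ.hw _), ← mul_assoc, mul_comm]
    refine mul_le_mul_of_nonneg_right ?_ (σ.hw _)
    obtain ⟨-, -, hd1, hd3, hd4⟩ := σ.hEd τ hτ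
    have hd5 := hd2 τ hτ
    simp only [σ.ind_mul_ind hτ, ex, ha, hb, ← Nat.cast_add, Int.toNat_natCast, Sys.lg]
    rw [sum_ind_AP (v := u) (by have := σ.hD; omega) (coprime_W σ hW hτ) hv₀W hu
      ((hd4.mul_right u).trans (Nat.mod_modEq _ _).symm) M
      fun n => F n * G (n + h * (τ.1 * pr τ.2))]
    set d := τ.1 * pr τ.2
    have hd0 : 0 < d := by have := σ.hD; omega
    have hXN : cd M d ≤ N := by
      by_contra hlt
      exact absurd (Nat.mul_le_mul_right N hd1) (not_le.2 ((lt_cd hd0).1 (not_le.1 hlt)))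
    set N' := ⌊(1 - ε) * N⌋₊ with hN'
    have n1 : (N' : ℝ) ≤ (1 - ε) * N := Nat.floor_le (by nlinarith)
    have n2 : (1 - ε) * N < N' + 1 := Nat.lt_floor_add_one _
    have n3 : N' ≤ N := by
      have : (N' : ℝ) ≤ N := by nlinarith
      exact_mod_cast this
    have n4 : d * N' ≤ M := by
      have : (d : ℝ) * N' ≤ M := by
        calc (d : ℝ) * N' ≤ (1 + ε) * σ.D * ((1 - ε) * N) := by gcongr
          _ = σ.D * N - ε ^ 2 * (σ.D * N) := by ring
          _ ≤ M := by rw [hMr]; exact sub_le_self _ (by positivity)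
      exact_mod_cast this
    rw [sum_subset (range_subset_range.2 hXN) fun y _ hy => if_neg fun h1 => hy
      (mem_range.2 ((lt_cd hd0).2 (by
        refine Nat.lt_of_mul_lt_mul_left (a := W) (lt_of_le_of_lt ?_ h1)
        rw [mul_left_comm]; exact Nat.mul_le_mul_left _ (Nat.le_add_right _ _)))),
      ← sum_sub_distrib]
    refine (abs_sum_le_sum_abs _ _).trans ?_
    rw [← sum_range_add_sum_Ico _ n3, sum_eq_zero, zero_add]
    · refine (sum_le_card_nsmul _ _ 1 fun y _ => ?_).trans ?_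
      · rw [mul_comm h d, ← mul_add, iF d hd0 (by linarith), iG d hd0 (by linarith)]
        split_ifs
        · simp
        · rw [zero_sub, abs_neg, abs_mul]
          exact mul_le_one₀ (hF _) (abs_nonneg _) (hG _)
      · rw [Nat.card_Ico, nsmul_eq_mul, Nat.cast_sub n3]
        linarith
    · intro y hy
      rw [mul_comm h d, ← mul_add, iF d hd0 (by linarith), iG d hd0 (by linarith), if_pos,
        sub_self, abs_zero]
      have h1 := mem_range.1 hy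
      calc d * (W * y + u) < d * (W * N') := by
            refine Nat.mul_lt_mul_of_pos_left ?_ hd0
            have := Nat.mul_le_mul_left W (Nat.succ_le_of_lt h1)
            rw [Nat.mul_succ] at this
            omega
        _ ≤ W * M := by rw [mul_left_comm]; exact Nat.mul_le_mul_left _ n4
  have k3 : |∑ y ∈ range M, σ.s2 a b (v₀ + W * y)| ≤ 2 * (ε * N * Sw) := by
    have e1 : ∑ y ∈ range M, σ.s2 a b (v₀ + W * y) =
        ∑ s ∈ σ.Ed.image Prod.snd, σ.w s * ∑ y ∈ range M, ind (pr s) ((W * y + v₀ : ℕ) : ℤ) *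
          (F (W * y + v₀) * ∑ p ∈ σ.fib s, (1 / (p : ℝ)) * G (W * y + v₀ + h * (p * pr s))) := by
      simp only [Finset.mul_sum]
      rw [Finset.sum_comm]
      refine Finset.sum_congr rfl fun n _ => ?_
      unfold Sys.s2
      rw [← Finset.sum_fiberwise_of_maps_to (g := Prod.snd) (t := σ.Ed.image Prod.snd)
        (fun τ hτ => Finset.mem_image_of_mem _ hτ)]
      refine Finset.sum_congr rfl fun s _ => ?_
      rw [σ.sum_fib]
      refine Finset.sum_congr rfl fun p _ => ?_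
      simp only [Sys.lg, ex, ha, hb]
      rw [← Nat.cast_add, Int.toNat_natCast, Int.toNat_natCast]; ring
    rw [e1]
    have e2 : ∀ s ∈ σ.Ed.image Prod.snd, |σ.w s * ∑ y ∈ range M,
        ind (pr s) ((W * y + v₀ : ℕ) : ℤ) * (F (W * y + v₀) *
          ∑ p ∈ σ.fib s, (1 / (p : ℝ)) * G (W * y + v₀ + h * (p * pr s)))| ≤
        2 * M * (ε / C) * (σ.w s / (pr s * Real.log (σ.D / pr s))) := by
      intro s hs
      obtain ⟨τ, hτ, rfl⟩ := mem_image.1 hs
      obtain ⟨e0, e3⟩ := he τ hτ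
      have e0' : (1 : ℝ) ≤ pr τ.2 := by exact_mod_cast e0
      have e4 : (pr τ.2 : ℝ) ≤ σ.D := by nlinarith
      have hlog : 0 < Real.log (σ.D / pr τ.2) :=
        Real.log_pos (by rw [lt_div_iff₀ (by linarith)]; nlinarith)
      rw [abs_mul, abs_of_nonneg (σ.hw _), sum_ind_AP (v := τ.1 * u % W) e0
        (coprime_W σ hW hτ).coprime_mul_left_right hv₀W (Nat.mod_lt _ hW) ?_ M
        fun n => F n * ∑ p ∈ σ.fib τ.2, (1 / (p : ℝ)) * G (n + h * (p * pr τ.2))]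
      · have h1 := hfree _ hs _ (Nat.mod_lt (τ.1 * u) hW)
        have h2 : (cd M (pr τ.2) : ℝ) ≤ 2 * M / pr τ.2 := by
          have : (1 : ℝ) ≤ M / pr τ.2 := by rw [le_div_iff₀ (by linarith), hMr]; nlinarith
          rw [mul_div_assoc]
          linarith [cd_le (M := M) e0]
        have h3 := (abs_sum_le_sum_abs _ _).trans ((sum_le_sum (s := range (cd M (pr τ.2)))
          (f := fun y => |if pr τ.2 * (W * y + τ.1 * u % W) < W * M then
            F (pr τ.2 * (W * y + τ.1 * u % W)) * ∑ p ∈ σ.fib τ.2, (1 / (p : ℝ)) *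
              G (pr τ.2 * (W * y + τ.1 * u % W) + h * (p * pr τ.2)) else 0|)
          fun y _ => ?_).trans h1)
        · calc _ ≤ σ.w τ.2 * (ε / C * (2 * M / pr τ.2) / Real.log (σ.D / pr τ.2)) :=
                mul_le_mul_of_nonneg_left (h3.trans (by gcongr)) (σ.hw _)
            _ = _ := by field_simp
        · split_ifs
          · rw [abs_mul]
            refine (mul_le_of_le_one_left (abs_nonneg _) (hF _)).trans (le_of_eq ?_)
            congr 1
            refine sum_congr rfl fun p _ => ?_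
            rw [← iG (pr τ.2) e0 (by linarith) (_ + W * y + h * p)]
            congr 2
            ring
          · simp
      · refine (((Nat.mod_modEq _ _).mul_left _).trans ?_).trans (Nat.mod_modEq _ _).symm
        rw [← mul_assoc, mul_comm (pr τ.2)]
        exact (σ.hEd τ hτ).2.2.2.2.mul_right u
    refine (abs_sum_le_sum_abs _ _).trans ((sum_le_sum e2).trans ?_)
    rw [← mul_sum]
    calc _ ≤ 2 * M * (ε / C) * (C * σ.tot) := mul_le_mul_of_nonneg_left σ.free (by positivity)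
      _ = 2 * (ε * N * (σ.D * σ.tot)) := by rw [hMr]; field_simp
      _ ≤ _ := by gcongr
  refine le_of_mul_le_mul_left ?_ hSw0
  rw [← abs_of_pos hSw0, ← abs_mul, abs_of_pos hSw0]
  have : 0 ≤ ε * N * Sw := by positivity
  rw [abs_le] at k0 k1 k2 k3 ⊢
  constructor <;> linarith [k0.1, k0.2, k1.1, k1.2, k2.1, k2.2, k3.1, k3.2]

end Pool.Agent.Work.MP_d018b2_nt.U
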