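import Pool.Agent.Work.MP_d018b2_nt.UFinal

/-! Complex weights, pairs and almost all tuples. -/

set_option autoImplicit false
open Filter Topology Finset Real

namespace Pool.Agent.Work.MP_d018b2_nt.U

open Pool.Agent.Work.MP_51e72e_nt.LT

lemma bessel_card (I R : Finset ℕ) (w : ℕ → ℝ) (g : ℕ → ℕ → ℝ) {x θ B₁ B : ℝ} (hx : 0 < x)
    (hθ : 0 < θ) (hB₁ : 0 < B₁) (hI : (#I : ℝ) ≤ 2 * x) (hw : ∀ q ∈ I, |w q| ≤ B₁)
    (hg : ∀ r ∈ R, ∀ q ∈ I, |g r q| ≤ B)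
    (ho : ∀ r ∈ R, ∀ s ∈ R, r ≠ s → |∑ q ∈ I, g r q * g s q| ≤ θ ^ 2 / (4 * B₁ ^ 2) * x) :
    (#{r ∈ R | θ * x ≤ |∑ q ∈ I, w q * g r q|} : ℝ) ≤ 8 * B₁ ^ 2 * B ^ 2 / θ ^ 2 := by
  set T := {r ∈ R | θ * x ≤ |∑ q ∈ I, w q * g r q|} with hT
  have hTR : ∀ r ∈ T, r ∈ R := fun r hr => (mem_filter.1 hr).1
  rcases T.eq_empty_or_nonempty with h0 | h0
  · rw [h0, card_empty, Nat.cast_zero]; positivity
  have t0 : (0 : ℝ) < #T := by exact_mod_cast h0.card_pos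
  set s : ℕ → ℝ := fun r => if 0 ≤ ∑ q ∈ I, w q * g r q then 1 else -1 with hs
  have s1 : ∀ r, |s r| = 1 := fun r => by simp only [hs]; split_ifs <;> simp
  have h1 : #T * (θ * x) ≤ ∑ q ∈ I, w q * ∑ r ∈ T, s r * g r q := by
    simp only [mul_sum]
    rw [sum_comm, ← nsmul_eq_mul]
    refine card_nsmul_le_sum _ _ _ fun r hr => (mem_filter.1 hr).2.trans (le_of_eq ?_)
    simp only [mul_left_comm (w _), ← mul_sum, hs]
    split_ifs with h
    · rw [abs_of_nonneg h, one_mul]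
    · rw [abs_of_neg (not_le.1 h), neg_one_mul]
  have sq : ∀ (f : ℕ → ℝ) (b : ℝ), (∀ q ∈ I, |f q| ≤ b) → ∑ q ∈ I, f q ^ 2 ≤ 2 * x * b ^ 2 :=
    fun f b hf => (sum_le_card_nsmul _ _ (b ^ 2) fun q hq => sq_le_sq' (abs_le.1 (hf q hq)).1
      (abs_le.1 (hf q hq)).2).trans (by rw [nsmul_eq_mul]; gcongr)
  have h2 : ∑ q ∈ I, (∑ r ∈ T, s r * g r q) ^ 2 ≤
      #T * (2 * x * B ^ 2 + #T * (θ ^ 2 / (4 * B₁ ^ 2) * x)) := by
    simp only [pow_two (∑ r ∈ T, _), sum_mul_sum]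
    rw [sum_comm, ← nsmul_eq_mul]
    refine sum_le_card_nsmul _ _ _ fun r hr => ?_
    rw [sum_comm]
    refine (sum_le_sum (g := fun t => (if t = r then 2 * x * B ^ 2 else 0) +
      θ ^ 2 / (4 * B₁ ^ 2) * x) fun t ht => ?_).trans (by simp [sum_add_distrib, hr])
    simp only [mul_mul_mul_comm (s r) _ (s t), ← mul_sum]
    refine (le_abs_self _).trans ?_
    rw [abs_mul, abs_mul, s1, s1, one_mul, one_mul]
    split_ifs with h
    · subst h
      simp only [← pow_two]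
      rw [abs_of_nonneg (sum_nonneg fun _ _ => sq_nonneg _)]
      exact (sq _ _ (hg t (hTR t ht))).trans (le_add_of_nonneg_right (by positivity))
    · rw [zero_add]; exact ho r (hTR r hr) t (hTR t ht) (Ne.symm h)
  have h3 := (pow_le_pow_left₀ (by positivity) h1 2).trans ((sum_mul_sq_le_sq_mul_sq _ _ _).trans
    (mul_le_mul (sq w B₁ hw) h2 (sum_nonneg fun _ _ => sq_nonneg _) (by positivity)))
  rw [le_div_iff₀ (by positivity)]
  refine le_of_mul_le_mul_left ?_ (show 0 < #T * x ^ 2 by positivity)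
  have e : 2 * x * B₁ ^ 2 * (#T * (2 * x * B ^ 2 + #T * (θ ^ 2 / (4 * B₁ ^ 2) * x))) =
      #T * x ^ 2 * (4 * B₁ ^ 2 * B ^ 2) + (#T * (θ * x)) ^ 2 / 2 := by field_simp; ring
  rw [e] at h3
  linarith

/-- expected value of the divisor sum -/
noncomputable def dc (φ : ℕ → ℂ) (x : ℝ) (r : ℕ) : ℂ := ∑ m ∈ Icc 1 ⌈2 * r * x⌉₊, φ m / m

/-- admissible complex weights -/
def AdmC (η : ℝ) (A : ℕ) (x : ℝ) (φ : ℕ → ℂ) (r : ℕ) : Prop :=
  1 ≤ r ∧ (r : ℝ) ≤ log x ^ A ∧ (∀ j, ‖φ j‖ ≤ 1) ∧ ∀ j, φ j ≠ 0 → Rough (x ^ η) j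

lemma AdmC.re {η x : ℝ} {A r : ℕ} {φ : ℕ → ℂ} (h : AdmC η A x φ r) :
    Adm η A x (fun j => (φ j).re) r :=
  ⟨h.1, h.2.1, fun j => (Complex.abs_re_le_norm _).trans (h.2.2.1 j),
    fun j hj => h.2.2.2 j fun e => hj (by simp [e])⟩

lemma AdmC.im {η x : ℝ} {A r : ℕ} {φ : ℕ → ℂ} (h : AdmC η A x φ r) :
    Adm η A x (fun j => (φ j).im) r :=
  ⟨h.1, h.2.1, fun j => (Complex.abs_im_le_norm _).trans (h.2.2.1 j),
    fun j hj => h.2.2.2 j fun e => hj (by simp [e])⟩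

lemma Tn_re (φ : ℕ → ℂ) (x : ℝ) (r q : ℕ) : (Tn φ x r q).re = Tn (fun j => (φ j).re) x r q := by
  simp only [Tn, Complex.re_sum, apply_ite Complex.re, Complex.zero_re]

lemma Tn_im (φ : ℕ → ℂ) (x : ℝ) (r q : ℕ) : (Tn φ x r q).im = Tn (fun j => (φ j).im) x r q := by
  simp only [Tn, Complex.im_sum, apply_ite Complex.im, Complex.zero_im]

lemma dc_re (φ : ℕ → ℂ) (x : ℝ) (r : ℕ) : (dc φ x r).re = dl (fun j => (φ j).re) ⌈2 * r * x⌉₊ := by
  simp only [dc, dl, Complex.re_sum, Complex.div_natCast_re]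

lemma dc_im (φ : ℕ → ℂ) (x : ℝ) (r : ℕ) : (dc φ x r).im = dl (fun j => (φ j).im) ⌈2 * r * x⌉₊ := by
  simp only [dc, dl, Complex.im_sum, Complex.div_natCast_im]

lemma norm_sum_mul_le (I : Finset ℕ) (f g : ℕ → ℂ) : ‖∑ q ∈ I, f q * g q‖ ≤
    |∑ q ∈ I, (f q).re * (g q).re| + |∑ q ∈ I, (f q).im * (g q).im| +
      (|∑ q ∈ I, (f q).re * (g q).im| + |∑ q ∈ I, (f q).im * (g q).re|) := by
  refine (Complex.norm_le_abs_re_add_abs_im _).trans ?_
  simp only [Complex.re_sum, Complex.im_sum, Complex.mul_re, Complex.mul_im, sum_sub_distrib,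
    sum_add_distrib]
  exact add_le_add (abs_sub _ _) (abs_add_le _ _)

theorem pairU {η ε : ℝ} (hη : 0 < η) (A : ℕ) (hε : 0 < ε) : ∀ᶠ x : ℝ in atTop,
    ∀ φ r ψ s, AdmC η A x φ r → AdmC η A x ψ s → r ≠ s →
      ‖∑ q ∈ II x, Tn φ x r q * Tn ψ x s q - x * (dc φ x r * dc ψ x s)‖ ≤ ε * x := by
  obtain ⟨B, hB, h⟩ := keyU hη
  filter_upwards [h A _ (show 0 < ε / (16 * B) by positivity),
    eventually_ge_atTop (16 * B ^ 2 / ε), eventually_gt_atTop 0] with x ⟨h1, h2⟩ x1 x0 φ r ψ s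
    p1 p2 hrs
  have k1 : ∀ φ r, AdmC η A x φ r → ‖dc φ x r‖ ≤ 2 * B ∧
      ‖∑ q ∈ II x, (Tn φ x r q - dc φ x r)‖ ≤ 2 * (ε / (16 * B) * x) := fun φ r p => by
    refine ⟨(Complex.norm_le_abs_re_add_abs_im _).trans ?_,
      (Complex.norm_le_abs_re_add_abs_im _).trans ?_⟩
    · rw [dc_re, dc_im]; linarith [(h1 _ _ p.re).1, (h1 _ _ p.im).1]
    · simp only [Complex.re_sum, Complex.im_sum, Complex.sub_re, Complex.sub_im, Tn_re, Tn_im,
        dc_re, dc_im]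
      exact (add_le_add (h1 _ _ p.re).2.2 (h1 _ _ p.im).2.2).trans (le_of_eq (by ring))
  have k2 := norm_sum_mul_le (II x) (fun q => Tn φ x r q - dc φ x r) fun q => Tn ψ x s q - dc ψ x s
  simp only [Complex.sub_re, Complex.sub_im, Tn_re, Tn_im, dc_re, dc_im] at k2
  replace k2 := k2.trans (add_le_add (add_le_add (h2 _ _ _ _ p1.re p2.re hrs)
    (h2 _ _ _ _ p1.im p2.im hrs)) (add_le_add (h2 _ _ _ _ p1.re p2.im hrs)
    (h2 _ _ _ _ p1.im p2.re hrs)))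
  have e : ∑ q ∈ II x, Tn φ x r q * Tn ψ x s q - x * (dc φ x r * dc ψ x s) =
      ∑ q ∈ II x, (Tn φ x r q - dc φ x r) * (Tn ψ x s q - dc ψ x s) +
        dc φ x r * ∑ q ∈ II x, (Tn ψ x s q - dc ψ x s) +
        (dc ψ x s * ∑ q ∈ II x, (Tn φ x r q - dc φ x r) +
          ((#(II x) - x : ℝ) : ℂ) * (dc φ x r * dc ψ x s)) := by
    simp only [sub_mul, mul_sub, sum_sub_distrib, ← sum_mul, ← mul_sum, sum_const, nsmul_eq_mul]
    push_cast
    ring
  obtain ⟨a1, a2⟩ := k1 φ r p1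
  obtain ⟨b1, b2⟩ := k1 ψ s p2
  have c1 := abs_card_II x0.le
  rw [e]
  refine (norm_add_le_of_le (norm_add_le_of_le k2 (norm_mul_le_of_le a1 b2)) (norm_add_le_of_le
    (norm_mul_le_of_le b1 a2) (norm_mul_le_of_le ((Complex.norm_real _).le.trans c1)
      (norm_mul_le_of_le a1 b1)))).trans ?_
  rw [div_le_iff₀' hε] at x1
  have d1 : B * (ε / (16 * B) * x) = ε * x / 16 := by field_simp
  have d2 : 1 * (ε / (16 * B) * x) ≤ B * (ε / (16 * B) * x) := by gcongr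
  linarith

lemma pair_eq (φ ψ : ℕ → ℂ) (x : ℝ) (r s : ℕ) :
    ∑ m₁ ∈ Icc 1 ⌈2 * r * x⌉₊, ∑ m₂ ∈ Icc 1 ⌈2 * s * x⌉₊, φ m₁ * ψ m₂ *
      ((#{q ∈ II x | m₁ ∣ q * r + 1 ∧ m₂ ∣ q * s + 1} : ℂ) - x / (m₁ * m₂)) =
      ∑ q ∈ II x, Tn φ x r q * Tn ψ x s q - x * (dc φ x r * dc ψ x s) := by
  simp only [Tn, dc, mul_sub, sum_sub_distrib, sum_mul_sum]
  congr 1
  · symm
    rw [sum_comm]
    refine sum_congr rfl fun m₁ _ => ?_
    rw [sum_comm]
    refine sum_congr rfl fun m₂ _ => ?_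
    rw [card_filter]
    push_cast
    rw [mul_sum]
    refine sum_congr rfl fun n _ => ?_
    by_cases p1 : m₁ ∣ n * r + 1 <;> by_cases p2 : m₂ ∣ n * s + 1 <;> simp [p1, p2]
  · simp only [mul_sum]
    exact sum_congr rfl fun m₁ _ => sum_congr rfl fun m₂ _ => by ring

lemma tuple_eq {l : ℕ} (φ : Fin l → ℕ → ℂ) (x : ℝ) (r : Fin l → ℕ) :
    ∑ m ∈ Fintype.piFinset fun j => Icc 1 ⌈2 * r j * x⌉₊, (∏ j, φ j (m j)) *
      ((#{q ∈ II x | ∀ j, m j ∣ q * r j + 1} : ℂ) - x / ∏ j, (m j : ℂ)) =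
      ∑ q ∈ II x, ∏ j, Tn (φ j) x (r j) q - x * ∏ j, dc (φ j) x (r j) := by
  simp only [Tn, dc, mul_sub, sum_sub_distrib, prod_univ_sum]
  congr 1
  · rw [sum_comm]
    refine sum_congr rfl fun m _ => ?_
    rw [card_filter]
    push_cast
    rw [mul_sum]
    refine sum_congr rfl fun n _ => ?_
    rw [prod_ite_zero]
    simp
  · rw [mul_sum]
    exact sum_congr rfl fun m _ => by rw [prod_div_distrib]; ring

theorem tupleU (l : ℕ) {η ε : ℝ} (hη : 0 < η) (hε : 0 < ε) : ∃ C : ℝ, ∀ A : ℕ,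
    ∀ᶠ x : ℝ in atTop, ∀ (R : Finset ℕ) (φ : Fin l → ℕ → ℕ → ℂ),
      (∀ j, ∀ r ∈ R, AdmC η A x (φ j r) r) →
      (#{r ∈ Fintype.piFinset fun _ : Fin l => R | ε * x <
        ‖∑ q ∈ II x, ∏ j, Tn (φ j (r j)) x (r j) q - x * ∏ j, dc (φ j (r j)) x (r j)‖} : ℝ)
        ≤ C * #R ^ (l - 1) := by
  classical
  obtain ⟨B, hB, h⟩ := keyU hη
  set θ := ε / (8 * (l + 1)) with hθ
  have θ0 : 0 < θ := by positivity
  set B₁ := (2 * B) ^ l * (2 * B) ^ l with hB₁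
  have B2 : 1 ≤ 2 * B := by linarith
  have B0 : 0 < B₁ := by positivity
  set n := ⌈4 * (8 * B₁ ^ 2 * B ^ 2 / θ ^ 2)⌉₊ with hn
  refine ⟨l * n, fun A => ?_⟩
  filter_upwards [h A _ (show 0 < θ ^ 2 / (4 * B₁ ^ 2) by positivity),
    eventually_ge_atTop (2 * (2 * B) ^ l / ε), eventually_ge_atTop 1] with x ⟨h1, h2⟩ x1 x0 R φ p
  have xp : 0 < x := by linarith
  have c1 := abs_card_II xp.le
  have k1 : ∀ j, ∀ r ∈ R, ‖dc (φ j r) x r‖ ≤ 2 * B ∧ ∀ q ∈ II x, ‖Tn (φ j r) x r q‖ ≤ 2 * B :=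
    fun j r hr => by
      refine ⟨(Complex.norm_le_abs_re_add_abs_im _).trans ?_, fun q hq =>
        (Complex.norm_le_abs_re_add_abs_im _).trans ?_⟩
      · rw [dc_re, dc_im]; linarith [(h1 _ _ (p j r hr).re).1, (h1 _ _ (p j r hr).im).1]
      · rw [Tn_re, Tn_im]
        linarith [((h1 _ _ (p j r hr).re).2.1 q hq).2, ((h1 _ _ (p j r hr).im).2.1 q hq).2]
  have k2 : ∀ (s : Finset (Fin l)) (f : Fin l → ℂ), (∀ j, ‖f j‖ ≤ 2 * B) →
      ‖∏ j ∈ s, f j‖ ≤ (2 * B) ^ l := fun s f hf => by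
    rw [norm_prod]
    refine (prod_le_prod (fun _ _ => norm_nonneg _) fun j _ => hf j).trans ?_
    rw [prod_const]
    exact pow_le_pow_right₀ B2 ((card_le_univ s).trans (by simp))
  have k3 : ∀ (i : Fin l) (w : ℕ → ℂ), (∀ q ∈ II x, ‖w q‖ ≤ B₁) →
      #{a ∈ R | 4 * (θ * x) ≤ ‖∑ q ∈ II x, w q * (Tn (φ i a) x a q - dc (φ i a) x a)‖} ≤ n := by
    intro i w hw
    have b : ∀ (v : ℕ → ℝ) (ψ : ℕ → ℕ → ℝ), (∀ q ∈ II x, |v q| ≤ B₁) →
        (∀ a ∈ R, Adm η A x (ψ a) a) →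
        (#{a ∈ R | θ * x ≤ |∑ q ∈ II x, v q * Cn (ψ a) x a q|} : ℝ) ≤
          8 * B₁ ^ 2 * B ^ 2 / θ ^ 2 := fun v ψ hv hψ =>
      bessel_card _ R v (fun a q => Cn (ψ a) x a q) xp θ0 B0 (by linarith [(abs_le.1 c1).2]) hv
        (fun a ha q hq => ((h1 _ _ (hψ a ha)).2.1 q hq).1)
        fun a ha c hc => h2 _ _ _ _ (hψ a ha) (hψ c hc)
    have w1 := fun q hq => (Complex.abs_re_le_norm _).trans (hw q hq)
    have w2 := fun q hq => (Complex.abs_im_le_norm _).trans (hw q hq)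
    have b1 := b _ _ w1 fun a ha => (p i a ha).re
    have b2 := b _ _ w2 fun a ha => (p i a ha).im
    have b3 := b _ _ w1 fun a ha => (p i a ha).im
    have b4 := b _ _ w2 fun a ha => (p i a ha).re
    refine (Nat.cast_le (α := ℝ)).1 (le_trans ?_ (((add_le_add (add_le_add b1 b2)
      (add_le_add b3 b4)).trans (le_of_eq (by ring))).trans (Nat.le_ceil _)))
    simp only [card_filter]
    push_cast
    simp only [← sum_add_distrib]
    refine sum_le_sum fun a _ => ?_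
    have := norm_sum_mul_le (II x) w fun q => Tn (φ i a) x a q - dc (φ i a) x a
    simp only [Complex.sub_re, Complex.sub_im, Tn_re, Tn_im, dc_re, dc_im] at this
    simp only [Cn]
    split_ifs <;> linarith
  set w : Fin l → (Fin l → ℕ) → ℕ → ℂ := fun i r q =>
    (∏ j with j < i, Tn (φ j (r j)) x (r j) q) * ∏ j with i < j, dc (φ j (r j)) x (r j) with hw
  set Bad := fun i : Fin l => {r ∈ Fintype.piFinset fun _ : Fin l => R | 4 * (θ * x) ≤
    ‖∑ q ∈ II x, w i r q * (Tn (φ i (r i)) x (r i) q - dc (φ i (r i)) x (r i))‖} with hBad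
  have k4 : ∀ i, #(Bad i) ≤ n * #R ^ (l - 1) := fun i => by
    refine le_trans (card_le_mul_card_image_of_maps_to (s := Bad i)
      (f := fun r (j : {j // j ≠ i}) => r j) (t := Fintype.piFinset fun _ : {j // j ≠ i} => R)
      (fun r hr => Fintype.mem_piFinset.2 fun j =>
        Fintype.mem_piFinset.1 (mem_filter.1 hr).1 j) n fun b _ => ?_) (by simp)
    rcases ({r ∈ Bad i | (fun j : {j // j ≠ i} => r j) = b}).eq_empty_or_nonempty with h0 | ⟨r₀, h0⟩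
    · rw [h0]; exact Nat.zero_le _
    have r1 := Fintype.mem_piFinset.1 (mem_filter.1 (mem_filter.1 h0).1).1
    have ee : ∀ r ∈ {r ∈ Bad i | (fun j : {j // j ≠ i} => r j) = b}, ∀ j, j ≠ i → r j = r₀ j :=
      fun r hr j hj => congrFun ((mem_filter.1 hr).2.trans (mem_filter.1 h0).2.symm) ⟨j, hj⟩
    refine le_trans (card_le_card_of_injOn (fun r => r i) (fun r hr => ?_) fun r hr r' hr' e => ?_)
      (k3 i (w i r₀) fun q hq => norm_mul_le_of_le (k2 _ _ fun j => (k1 j _ (r1 j)).2 q hq)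
        (k2 _ _ fun j => (k1 j _ (r1 j)).1))
    · obtain ⟨a1, a2⟩ := mem_filter.1 (mem_filter.1 hr).1
      have : w i r = w i r₀ := funext fun q => congrArg₂ (fun a b : ℂ => a * b)
        (prod_congr rfl fun j hj => by rw [ee r hr j (mem_filter.1 hj).2.ne])
        (prod_congr rfl fun j hj => by rw [ee r hr j (mem_filter.1 hj).2.ne'])
      exact mem_filter.2 ⟨Fintype.mem_piFinset.1 a1 i, this ▸ a2⟩
    · funext j
      by_cases hj : j = i
      · exact hj ▸ e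
      · exact (ee r hr j hj).trans (ee r' hr' j hj).symm
  have k5 : #{r ∈ Fintype.piFinset fun _ : Fin l => R | ε * x <
      ‖∑ q ∈ II x, ∏ j, Tn (φ j (r j)) x (r j) q - x * ∏ j, dc (φ j (r j)) x (r j)‖}
      ≤ l * (n * #R ^ (l - 1)) := by
    refine (card_le_card (t := univ.biUnion Bad) fun r hr => ?_).trans
      (card_biUnion_le.trans ((sum_le_card_nsmul _ _ _ fun i _ => k4 i).trans (by simp)))
    obtain ⟨a1, a2⟩ := mem_filter.1 hr
    by_contra hc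
    simp only [mem_biUnion, mem_univ, true_and, not_exists, hBad, mem_filter, a1, not_le] at hc
    have e : ∑ q ∈ II x, ∏ j, Tn (φ j (r j)) x (r j) q - x * ∏ j, dc (φ j (r j)) x (r j) =
        ((#(II x) - x : ℝ) : ℂ) * ∏ j, dc (φ j (r j)) x (r j) + ∑ i, ∑ q ∈ II x,
          w i r q * (Tn (φ i (r i)) x (r i) q - dc (φ i (r i)) x (r i)) := by
      have : ∀ q, ∏ j, Tn (φ j (r j)) x (r j) q = ∏ j, dc (φ j (r j)) x (r j) +
          ∑ i, w i r q * (Tn (φ i (r i)) x (r i) q - dc (φ i (r i)) x (r i)) := fun q => by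
        have := prod_add_ordered univ (fun j => dc (φ j (r j)) x (r j))
          fun j => Tn (φ j (r j)) x (r j) q - dc (φ j (r j)) x (r j)
        simp only [add_sub_cancel] at this
        rw [this]
        congr 1
        exact sum_congr rfl fun i _ => by simp only [hw]; ring
      simp only [this, sum_add_distrib, sum_const, nsmul_eq_mul]
      rw [sum_comm]
      push_cast
      ring
    rw [e] at a2
    have a3 := norm_add_le_of_le (norm_mul_le_of_le ((Complex.norm_real _).le.trans c1)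
      (k2 univ _ fun j => (k1 j _ (Fintype.mem_piFinset.1 a1 j)).1))
      ((norm_sum_le _ _).trans (sum_le_card_nsmul univ _ _ fun i _ => (hc i).le))
    rw [card_univ, Fintype.card_fin, nsmul_eq_mul] at a3
    rw [div_le_iff₀' hε] at x1
    have a4 : (l + 1) * (4 * (θ * x)) = ε * x / 2 := by rw [hθ]; field_simp; ring
    have a5 : 0 < θ * x := by positivity
    linarith
  rw [mul_assoc]
  exact_mod_cast k5

end Pool.Agent.Work.MP_d018b2_nt.U
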