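import Pool.Agent.Work.MP_51e72e_nt.Final
import Mathlib.Analysis.SpecialFunctions.Log.Summable
import Mathlib.Analysis.PSeries

/-!
The uniform upper bound for the forms `q r_j + 1`.
-/

set_option autoImplicit false
set_option maxHeartbeats 400000

namespace Pool.Agent.Work.MP_d018b2_nt

open Finset Filter Topology Polynomial Pool.Agent.Lib.ANT Pool.Agent.Work.MP_51e72e_nt

lemma tprod_lower (u : ℕ → ℝ) (T : Finset ℕ) (hT : ∀ p ∈ T, p.Prime) {w : ℕ} {c : ℝ} (hw : 0 < w)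
    (hc0 : 0 ≤ c) (hcw : c ≤ w) (h0 : 0 ≤ ∏ p ∈ T, u p)
    (h : ∀ p : ℕ, p.Prime → p ∉ T → w < p ∧ 1 - c * ((p : ℝ) ^ 2)⁻¹ ≤ u p ∧ u p ≤ 1) :
    (∏ p ∈ T, u p) * (1 - c / w) ≤ ∏' p : Nat.Primes, u p := by
  classical
  have hs : Summable fun p : Nat.Primes => u p - 1 := by
    have s1 : Summable fun p : Nat.Primes => c * (((p : ℕ) : ℝ) ^ 2)⁻¹ :=
      ((Real.summable_nat_pow_inv.mpr one_lt_two).mul_left c).subtype _
    refine s1.of_norm_bounded_eventually ?_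
    filter_upwards [(T.subtype Nat.Prime).eventually_cofinite_notMem] with p hp
    have := (h p p.2 fun k => hp (mem_subtype.mpr k)).2
    rw [Real.norm_eq_abs, abs_sub_comm, abs_of_nonneg (by linarith only [this])]
    linarith only [this]
  have hm := (Real.multipliable_one_add_of_summable hs).hasProd
  simp only [add_sub_cancel] at hm
  refine ge_of_tendsto hm ?_
  filter_upwards [eventually_ge_atTop (T.subtype Nat.Prime)] with s hs
  have e : ∏ p ∈ s, u p = ∏ p ∈ s.map (Function.Embedding.subtype Nat.Prime), u p :=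
    (prod_map s (Function.Embedding.subtype Nat.Prime) u).symm
  set S := s.map (Function.Embedding.subtype Nat.Prime)
  have h1 : T ⊆ S := fun p hp => mem_map.mpr ⟨⟨p, hT p hp⟩, hs (mem_subtype.mpr hp), rfl⟩
  have h2 : ∀ p ∈ S \ T, w < p ∧ 1 - c * ((p : ℝ) ^ 2)⁻¹ ≤ u p ∧ u p ≤ 1 := fun p hp => by
    obtain ⟨q, _, rfl⟩ := mem_map.mp (mem_sdiff.mp hp).1
    exact h _ q.2 (mem_sdiff.mp hp).2
  have h3 : ∀ p ∈ S \ T, c * ((p : ℝ) ^ 2)⁻¹ ≤ 1 := fun p hp => by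
    clear * - w p c u h2 hp hcw
    have a1 : (w : ℝ) + 1 ≤ p := by exact_mod_cast (h2 p hp).1
    rw [← div_eq_mul_inv]
    exact div_le_one_of_le₀ (by nlinarith only [hcw, a1]) (by positivity)
  rw [e, ← prod_sdiff h1, mul_comm]
  refine mul_le_mul_of_nonneg_right (le_trans ?_ ((one_sub_sum_le_prod _ _
    (fun p _ => by positivity) h3).trans (prod_le_prod (fun p hp => sub_nonneg.mpr (h3 p hp))
      fun p hp => (h2 p hp).2.1))) h0
  rw [← mul_sum, div_eq_mul_inv]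
  linarith only [hw, hc0, mul_le_mul_of_nonneg_left (sum_inv_sq_le (S \ T) hw fun p hp => (h2 p hp).1) hc0]

lemma factor_bounds {k p : ℕ} (h : k < p) (hp : 1 < p) :
    1 - (k : ℝ) ^ 2 * ((p : ℝ) ^ 2)⁻¹ ≤ (1 - (k : ℝ) / p) / (1 - 1 / (p : ℝ)) ^ k ∧
      (1 - (k : ℝ) / p) / (1 - 1 / (p : ℝ)) ^ k ≤ 1 := by
  have p1 : (1 : ℝ) < p := by exact_mod_cast hp
  have k1 : (k : ℝ) < p := by exact_mod_cast h
  have p0 : (0 : ℝ) < p := by linarith only [p1]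
  have a0 : 0 < 1 - 1 / (p : ℝ) := sub_pos.mpr ((div_lt_one p0).mpr p1)
  have s0 : 0 ≤ (k : ℝ) / p := by positivity
  have s1 : (k : ℝ) / p < 1 := (div_lt_one p0).mpr k1
  constructor
  · rw [le_div_iff₀ (pow_pos a0 k)]
    have a1 : (1 - 1 / (p : ℝ)) ^ k ≤ Real.exp (-(k / p)) := by
      refine (pow_le_pow_left₀ a0.le (Real.one_sub_le_exp_neg _) k).trans (le_of_eq ?_)
      rw [← Real.exp_nat_mul]; congr 1; ring
    have a2 := Real.add_one_le_exp ((k : ℝ) / p)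
    have a3 : Real.exp (-(k / p)) * Real.exp ((k : ℝ) / p) = 1 := by rw [← Real.exp_add]; simp
    rw [show (k : ℝ) ^ 2 * ((p : ℝ) ^ 2)⁻¹ = (k / p) ^ 2 by field_simp]
    have a4 := Real.exp_pos (-(k / p : ℝ))
    generalize (k : ℝ) / p = s at *
    have a5 : (1 + s) * Real.exp (-s) ≤ 1 := by clear * - s a3 a2 a4; nlinarith only [a3, a2, a4]
    have a6 : 0 ≤ 1 - s ^ 2 := by clear * - s s1 s0; nlinarith
    clear * - s p k a1 a6 a5 s1
    nlinarith only [a1, a6, a5, s1, mul_le_mul_of_nonneg_left a1 a6, mul_le_mul_of_nonneg_left a5 (sub_pos.mpr s1).le]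
  · refine div_le_one_of_le₀ ?_ (pow_pos a0 k).le
    have := one_add_mul_le_pow (a := -(1 / (p : ℝ))) (by linarith only [a0]) k
    rw [← sub_eq_add_neg] at this
    exact le_trans (le_of_eq (by ring)) this

/-- The linear form `r X + 1`. -/
noncomputable def lin (r : ℕ) : ℤ[X] := C (r : ℤ) * X + 1

lemma eval_lin (r : ℕ) (n : ℤ) : (lin r).eval n = r * n + 1 := by simp [lin]

lemma omega_lin {r p : ℕ} (hp : p.Prime) (h : ¬ p ∣ r) : omega (lin r) p = 1 := by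
  have : Fact p.Prime := ⟨hp⟩
  have hr : (r : ZMod p) ≠ 0 := fun k => h ((ZMod.natCast_eq_zero_iff r p).mp k)
  rw [omega, card_eq_one]
  refine ⟨(-(r : ZMod p)⁻¹).val, ?_⟩
  ext n
  rw [mem_filter, mem_range, mem_singleton, eval_lin, ← ZMod.intCast_zmod_eq_zero_iff_dvd]
  push_cast
  constructor
  · rintro ⟨h1, h2⟩
    rw [← ZMod.val_cast_of_lt h1]
    congr 1
    field_simp
    linear_combination h2
  · rintro rfl
    refine ⟨ZMod.val_lt _, ?_⟩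
    rw [ZMod.natCast_zmod_val]
    field_simp
    ring

lemma omega_prod_lin {ℓ : ℕ} (r : Fin ℓ → ℕ) (p : ℕ) : omega (∏ j, lin (r j)) p
    = ((range p).filter (fun q : ℕ => p ∣ ∏ j, (q * r j + 1))).card := by
  unfold omega
  congr 1
  refine filter_congr fun q _ => ?_
  rw [← Int.natCast_dvd_natCast, eval_prod]
  simp [eval_lin, mul_comm]

lemma euler_lower (f : ℤ[X]) (T : Finset ℕ) (hT : ∀ p ∈ T, p.Prime) (k : ℕ) (q : ℕ)
    (h : ∀ p ∈ T, ¬ (p : ℤ) ∣ f.eval (q : ℤ)) :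
    1 / ((∏ p ∈ T, p : ℕ) : ℝ) ≤ ∏ p ∈ T, (1 - (omega f p : ℝ) / p) / (1 - 1 / (p : ℝ)) ^ k := by
  rw [Nat.cast_prod, one_div, ← prod_inv_distrib]
  refine prod_le_prod (fun p _ => by positivity) fun p hp => ?_
  have p1 : (1 : ℝ) < p := by exact_mod_cast (hT p hp).one_lt
  have p0 : (0 : ℝ) < p := by linarith
  have a0 : 0 < 1 - 1 / (p : ℝ) := sub_pos.mpr ((div_lt_one p0).mpr p1)
  have a1 : omega f p < p := by
    refine (card_lt_card (filter_ssubset.mpr ⟨q % p, mem_range.mpr (Nat.mod_lt _ (hT p hp).pos),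
      ?_⟩)).trans_eq (card_range p)
    rw [dvd_eval_mod]; exact h p hp
  have a2 : (omega f p : ℝ) + 1 ≤ p := by exact_mod_cast a1
  have a3 : (p : ℝ)⁻¹ ≤ 1 - (omega f p : ℝ) / p := by
    rw [one_sub_div p0.ne', ← one_div]
    exact div_le_div_of_nonneg_right (by linarith) p0.le
  refine a3.trans (le_div_self ((inv_pos.mpr p0).le.trans a3) (pow_pos a0 k) ?_)
  exact pow_le_one₀ a0.le (sub_le_self _ (by positivity))

lemma unif_arith {c P S A A' B L l x N Z δ κ : ℝ} {m : ℕ} (hm : 1 ≤ m)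
    (hc : c ≤ N * P * A * B / L ^ (m + 1) + 10 * (N / Z ^ 2 * P)) (hl : 0 < l) (hL : l ≤ L)
    (hx : 0 ≤ x) (hN0 : 0 ≤ N) (hN : N ≤ (1 + δ) * x) (hP : 0 ≤ P) (hS : P * (1 - δ) ≤ S)
    (hA : A ≤ A') (hA' : 0 < A') (hB : 0 < B) (δ0 : 0 < δ) (δ1 : δ < 1) (hZ : 0 < Z)
    (hκ : A' / (1 - δ) ^ m * (1 + δ) ^ (m + 1) ≤ κ)
    (hE : 10 / (δ * A' * B) * l ^ (m + 1) ≤ Z ^ 2) :
    c ≤ κ * B * (x / l ^ (m + 1) * S) := by
  have l0 : 0 < l ^ (m + 1) := pow_pos hl _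
  have d0 : 0 < 1 - δ := sub_pos.mpr δ1
  have a1 : N * P * A * B / L ^ (m + 1) ≤ N * P * A' * B / l ^ (m + 1) := by
    refine div_le_div₀ (by positivity) ?_ l0 (pow_le_pow_left₀ hl.le hL _)
    exact mul_le_mul_of_nonneg_right (mul_le_mul_of_nonneg_left hA (by positivity)) hB.le
  have a2 : 10 * (N / Z ^ 2 * P) ≤ δ * (N * P * A' * B / l ^ (m + 1)) := by
    rw [div_mul_eq_mul_div, div_le_iff₀ (by positivity)] at hE
    have : 10 / Z ^ 2 ≤ δ * A' * B / l ^ (m + 1) := by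
      rw [div_le_div_iff₀ (by positivity) l0]; linarith only [hE]
    have := mul_le_mul_of_nonneg_left this (mul_nonneg hN0 hP)
    exact le_trans (le_of_eq (by ring)) (this.trans (le_of_eq (by ring)))
  have a3 : A' * (1 + δ) ^ 2 ≤ κ * (1 - δ) := by
    clear * - A' δ m κ δ0 hm d0 hA' δ1 hκ
    refine le_trans ?_ (mul_le_mul_of_nonneg_right hκ d0.le)
    have b1 : (1 + δ) ^ 2 ≤ (1 + δ) ^ (m + 1) := pow_le_pow_right₀ (by linarith) (by omega)
    have b2 : (1 - δ) ^ m ≤ (1 - δ) ^ 1 := pow_le_pow_of_le_one d0.le (by linarith only [δ0]) hm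
    rw [div_mul_eq_mul_div, div_mul_eq_mul_div, le_div_iff₀ (pow_pos d0 m)]
    rw [pow_one] at b2
    exact mul_le_mul (mul_le_mul_of_nonneg_left b1 hA'.le) b2 (by positivity) (by positivity)
  have κ0 : 0 ≤ κ := le_trans (by positivity) hκ
  have a4 : (1 + δ) * (N * P * A') ≤ κ * (x * S) := by
    clear * - N δ P A' x hN δ0 hP hA' κ a3 hx S hS κ0
    have b1 := mul_le_mul_of_nonneg_right hN (show 0 ≤ (1 + δ) * P * A' by positivity)
    have b2 := mul_le_mul_of_nonneg_right a3 (mul_nonneg hx hP)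
    have b3 := mul_le_mul_of_nonneg_left hS (mul_nonneg κ0 hx)
    nlinarith only [b1, b2, b3]
  have a5 := mul_le_mul_of_nonneg_right a4 (div_pos hB l0).le
  calc c ≤ (1 + δ) * (N * P * A' * B / l ^ (m + 1)) := by linarith only [hc, a1, a2]
    _ = _ := by ring
    _ ≤ _ := a5
    _ = _ := by ring

lemma exists_R {ℓ : ℕ} (r : Fin ℓ → ℕ) (hr : Function.Injective r) {y : ℝ}
    (h : ∀ j, 1 ≤ r j ∧ (r j : ℝ) ≤ y) : ∃ R : ℕ, 0 < R ∧ (R : ℝ) ≤ y ^ (ℓ * ℓ) ∧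
      (∀ j, r j ∣ R) ∧ ∀ i j, i ≠ j → (r i : ℤ) - r j ∣ R := by
  classical
  set d : Fin ℓ → Fin ℓ → ℕ := fun i j => if i = j then r i else ((r i : ℤ) - r j).natAbs with hd
  have h1 : ∀ i j, d i j ∣ ∏ i, ∏ j, d i j := fun i j =>
    (dvd_prod_of_mem (d i) (mem_univ j)).trans (dvd_prod_of_mem (fun i => ∏ j, d i j) (mem_univ i))
  refine ⟨∏ i, ∏ j, d i j, prod_pos fun i _ => prod_pos fun j _ => ?_, ?_, fun j => ?_,
    fun i j hij => ?_⟩
  · simp only [hd]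
    split_ifs with k
    · exact (h i).1
    · have := hr.ne k; omega
  · have e : y ^ (ℓ * ℓ) = ∏ _i : Fin ℓ, ∏ _j : Fin ℓ, y := by simp [pow_mul]
    rw [e]; push_cast
    refine prod_le_prod (fun i _ => by positivity) fun i _ =>
      prod_le_prod (fun j _ => by positivity) fun j _ => ?_
    have : d i j ≤ r i ∨ d i j ≤ r j := by simp only [hd]; split_ifs <;> omega
    rcases this with k | k
    · exact (Nat.cast_le.mpr k).trans (h i).2
    · exact (Nat.cast_le.mpr k).trans (h j).2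
  · simpa [hd] using h1 j j
  · have := h1 i j
    simp only [hd, if_neg hij] at this
    exact Int.natAbs_dvd.mp (Int.natCast_dvd_natCast.mpr this)

theorem uniform_upper (m : ℕ) (hm : 1 ≤ m) : ∃ η : ℝ, 0 < η ∧ ∃ X : ℝ, ∀ x : ℝ, X ≤ x →
    ∀ r : Fin (m + 1) → ℕ, Function.Injective r → (∀ j, 1 ≤ r j ∧ (r j : ℝ) ≤ x ^ η) →
    (((range ⌈2 * x⌉₊).filter
        (fun q : ℕ => x ≤ (q : ℝ) ∧ (q : ℝ) < 2 * x ∧ ∀ j, (q * r j + 1).Prime)).card : ℝ)
      ≤ (1 - 1 / (10000 * ((m : ℝ) + 1))) * (2 ^ (m + 1) * (m + 1).factorial) *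
        (x / Real.log x ^ (m + 1) * ∏' p : Nat.Primes,
          (1 - (omega (∏ j, lin (r j)) p : ℝ) / (p : ℕ)) / (1 - 1 / ((p : ℕ) : ℝ)) ^ (m + 1)) := by
  classical
  obtain ⟨δ, δ0, δ1, hδ⟩ := exists_delta m
  obtain ⟨η, hη, hev⟩ := system_bound (Fin (m + 1)) m (m + 1) hm
  obtain ⟨w, w1, w2, w3⟩ := ((eventually_ge_atTop (2 * (m + 1))).and
    ((tendsto_natCast_atTop_atTop.eventually_ge_atTop (16 * ((m + 1 : ℕ) : ℝ) / δ)).and
      (tendsto_natCast_atTop_atTop.eventually_ge_atTop (((m + 1 : ℕ) : ℝ) ^ 2 / δ)))).exists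
  obtain ⟨θ, θ0, θ1, θ2⟩ : ∃ θ : ℝ, 0 < θ ∧ 4 * θ ≤ η ∧ 4 * θ ≤ 1 :=
    ⟨min η 1 / 4, by positivity, by linarith only [min_le_left η 1], by linarith only [min_le_right η 1]⟩
  set T0 := (range (w + 1)).filter Nat.Prime with hT0
  set B : ℝ := 2 ^ (m + 1) * (m + 1).factorial with hB
  set A' : ℝ := Real.exp δ / (1 + 1 / (9400 * ((m : ℝ) + 1))) with hA'
  have B0 : 0 < B := by rw [hB]; positivity
  have γ0 : 0 < 1 + 1 / (9400 * ((m : ℝ) + 1)) := by positivity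
  have A0 : 0 < A' := div_pos (Real.exp_pos _) γ0
  obtain ⟨N0, hN0⟩ := eventually_atTop.mp (hev.and ((((tendsto_rpow_atTop θ0).comp
    tendsto_natCast_atTop_atTop).eventually_ge_atTop (2 + (∏ p ∈ T0, p : ℕ))).and
    (eventually_log_pow_le (10 / (δ * A' * B)) (m + 1) θ0)))
  have k0 : (0 : ℝ) < ((m + 1) * (m + 1) : ℕ) := by positivity
  have k1 : (1 : ℝ) ≤ ((m + 1) * (m + 1) : ℕ) := by exact_mod_cast Nat.succ_le_of_lt (by positivity)
  refine ⟨θ / ((m + 1) * (m + 1) : ℕ), div_pos θ0 k0, N0 + 2 + 1 / δ, fun x hx r hr hrx => ?_⟩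
  have iδ : 0 < 1 / δ := one_div_pos.mpr δ0
  have n0 : (0 : ℝ) ≤ N0 := Nat.cast_nonneg _
  have x1 : 1 < x := by linarith only [θ0, θ2, hx, iδ]
  obtain ⟨N, hN⟩ : ∃ N, N = ⌈x⌉₊ := ⟨_, rfl⟩
  have xN : x ≤ N := hN ▸ Nat.le_ceil x
  have Nx : (N : ℝ) ≤ (1 + δ) * x := by
    clear * - N x N0 θ δ θ0 θ2 hx iδ hN δ0
    have a1 : (N : ℝ) < x + 1 := hN ▸ Nat.ceil_lt_add_one (by linarith only [θ0, θ2, hx, iδ])
    have a2 : 1 ≤ x * δ := (div_le_iff₀ δ0).mp (by linarith only [θ0, θ2, hx])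
    linarith
  have N1 : (1 : ℝ) < N := by linarith only [θ0, θ2, hx, iδ, xN]
  have N2 : 1 < N := by exact_mod_cast N1
  obtain ⟨h1, h2, h3⟩ := hN0 N (by exact_mod_cast (show (N0 : ℝ) ≤ N by linarith only [θ0, θ2, hx, iδ, xN]))
  simp only [Function.comp] at h2
  have hy : ∀ j, 1 ≤ r j ∧ (r j : ℝ) ≤ (N : ℝ) ^ (θ / ((m + 1) * (m + 1) : ℕ)) := fun j =>
    ⟨(hrx j).1, (hrx j).2.trans (Real.rpow_le_rpow (by clear * - x N0 θ δ θ0 θ2 hx iδ hrx j k0 xN; linarith only [θ0, θ2, hx, iδ]) xN (div_pos θ0 k0).le)⟩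
  obtain ⟨R, R0, R1, R2, R3⟩ := exists_R r hr hy
  rw [← Real.rpow_mul_natCast (by clear * - N N0 θ δ x θ0 θ2 hx iδ xN R1 k0; linarith only [θ0, θ2, hx, iδ, xN]), div_mul_cancel₀ _ k0.ne'] at R1
  have Z4 : ((N : ℝ) ^ θ) ^ 4 ≤ (N : ℝ) ^ η := by
    clear * - N θ η N0 δ x θ0 θ2 hx iδ xN N1 θ1
    rw [← Real.rpow_mul_natCast (by linarith only [θ0, θ2, hx, iδ, xN])]
    exact Real.rpow_le_rpow_of_exponent_le N1.le (by push_cast; linarith)
  have Z2 : ((N : ℝ) ^ θ) ^ 2 ≤ N := by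
    clear * - N θ N0 δ x θ0 θ2 hx iδ xN N1
    rw [← Real.rpow_mul_natCast (by linarith)]
    exact (Real.rpow_le_rpow_of_exponent_le N1.le (by push_cast; linarith)).trans_eq
      (Real.rpow_one _)
  have Z1 : (r 0 : ℝ) ≤ (N : ℝ) ^ θ := (hy 0).2.trans
    (Real.rpow_le_rpow_of_exponent_le N1.le (div_le_self θ0.le k1))
  generalize (N : ℝ) ^ θ = Z at *
  have t0 : (0 : ℝ) ≤ (∏ p ∈ T0, p : ℕ) := Nat.cast_nonneg _
  have Z0 : 0 < Z := by clear * - Z T0 θ θ0 θ2 h2; linarith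
  have Z3 : Z ≤ Z ^ 2 := le_self_pow₀ (by clear * - Z T0 θ θ0 θ2 h2; linarith) two_ne_zero
  have Z5 : Z ^ 2 ≤ Z ^ 4 := pow_le_pow_right₀ (by clear * - Z T0 θ θ0 θ2 h2; linarith) (by norm_num)
  set T := T0 ∪ R.primeFactors with hT
  have hT1 : ∀ p ∈ T, p.Prime := fun p hp => (mem_union.mp hp).elim (fun h => (mem_filter.mp h).2)
    Nat.prime_of_mem_primeFactors
  have W0 : 0 < ∏ p ∈ T, p := prod_pos fun p hp => (hT1 p hp).pos
  have W1 : ((∏ p ∈ T, p : ℕ) : ℝ) ≤ Z ^ 2 := by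
    clear * - T T0 R w R0 Z θ θ0 θ2 h2 R1 Z0
    have a1 : ∏ p ∈ T, p ≤ (∏ p ∈ T0, p) * R := by
      refine Nat.le_of_dvd (mul_pos (prod_pos fun p hp => (mem_filter.mp hp).2.pos) R0)
        (dvd_trans ?_ (mul_dvd_mul_left _ (Nat.prod_primeFactors_dvd R)))
      rw [← prod_union_inter]; exact dvd_mul_right _ _
    refine (Nat.cast_le.mpr a1).trans ?_
    rw [Nat.cast_mul, sq]
    exact mul_le_mul (by linarith only [θ0, θ2, h2]) R1 (Nat.cast_nonneg _) Z0.le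
  have hR : ∀ p, p.Prime → p ∉ T → ¬ p ∣ R := fun p hp h k =>
    h (mem_union_right _ (Nat.mem_primeFactors.mpr ⟨hp, k, R0.ne'⟩))
  have hw : ∀ p, p.Prime → p ∉ T → w < p := fun p hp h => lt_of_not_ge fun k =>
    h (mem_union_left _ (mem_filter.mpr ⟨mem_range.mpr (Nat.lt_succ_of_le k), hp⟩))
  have ho : ∀ p, p.Prime → p ∉ T → ∀ j, omega (lin (r j)) p = 1 := fun p hp h j =>
    omega_lin hp fun k => hR p hp h (k.trans (R2 j))
  have hd : ∀ p, p.Prime → p ∉ T → ∀ i ∈ (univ : Finset (Fin (m + 1))), ∀ j ∈ univ, i ≠ j →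
      ∀ n : ℤ, ¬ ((p : ℤ) ∣ (lin (r i)).eval n ∧ (p : ℤ) ∣ (lin (r j)).eval n) := by
    rintro p hp h i - j - hij n ⟨a1, a2⟩
    rw [eval_lin] at a1 a2
    refine hR p hp h (Int.natCast_dvd_natCast.mp (dvd_trans ?_ (R3 i j hij)))
    have := (a2.mul_left (r i)).sub (a1.mul_left (r j))
    rwa [show (r i : ℤ) * (r j * n + 1) - r j * (r i * n + 1) = r i - r j by ring] at this
  have w0 : (0 : ℝ) < w := by exact_mod_cast (by omega : 0 < w)
  have P0 := euler_nonneg (∏ j, lin (r j)) T hT1 (m + 1)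
  have hS := tprod_lower (fun p => (1 - (omega (∏ j, lin (r j)) p : ℝ) / p) /
      (1 - 1 / (p : ℝ)) ^ (m + 1)) T hT1 (w := w) (c := ((m + 1 : ℕ) : ℝ) ^ 2) (by omega)
    (sq_nonneg _) (le_trans (le_div_self (sq_nonneg _) δ0 δ1.le) w3) P0 fun p hp h => by
      rw [omega_prod _ _ hp (hd p hp h), sum_congr rfl fun j _ => ho p hp h j, sum_const,
        card_univ, Fintype.card_fin, smul_eq_mul, mul_one]
      exact ⟨hw p hp h, factor_bounds (by have := hw p hp h; omega) hp.one_lt⟩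
  have hS' := le_trans (mul_le_mul_of_nonneg_left (show 1 - δ ≤ 1 - ((m + 1 : ℕ) : ℝ) ^ 2 / w by
    clear * - δ m w w0 δ0 w3 P0 hS
    rw [div_le_iff₀ δ0] at w3
    linarith only [w0, w3, (div_le_iff₀ w0).mpr (show ((m + 1 : ℕ) : ℝ) ^ 2 ≤ δ * w by linarith only [w3])]) P0) hS
  have l0 := Real.log_pos x1
  have lL : Real.log x ≤ Real.log N := Real.log_le_log (by clear * - x N0 θ δ θ0 θ2 hx iδ N xN; linarith only [θ0, θ2, hx, iδ]) xN
  have key : ∀ q ∈ (range ⌈2 * x⌉₊).filter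
      (fun q : ℕ => x ≤ (q : ℝ) ∧ (q : ℝ) < 2 * x ∧ ∀ j, (q * r j + 1).Prime),
      q ∈ Ioc (N - 1) (N - 1 + N) ∧ ∀ p : ℕ, p.Prime → (p ∈ T ∨ (p : ℝ) ≤ √N) →
        ∀ i ∈ (univ : Finset (Fin (m + 1))), ¬ (p : ℤ) ∣ (lin (r i)).eval (q : ℤ) := by
    clear * - x m r N T hN xN w N2 R W0 Z Z2 W1 N0 θ δ θ0 θ2 hx iδ N1 hrx
    intro q hq
    obtain ⟨-, q1, q2, q3⟩ := mem_filter.mp hq
    have a1 : N ≤ q := hN ▸ Nat.ceil_le.mpr q1
    have a2 : q < 2 * N := by exact_mod_cast (show (q : ℝ) < 2 * N by linarith only [xN, q2])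
    refine ⟨mem_Ioc.mpr ⟨by omega, by omega⟩, fun p hp h i _ k => ?_⟩
    have a3 : (p : ℝ) ≤ N := by
      rcases h with h | h
      · have : (p : ℝ) ≤ (∏ p ∈ T, p : ℕ) :=
          Nat.cast_le.mpr (Nat.le_of_dvd W0 (dvd_prod_of_mem _ h))
        linarith only [Z2, W1, this]
      · exact h.trans (Real.sqrt_le_iff.mpr ⟨by linarith only [θ0, θ2, hx, iδ, xN], le_self_pow₀ N1.le two_ne_zero⟩)
    have a4 : p ≤ N := by exact_mod_cast a3
    rw [eval_lin] at k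
    have a5 := (Nat.prime_dvd_prime_iff_eq hp (q3 i)).mp
      (Int.natCast_dvd_natCast.mp (by push_cast; rwa [mul_comm]))
    have a6 := Nat.le_mul_of_pos_right q (hrx i).1
    omega
  have κ := hδ
  rw [← div_div, ← hA'] at κ
  rcases ((range ⌈2 * x⌉₊).filter (fun q : ℕ => x ≤ (q : ℝ) ∧ (q : ℝ) < 2 * x ∧
    ∀ j, (q * r j + 1).Prime)).eq_empty_or_nonempty with e | ⟨q, hq⟩
  · rw [e, card_empty, Nat.cast_zero]
    refine mul_nonneg (mul_nonneg (le_trans ?_ κ) B0.le) (mul_nonneg (div_nonneg (by clear * - x N0 θ δ θ0 θ2 hx iδ B0 P0 hS' l0 κ; linarith only [θ0, θ2, hx, iδ])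
      (pow_pos l0 _).le) (le_trans (mul_nonneg P0 (by clear * - δ δ1 P0 hS' l0; linarith only [δ1])) hS'))
    exact mul_nonneg (div_nonneg A0.le (pow_nonneg (by clear * - δ δ1 A0; linarith) _)) (pow_nonneg (by clear * - δ θ δ0 θ0 θ2 A0; linarith) _)
  have P1 := euler_lower (∏ j, lin (r j)) T hT1 (m + 1) q fun p hp => by
    rw [eval_prod, Prime.dvd_finsetProd_iff (Nat.prime_iff_prime_int.mp (hT1 p hp))]
    rintro ⟨i, hi, k⟩
    exact (key q hq).2 p (hT1 p hp) (Or.inl hp) i hi k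
  have main := h1 univ (fun j => lin (r j)) 0 (r 0) 1 T (N - 1) (r 0 * (N - 1) + 1) w 1 0
    (by simp) (mem_univ _) (eval_lin _) (hrx 0).1 hT1
    (fun p hp h => by_contra fun k => hR p hp k (h.trans (R2 0))) (by push_cast; rfl)
    (by clear * - r m N η Z Z4 Z1 Z3 Z5 w1; linarith only [Z4, Z1, Z3, Z5]) (by clear * - T N η Z Z4 Z5 W1 w1; linarith) ?_ (by omega) w1 ?_ one_pos le_rfl
    (by clear * - m η N hη x l0 lL; rw [mul_zero]; exact mul_nonneg hη.le (by clear * - N x l0 lL hη; linarith)) ?_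
  rotate_left
  · have a1 : r 0 * (N - 1) + 1 + r 0 * N ≤ r 0 * 2 * N := by
      clear * - N r m N2 x δ η B θ A' Z T hrx hN xN Nx N1 h1 hy h3 Z4 Z2 lL key
      obtain ⟨n, rfl⟩ := Nat.exists_eq_add_of_lt N2
      have := (hrx 0).1
      simp only [Nat.add_sub_cancel]
      nlinarith only [this]
    refine (Nat.cast_le.mpr a1).trans ?_
    rw [Nat.cast_mul, Nat.cast_mul]
    refine mul_le_mul_of_nonneg_right (le_trans ?_ (Z5.trans Z4)) (by clear * - N N0 θ δ x θ0 θ2 hx iδ xN Z4 Z5; linarith only [θ0, θ2, hx, iδ, xN])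
    rw [sq]
    exact mul_le_mul Z1 (by clear * - Z T0 h2 Z0 Z1; push_cast; linarith) (Nat.cast_nonneg _) Z0.le
  · intro p hp h
    refine ⟨hw p hp h, ?_, hd p hp h⟩
    rw [sum_congr rfl fun j _ => ho p hp h j]
    simp
  · intro i _ y y1 Ps k1 k2
    rw [one_mul, sub_zero]
    refine (totient_mul_log_le_sqfSum Ps k1 y (by clear * - y θ θ0 θ2 y1 Ps W0 k1 k2; linarith only [θ0, θ2, y1]) k2 _ W0).trans (le_of_eq ?_)
    refine sum_congr rfl fun S hS => if_congr Iff.rfl (prod_congr rfl fun p hp => ?_) rfl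
    have hp' := k1 p (mem_powerset.mp hS hp)
    dsimp only
    split_ifs with k
    · rfl
    · rw [ho p hp' (mt (prime_dvd_prod_iff hT1 hp').mpr k)]; simp
  refine unif_arith (L := Real.log N) (N := N) (Z := Z)
    (A := Real.exp (16 * (m + 1 : ℕ) / w) / ((1 + 1 / (9400 * ((m : ℝ) + 1))) * 1 ^ m)) hm
    (le_trans (Nat.cast_le.mpr (card_le_card fun q hq => mem_filter.mpr (key q hq)))
      (main.trans (add_le_add_right (mul_le_mul_of_nonneg_left ?_ (by norm_num)) _)))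
    l0 lL (by clear * - x N0 θ δ θ0 θ2 hx iδ A0 B0 Nx P0 Z0 Z3 h3 hS' l0 lL δ0 δ1 κ; linarith only [θ0, θ2, hx, iδ]) (by clear * - N N0 θ δ x θ0 θ2 hx iδ xN A0 B0 Nx P0 Z0 Z3 h3 hS' l0 lL δ0 δ1 κ; linarith only [θ0, θ2, hx, iδ, xN]) Nx P0 hS' ?_ A0 B0 δ0 δ1 Z0 κ (le_trans ?_ (h3.trans Z3))
  · have a1 : 1 / Z ^ 2 ≤ 1 / ((∏ p ∈ T, p : ℕ) : ℝ) :=
      one_div_le_one_div_of_le (Nat.cast_pos.mpr W0) W1
    refine le_trans ?_ (mul_le_mul_of_nonneg_left (a1.trans P1)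
      (div_nonneg (by clear * - N N0 θ δ x θ0 θ2 hx iδ xN; linarith) (sq_nonneg _)))
    rw [div_mul_div_comm, mul_one, ← pow_add]
    exact div_le_div_of_nonneg_left (by clear * - N N0 θ δ x θ0 θ2 hx iδ xN Z0 Z4; linarith) (pow_pos Z0 _) Z4
  · rw [one_pow, mul_one]
    refine div_le_div_of_nonneg_right (Real.exp_le_exp.mpr ?_) γ0.le
    rw [div_le_iff₀ w0]
    rw [div_le_iff₀ δ0] at w2
    clear * - m δ w w2
    linarith
  · exact mul_le_mul_of_nonneg_left (pow_le_pow_left₀ l0.le (by clear * - x N θ θ0 θ2 l0 lL A0 B0 δ0; linarith) _)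
      (div_nonneg (by norm_num) (mul_pos (mul_pos δ0 A0) B0).le)

end Pool.Agent.Work.MP_d018b2_nt
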